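import Mathlib

/-!
Module AltMin (pure): a nonzero alternating sum and a minimal change.

Proof. `∑_{P ⊆ Y} (-1)^#P G P = ∑_{P' ⊆ K} (-1)^#P' ∑_{R ⊆ Y \ K} (-1)^#R G (P' ∪ R)`, so the inner
sum is nonzero for some `P' ⊆ K`; as `∑_{R ⊆ Y \ K} (-1)^#R = 0` (`Y \ K ≠ ∅`) the function
`R ↦ G (P' ∪ R)` is not constant on the subsets of `Y \ K`. Take `R` of minimal cardinality with
`G (P' ∪ R) ≠ G P'`.
-/

set_option autoImplicit false

open Finset Classical

namespace Pool.Agent.H68.PS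

theorem alt_min {α : Type} [DecidableEq α] (Y K : Finset α) (hK : K ⊆ Y) (hK' : K ≠ Y) (G : Finset α → ℤ)
    (h : ∑ P ∈ Y.powerset, (-1 : ℤ) ^ P.card * G P ≠ 0) :
    ∃ P', P' ⊆ K ∧ ∃ R, R ⊆ Y \ K ∧ R.Nonempty ∧ G (P' ∪ R) ≠ G P' ∧
      ∀ R', R' ⊆ R → R' ≠ R → G (P' ∪ R') = G P' := by
  by_contra hcon
  push Not at hcon
  have key : ∀ P', P' ⊆ K → ∀ R, R ⊆ Y \ K → G (P' ∪ R) = G P' := by
    intro P' hP' R
    induction R using Finset.strongInduction with
    | H R ih =>
      intro hR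
      rcases R.eq_empty_or_nonempty with rfl | hne
      · rw [Finset.union_empty]
      by_contra hG
      obtain ⟨R', hR'1, hR'2, hR'3⟩ := hcon P' hP' R hR hne hG
      exact hR'3 (ih R' (Finset.ssubset_iff_subset_ne.mpr ⟨hR'1, hR'2⟩) (hR'1.trans hR))
  have key2 : ∀ P, P ⊆ Y → G P = G (P ∩ K) := by
    intro P hP
    have h1 := key (P ∩ K) Finset.inter_subset_right (P \ K)
      (Finset.sdiff_subset_sdiff hP (Finset.Subset.refl _))
    have h2 : P ∩ K ∪ P \ K = P := by
      ext z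
      simp only [Finset.mem_union, Finset.mem_inter, Finset.mem_sdiff]
      tauto
    rw [h2] at h1
    exact h1
  obtain ⟨y, hyY, hyK⟩ : ∃ y ∈ Y, y ∉ K := by
    by_contra hno
    push Not at hno
    exact hK' (Finset.Subset.antisymm hK hno)
  apply h
  rw [← Finset.insert_erase hyY, Finset.sum_powerset_insert (Finset.notMem_erase y Y),
    ← Finset.sum_add_distrib]
  apply Finset.sum_eq_zero
  intro P hP
  rw [Finset.mem_powerset] at hP
  have hyP : y ∉ P := fun hh => Finset.notMem_erase y Y (hP hh)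
  have hPY : P ⊆ Y := hP.trans (Finset.erase_subset _ _)
  have hI : insert y P ⊆ Y := Finset.insert_subset hyY hPY
  have h3 : insert y P ∩ K = P ∩ K := Finset.insert_inter_of_notMem hyK
  rw [Finset.card_insert_of_notMem hyP, key2 _ hI, h3, ← key2 _ hPY, pow_succ]
  ring

end Pool.Agent.H68.PS
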