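import Pool.Agent.H68.PS.Def

/-!
The number of bad points of a layer, the weights of the layers.
-/

set_option autoImplicit false

open Finset Classical

namespace Pool.Agent.H68.PS

variable {n : ℕ}

/-- number of bad points of the layer `i` -/
noncomputable def bad (d1 d2 : Equiv.Perm (Fin n)) (ρ W l w1 w2 : ℕ) (X : ℕ → Finset (Fin n))
    (i : ℕ) : ℕ :=
  if w1 < (X i).card then 0
  else if i = 0 ∨ w2 < (X (i - 1)).card then (X i).card
  else (expv d1 d2 ρ W l (alv X (i - 1)) (X (i - 1)) (X i)).card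

/-- weight of the first layer -/
noncomputable def om0 (w1 : ℕ) (q : ℝ) (Y : Finset (Fin n)) : ℝ :=
  if w1 < Y.card then (q / 2) ^ Y.card else (1 / (2 * (n : ℝ))) ^ Y.card

/-- weight of the layer `Y` after the layer `X` -/
noncomputable def om (d1 d2 : Equiv.Perm (Fin n)) (ρ W l w1 w2 : ℕ) (q : ℝ)
    (Z X Y : Finset (Fin n)) : ℝ :=
  if w1 < Y.card then (q / 2) ^ Y.card
  else if w2 < X.card then (1 / (2 * (n : ℝ))) ^ Y.card
  else (1 / 2) ^ Y.card *
    wt (fk d1 d2 ρ W l Z) (Z \ irr d1 d2 ρ W Z) (q / 2) (1 / (2 * (n : ℝ))) Y.card X Y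

/-- weight of the layer `i` of a sequence -/
noncomputable def fac (o0 : Finset (Fin n) → ℝ) (o : Finset (Fin n) → Finset (Fin n) →
    Finset (Fin n) → ℝ) (X : ℕ → Finset (Fin n)) (i : ℕ) : ℝ :=
  if i = 0 then o0 (X 0) else o (alv X (i - 1)) (X (i - 1)) (X i)

end Pool.Agent.H68.PS
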