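import Pool.Agent.H68.PS.Def

/-!
Module Enum (pure): the enumeration of a layer.  `nxt`, `exs`, `wt` are defined in Def.

`exs_sub`: by induction on `h`.  `exs_spec`: by induction on `#R` for the statement with an
arbitrary known set `K ⊇ X` and `K ∪ R = X ∪ Y`, `Disjoint K R`, instead of `(X, Y)`:
let `y = nxt F Dp K R`. If `y ∈ F K`, `exs` is the one of `(insert y K, R.erase y)`; otherwise
`R ∩ F K = ∅` (definition of `nxt`), so by the coding hypothesis some point of `R` is in `Dp` and
`y ∈ Dp`; `y` is not related to a point of `K`; every later expensive point `y'` is not related to a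
point of `insert y K`.
-/

set_option autoImplicit false

open Finset Classical

namespace Pool.Agent.H68.PS

variable {n : ℕ}

private theorem nxt_mem {F : Finset (Fin n) → Finset (Fin n)} {Dp K R : Finset (Fin n)}
    {y : Fin n} (h : nxt F Dp K R = some y) : y ∈ R := by
  unfold nxt at h
  split_ifs at h with h1 h2 h3
  · cases h
    exact (Finset.mem_inter.1 (Finset.min'_mem _ h1)).1
  · cases h
    exact (Finset.mem_inter.1 (Finset.min'_mem _ h2)).1
  · cases h
    exact Finset.min'_mem _ h3

private theorem nxt_some {F : Finset (Fin n) → Finset (Fin n)} {Dp K R : Finset (Fin n)}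
    (hR : R.Nonempty) : ∃ y, nxt F Dp K R = some y := by
  unfold nxt
  split_ifs with h1 h2
  · exact ⟨_, rfl⟩
  · exact ⟨_, rfl⟩
  · exact ⟨_, rfl⟩

private theorem nxt_notF {F : Finset (Fin n) → Finset (Fin n)} {Dp K R : Finset (Fin n)}
    {y : Fin n} (h : nxt F Dp K R = some y) (hy : y ∉ F K) : ∀ z ∈ R, z ∉ F K := by
  intro z hz hzF
  have h1 : (R ∩ F K).Nonempty := ⟨z, Finset.mem_inter.2 ⟨hz, hzF⟩⟩
  unfold nxt at h
  rw [dif_pos h1] at h
  cases h
  exact hy (Finset.mem_inter.1 (Finset.min'_mem _ h1)).2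

private theorem nxt_Dp {F : Finset (Fin n) → Finset (Fin n)} {Dp K R : Finset (Fin n)}
    {y : Fin n} (h : nxt F Dp K R = some y) (hy : y ∉ F K) (hex : ∃ z ∈ R, z ∈ F K ∨ z ∈ Dp) :
    y ∈ Dp := by
  obtain ⟨z, hz, hz1⟩ := hex
  have hn := nxt_notF h hy
  have h1 : ¬ (R ∩ F K).Nonempty := by
    rintro ⟨w, hw⟩
    rw [Finset.mem_inter] at hw
    exact hn w hw.1 hw.2
  have h2 : (R ∩ Dp).Nonempty := ⟨z, Finset.mem_inter.2 ⟨hz, hz1.resolve_left (hn z hz)⟩⟩
  unfold nxt at h
  rw [dif_neg h1, dif_pos h2] at h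
  cases h
  exact (Finset.mem_inter.1 (Finset.min'_mem _ h2)).2

private theorem exs_succ {F : Finset (Fin n) → Finset (Fin n)} {Dp K R : Finset (Fin n)}
    {y : Fin n} (h : ℕ) (hy : nxt F Dp K R = some y) :
    exs F Dp (h + 1) K R =
      (if y ∈ F K then ∅ else {y}) ∪ exs F Dp h (insert y K) (R.erase y) := by
  rw [exs, hy]

private theorem exs_none {F : Finset (Fin n) → Finset (Fin n)} {Dp K R : Finset (Fin n)}
    (h : ℕ) (hy : nxt F Dp K R = none) : exs F Dp (h + 1) K R = ∅ := by
  rw [exs, hy]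

private theorem wt_succ {F : Finset (Fin n) → Finset (Fin n)} {Dp K R : Finset (Fin n)}
    {y : Fin n} (q r : ℝ) (h : ℕ) (hy : nxt F Dp K R = some y) :
    wt F Dp q r (h + 1) K R =
      (if y ∈ F K then q else r) * wt F Dp q r h (insert y K) (R.erase y) := by
  rw [wt, hy]

theorem exs_sub (F : Finset (Fin n) → Finset (Fin n)) (Dp : Finset (Fin n)) (h : ℕ)
    (K R : Finset (Fin n)) : exs F Dp h K R ⊆ R := by
  induction h generalizing K R with
  | zero => simp [exs]
  | succ h ih =>
    rcases hn : nxt F Dp K R with _ | y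
    · rw [exs_none h hn]
      exact Finset.empty_subset _
    · rw [exs_succ h hn]
      have hyR := nxt_mem hn
      refine Finset.union_subset ?_ ((ih _ _).trans (Finset.erase_subset _ _))
      split_ifs
      · exact Finset.empty_subset _
      · exact Finset.singleton_subset_iff.2 hyR

private theorem exs_gen (F : Finset (Fin n) → Finset (Fin n)) (Dp : Finset (Fin n))
    (Nr : Fin n → Fin n → Prop) (hsymm : ∀ u v, Nr u v → Nr v u)
    (hF : ∀ K u y, u ∈ K → Nr u y → y ∈ F K) (X Y : Finset (Fin n))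
    (hcod : ∀ K, X ⊆ K → K ⊆ X ∪ Y → K ≠ X ∪ Y → ∃ y ∈ (X ∪ Y) \ K, y ∈ F K ∨ y ∈ Dp)
    (h : ℕ) : ∀ K R : Finset (Fin n), X ⊆ K → K ∪ R = X ∪ Y → Disjoint K R → R.card = h →
      ∀ y ∈ exs F Dp h K R, y ∈ R ∧ y ∈ Dp ∧ (∀ u ∈ K, ¬ Nr u y) ∧
        ∀ y' ∈ exs F Dp h K R, y' ≠ y → ¬ Nr y' y := by
  induction h with
  | zero =>
    intro K R _ _ _ _ y hy
    simp [exs] at hy
  | succ h ih =>
    intro K R hXK hKR hdis hcard
    have hRne : R.Nonempty := by
      rw [← Finset.card_pos]
      omega
    obtain ⟨y0, hn⟩ := nxt_some (F := F) (Dp := Dp) (K := K) hRne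
    have hy0R := nxt_mem hn
    have hy0K : y0 ∉ K := fun hc => (Finset.disjoint_left.1 hdis hc) hy0R
    have hX' : X ⊆ insert y0 K := hXK.trans (Finset.subset_insert _ _)
    have hKR' : insert y0 K ∪ R.erase y0 = X ∪ Y := by
      rw [← hKR]
      ext z
      simp only [Finset.mem_union, Finset.mem_insert, Finset.mem_erase]
      constructor
      · rintro ((h1 | h1) | ⟨_, h1⟩)
        · right
          rw [h1]
          exact hy0R
        · exact Or.inl h1
        · exact Or.inr h1
      · rintro (h1 | h1)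
        · exact Or.inl (Or.inr h1)
        · by_cases hz : z = y0
          · exact Or.inl (Or.inl hz)
          · exact Or.inr ⟨hz, h1⟩
    have hdis' : Disjoint (insert y0 K) (R.erase y0) := by
      rw [Finset.disjoint_left]
      intro z hz hz'
      rw [Finset.mem_insert] at hz
      rw [Finset.mem_erase] at hz'
      rcases hz with h1 | h1
      · exact hz'.1 h1
      · exact (Finset.disjoint_left.1 hdis h1) hz'.2
    have hcard' : (R.erase y0).card = h := by
      rw [Finset.card_erase_of_mem hy0R, hcard]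
      rfl
    have IH := ih (insert y0 K) (R.erase y0) hX' hKR' hdis' hcard'
    rw [exs_succ h hn]
    by_cases hyF : y0 ∈ F K
    · rw [if_pos hyF, Finset.empty_union]
      intro y hy
      obtain ⟨h1, h2, h3, h4⟩ := IH y hy
      exact ⟨Finset.mem_of_mem_erase h1, h2, fun u hu => h3 u (Finset.mem_insert_of_mem hu), h4⟩
    · rw [if_neg hyF]
      have hKne : K ≠ X ∪ Y := by
        intro hc
        apply hy0K
        rw [hc, ← hKR]
        exact Finset.mem_union_right _ hy0R
      obtain ⟨z, hz, hz1⟩ := hcod K hXK (by rw [← hKR]; exact Finset.subset_union_left) hKne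
      have hzR : z ∈ R := by
        rw [Finset.mem_sdiff, ← hKR, Finset.mem_union] at hz
        exact hz.1.resolve_left hz.2
      have hyD : y0 ∈ Dp := nxt_Dp hn hyF ⟨z, hzR, hz1⟩
      intro y hy
      rw [Finset.mem_union, Finset.mem_singleton] at hy
      rcases hy with hy | hy
      · subst hy
        refine ⟨hy0R, hyD, fun u hu hc => hyF (hF K u y hu hc), ?_⟩
        intro y' hy' hne hc
        rw [Finset.mem_union, Finset.mem_singleton] at hy'
        rcases hy' with hy' | hy'
        · exact hne hy'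
        · obtain ⟨_, _, h3, _⟩ := IH y' hy'
          exact h3 y (Finset.mem_insert_self _ _) (hsymm _ _ hc)
      · obtain ⟨h1, h2, h3, h4⟩ := IH y hy
        refine ⟨Finset.mem_of_mem_erase h1, h2,
          fun u hu => h3 u (Finset.mem_insert_of_mem hu), ?_⟩
        intro y' hy' hne
        rw [Finset.mem_union, Finset.mem_singleton] at hy'
        rcases hy' with hy' | hy'
        · rw [hy']
          exact h3 y0 (Finset.mem_insert_self _ _)
        · exact h4 y' hy' hne

theorem exs_spec (F : Finset (Fin n) → Finset (Fin n)) (Dp : Finset (Fin n))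
    (Nr : Fin n → Fin n → Prop) (hsymm : ∀ u v, Nr u v → Nr v u)
    (hF : ∀ K u y, u ∈ K → Nr u y → y ∈ F K) (X Y : Finset (Fin n)) (hXY : Disjoint X Y)
    (hcod : ∀ K, X ⊆ K → K ⊆ X ∪ Y → K ≠ X ∪ Y → ∃ y ∈ (X ∪ Y) \ K, y ∈ F K ∨ y ∈ Dp) :
    ∀ y ∈ exs F Dp Y.card X Y, y ∈ Y ∧ y ∈ Dp ∧ (∀ u ∈ X, ¬ Nr u y) ∧
      ∀ y' ∈ exs F Dp Y.card X Y, y' ≠ y → ¬ Nr y' y :=
  exs_gen F Dp Nr hsymm hF X Y hcod Y.card X Y (Finset.Subset.refl _) rfl hXY rfl

/-- the weight is determined by the number of expensive points -/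
theorem wt_eq (F : Finset (Fin n) → Finset (Fin n)) (Dp : Finset (Fin n)) (q r : ℝ) (h : ℕ)
    (K R : Finset (Fin n)) (hR : R.card = h) :
    wt F Dp q r h K R = q ^ (h - (exs F Dp h K R).card) * r ^ (exs F Dp h K R).card := by
  induction h generalizing K R with
  | zero => simp [exs, wt]
  | succ h ih =>
    have hRne : R.Nonempty := by
      rw [← Finset.card_pos]
      omega
    obtain ⟨y0, hn⟩ := nxt_some (F := F) (Dp := Dp) (K := K) hRne
    have hy0R := nxt_mem hn
    have hcard' : (R.erase y0).card = h := by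
      rw [Finset.card_erase_of_mem hy0R, hR]
      rfl
    have IH := ih (insert y0 K) (R.erase y0) hcard'
    have hsub := exs_sub F Dp h (insert y0 K) (R.erase y0)
    have hle : (exs F Dp h (insert y0 K) (R.erase y0)).card ≤ h :=
      (Finset.card_le_card hsub).trans hcard'.le
    rw [exs_succ h hn, wt_succ q r h hn, IH]
    by_cases hyF : y0 ∈ F K
    · rw [if_pos hyF, if_pos hyF, Finset.empty_union, Nat.succ_sub hle, pow_succ]
      ring
    · rw [if_neg hyF, if_neg hyF]
      have hnot : y0 ∉ exs F Dp h (insert y0 K) (R.erase y0) := fun hc =>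
        (Finset.mem_erase.1 (hsub hc)).1 rfl
      have hc1 : ({y0} ∪ exs F Dp h (insert y0 K) (R.erase y0)).card =
          (exs F Dp h (insert y0 K) (R.erase y0)).card + 1 := by
        rw [← Finset.insert_eq, Finset.card_insert_of_notMem hnot]
      rw [hc1, Nat.succ_sub_succ, pow_succ]
      ring

end Pool.Agent.H68.PS
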