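import Pool.Agent.H68.PS.Def

/-!
Module SeqL: elementary facts on sequences of layers.

`alv X i` = points not in `X 0, .., X (i-1)`.
-/

set_option autoImplicit false

open Finset Classical

namespace Pool.Agent.H68.PS

variable {n : ℕ}

theorem alv_zero (X : ℕ → Finset (Fin n)) : alv X 0 = univ := by
  simp [alv]

private theorem mem_alv (X : ℕ → Finset (Fin n)) (i : ℕ) (y : Fin n) :
    y ∈ alv X i ↔ ∀ j, j < i → y ∉ X j := by
  simp [alv]

theorem alv_succ (X : ℕ → Finset (Fin n)) (i : ℕ) : alv X (i + 1) = alv X i \ X i := by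
  ext y
  rw [mem_sdiff, mem_alv, mem_alv]
  constructor
  · intro h
    exact ⟨fun j hj => h j (by omega), h i (by omega)⟩
  · rintro ⟨h1, h2⟩ j hj
    rcases Nat.lt_succ_iff_lt_or_eq.mp hj with h | h
    · exact h1 j h
    · exact h ▸ h2

theorem alv_anti (X : ℕ → Finset (Fin n)) {i j : ℕ} (h : i ≤ j) : alv X j ⊆ alv X i := by
  intro y hy
  rw [mem_alv] at hy ⊢
  exact fun l hl => hy l (by omega)

theorem not_mem_alv (X : ℕ → Finset (Fin n)) {i j : ℕ} (h : j < i) {y : Fin n} (hy : y ∈ X j) :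
    y ∉ alv X i := by
  rw [mem_alv]
  exact fun hh => hh j h hy

theorem seq_sub {d1 d2 : Equiv.Perm (Fin n)} {x : Fin n} {k : ℕ} {X : ℕ → Finset (Fin n)}
    (h : Seq d1 d2 x k X) {i j : ℕ} (hij : i ≤ j) : X j ⊆ alv X i := by
  intro y hy
  rw [mem_alv]
  intro l hl hyl
  exact (Finset.disjoint_left.mp (h.disj l j (by omega))) hyl hy

theorem seq_unique {d1 d2 : Equiv.Perm (Fin n)} {x : Fin n} {k : ℕ} {X : ℕ → Finset (Fin n)}
    (h : Seq d1 d2 x k X) {i j : ℕ} {y : Fin n} (hi : y ∈ X i) (hj : y ∈ X j) : i = j := by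
  by_contra hne
  exact (Finset.disjoint_left.mp (h.disj i j hne)) hi hj

/-- only `x` survives -/
theorem seq_die {d1 d2 : Equiv.Perm (Fin n)} {x : Fin n} {k : ℕ} {X : ℕ → Finset (Fin n)}
    (h : Seq d1 d2 x k X) {i : ℕ} {y : Fin n} (hy : y ∈ alv X i) (hyx : y ≠ x) :
    ∃ j, i ≤ j ∧ j < k ∧ y ∈ X j := by
  have h1 : y ∈ (range k).biUnion X := by
    rw [h.tot]
    exact mem_erase.mpr ⟨hyx, mem_univ y⟩
  obtain ⟨j, hj, hyj⟩ := mem_biUnion.mp h1
  refine ⟨j, ?_, mem_range.mp hj, hyj⟩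
  by_contra hlt
  exact not_mem_alv X (by omega) hyj hy

/-- the first point of `S` which dies -/
theorem seq_first {d1 d2 : Equiv.Perm (Fin n)} {x : Fin n} {k : ℕ} {X : ℕ → Finset (Fin n)}
    (h : Seq d1 d2 x k X) {i : ℕ} (S : Finset (Fin n)) (hS : S ⊆ alv X i) {y : Fin n}
    (hy : y ∈ S) (hyx : y ≠ x) : ∃ j, i ≤ j ∧ j < k ∧ (∃ z ∈ S, z ∈ X j) ∧ S ⊆ alv X j := by
  have hex : ∃ j, i ≤ j ∧ j < k ∧ ∃ z ∈ S, z ∈ X j := by
    obtain ⟨j, h1, h2, h3⟩ := seq_die h (hS hy) hyx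
    exact ⟨j, h1, h2, y, hy, h3⟩
  obtain ⟨h1, h2, h3⟩ := Nat.find_spec hex
  refine ⟨Nat.find hex, h1, h2, h3, ?_⟩
  intro z hz
  rw [mem_alv]
  intro l hl hzl
  by_cases hil : i ≤ l
  · exact Nat.find_min hex hl ⟨hil, by omega, z, hz, hzl⟩
  · exact not_mem_alv X (by omega : l < i) hzl (hS hz)

theorem seq_card {d1 d2 : Equiv.Perm (Fin n)} {x : Fin n} {k : ℕ} {X : ℕ → Finset (Fin n)}
    (h : Seq d1 d2 x k X) : ∑ i ∈ range k, (X i).card = n - 1 := by
  have h1 : ((range k).biUnion X).card = ∑ i ∈ range k, (X i).card :=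
    card_biUnion (fun i _ j _ hij => h.disj i j hij)
  rw [← h1, h.tot, card_erase_of_mem (mem_univ x), card_univ, Fintype.card_fin]

/-- the number of large layers -/
theorem seq_large {d1 d2 : Equiv.Perm (Fin n)} {x : Fin n} {k : ℕ} {X : ℕ → Finset (Fin n)}
    (h : Seq d1 d2 x k X) (t : ℕ) (ht : 1 ≤ t) (a : ℕ → ℕ) (ha : ∀ i j, a i = a j → i = j) :
    ((range k).filter (fun i => t ≤ (X (a i)).card)).card ≤ n / t := by
  rw [Nat.le_div_iff_mul_le (by omega)]
  have h1 : (((range k).filter (fun i => t ≤ (X (a i)).card)).biUnion (fun i => X (a i))).card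
      = ∑ i ∈ (range k).filter (fun i => t ≤ (X (a i)).card), (X (a i)).card := by
    refine card_biUnion (fun i _ j _ hij => h.disj _ _ (fun hh => hij (ha i j hh)))
  have h2 : ((range k).filter (fun i => t ≤ (X (a i)).card)).card * t
      ≤ ∑ i ∈ (range k).filter (fun i => t ≤ (X (a i)).card), (X (a i)).card := by
    have := Finset.card_nsmul_le_sum ((range k).filter (fun i => t ≤ (X (a i)).card))
      (fun i => (X (a i)).card) t (fun i hi => (mem_filter.mp hi).2)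
    simpa [smul_eq_mul] using this
  have h3 : (((range k).filter (fun i => t ≤ (X (a i)).card)).biUnion (fun i => X (a i))).card
      ≤ n := by
    calc _ ≤ (univ : Finset (Fin n)).card := card_le_card (subset_univ _)
      _ = n := by simp
  omega

end Pool.Agent.H68.PS
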