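import Pool.Agent.H68.PS.BadDef
import Pool.Agent.H68.PS.SeqL
import Pool.Agent.H68.PS.Enum

/-!
Module BadSum: the number of bad points of a sequence.

Proof. `bad i ≤ w1` for all `i` (`exs_sub`: `expv .. ⊆ X i`).  Split `i ∈ range k`:
`i = 0`: at most `w1`.  `i ≥ 1`, `w2 < #(X (i-1))`: at most `n / (w2 + 1)` indices (`seq_large` with
`t = w2 + 1`, `a = id`, shift), each at most `w1`.  `i ≥ 1`, `#(X (i-1)) ≤ w2`, `#(X i) ≤ w1`,
`r ≤ #(X (i+1))`: at most `n / r` indices, each at most `w1`.  The remaining `i ≥ 1` have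
`#(X (i+1)) < r`, and their sets `expv (alv X (i-1)) (X (i-1)) (X i) ⊆ X i` are pairwise disjoint
subsets of `expt` (index `i - 1` in the definition of `expt`).
-/

set_option autoImplicit false

open Finset Classical

namespace Pool.Agent.H68.PS

variable {n : ℕ}

private theorem expv_sub (d1 d2 : Equiv.Perm (Fin n)) (ρ W l : ℕ) (Z X Y : Finset (Fin n)) :
    expv d1 d2 ρ W l Z X Y ⊆ Y := by
  unfold expv
  exact exs_sub _ _ _ _ _

/-- the expensive points of the layer `i` in the remaining case -/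
private noncomputable def Tset (d1 d2 : Equiv.Perm (Fin n)) (ρ W l w1 w2 r k : ℕ)
    (X : ℕ → Finset (Fin n)) (i : ℕ) : Finset (Fin n) :=
  if 1 ≤ i ∧ i < k ∧ (X (i - 1)).card ≤ w2 ∧ (X i).card ≤ w1 ∧ (X (i + 1)).card < r then
    expv d1 d2 ρ W l (alv X (i - 1)) (X (i - 1)) (X i) else ∅

private theorem Tset_sub (d1 d2 : Equiv.Perm (Fin n)) (ρ W l w1 w2 r k : ℕ)
    (X : ℕ → Finset (Fin n)) (i : ℕ) : Tset d1 d2 ρ W l w1 w2 r k X i ⊆ X i := by
  unfold Tset
  split_ifs
  · exact expv_sub _ _ _ _ _ _ _ _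
  · exact Finset.empty_subset _

private theorem bad_le (d1 d2 : Equiv.Perm (Fin n)) (ρ W l w1 w2 r k : ℕ)
    (X : ℕ → Finset (Fin n)) (i : ℕ) (hi : i < k) :
    bad d1 d2 ρ W l w1 w2 X i ≤ (if i = 0 then w1 else 0) +
      (if 1 ≤ i ∧ w2 + 1 ≤ (X (i - 1)).card then w1 else 0) +
      (if r ≤ (X (i + 1)).card then w1 else 0) + (Tset d1 d2 ρ W l w1 w2 r k X i).card := by
  unfold bad
  by_cases h1 : w1 < (X i).card
  · rw [if_pos h1]
    exact Nat.zero_le _
  rw [if_neg h1]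
  push Not at h1
  by_cases h2 : i = 0 ∨ w2 < (X (i - 1)).card
  · rw [if_pos h2]
    by_cases h3 : i = 0
    · rw [if_pos h3]
      omega
    · have h4 : w2 < (X (i - 1)).card := h2.resolve_left h3
      have h5 : 1 ≤ i ∧ w2 + 1 ≤ (X (i - 1)).card := ⟨by omega, h4⟩
      rw [if_pos h5]
      omega
  · rw [if_neg h2]
    push Not at h2
    have he : (expv d1 d2 ρ W l (alv X (i - 1)) (X (i - 1)) (X i)).card ≤ w1 :=
      (card_le_card (expv_sub d1 d2 ρ W l _ _ _)).trans h1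
    by_cases h3 : r ≤ (X (i + 1)).card
    · rw [if_pos h3]
      omega
    · push Not at h3
      have h4 : Tset d1 d2 ρ W l w1 w2 r k X i =
          expv d1 d2 ρ W l (alv X (i - 1)) (X (i - 1)) (X i) := by
        unfold Tset
        rw [if_pos ⟨by omega, hi, h2.2, h1, h3⟩]
      rw [h4]
      omega

private theorem sum_ite_const (s : Finset ℕ) (p : ℕ → Prop) [DecidablePred p] (w : ℕ) :
    ∑ i ∈ s, (if p i then w else 0) = w * (s.filter p).card := by
  rw [← sum_filter, sum_const, smul_eq_mul, mul_comm]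

private theorem Tset_sum {d1 d2 : Equiv.Perm (Fin n)} (ρ W l w1 w2 r : ℕ) {x : Fin n} {k : ℕ}
    {X : ℕ → Finset (Fin n)} (h : Seq d1 d2 x k X) :
    ∑ i ∈ range k, (Tset d1 d2 ρ W l w1 w2 r k X i).card ≤
      (expt d1 d2 ρ W l w1 w2 r k X).card := by
  rw [← card_biUnion]
  · refine card_le_card ?_
    intro y hy
    rw [mem_biUnion] at hy
    obtain ⟨i, _, hyi⟩ := hy
    unfold Tset at hyi
    split_ifs at hyi with hc
    · obtain ⟨c1, c2, c3, c4, c5⟩ := hc
      obtain ⟨j, rfl⟩ : ∃ j, i = j + 1 := ⟨i - 1, by omega⟩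
      unfold expt
      rw [mem_biUnion]
      refine ⟨j, mem_range.2 (by omega), ?_⟩
      rw [Nat.add_sub_cancel] at hyi c3
      rw [if_pos ⟨c2, c3, c4, c5⟩]
      exact hyi
    · exact absurd hyi (notMem_empty _)
  · intro i _ j _ hij
    exact Disjoint.mono (Tset_sub _ _ _ _ _ _ _ _ _ _ _) (Tset_sub _ _ _ _ _ _ _ _ _ _ _)
      (h.disj i j hij)

theorem bad_sum {d1 d2 : Equiv.Perm (Fin n)} (ρ W l w1 w2 r : ℕ) (hr : 1 ≤ r) {x : Fin n} {k : ℕ}
    {X : ℕ → Finset (Fin n)} (h : Seq d1 d2 x k X) :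
    ∑ i ∈ range k, bad d1 d2 ρ W l w1 w2 X i ≤
      w1 + w1 * (n / (w2 + 1)) + w1 * (n / r) + (expt d1 d2 ρ W l w1 w2 r k X).card := by
  have h0 : ∑ i ∈ range k, (if i = 0 then w1 else 0) ≤ w1 := by
    rw [sum_ite_const]
    have : ((range k).filter (fun i => i = 0)).card ≤ 1 := by
      refine card_le_one.2 ?_
      intro a ha b hb
      rw [(mem_filter.1 ha).2, (mem_filter.1 hb).2]
    calc w1 * ((range k).filter (fun i => i = 0)).card ≤ w1 * 1 := Nat.mul_le_mul_left _ this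
      _ = w1 := mul_one _
  have h1 : ∑ i ∈ range k, (if 1 ≤ i ∧ w2 + 1 ≤ (X (i - 1)).card then w1 else 0) ≤
      w1 * (n / (w2 + 1)) := by
    rw [sum_ite_const]
    refine Nat.mul_le_mul_left _ ?_
    refine le_trans ?_ (seq_large h (w2 + 1) (by omega) (fun i => i) (fun i j hij => hij))
    refine card_le_card_of_injOn (fun i => i - 1) ?_ ?_
    · intro i hi
      have hi' := mem_filter.1 hi
      have hik := mem_range.1 hi'.1
      refine mem_filter.2 ⟨mem_range.2 ?_, hi'.2.2⟩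
      show i - 1 < k
      omega
    · intro i hi j hj hij
      have hi' := (mem_filter.1 hi).2.1
      have hj' := (mem_filter.1 hj).2.1
      have hij' : i - 1 = j - 1 := hij
      omega
  have h2 : ∑ i ∈ range k, (if r ≤ (X (i + 1)).card then w1 else 0) ≤ w1 * (n / r) := by
    rw [sum_ite_const]
    refine Nat.mul_le_mul_left _ ?_
    exact seq_large h r hr (fun i => i + 1) (fun i j hij => Nat.succ_injective hij)
  have h3 := Tset_sum (d1 := d1) (d2 := d2) ρ W l w1 w2 r h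
  calc ∑ i ∈ range k, bad d1 d2 ρ W l w1 w2 X i
      ≤ ∑ i ∈ range k, ((if i = 0 then w1 else 0) +
          (if 1 ≤ i ∧ w2 + 1 ≤ (X (i - 1)).card then w1 else 0) +
          (if r ≤ (X (i + 1)).card then w1 else 0) +
          (Tset d1 d2 ρ W l w1 w2 r k X i).card) :=
        sum_le_sum fun i hi => bad_le d1 d2 ρ W l w1 w2 r k X i (mem_range.1 hi)
    _ = ∑ i ∈ range k, (if i = 0 then w1 else 0) +
        ∑ i ∈ range k, (if 1 ≤ i ∧ w2 + 1 ≤ (X (i - 1)).card then w1 else 0) +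
        ∑ i ∈ range k, (if r ≤ (X (i + 1)).card then w1 else 0) +
        ∑ i ∈ range k, (Tset d1 d2 ρ W l w1 w2 r k X i).card := by
        rw [sum_add_distrib, sum_add_distrib, sum_add_distrib]
    _ ≤ _ := by omega

end Pool.Agent.H68.PS
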