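import Pool.Agent.H68.PS.MvA

/-!
Module Best: the order `Bet` and the existence of canonical copies.

`Bet d1` is the (strict, total) order the first point of the symmetric difference is in the first
set.  Existence: among the finitely many `T ⊆ Z` which are isomorphic to `S` choose a minimal one.
-/

set_option autoImplicit false

open Finset Classical

namespace Pool.Agent.H68.PS

variable {n : ℕ}

theorem Bet_irrefl (d1 : Equiv.Perm (Fin n)) (S : Finset (Fin n)) : ¬ Bet d1 S S := by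
  rintro ⟨p, hp, hp', -⟩
  exact hp' hp

theorem Bet_asymm (d1 : Equiv.Perm (Fin n)) {S T : Finset (Fin n)} (h : Bet d1 S T) :
    ¬ Bet d1 T S := by
  obtain ⟨p, hp, hp', h1⟩ := h
  rintro ⟨r, hr, hr', h2⟩
  rcases lt_trichotomy (d1 p) (d1 r) with h3 | h3 | h3
  · exact hp' ((h2 p h3).2 hp)
  · have : p = r := d1.injective h3
    subst this
    exact hr' hp
  · exact hr' ((h1 r h3).2 hr)

theorem Bet_trans (d1 : Equiv.Perm (Fin n)) {S T R : Finset (Fin n)} (h : Bet d1 S T)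
    (h' : Bet d1 T R) : Bet d1 S R := by
  obtain ⟨p, hp, hp', h1⟩ := h
  obtain ⟨r, hr, hr', h2⟩ := h'
  rcases lt_trichotomy (d1 p) (d1 r) with h3 | h3 | h3
  · exact ⟨p, hp, fun h4 => hp' ((h2 p h3).2 h4), fun q hq => (h1 q hq).trans (h2 q (hq.trans h3))⟩
  · have : p = r := d1.injective h3
    subst this
    exact absurd hr hp'
  · exact ⟨r, (h1 r h3).2 hr, hr', fun q hq => (h1 q (hq.trans h3)).trans (h2 q hq)⟩

theorem Bet_total (d1 : Equiv.Perm (Fin n)) {S T : Finset (Fin n)} (h : S ≠ T) :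
    Bet d1 S T ∨ Bet d1 T S := by
  have h1 : (univ.filter (fun z => ¬ (z ∈ S ↔ z ∈ T))).Nonempty := by
    by_contra h2
    rw [not_nonempty_iff_eq_empty] at h2
    apply h
    ext z
    by_contra h3
    have : z ∈ univ.filter (fun z => ¬ (z ∈ S ↔ z ∈ T)) := mem_filter.2 ⟨mem_univ z, h3⟩
    rw [h2] at this
    exact notMem_empty z this
  obtain ⟨p, hp, hmin⟩ := exists_min_image _ d1 h1
  have hp1 : ¬ (p ∈ S ↔ p ∈ T) := (mem_filter.1 hp).2
  have hq : ∀ q, d1 q < d1 p → (q ∈ S ↔ q ∈ T) := by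
    intro q hq
    by_contra h3
    exact absurd (hmin q (mem_filter.2 ⟨mem_univ q, h3⟩)) (not_le.2 hq)
  by_cases hS : p ∈ S
  · left
    exact ⟨p, hS, fun hT => hp1 ⟨fun _ => hT, fun _ => hS⟩, hq⟩
  · right
    have hT : p ∈ T := by
      by_contra hT
      exact hp1 ⟨fun h4 => absurd h4 hS, fun h4 => absurd h4 hT⟩
    exact ⟨p, hT, hS, fun q h4 => (hq q h4).symm⟩

/-- every subset of `Z` has a canonical copy -/
theorem best_exists (d1 d2 : Equiv.Perm (Fin n)) (Z S : Finset (Fin n)) (hS : S ⊆ Z) :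
    ∃ T φ, Iso d1 d2 S T φ ∧ Can d1 d2 Z T := by
  have hwf : WellFounded (Bet d1) :=
    haveI : IsTrans (Finset (Fin n)) (Bet d1) := ⟨fun _ _ _ h h' => Bet_trans d1 h h'⟩
    haveI : Std.Irrefl (Bet d1) := ⟨fun S => Bet_irrefl d1 S⟩
    Finite.wellFounded_of_trans_of_irrefl (Bet d1)
  have hid : Iso d1 d2 S S id := ⟨fun a ha => ha, fun b hb => ⟨b, hb, rfl⟩,
    fun _ _ _ _ h => h, fun _ _ _ _ h => h⟩
  obtain ⟨T, ⟨hT, φ, hφ⟩, hmin⟩ := hwf.has_min {T | T ⊆ Z ∧ ∃ φ, Iso d1 d2 S T φ} ⟨S, hS, id, hid⟩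
  exact ⟨T, φ, hφ, hT, fun T' hT' ψ hψ => hmin T' ⟨hT', ψ ∘ φ, Iso_trans hφ hψ⟩⟩

/-- the canonical copy is unique -/
theorem can_unique (d1 d2 : Equiv.Perm (Fin n)) (Z S T : Finset (Fin n)) (φ : Fin n → Fin n)
    (h : Iso d1 d2 S T φ) (hS : Can d1 d2 Z S) (hT : Can d1 d2 Z T) : S = T := by
  by_contra hne
  rcases Bet_total d1 hne with h1 | h1
  · obtain ⟨ψ, hψ⟩ := Iso_symm h
    exact hT.2 S hS.1 ψ hψ h1
  · exact hS.2 T hT.1 φ h h1

/-- a canonical subset is canonical in every smaller set which contains it -/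
theorem can_mono (d1 d2 : Equiv.Perm (Fin n)) {Z Z' S : Finset (Fin n)} (hZ : Z' ⊆ Z)
    (hS : S ⊆ Z') (h : Can d1 d2 Z S) : Can d1 d2 Z' S :=
  ⟨hS, fun T hT φ hφ => h.2 T (hT.trans hZ) φ hφ⟩

theorem can_self (d1 d2 : Equiv.Perm (Fin n)) (Z : Finset (Fin n)) : Can d1 d2 Z Z := by
  refine ⟨Subset.refl Z, fun T hT φ hφ hb => ?_⟩
  have h1 : T = Z := eq_of_subset_of_card_le hT (Iso_card hφ).ge
  rw [h1] at hb
  exact Bet_irrefl d1 Z hb

end Pool.Agent.H68.PS
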