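import Mathlib

/-!
Module BinomQ (pure): `C(N, h) (m / (3 n))^h ≤ 1` for `N ≤ n`, `m ≤ h`, `1 ≤ m`.

Proof. `C(N,h) ≤ N^h / h! ≤ n^h / h!` and `h! ≥ (h/3)^h ≥ (m/3)^h` (`h^h ≤ 3^h h!`: induction on `h`
with `(1 + 1/h)^h ≤ e ≤ 3`, or from `h^h / h! ≤ e^h`, one term of the exponential series,
`Real.add_one_le_exp`, `Real.exp_one_lt_d9`).
-/

set_option autoImplicit false

namespace Pool.Agent.H68.PS

theorem pow_le_factorial (h : ℕ) : (h : ℝ) ^ h ≤ 3 ^ h * (h.factorial : ℝ) := by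
  have h1 := Real.pow_div_factorial_le_exp (h : ℝ) (Nat.cast_nonneg h) h
  have h2 : Real.exp (h : ℝ) ≤ 3 ^ h := by
    have h3 : Real.exp (h : ℝ) = Real.exp 1 ^ h := by
      rw [← Real.exp_nat_mul, mul_one]
    rw [h3]
    have h4 := Real.exp_one_lt_d9
    exact pow_le_pow_left₀ (Real.exp_pos 1).le (by linarith) h
  have h5 : (0 : ℝ) < (h.factorial : ℝ) := by exact_mod_cast h.factorial_pos
  rw [div_le_iff₀ h5] at h1
  exact h1.trans (mul_le_mul_of_nonneg_right h2 h5.le)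

theorem binom_q (n m N h : ℕ) (hm : 1 ≤ m) (hn : 1 ≤ n) (hN : N ≤ n) (hh : m ≤ h) :
    (N.choose h : ℝ) * ((m : ℝ) / (3 * n)) ^ h ≤ 1 := by
  have hf : (0 : ℝ) < (h.factorial : ℝ) := by exact_mod_cast h.factorial_pos
  have hn0 : (0 : ℝ) < (n : ℝ) := by exact_mod_cast hn
  have h1 : (N.choose h : ℝ) ≤ (N : ℝ) ^ h / (h.factorial : ℝ) := Nat.choose_le_pow_div h N
  have h2 : (N : ℝ) ^ h ≤ (n : ℝ) ^ h :=
    pow_le_pow_left₀ (Nat.cast_nonneg N) (by exact_mod_cast hN) h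
  have h3 : ((m : ℝ) / (3 * n)) ^ h ≤ ((h : ℝ) / (3 * n)) ^ h := by
    refine pow_le_pow_left₀ (by positivity) ?_ h
    exact div_le_div_of_nonneg_right (by exact_mod_cast hh) (by positivity)
  have h4 := pow_le_factorial h
  calc (N.choose h : ℝ) * ((m : ℝ) / (3 * n)) ^ h
      ≤ ((n : ℝ) ^ h / (h.factorial : ℝ)) * ((h : ℝ) / (3 * n)) ^ h := by
        refine mul_le_mul (h1.trans (div_le_div_of_nonneg_right h2 hf.le)) h3 (by positivity)
          (by positivity)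
    _ = (h : ℝ) ^ h / (3 ^ h * (h.factorial : ℝ)) := by
        rw [div_pow, mul_pow]
        field_simp
    _ ≤ 1 := by
        rw [div_le_one (by positivity)]
        exact h4

end Pool.Agent.H68.PS
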