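import Pool.Agent.H68.PS.Best
import Pool.Agent.H67.AE.Pat

/-!
Module CanSum: the Moebius function on subsets.

Proof. `AE.pat_exists π` gives `f : Finset (Fin n) → PT` with `f S = f T ↔ ∃ φ, AE.IsIso π S T φ`
(= `Iso 1 π S T φ`), `(f S).1 = #S`, `f univ = ⟨n, π⟩`, `Cont τ.2 (f Z).2 ↔ ∃ S ⊆ Z, f S = τ`.  Put
`M S = mu (f S).1 (f S).2`.  By `best_exists`, `can_unique` the map `S ↦ f S` is a bijection of the
nonempty canonical subsets of `Z` onto the `τ` with `1 ≤ τ.1`, `Cont τ.2 (f Z).2`.  So the sum is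
`∑_{k ∈ Icc 1 #Z} ∑_{σ : Cont σ (f Z).2} mu k σ`, which is `0` for `#Z ≥ 2` (hypothesis `h2` for the
permutation `(f Z).2`) and `mu 1 1 = 1` for `#Z = 1`.
-/

set_option autoImplicit false

open Finset Classical

namespace Pool.Agent.H68.PS

private theorem isIso_iff {n : ℕ} (π : Equiv.Perm (Fin n)) (S T : Finset (Fin n))
    (φ : Fin n → Fin n) : Pool.Agent.H67.AE.IsIso π S T φ ↔ Iso 1 π S T φ := by
  constructor
  · intro h
    exact ⟨h.maps, h.surj, fun a ha b hb hab => h.pos a ha b hb hab, fun a ha b hb hab =>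
      h.val a ha b hb hab⟩
  · intro h
    exact ⟨h.maps, h.surj, fun a ha b hb hab => h.fst a ha b hb hab, fun a ha b hb hab =>
      h.snd a ha b hb hab⟩

theorem can_sum (mu : (k : ℕ) → Equiv.Perm (Fin k) → ℤ) (h1 : mu 1 1 = 1)
    (h2 : ∀ n : ℕ, 2 ≤ n → ∀ π : Equiv.Perm (Fin n),
      ∑ k ∈ Finset.Icc 1 n,
        ∑ σ ∈ (Finset.univ : Finset (Equiv.Perm (Fin k))).filter
          (fun σ => ∃ e : Fin k ↪o Fin n, ∀ i j : Fin k, σ i < σ j ↔ π (e i) < π (e j)),
          mu k σ = 0)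
    (n : ℕ) (hn : 1 ≤ n) (π : Equiv.Perm (Fin n)) :
    ∃ M : Finset (Fin n) → ℤ, M univ = mu n π ∧ ∀ Z : Finset (Fin n), Z.Nonempty →
      ∑ S ∈ (Z.powerset.erase ∅).filter (fun S => Can 1 π Z S), M S =
        if Z.card = 1 then 1 else 0 := by
  obtain ⟨f, hf, hc, hu, hC⟩ := Pool.Agent.H67.AE.pat_exists π
  refine ⟨fun S => mu (f S).1 (f S).2, by show mu (f univ).1 (f univ).2 = mu n π; rw [hu], ?_⟩
  intro Z hZ
  have hinj : Set.InjOn f (((Z.powerset.erase ∅).filter (fun S => Can 1 π Z S) :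
      Finset (Finset (Fin n))) : Set (Finset (Fin n))) := by
    intro S hS T hT hST
    obtain ⟨φ, hφ⟩ := (hf S T).1 hST
    have hS' : Can 1 π Z S := (mem_filter.1 (mem_coe.1 hS)).2
    have hT' : Can 1 π Z T := (mem_filter.1 (mem_coe.1 hT)).2
    exact can_unique 1 π Z S T φ ((isIso_iff π S T φ).1 hφ) hS' hT'
  have himg : ((Z.powerset.erase ∅).filter (fun S => Can 1 π Z S)).image f =
      (Icc 1 (f Z).1).sigma (fun k => (univ : Finset (Equiv.Perm (Fin k))).filter
        (fun σ => Pool.Agent.H67.AE.Cont σ (f Z).2)) := by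
    ext τ
    rw [mem_image, mem_sigma, mem_filter, mem_Icc]
    constructor
    · rintro ⟨S, hS, rfl⟩
      rw [mem_filter, mem_erase, mem_powerset] at hS
      obtain ⟨⟨hne, hsub⟩, hcan⟩ := hS
      refine ⟨⟨?_, ?_⟩, mem_univ _, (hC Z (f S)).2 ⟨S, hsub, rfl⟩⟩
      · rw [hc S]
        exact Finset.card_pos.2 (Finset.nonempty_iff_ne_empty.2 hne)
      · rw [hc S, hc Z]
        exact card_le_card hsub
    · rintro ⟨⟨ha, hb⟩, -, hcont⟩
      obtain ⟨S, hsub, hS⟩ := (hC Z τ).1 hcont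
      obtain ⟨T, φ, hφ, hT⟩ := best_exists 1 π Z S hsub
      have hfT : f S = f T := (hf S T).2 ⟨φ, (isIso_iff π S T φ).2 hφ⟩
      refine ⟨T, ?_, hfT.symm.trans hS⟩
      rw [mem_filter, mem_erase, mem_powerset]
      refine ⟨⟨?_, hT.1⟩, hT⟩
      rintro rfl
      have h3 : (f ∅).1 = 0 := by rw [hc]; rfl
      rw [← hfT, hS] at h3
      omega
  have hsum : ∑ S ∈ (Z.powerset.erase ∅).filter (fun S => Can 1 π Z S),
      mu (f S).1 (f S).2 =
      ∑ k ∈ Icc 1 (f Z).1, ∑ σ ∈ (univ : Finset (Equiv.Perm (Fin k))).filter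
        (fun σ => Pool.Agent.H67.AE.Cont σ (f Z).2), mu k σ := by
    rw [← Finset.sum_sigma (Icc 1 (f Z).1) (fun k => (univ : Finset (Equiv.Perm (Fin k))).filter
        (fun σ => Pool.Agent.H67.AE.Cont σ (f Z).2)) (fun τ => mu τ.1 τ.2), ← himg,
      Finset.sum_image hinj]
  show ∑ S ∈ (Z.powerset.erase ∅).filter (fun S => Can 1 π Z S), mu (f S).1 (f S).2 = _
  rw [hsum]
  have key : ∀ (m : ℕ) (σ : Equiv.Perm (Fin m)), 1 ≤ m →
      ∑ k ∈ Icc 1 m, ∑ τ ∈ (univ : Finset (Equiv.Perm (Fin k))).filter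
        (fun τ => Pool.Agent.H67.AE.Cont τ σ), mu k τ = if m = 1 then 1 else 0 := by
    intro m σ hm
    by_cases hm1 : m = 1
    · subst hm1
      rw [if_pos rfl, Icc_self, sum_singleton]
      have hall : (univ : Finset (Equiv.Perm (Fin 1))).filter
          (fun τ => Pool.Agent.H67.AE.Cont τ σ) = {1} := by
        ext τ
        rw [mem_filter, mem_singleton]
        constructor
        · intro _
          exact Subsingleton.elim _ _
        · rintro rfl
          refine ⟨mem_univ _, RelEmbedding.refl _, ?_⟩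
          intro i j
          rw [Subsingleton.elim i j]
          simp
      rw [hall, sum_singleton, h1]
    · rw [if_neg hm1]
      refine (Finset.sum_congr rfl fun k _ => ?_).trans (h2 m (by omega) σ)
      refine Finset.sum_congr ?_ (fun _ _ => rfl)
      ext τ
      rw [mem_filter, mem_filter]
      exact Iff.rfl
  have hZc : (f Z).1 = Z.card := hc Z
  rw [key (f Z).1 (f Z).2 (by rw [hZc]; exact Finset.card_pos.2 hZ), hZc]

end Pool.Agent.H68.PS
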