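import Pool.Agent.H68.PS.MvA

/-!
Module QGraph (Lemma 4): the holes of a connected move are connected in the graph all points of
`Z` strictly between are in `A` (for `d1` or for `d2`).

Proof. For `a ∈ A` the orbit `a, f a, f (f a), ..` is strictly monotone for `d1` (as long as it is in
`A`; `f a ≠ a` and `f` preserves `d1`), so it leaves `A`: there is `t a = f^[k] a ∈ hol` with
`f^[j] a ∈ A` for `j < k`, and every `z ∈ Z` with `Bt d1 a (t a) z` is in `A ∪ hol` (it is in a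
closed strip of some `f^[j] a`), same for `d2` (same `k`).  Let `S ⊆ hol` be nonempty, `S ≠ hol`, and
suppose that there is no edge between `S` and `hol \ S`.
(1) If an interval `I` for `d1` (or `d2`) of `Z` is contained in `A ∪ hol`, then `I ∩ hol` is
contained in `S` or disjoint from `S` (otherwise there are `u ∈ S`, `u' ∈ hol \ S` in `I` with no
hole strictly between, an edge).
(2) Let `C = {a ∈ A : t a ∈ S}`. If `a, b ∈ A`, `Str d1 d2 f a b`, then `a ∈ C ↔ b ∈ C`: say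
`Bt d1 a (f a) b`, the intervals `[a, t a]` and `[b, t b]` for `d1` both contain `b`, their union is
an interval contained in `A ∪ hol`, use (1).  So `C = ∅` or `C = A` (`Conn`).
(3) Every `u ∈ hol` is in a strip of some `a ∈ A`, so in `[a, t a]` for `d1` or `d2`, so
`u ∈ S ↔ t a ∈ S` by (1). So `S = ∅` or `S = hol`, contradiction.
-/

set_option autoImplicit false

open Finset Classical

namespace Pool.Agent.H68.PS

variable {n : ℕ}

private theorem bt_split {d : Equiv.Perm (Fin n)} {a u z : Fin n} (w : Fin n)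
    (h : Bt d a u z) : Bt d a w z ∨ Bt d w u z := by
  unfold Bt at *
  omega

private theorem bt_sub {d : Equiv.Perm (Fin n)} {a c b z : Fin n} (h : Bt d a c b)
    (h' : Bt d a b z) : Bt d a c z := by
  unfold Bt at *
  omega

private theorem sb_bt_l {d : Equiv.Perm (Fin n)} {u v z w : Fin n} (h : Sb d u v z)
    (h' : Bt d z v w) : Bt d u v w := by
  unfold Bt Sb at *
  omega

private theorem sb_bt_r {d : Equiv.Perm (Fin n)} {u v z w : Fin n} (h : Sb d u v z)
    (h' : Bt d u z w) : Bt d u v w := by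
  unfold Bt Sb at *
  omega

/-- an interval contained in `A ∪ H` does not separate `S` from `H \ S` -/
private theorem sep {d : Equiv.Perm (Fin n)} {Z A H S : Finset (Fin n)}
    (hno : ∀ u ∈ S, ∀ v ∈ H, v ∉ S → ∃ z ∈ Z, Sb d u v z ∧ z ∉ A) :
    ∀ m : ℕ, ∀ u ∈ S, ∀ v ∈ H, v ∉ S → (d u : ℕ) ≤ (d v : ℕ) + m → (d v : ℕ) ≤ (d u : ℕ) + m →
      (∀ z ∈ Z, Bt d u v z → z ∈ A ∨ z ∈ H) → False := by
  intro m
  induction m with
  | zero =>
    intro u hu v hv hvS h1 h2 _
    have h3 : d u = d v := Fin.ext (by omega)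
    exact hvS (d.injective h3 ▸ hu)
  | succ m ih =>
    intro u hu v hv hvS h1 h2 hall
    obtain ⟨z, hz, hs, hzA⟩ := hno u hu v hv hvS
    have hzH : z ∈ H := by
      rcases hall z hz (by unfold Bt; unfold Sb at hs; omega) with h | h
      · exact absurd h hzA
      · exact h
    by_cases hzS : z ∈ S
    · exact ih z hzS v hv hvS (by unfold Sb at hs; omega) (by unfold Sb at hs; omega)
        fun w hw hb => hall w hw (sb_bt_l hs hb)
    · exact ih u hu z hzH hzS (by unfold Sb at hs; omega) (by unfold Sb at hs; omega)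
        fun w hw hb => hall w hw (sb_bt_r hs hb)

private theorem sep' {d : Equiv.Perm (Fin n)} {Z A H S : Finset (Fin n)}
    (hno : ∀ u ∈ S, ∀ v ∈ H, v ∉ S → ∃ z ∈ Z, Sb d u v z ∧ z ∉ A) {u v : Fin n} (hu : u ∈ S)
    (hv : v ∈ H) (hvS : v ∉ S) (h : ∀ z ∈ Z, Bt d u v z → z ∈ A ∨ z ∈ H) : False :=
  sep hno n u hu v hv hvS (by omega) (by omega) h

/-- the end of the orbit of `a` -/
private def Good (d1 d2 : Equiv.Perm (Fin n)) (Z A : Finset (Fin n)) (f : Fin n → Fin n)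
    (a u : Fin n) : Prop :=
  u ∈ hol d1 d2 Z A f ∧ (∀ z ∈ Z, Bt d1 a u z → z ∈ A ∨ z ∈ hol d1 d2 Z A f) ∧
    (∀ z ∈ Z, Bt d2 a u z → z ∈ A ∨ z ∈ hol d1 d2 Z A f)

private theorem strip {d1 d2 : Equiv.Perm (Fin n)} {Z A : Finset (Fin n)} {f : Fin n → Fin n}
    {a z : Fin n} (ha : a ∈ A) (hz : z ∈ Z) (h : Str d1 d2 f a z) :
    z ∈ A ∨ z ∈ hol d1 d2 Z A f := by
  by_cases hA : z ∈ A
  · exact Or.inl hA
  · exact Or.inr (mem_filter.2 ⟨hz, hA, a, ha, h⟩)

private theorem good_step {d1 d2 : Equiv.Perm (Fin n)} {Z A : Finset (Fin n)}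
    {f : Fin n → Fin n} {a u : Fin n} (ha : a ∈ A) (hg : Good d1 d2 Z A f (f a) u) :
    Good d1 d2 Z A f a u := by
  refine ⟨hg.1, fun z hz hb => ?_, fun z hz hb => ?_⟩
  · rcases bt_split (f a) hb with h | h
    · exact strip ha hz (Or.inl h)
    · exact hg.2.1 z hz h
  · rcases bt_split (f a) hb with h | h
    · exact strip ha hz (Or.inr h)
    · exact hg.2.2 z hz h

private theorem good_end {d1 d2 : Equiv.Perm (Fin n)} {Z A : Finset (Fin n)}
    {f : Fin n → Fin n} (h : Mv d1 d2 Z A f) {a : Fin n} (ha : a ∈ A) (hA : f a ∉ A) :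
    Good d1 d2 Z A f a (f a) := by
  refine ⟨?_, fun z hz hb => strip ha hz (Or.inl hb), fun z hz hb => strip ha hz (Or.inr hb)⟩
  rcases Mv_image h ha with h1 | h1
  · exact absurd h1 hA
  · exact h1

private theorem good_up {d1 d2 : Equiv.Perm (Fin n)} {Z A : Finset (Fin n)} {f : Fin n → Fin n}
    (h : Mv d1 d2 Z A f) : ∀ m : ℕ, ∀ a ∈ A, d1 a < d1 (f a) → n ≤ (d1 a : ℕ) + m →
      ∃ u, Good d1 d2 Z A f a u := by
  intro m
  induction m with
  | zero =>
    intro a _ _ h2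
    exact absurd (d1 a).isLt (by omega)
  | succ m ih =>
    intro a ha h1 h2
    by_cases hA : f a ∈ A
    · have h3 := h.fst a ha (f a) hA h1
      obtain ⟨u, hu⟩ := ih (f a) hA h3 (by have : (d1 a : ℕ) < (d1 (f a) : ℕ) := h1; omega)
      exact ⟨u, good_step ha hu⟩
    · exact ⟨f a, good_end h ha hA⟩

private theorem good_dn {d1 d2 : Equiv.Perm (Fin n)} {Z A : Finset (Fin n)} {f : Fin n → Fin n}
    (h : Mv d1 d2 Z A f) : ∀ m : ℕ, ∀ a ∈ A, d1 (f a) < d1 a → (d1 a : ℕ) ≤ m →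
      ∃ u, Good d1 d2 Z A f a u := by
  intro m
  induction m with
  | zero =>
    intro a _ h1 h2
    have : (d1 (f a) : ℕ) < (d1 a : ℕ) := h1
    omega
  | succ m ih =>
    intro a ha h1 h2
    by_cases hA : f a ∈ A
    · have h3 := h.fst (f a) hA a ha h1
      obtain ⟨u, hu⟩ := ih (f a) hA h3 (by have : (d1 (f a) : ℕ) < (d1 a : ℕ) := h1; omega)
      exact ⟨u, good_step ha hu⟩
    · exact ⟨f a, good_end h ha hA⟩

private theorem good_ex {d1 d2 : Equiv.Perm (Fin n)} {Z A : Finset (Fin n)} {f : Fin n → Fin n}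
    (h : Mv d1 d2 Z A f) {a : Fin n} (ha : a ∈ A) : ∃ u, Good d1 d2 Z A f a u := by
  have h1 : d1 (f a) ≠ d1 a := fun h2 => h.fix a ha (d1.injective h2)
  rcases lt_or_gt_of_ne h1 with h2 | h2
  · exact good_dn h _ a ha h2 le_rfl
  · exact good_up h n a ha h2 (by omega)

private theorem bt_comm {d : Equiv.Perm (Fin n)} {a b z : Fin n} (h : Bt d a b z) : Bt d b a z :=
  (Bt_swap d a b z).1 h

/-- hulls through a strip -/
private theorem hull {d : Equiv.Perm (Fin n)} {Z A H : Finset (Fin n)} {a c b u v : Fin n}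
    (hac : ∀ z ∈ Z, Bt d a c z → z ∈ A ∨ z ∈ H) (hb : Bt d a c b)
    (hu : ∀ z ∈ Z, Bt d a u z → z ∈ A ∨ z ∈ H) (hv : ∀ z ∈ Z, Bt d b v z → z ∈ A ∨ z ∈ H) :
    ∀ z ∈ Z, Bt d u v z → z ∈ A ∨ z ∈ H := by
  intro z hz h
  rcases bt_split b h with h1 | h1
  · rcases bt_split a h1 with h2 | h2
    · exact hu z hz (bt_comm h2)
    · exact hac z hz (bt_sub hb h2)
  · exact hv z hz h1

theorem qgraph {d1 d2 : Equiv.Perm (Fin n)} {Z A : Finset (Fin n)} {f : Fin n → Fin n}
    (h : Mv d1 d2 Z A f) (hc : Conn d1 d2 A f) (S : Finset (Fin n)) (hS : S ⊆ hol d1 d2 Z A f)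
    (hne : S.Nonempty) (hne' : S ≠ hol d1 d2 Z A f) :
    ∃ u ∈ S, ∃ v ∈ hol d1 d2 Z A f, v ∉ S ∧
      ((∀ z ∈ Z, Sb d1 u v z → z ∈ A) ∨ (∀ z ∈ Z, Sb d2 u v z → z ∈ A)) := by
  by_contra hcon
  push Not at hcon
  set H := hol d1 d2 Z A f with hH
  have hno1 : ∀ u ∈ S, ∀ v ∈ H, v ∉ S → ∃ z ∈ Z, Sb d1 u v z ∧ z ∉ A := fun u hu v hv hvS =>
    (hcon u hu v hv hvS).1
  have hno2 : ∀ u ∈ S, ∀ v ∈ H, v ∉ S → ∃ z ∈ Z, Sb d2 u v z ∧ z ∉ A := fun u hu v hv hvS =>
    (hcon u hu v hv hvS).2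
  -- one direction in each order
  have hex : ∀ a, ∃ u, a ∈ A → Good d1 d2 Z A f a u := by
    intro a
    by_cases ha : a ∈ A
    · obtain ⟨u, hu⟩ := good_ex h ha
      exact ⟨u, fun _ => hu⟩
    · exact ⟨a, fun h => absurd h ha⟩
  choose t ht using hex
  have hself1 : ∀ u z : Fin n, z ∈ Z → Bt d1 u u z → u ∈ H → z ∈ A ∨ z ∈ H := by
    intro u z _ hb hu
    have : d1 z = d1 u := by
      unfold Bt at hb
      omega
    exact Or.inr (d1.injective this ▸ hu)
  have hself2 : ∀ u z : Fin n, z ∈ Z → Bt d2 u u z → u ∈ H → z ∈ A ∨ z ∈ H := by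
    intro u z _ hb hu
    have : d2 z = d2 u := by
      unfold Bt at hb
      omega
    exact Or.inr (d2.injective this ▸ hu)
  -- general transfer
  have key : ∀ a ∈ A, ∀ b v : Fin n, Str d1 d2 f a b → v ∈ H →
      (∀ z ∈ Z, Bt d1 b v z → z ∈ A ∨ z ∈ H) → (∀ z ∈ Z, Bt d2 b v z → z ∈ A ∨ z ∈ H) →
      (t a ∈ S ↔ v ∈ S) := by
    intro a ha b v hs hv h1 h2
    have hg := ht a ha
    rcases hs with hs | hs
    · have hall := hull (fun z hz hb => strip ha hz (Or.inl hb)) hs hg.2.1 h1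
      constructor
      · intro h3
        by_contra h4
        exact sep' hno1 h3 hv h4 hall
      · intro h3
        by_contra h4
        exact sep' hno1 h3 hg.1 h4 fun z hz hb => hall z hz (bt_comm hb)
    · have hall := hull (fun z hz hb => strip ha hz (Or.inr hb)) hs hg.2.2 h2
      constructor
      · intro h3
        by_contra h4
        exact sep' hno2 h3 hv h4 hall
      · intro h3
        by_contra h4
        exact sep' hno2 h3 hg.1 h4 fun z hz hb => hall z hz (bt_comm hb)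
  have key2 : ∀ a ∈ A, ∀ b ∈ A, Str d1 d2 f a b → (t a ∈ S ↔ t b ∈ S) := by
    intro a ha b hb hs
    exact key a ha b (t b) hs (ht b hb).1 (ht b hb).2.1 (ht b hb).2.2
  have key3 : ∀ a ∈ A, ∀ u ∈ H, Str d1 d2 f a u → (t a ∈ S ↔ u ∈ S) := by
    intro a ha u hu hs
    exact key a ha u u hs hu (fun z hz hb => hself1 u z hz hb hu)
      (fun z hz hb => hself2 u z hz hb hu)
  have hHex : ∀ u ∈ H, ∃ a ∈ A, Str d1 d2 f a u := by
    intro u hu
    exact (mem_filter.1 hu).2.2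
  have hC1 : (A.filter fun a => t a ∈ S).Nonempty := by
    obtain ⟨u, hu⟩ := hne
    obtain ⟨a, ha, hs⟩ := hHex u (hS hu)
    exact ⟨a, mem_filter.2 ⟨ha, (key3 a ha u (hS hu) hs).2 hu⟩⟩
  have hC2 : (A.filter fun a => t a ∈ S) ≠ A := by
    intro hCA
    refine hne' (Finset.Subset.antisymm hS fun u hu => ?_)
    obtain ⟨a, ha, hs⟩ := hHex u hu
    refine (key3 a ha u hu hs).1 ?_
    rw [← hCA] at ha
    exact (mem_filter.1 ha).2
  obtain ⟨a, ha, b, hb, hbC, hs⟩ := hc _ (filter_subset _ _) hC1 hC2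
  rw [mem_filter] at ha
  have hbS : t b ∉ S := fun h1 => hbC (mem_filter.2 ⟨hb, h1⟩)
  rcases hs with hs | hs
  · exact hbS ((key2 a ha.1 b hb hs).1 ha.2)
  · exact hbS ((key2 b hb a ha.1 hs).2 ha.2)

end Pool.Agent.H68.PS
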