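import Pool.Agent.H68.PS.MvIrr
import Pool.Agent.H68.PS.QGraph
import Pool.Agent.H68.PS.AltMin

/-!
Module Coding (Lemma 6).

Proof. Apply `alt_min` to `Y`, `K ∩ Y = K \ X` and `G P = g Z X P` : get `P'`, `R`.
`g` has the values `0` (some event occurs) and `1`.
Case 1: `g (P' ∪ R) = 0`, `g P' = 1`.  An event `(A, f, x0)` occurs at `P' ∪ R`:
`hol ⊆ X ∪ (P' ∪ R)`, `x0 ∉ P' ∪ R`; it does not occur at `P' ∪ (R.erase r)`, `r ∈ R`, so
`r ∈ hol`: `R ⊆ hol`.  `hol.card ≤ X.card + Y.card ≤ W`.  `S = hol ∩ K` is nonempty: `f a ∈ X`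
for some `a ∈ A`, and `X` is disjoint from `A`, so `f a ∈ hol` (`Mv_image`); `S ≠ hol` because
`R ⊆ hol`, `R` nonempty and disjoint from `K`.  `qgraph`: `u ∈ S`, `v ∈ hol`, `v ∉ K` so `v ∈ R`
(`hol ⊆ X ∪ P' ∪ R`), with all points of `Z` strictly between `u` and `v` (for `d1`, say) in `A`.
If `v` is not deep, `v ∈ irr`, and the points of `irr` strictly between are in `A ∩ irr`, at most
`2 W (4ρ+2)^7 ≤ l` by `mv_irr`: `v ∈ vis d1 irr l u ⊆ fk K`.
Case 2: `g P' = 0`, `g (P' ∪ R) = 1`. An event occurs at `P'` : `hol ⊆ X ∪ P' ⊆ K`, `x0 ∉ P'`, and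
does not occur at `P' ∪ R`, so `x0 ∈ P' ∪ R`, `x0 ∈ R`.  `f x0 ∈ hol ⊆ K` (`Mv_image`, `Impr`),
`|rk d1 Z (f x0) - rk d1 Z x0| ≤ hol.card ≤ W ≤ ρ` (`lab_abs`; `x0 ∈ A` is not a hole), so
`x0 ∈ N_1(f x0) ⊆ N_4(f x0) ⊆ fk K`.
-/

set_option autoImplicit false

open Finset Classical

namespace Pool.Agent.H68.PS

variable {n : ℕ}

/-- points near a known point are determined -/
private theorem nb_sub_fk' (d1 d2 : Equiv.Perm (Fin n)) (ρ W l : ℕ) (Z K : Finset (Fin n))
    {u : Fin n} (hu : u ∈ K) : nb d1 d2 ρ Z u 4 ⊆ fk d1 d2 ρ W l Z K := by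
  intro v hv
  unfold fk
  rw [Finset.mem_biUnion]
  exact ⟨u, hu, Finset.mem_union_left _ (Finset.mem_union_left _ hv)⟩

theorem coding (d1 d2 : Equiv.Perm (Fin n)) (ρ W l : ℕ) (hρ : 2 * W + 1 ≤ ρ)
    (hl : 2 * W * (4 * ρ + 2) ^ 7 ≤ l) (Z X Y : Finset (Fin n)) (hX : X ⊆ Z) (hY : Y ⊆ Z)
    (hXY : Disjoint X Y) (hc : X.card + Y.card ≤ W) (he : e d1 d2 Z X Y ≠ 0)
    (K : Finset (Fin n)) (hXK : X ⊆ K) (hK : K ⊆ X ∪ Y) (hK' : K ≠ X ∪ Y) :
    ∃ y ∈ (X ∪ Y) \ K, y ∈ fk d1 d2 ρ W l Z K ∨ y ∈ Z \ irr d1 d2 ρ W Z := by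
  have hKX : K \ X ⊆ Y := by
    intro z hz
    rw [Finset.mem_sdiff] at hz
    rcases Finset.mem_union.mp (hK hz.1) with h | h
    · exact absurd h hz.2
    · exact h
  have hKX' : K \ X ≠ Y := by
    intro hh
    apply hK'
    apply Finset.Subset.antisymm hK
    intro z hz
    rcases Finset.mem_union.mp hz with h | h
    · exact hXK h
    · rw [← hh] at h
      exact (Finset.mem_sdiff.mp h).1
  have hKZ : K ⊆ Z := hK.trans (Finset.union_subset hX hY)
  obtain ⟨P', hP', R, hR, hRne, hG, hmin⟩ :=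
    alt_min Y (K \ X) hKX hKX' (fun P => g d1 d2 Z X P) he
  have hP'K : P' ⊆ K := fun z hz => (Finset.mem_sdiff.mp (hP' hz)).1
  have hP'Y : P' ⊆ Y := hP'.trans hKX
  have hRY : R ⊆ Y := fun z hz => (Finset.mem_sdiff.mp (hR hz)).1
  have hRK : ∀ z ∈ R, z ∉ K := by
    intro z hz hzK
    have h1 := Finset.mem_sdiff.mp (hR hz)
    have h2 : z ∉ X := fun hh => (Finset.disjoint_left.mp hXY hh) h1.1
    exact h1.2 (Finset.mem_sdiff.mpr ⟨hzK, h2⟩)
  have hfr : R ⊆ (X ∪ Y) \ K := by
    intro z hz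
    exact Finset.mem_sdiff.mpr ⟨Finset.mem_union_right _ (hRY hz), hRK z hz⟩
  have hcard : ∀ P, P ⊆ Y → ∀ H : Finset (Fin n), H ⊆ X ∪ P → H.card ≤ W := by
    intro P hP H hH
    have h1 := Finset.card_le_card hH
    have h2 := Finset.card_union_le X P
    have h3 := Finset.card_le_card hP
    omega
  by_cases hocc : Occ d1 d2 Z X (P' ∪ R)
  · -- case 1
    have hno : ¬ Occ d1 d2 Z X P' := by
      intro hh
      apply hG
      simp only [g]
      rw [if_pos hocc, if_pos hh]
    obtain ⟨A, f, x0, hev, hsub, hx0⟩ := hocc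
    have hRhol : R ⊆ hol d1 d2 Z A f := by
      intro r hr
      by_contra hrh
      have hne : R.erase r ≠ R := fun hh => (Finset.notMem_erase r R) (by rw [hh]; exact hr)
      have h1 := hmin (R.erase r) (Finset.erase_subset _ _) hne
      have h2 : Occ d1 d2 Z X (P' ∪ R.erase r) := by
        refine ⟨A, f, x0, hev, ?_, ?_⟩
        · intro z hz
          have h3 := hsub hz
          have h4 : z ≠ r := fun hh => hrh (by rw [← hh]; exact hz)
          simp only [Finset.mem_union, Finset.mem_erase] at h3 ⊢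
          tauto
        · intro hh
          apply hx0
          simp only [Finset.mem_union, Finset.mem_erase] at hh ⊢
          tauto
      simp only [g] at h1
      rw [if_pos h2, if_neg hno] at h1
      exact absurd h1 (by norm_num)
    have hW : (hol d1 d2 Z A f).card ≤ W := by
      apply hcard (P' ∪ R) (Finset.union_subset hP'Y hRY) _ hsub
    have hSne : (hol d1 d2 Z A f ∩ K).Nonempty := by
      obtain ⟨a, haA, hfa⟩ := hev.uses
      rcases Mv_image hev.mv haA with h | h
      · exact absurd hfa (Finset.disjoint_left.mp hev.disj h)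
      · exact ⟨f a, Finset.mem_inter.mpr ⟨h, hXK hfa⟩⟩
    have hSne' : hol d1 d2 Z A f ∩ K ≠ hol d1 d2 Z A f := by
      intro hh
      obtain ⟨r, hr⟩ := hRne
      have h1 := hRhol hr
      rw [← hh] at h1
      exact hRK r hr (Finset.mem_inter.mp h1).2
    obtain ⟨u, hu, v, hv, hvS, hbt⟩ :=
      qgraph hev.mv hev.conn (hol d1 d2 Z A f ∩ K) Finset.inter_subset_left hSne hSne'
    have hvK : v ∉ K := fun hh => hvS (Finset.mem_inter.mpr ⟨hv, hh⟩)
    have hvR : v ∈ R := by
      rcases Finset.mem_union.mp (hsub hv) with h | h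
      · exact absurd (hXK h) hvK
      · rcases Finset.mem_union.mp h with h' | h'
        · exact absurd (hP'K h') hvK
        · exact h'
    refine ⟨v, hfr hvR, ?_⟩
    have hvZ : v ∈ Z := hY (hRY hvR)
    by_cases hirr : v ∈ irr d1 d2 ρ W Z
    · left
      have hAI := mv_irr hev.mv ρ W hW hρ
      unfold fk
      rw [Finset.mem_biUnion]
      refine ⟨u, (Finset.mem_inter.mp hu).2, ?_⟩
      rcases hbt with hb | hb
      · apply Finset.mem_union_left
        apply Finset.mem_union_right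
        unfold vis
        rw [Finset.mem_filter]
        refine ⟨hirr, ?_⟩
        refine le_trans (Finset.card_le_card ?_) (hAI.trans hl)
        intro z hz
        rw [Finset.mem_filter] at hz
        have hzZ : z ∈ Z := by
          have := hz.1
          unfold irr at this
          exact (Finset.mem_filter.mp this).1
        exact Finset.mem_inter.mpr ⟨hb z hzZ hz.2, hz.1⟩
      · apply Finset.mem_union_right
        unfold vis
        rw [Finset.mem_filter]
        refine ⟨hirr, ?_⟩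
        refine le_trans (Finset.card_le_card ?_) (hAI.trans hl)
        intro z hz
        rw [Finset.mem_filter] at hz
        have hzZ : z ∈ Z := by
          have := hz.1
          unfold irr at this
          exact (Finset.mem_filter.mp this).1
        exact Finset.mem_inter.mpr ⟨hb z hzZ hz.2, hz.1⟩
    · right
      exact Finset.mem_sdiff.mpr ⟨hvZ, hirr⟩
  · -- case 2
    have hyes : Occ d1 d2 Z X P' := by
      by_contra hh
      apply hG
      simp only [g]
      rw [if_neg hocc, if_neg hh]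
    obtain ⟨A, f, x0, hev, hsub, hx0⟩ := hyes
    have hx0R : x0 ∈ R := by
      by_contra hh
      apply hocc
      refine ⟨A, f, x0, hev, ?_, ?_⟩
      · intro z hz
        have h3 := hsub hz
        simp only [Finset.mem_union] at h3 ⊢
        tauto
      · intro h
        rcases Finset.mem_union.mp h with h' | h'
        · exact hx0 h'
        · exact hh h'
    have hholK : hol d1 d2 Z A f ⊆ K := by
      intro z hz
      rcases Finset.mem_union.mp (hsub hz) with h | h
      · exact hXK h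
      · exact hP'K h
    have hW : (hol d1 d2 Z A f).card ≤ W := hcard P' hP'Y _ hsub
    have hx0A : x0 ∈ A := hev.impr.1
    have hfx : f x0 ∈ hol d1 d2 Z A f := by
      rcases Mv_image hev.mv hx0A with h | h
      · exact absurd h hev.impr.2.1
      · exact h
    have hx0Z : x0 ∈ Z := hev.mv.sub hx0A
    have hx0h : x0 ∉ hol d1 d2 Z A f := by
      intro hh
      unfold hol at hh
      exact (Finset.mem_filter.mp hh).2.1 hx0A
    have hlab := lab_abs hev.mv hx0Z hx0h
    have hext : ext A f x0 = f x0 := by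
      unfold ext
      rw [if_pos hx0A]
    rw [hext] at hlab
    refine ⟨x0, hfr hx0R, Or.inl ?_⟩
    apply nb_sub_fk' d1 d2 ρ W l Z K (hholK hfx)
    have hfZ : f x0 ∈ Z := hev.mv.maps x0 hx0A
    have h0 : f x0 ∈ nb d1 d2 ρ Z (f x0) 0 := by
      show f x0 ∈ ({f x0} : Finset (Fin n))
      exact Finset.mem_singleton_self _
    have h1 : x0 ∈ nb d1 d2 ρ Z (f x0) 1 := by
      apply nb_step d1 d2 ρ h0 hx0Z
      left
      rw [abs_sub_comm]
      have h2 : ((hol d1 d2 Z A f).card : ℤ) ≤ (W : ℤ) := by exact_mod_cast hW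
      have h3 : ((2 * W + 1 : ℕ) : ℤ) ≤ (ρ : ℤ) := by exact_mod_cast hρ
      push_cast at h3
      have h4 : (0 : ℤ) ≤ (W : ℤ) := Int.natCast_nonneg W
      linarith
    exact nb_mono d1 d2 ρ hfZ (by norm_num : 1 ≤ 4) h1

end Pool.Agent.H68.PS
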