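import Mathlib

/-!
Module RigArith (pure integer arithmetic): the core of the rigidity lemma.

`v k` is the value (relative to the value `v 0 = 0` of the removed point) of the `k`-th point in
position, `w k = v k - [0 < v k]` is its value after the removal of the point `0`.
`be`, `a`: labels before the removal, `be'`, `b`: labels after the removal.

Proof. `J = 3 W + 2`.
CLAIM A: for `2 |k| ≤ ρ` there is `l ≠ 0`, `|l| ≤ ρ`, `|v l - v k| ≤ J W`, with
`v (k + b) - v k = be' l` and `v (k - b) - v k = - be' l`. Let `k ≥ 0` (for `k < 0` use `l = k - j a`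
and negative signs). By `F1`, for `0 ≤ j ≤ J`: `v (k + j a) = v k + j * be k`, `be (k + j a) = be k`.
If `|v k + (W+1) be k| > W` put `j = W + 1`, otherwise `j = 3 W + 2` (then
`|v k + (3W+2) be k| ≥ (2W+1) |be k| - W > W`).  `l = k + j a > b`, `|v l| > W`.  By `F5` for `l`
and for `l - b`: `w (l+b) = w l + be' l`, `w l = w (l-b) + be' l`. As `|be' l| ≤ W < |v l|` and
`v x = 0` only for `x = 0`, the numbers `v l, v (l+b), v (l-b)` have the same sign, so
`v (l+b) = v l + be' l`, `v (l-b) = v l - be' l`.  Transport back in `j` steps of `a`: if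
`|v (x+b) - v x| ≤ W`, then `be (x+b) = be x` (`F2`), so
`v (x+b-a) - v (x-a) = v (x+b) - v x` (`F1`); same for `-b`.
If `k ≠ 0`, `be' l = be' k` by `F3`.
CLAIM B: let `-b ≤ m ≤ -1`. `v (m+b) = v m + be' m` by A; `w (m+b+1) = w m + be' m` by `F6`;
`v (m+b) ≠ v (m+b+1)`. So if `be' m > 0`: `v m < 0 < v (m+b+1)` and `v (m+b+1) = v (m+b) + 1`
(otherwise `v (m+b+1) = v m + be' m`), if `be' m < 0`: `v (m+b+1) < 0 < v m` hmm, precisely
`v m > 0 ≥ v (m+b)` and `v (m+b+1) = v (m+b) - 1`.  In both cases `|v m| ≤ W`, so by `F3` the number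
`be' m` does not depend on `m`; call it `γ`; by A for `k = 0` (with `l`, `|v l| ≤ J W`, so
`|v l - v m| ≤ (J+1) W ≤ ρ`, `be' l = γ`): `v b = γ`, `v (-b) = -γ`.  With `s = sign γ`:
`v (k+1) = v k + s` for `0 ≤ k < b`, so `v k = s k` for `0 ≤ k ≤ b`, `γ = v b = s b`.
EXTENSION: if `2 |k| ≤ ρ`, `v k = s k`, then `v (k+b) = v k + s b`, `v (k-b) = v k - s b`
(A with `be' l = γ`: `|v l - v m| ≤ J W + |k| + W ≤ ρ` for `m = -1`). By induction `v k = s k` for all `k`
with `4 |k| ≤ ρ` (first the `k ≥ 0` by steps of `b` from `0 ≤ k ≤ b`, then the negative ones).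
-/

set_option autoImplicit false

namespace Pool.Agent.H68.PS

/-- the facts on the window -/
structure Facts (ρ W a b : ℤ) (v be be' : ℤ → ℤ) : Prop where
  a1 : 1 ≤ a
  aW : a ≤ W
  b1 : 1 ≤ b
  bW : b ≤ W
  v0 : v 0 = 0
  inj : ∀ k l, |k| ≤ ρ → |l| ≤ ρ → v k = v l → k = l
  f1 : ∀ k, |k| ≤ ρ → |k + a| ≤ ρ → v (k + a) = v k + be k ∧ be (k + a) = be k
  f1' : ∀ k, |k| ≤ ρ → be k ≠ 0 ∧ |be k| ≤ W
  f2 : ∀ k l, |k| ≤ ρ → |l| ≤ ρ → |v k - v l| ≤ ρ → be k = be l
  f3 : ∀ k l, k ≠ 0 → l ≠ 0 → |k| ≤ ρ → |l| ≤ ρ → |v k - v l| ≤ ρ → be' k = be' l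
  f4 : ∀ k, k ≠ 0 → |k| ≤ ρ → be' k ≠ 0 ∧ |be' k| ≤ W
  f5 : ∀ k, |k| ≤ ρ → |k + b| ≤ ρ → (0 < k ∨ k + b < 0) →
    (v (k + b) - if 0 < v (k + b) then 1 else 0) = (v k - if 0 < v k then 1 else 0) + be' k ∧
      be' (k + b) = be' k
  f6 : ∀ k, -b ≤ k → k ≤ -1 →
    (v (k + b + 1) - if 0 < v (k + b + 1) then 1 else 0) = (v k - if 0 < v k then 1 else 0) + be' k

private theorem one_le_W {ρ W a b : ℤ} {v be be' : ℤ → ℤ} (h : Facts ρ W a b v be be') : 1 ≤ W :=
  le_trans h.a1 h.aW

private theorem stp {ρ W a b : ℤ} {v be be' : ℤ → ℤ} (h : Facts ρ W a b v be be') (n : ℕ) :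
    ∀ k : ℤ, |k| ≤ ρ → |k + n * a| ≤ ρ → v (k + n * a) = v k + n * be k ∧ be (k + n * a) = be k := by
  induction n with
  | zero =>
    intro k _ _
    simp
  | succ n ih =>
    intro k hk hk'
    have e : k + ((n + 1 : ℕ) : ℤ) * a = k + (n : ℤ) * a + a := by push_cast; ring
    rw [e] at hk' ⊢
    have ha := h.a1
    have hn : 0 ≤ (n : ℤ) * a := mul_nonneg (by positivity) (by linarith)
    have h1 : |k + (n : ℤ) * a| ≤ ρ := by
      rw [abs_le] at *
      constructor <;> linarith [hk.1, hk'.2]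
    obtain ⟨h2, h3⟩ := ih k hk h1
    obtain ⟨h4, h5⟩ := h.f1 (k + (n : ℤ) * a) h1 hk'
    refine ⟨?_, by rw [h5, h3]⟩
    rw [h4, h2, h3]
    push_cast
    ring

private theorem nz {ρ W a b : ℤ} {v be be' : ℤ → ℤ} (h : Facts ρ W a b v be be') {x : ℤ} (hx : |x| ≤ ρ)
    (hx0 : x ≠ 0) : v x ≠ 0 := by
  intro h1
  apply hx0
  apply h.inj x 0 hx
  · rw [abs_zero]; exact le_trans (abs_nonneg _) hx
  · rw [h1, h.v0]

private theorem core {ρ W a b : ℤ} {v be be' : ℤ → ℤ} (h : Facts ρ W a b v be be') {l : ℤ}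
    (hl : b < l ∨ l < -b) (hl2 : |l| + b ≤ ρ) (hv : W < |v l|) :
    v (l + b) = v l + be' l ∧ v (l - b) = v l - be' l := by
  have hb := h.b1
  have hl3 := abs_le.1 (show |l| ≤ ρ - b by linarith)
  have h1 : |l| ≤ ρ := by linarith
  have h2 : |l + b| ≤ ρ := by rw [abs_le]; constructor <;> linarith [hl3.1, hl3.2]
  have h3 : |l - b| ≤ ρ := by rw [abs_le]; constructor <;> linarith [hl3.1, hl3.2]
  have h4 : l ≠ 0 := by rcases hl with hl | hl <;> omega
  have h5 : l + b ≠ 0 := by rcases hl with hl | hl <;> omega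
  have h6 : l - b ≠ 0 := by rcases hl with hl | hl <;> omega
  have e1 := (h.f5 l h1 h2 (by rcases hl with hl | hl <;> omega)).1
  have e2 := h.f5 (l - b) h3 (by rw [sub_add_cancel]; exact h1) (by rcases hl with hl | hl <;> omega)
  rw [sub_add_cancel] at e2
  obtain ⟨e2, e3⟩ := e2
  rw [← e3] at e2
  have h7 := nz h h2 h5
  have h8 := nz h h3 h6
  have h9 := abs_le.1 (h.f4 l h4 h1).2
  have hW := one_le_W h
  rcases lt_abs.1 hv with hv | hv
  · constructor
    · split_ifs at e1 <;> omega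
    · split_ifs at e2 <;> omega
  · constructor
    · split_ifs at e1 <;> omega
    · split_ifs at e2 <;> omega

private theorem pick (W x B : ℤ) (hW : 1 ≤ W) (hB : B ≠ 0) :
    ∃ j : ℕ, W + 1 ≤ (j : ℤ) ∧ (j : ℤ) ≤ 3 * W + 2 ∧ W < |x + j * B| := by
  by_cases h1 : W < |x + (W + 1) * B|
  · refine ⟨(W + 1).toNat, ?_, ?_, ?_⟩
    · rw [Int.toNat_of_nonneg (by omega)]
    · rw [Int.toNat_of_nonneg (by omega)]; omega
    · rw [Int.toNat_of_nonneg (by omega)]; exact h1
  · refine ⟨(3 * W + 2).toNat, ?_, ?_, ?_⟩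
    · rw [Int.toNat_of_nonneg (by omega)]; omega
    · rw [Int.toNat_of_nonneg (by omega)]
    · rw [Int.toNat_of_nonneg (by omega)]
      by_contra h2
      have h3 := abs_le.1 (not_lt.1 h1)
      have h4 := abs_le.1 (not_lt.1 h2)
      rcases lt_or_gt_of_ne hB with h5 | h5
      · have h6 : B ≤ -1 := by omega
        nlinarith [h3.1, h3.2, h4.1, h4.2]
      · have h6 : 1 ≤ B := by omega
        nlinarith [h3.1, h3.2, h4.1, h4.2]

private theorem clA {ρ W a b : ℤ} {v be be' : ℤ → ℤ} (h : Facts ρ W a b v be be')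
    (hW : 20 * W * W ≤ ρ) {k : ℤ} (hk : 2 * |k| ≤ ρ) :
    ∃ l, l ≠ 0 ∧ |l| ≤ ρ ∧ |v l - v k| ≤ 5 * (W * W) ∧ v (k + b) = v k + be' l ∧
      v (k - b) = v k - be' l := by
  have hW1 := one_le_W h
  have ha := h.a1
  have haW := h.aW
  have hb := h.b1
  have hbW := h.bW
  have hWQ : W ≤ W * W := by nlinarith
  have hQ : 20 * (W * W) ≤ ρ := by linarith
  have hk1 : |k| ≤ ρ := by have := abs_nonneg k; linarith
  obtain ⟨hB0, hBW⟩ := h.f1' k hk1
  have hkk := abs_le.1 hk1
  by_cases hk0 : 0 ≤ k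
  · rw [abs_of_nonneg hk0] at hk
    obtain ⟨j, hj1, hj2, hj3⟩ := pick W (v k) (be k) hW1 hB0
    have hja1 : (j : ℤ) * a ≤ 5 * (W * W) := by nlinarith
    have hja2 : W + 1 ≤ (j : ℤ) * a := by nlinarith
    have hl : |k + j * a| ≤ ρ := by rw [abs_le]; constructor <;> linarith
    obtain ⟨s1, s2⟩ := stp h j k hk1 hl
    rw [← s1] at hj3
    obtain ⟨c1, c2⟩ := core h (l := k + j * a) (Or.inl (by linarith))
      (by rw [abs_of_nonneg (by linarith)]; linarith) hj3
    have hl0 : k + j * a ≠ 0 := by intro h0; linarith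
    have hbb := (h.f4 _ hl0 hl).2
    have hp1 : |k + b| ≤ ρ := by rw [abs_le]; constructor <;> linarith
    have hp2 : |k + b + j * a| ≤ ρ := by rw [abs_le]; constructor <;> linarith
    have hm1 : |k - b| ≤ ρ := by rw [abs_le]; constructor <;> linarith
    have hm2 : |k - b + j * a| ≤ ρ := by rw [abs_le]; constructor <;> linarith
    obtain ⟨p1, p2⟩ := stp h j (k + b) hp1 hp2
    obtain ⟨m1, m2⟩ := stp h j (k - b) hm1 hm2
    have ep : k + b + j * a = k + j * a + b := by ring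
    have em : k - b + j * a = k + j * a - b := by ring
    rw [ep] at p1 p2 hp2
    rw [em] at m1 m2 hm2
    have q1 := h.f2 (k + j * a + b) (k + j * a) hp2 hl (by
      rw [c1, add_sub_cancel_left]; linarith)
    have q2 := h.f2 (k + j * a - b) (k + j * a) hm2 hl (by
      rw [c2, sub_sub_cancel_left, abs_neg]; linarith)
    have r1 : be (k + b) = be k := by rw [← p2, q1, s2]
    have r2 : be (k - b) = be k := by rw [← m2, q2, s2]
    refine ⟨k + j * a, hl0, hl, ?_, ?_, ?_⟩
    · rw [s1, add_sub_cancel_left, abs_mul, Nat.abs_cast]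
      have := abs_nonneg (be k)
      nlinarith
    · rw [r1] at p1
      linarith
    · rw [r2] at m1
      linarith
  · have hk0 : k < 0 := not_le.1 hk0
    rw [abs_of_neg hk0] at hk
    obtain ⟨j, hj1, hj2, hj3⟩ := pick W (v k) (-be k) hW1 (neg_ne_zero.2 hB0)
    have hja1 : (j : ℤ) * a ≤ 5 * (W * W) := by nlinarith
    have hja2 : W + 1 ≤ (j : ℤ) * a := by nlinarith
    have hl : |k - j * a| ≤ ρ := by rw [abs_le]; constructor <;> linarith
    obtain ⟨s1, s2⟩ := stp h j (k - j * a) hl (by rw [sub_add_cancel]; exact hk1)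
    rw [sub_add_cancel] at s1 s2
    have s3 : v k + j * (-be k) = v (k - j * a) := by rw [s2]; linarith
    rw [s3] at hj3
    obtain ⟨c1, c2⟩ := core h (l := k - j * a) (Or.inr (by linarith))
      (by rw [abs_of_neg (by linarith)]; linarith) hj3
    have hl0 : k - j * a ≠ 0 := by intro h0; linarith
    have hbb := (h.f4 _ hl0 hl).2
    have hp1 : |k + b| ≤ ρ := by rw [abs_le]; constructor <;> linarith
    have hp2 : |k - j * a + b| ≤ ρ := by rw [abs_le]; constructor <;> linarith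
    have hm1 : |k - b| ≤ ρ := by rw [abs_le]; constructor <;> linarith
    have hm2 : |k - j * a - b| ≤ ρ := by rw [abs_le]; constructor <;> linarith
    have ep : k - j * a + b + j * a = k + b := by ring
    have em : k - j * a - b + j * a = k - b := by ring
    obtain ⟨p1, p2⟩ := stp h j (k - j * a + b) hp2 (by rw [ep]; exact hp1)
    obtain ⟨m1, m2⟩ := stp h j (k - j * a - b) hm2 (by rw [em]; exact hm1)
    rw [ep] at p1 p2
    rw [em] at m1 m2
    have q1 := h.f2 (k - j * a + b) (k - j * a) hp2 hl (by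
      rw [c1, add_sub_cancel_left]; linarith)
    have q2 := h.f2 (k - j * a - b) (k - j * a) hm2 hl (by
      rw [c2, sub_sub_cancel_left, abs_neg]; linarith)
    refine ⟨k - j * a, hl0, hl, ?_, ?_, ?_⟩
    · rw [← s3, add_sub_cancel_left, abs_mul, Nat.abs_cast, abs_neg]
      have := abs_nonneg (be k)
      nlinarith
    · rw [q1, c1] at p1
      linarith
    · rw [q2, c2] at m1
      linarith

theorem rig_arith {ρ W a b : ℤ} {v be be' : ℤ → ℤ} (h : Facts ρ W a b v be be')
    (hW : 20 * W * W ≤ ρ) :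
    ∃ s : ℤ, (s = 1 ∨ s = -1) ∧ ∀ k : ℤ, 4 * |k| ≤ ρ → v k = s * k := by
  have hW1 := one_le_W h
  have hb := h.b1
  have hbW := h.bW
  have hWQ : W ≤ W * W := by nlinarith
  have hQ : 20 * (W * W) ≤ ρ := by linarith
  have hρ : 0 ≤ ρ := by nlinarith
  -- `k ≠ 0`
  have A' : ∀ k : ℤ, k ≠ 0 → 2 * |k| ≤ ρ → v (k + b) = v k + be' k ∧ v (k - b) = v k - be' k := by
    intro k hk0 hk
    obtain ⟨l, h1, h2, h3, h4, h5⟩ := clA h hW hk
    have hk1 : |k| ≤ ρ := by have := abs_nonneg k; linarith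
    have h6 : be' l = be' k := h.f3 l k h1 hk0 h2 hk1 (by linarith)
    rw [h6] at h4 h5
    exact ⟨h4, h5⟩
  -- claim B
  have B1 : ∀ m : ℤ, -b ≤ m → m ≤ -1 → |v m| ≤ W ∧
      ((0 < be' m ∧ v (m + b + 1) = v (m + b) + 1) ∨ (be' m < 0 ∧ v (m + b + 1) = v (m + b) - 1)) := by
    intro m hm1 hm2
    have hm0 : m ≠ 0 := by omega
    have hma : |m| ≤ W := by rw [abs_le]; constructor <;> linarith
    have hmρ : |m| ≤ ρ := by linarith
    have h1 := (A' m hm0 (by linarith)).1
    have h2 := h.f6 m hm1 hm2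
    obtain ⟨h3, h4⟩ := h.f4 m hm0 hmρ
    have h4 := abs_le.1 h4
    have h5 : |m + b| ≤ ρ := by rw [abs_le]; constructor <;> linarith
    have h6 : |m + b + 1| ≤ ρ := by rw [abs_le]; constructor <;> linarith
    have h7 : v (m + b) ≠ v (m + b + 1) := fun h8 => by
      have := h.inj _ _ h5 h6 h8
      omega
    have h8 := nz h h6 (by omega)
    have h9 := nz h hmρ hm0
    rw [abs_le]
    split_ifs at h2 <;> omega
  have B2 : ∀ m : ℤ, -b ≤ m → m ≤ -1 → be' m = be' (-1) := by
    intro m hm1 hm2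
    have h1 := abs_le.1 (B1 m hm1 hm2).1
    have h2 := abs_le.1 (B1 (-1) (by omega) le_rfl).1
    refine h.f3 m (-1) (by omega) (by omega) ?_ ?_ ?_
    · rw [abs_le]; constructor <;> linarith
    · rw [abs_le]; constructor <;> linarith
    · rw [abs_le]; constructor <;> linarith
  have hv1 := abs_le.1 (B1 (-1) (by omega) le_rfl).1
  have hρ1 : |(-1 : ℤ)| ≤ ρ := by rw [abs_le]; constructor <;> linarith
  -- a common form of the extension
  have key : ∀ s : ℤ, (s = 1 ∨ s = -1) → (∀ k : ℤ, 0 ≤ k → k < b → v (k + 1) = v k + s) →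
      ∀ k : ℤ, 4 * |k| ≤ ρ → v k = s * k := by
    intro s hs hstep
    have hsabs : ∀ k : ℤ, |s * k| = |k| := by
      intro k
      rcases hs with rfl | rfl
      · rw [one_mul]
      · rw [neg_one_mul, abs_neg]
    have C1 : ∀ n : ℕ, (n : ℤ) ≤ b → v n = s * n := by
      intro n
      induction n with
      | zero => intro _; simp [h.v0]
      | succ n ih =>
        intro hn
        push_cast at hn ⊢
        rw [hstep n (by positivity) (by linarith), ih (by linarith)]
        ring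
    have C1' : ∀ k : ℤ, 0 ≤ k → k ≤ b → v k = s * k := by
      intro k hk0 hkb
      obtain ⟨n, rfl⟩ := Int.eq_ofNat_of_zero_le hk0
      exact C1 n hkb
    have hvb : v b = s * b := C1' b (by linarith) le_rfl
    have hγ : be' (-1) = s * b := by
      obtain ⟨l, h1, h2, h3, h4, h5⟩ := clA h hW (k := 0) (by rw [abs_zero]; linarith)
      rw [h.v0, zero_add, zero_add] at h4
      rw [h.v0, sub_zero] at h3
      have h3 := abs_le.1 h3
      have h6 : be' l = be' (-1) := h.f3 l (-1) h1 (by omega) h2 hρ1 (by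
        rw [abs_le]; constructor <;> linarith)
      rw [← h6, ← h4, hvb]
    have C2 : ∀ k : ℤ, 2 * |k| ≤ ρ → v k = s * k → v (k + b) = s * (k + b) ∧ v (k - b) = s * (k - b) := by
      intro k hk hvk
      obtain ⟨l, h1, h2, h3, h4, h5⟩ := clA h hW hk
      have h7 : |v k| = |k| := by rw [hvk, hsabs]
      have h8 := abs_le.1 (le_of_eq h7)
      have h3 := abs_le.1 h3
      have h6 : be' l = be' (-1) := h.f3 l (-1) h1 (by omega) h2 hρ1 (by
        rw [abs_le]; constructor <;> linarith)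
      rw [h6, hγ, hvk] at h4 h5
      refine ⟨by rw [h4]; ring, by rw [h5]; ring⟩
    have C3 : ∀ n : ℕ, 4 * (n : ℤ) ≤ ρ → v n = s * n := by
      intro n
      induction n using Nat.strong_induction_on with
      | _ n ih =>
        intro hn
        by_cases hnb : (n : ℤ) ≤ b
        · exact C1' n (by positivity) hnb
        · obtain ⟨c, hc⟩ := Int.eq_ofNat_of_zero_le (show (0 : ℤ) ≤ n - b by linarith)
          have h1 := ih c (by omega) (by omega)
          have h2 := (C2 c (by rw [Nat.abs_cast]; omega) h1).1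
          have h3 : (c : ℤ) + b = n := by omega
          rwa [h3] at h2
    have C4 : ∀ n : ℕ, 4 * (n : ℤ) ≤ ρ → v (-n) = s * (-n) := by
      intro n
      induction n using Nat.strong_induction_on with
      | _ n ih =>
        intro hn
        by_cases hn0 : n = 0
        · subst hn0; simp [h.v0]
        by_cases hnb : (n : ℤ) ≤ b
        · have h1 := C1' (b - n) (by linarith) (by linarith [show (0 : ℤ) ≤ n by positivity])
          have h2 := (C2 (b - n) (by rw [abs_of_nonneg (by linarith)]; linarith [show (0 : ℤ) ≤ n by positivity]) h1).2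
          have h3 : b - (n : ℤ) - b = -n := by ring
          rwa [h3] at h2
        · obtain ⟨c, hc⟩ := Int.eq_ofNat_of_zero_le (show (0 : ℤ) ≤ n - b by linarith)
          have h1 := ih c (by omega) (by omega)
          have h2 := (C2 (-c) (by rw [abs_neg, Nat.abs_cast]; omega) h1).2
          have h3 : -(c : ℤ) - b = -n := by omega
          rwa [h3] at h2
    intro k hk
    rcases le_total 0 k with hk0 | hk0
    · obtain ⟨n, rfl⟩ := Int.eq_ofNat_of_zero_le hk0
      rw [Nat.abs_cast] at hk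
      exact C3 n hk
    · obtain ⟨n, hn⟩ := Int.eq_ofNat_of_zero_le (show (0 : ℤ) ≤ -k by linarith)
      have hkn : k = -(n : ℤ) := by omega
      rw [hkn] at hk ⊢
      rw [abs_neg, Nat.abs_cast] at hk
      exact C4 n hk
  rcases (B1 (-1) (by omega) le_rfl).2 with ⟨hpos, -⟩ | ⟨hneg, -⟩
  · refine ⟨1, Or.inl rfl, key 1 (Or.inl rfl) ?_⟩
    intro k hk0 hkb
    have h1 := (B1 (k - b) (by linarith) (by omega)).2
    have h2 := B2 (k - b) (by linarith) (by omega)
    rw [h2, sub_add_cancel] at h1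
    rcases h1 with ⟨-, h1⟩ | ⟨h1, -⟩
    · exact h1
    · omega
  · refine ⟨-1, Or.inr rfl, key (-1) (Or.inr rfl) ?_⟩
    intro k hk0 hkb
    have h1 := (B1 (k - b) (by linarith) (by omega)).2
    have h2 := B2 (k - b) (by linarith) (by omega)
    rw [h2, sub_add_cancel] at h1
    rcases h1 with ⟨h1, -⟩ | ⟨-, h1⟩
    · omega
    · rw [h1]; ring

end Pool.Agent.H68.PS
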