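import Pool.Agent.H68.PS.WinPt

/-!
Module WinB: the facts `f3, f4, f5, f6` of `Facts`: labels in `T'` (the point `y` is removed).

`p k = pt d1 T y k`, `v k = rk d2 T (p k) - rk d2 T y`.
(1) `p k ∈ T'` for `k ≠ 0`, `|k| ≤ ρ` (`p k ∈ N_1(y) ⊆ N_2(y)`, `p k ≠ y`).
(2) `d1`-ranks in `T'`: all points of `T` with `d1`-rank between `rk y - ρ` and `rk y + ρ` are `p`'s, so
in `T'` except `y`; by `rk_diff_sub`: `rk d1 T' (p l) - rk d1 T' (p k) = l - k` if `k < l` are on the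
same side of `0`, `= l - k - 1` if `k < 0 < l`.
(3) `p k ∈ N'_2(u0)` for `k ≠ 0` (`N'` = neighbourhoods in `T'`): `u0 = p k0`; `p 1` and `p (-1)` are
within `ρ` of `u0` in `T'`, and `p k` is within `ρ` of `p 1` or of `p (-1)`.
(4) `al'` is constant on the `p k`, `k ≠ 0` (`win_al` for `T'`, `u0`, `c = 2`, and
adjacency of `p (-1)`, `p 1` in `T'`).  Take `σ = ± 1` with `b = σ al' (p 1) > 0`, `be0' k = σ be' (p k)`.
(5) `d2`-ranks: let `u = p k`, `k ≠ 0`, and `v' ∈ T'` with `|rk d2 T' v' - rk d2 T' u| ≤ W`.  The points of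
`T` within `ρ` of `u` for `d2` are in `N_2(y)`, so in `T'` except `y`; so `|rk d2 T v' - rk d2 T u| ≤ W + 1`
and by `rk_diff_sub` the two differences agree up to `1` if `y` is strictly between (in `d2`), i.e.
`(w v' - w u) = rk d2 T' v' - rk d2 T' u` with `w z = (rk z - rk y) - [rk y < rk z]` (`rk = rk d2 T`).
(`W + 1 ≤ ρ`.)
(6) `f3`: `win_be` for `T'`, `u0`, `c = 2` and `rk_abs_sub`.  `f5`: the point `up`/`dn` of `p k` in `T'`
has `d1`-rank (in `T'`) `rk d1 T' (p k) + b`, so it is `p (k+b)` by (2); use (5).  The other one for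
`p (k+b)` is `p k`, so `be0' (k+b) = be0' k`.  `f6`: the same with `p (k+b+1)` for `-b ≤ k ≤ -1`.
-/

set_option autoImplicit false

open Finset Classical

namespace Pool.Agent.H68.PS

variable {n : ℕ}

private theorem key_aux {d : Equiv.Perm (Fin n)} {T T' : Finset (Fin n)} (hT : T' ⊆ T) {y : Fin n}
    (hy : y ∈ T) (hy' : y ∉ T') {u v : Fin n} (hu : u ∈ T') (hv : v ∈ T') (huv : d u ≤ d v)
    (hb : ∀ w ∈ T, d u < d w → d w < d v → w ∈ T' ∨ w = y) :
    rk d T' v - rk d T' u =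
      (rk d T v - rk d T y - if 0 < rk d T v - rk d T y then 1 else 0) -
        (rk d T u - rk d T y - if 0 < rk d T u - rk d T y then 1 else 0) := by
  have h1 := rk_diff_sub d hT hu huv
  have huy : u ≠ y := fun h => hy' (h ▸ hu)
  have hvy : v ≠ y := fun h => hy' (h ▸ hv)
  have eu : (0 < rk d T u - rk d T y) ↔ d y < d u := by
    rw [sub_pos]
    exact rk_lt_iff d T hy (hT hu)
  have ev : (0 < rk d T v - rk d T y) ↔ d y < d v := by
    rw [sub_pos]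
    exact rk_lt_iff d T hy (hT hv)
  have hdu : d u ≠ d y := fun h => huy (d.injective h)
  have hdv : d v ≠ d y := fun h => hvy (d.injective h)
  by_cases hc : d u < d y ∧ d y < d v
  · have hf : ((T \ T').filter (fun w => d u < d w ∧ d w < d v)) = {y} := by
      ext w
      simp only [Finset.mem_filter, Finset.mem_sdiff, Finset.mem_singleton]
      constructor
      · rintro ⟨⟨a1, a2⟩, a3, a4⟩
        exact (hb w a1 a3 a4).resolve_left a2
      · rintro rfl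
        exact ⟨⟨hy, hy'⟩, hc⟩
    rw [hf, Finset.card_singleton] at h1
    rw [if_pos (ev.2 hc.2), if_neg (fun h => lt_asymm hc.1 (eu.1 h))]
    push_cast at h1
    omega
  · have hf : ((T \ T').filter (fun w => d u < d w ∧ d w < d v)) = ∅ := by
      rw [Finset.filter_eq_empty_iff]
      intro w hw h2
      rw [Finset.mem_sdiff] at hw
      rcases hb w hw.1 h2.1 h2.2 with h3 | h3
      · exact hw.2 h3
      · rw [h3] at h2
        exact hc h2
    rw [hf, Finset.card_empty] at h1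
    by_cases h3 : d y < d u
    · rw [if_pos (ev.2 (lt_of_lt_of_le h3 huv)), if_pos (eu.2 h3)]
      push_cast at h1
      omega
    · have h4 : d u < d y := lt_of_le_of_ne (not_lt.1 h3) hdu
      have h5 : ¬ d y < d v := fun h => hc ⟨h4, h⟩
      rw [if_neg (fun h => h5 (ev.1 h)), if_neg (fun h => h3 (eu.1 h))]
      push_cast at h1
      omega

private theorem key {d : Equiv.Perm (Fin n)} {T T' : Finset (Fin n)} (hT : T' ⊆ T) {y : Fin n}
    (hy : y ∈ T) (hy' : y ∉ T') {u v : Fin n} (hu : u ∈ T') (hv : v ∈ T')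
    (hb : ∀ w ∈ T, Sb d u v w → w ∈ T' ∨ w = y) :
    rk d T' v - rk d T' u =
      (rk d T v - rk d T y - if 0 < rk d T v - rk d T y then 1 else 0) -
        (rk d T u - rk d T y - if 0 < rk d T u - rk d T y then 1 else 0) := by
  rcases le_total (d u) (d v) with h | h
  · exact key_aux hT hy hy' hu hv h fun w hw h1 h2 => hb w hw (Or.inl ⟨h1, h2⟩)
  · have := key_aux hT hy hy' hv hu h fun w hw h1 h2 => hb w hw (Or.inr ⟨h1, h2⟩)
    omega

/-- strictly between in the order: the rank is strictly between -/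
private theorem sb_rk {d : Equiv.Perm (Fin n)} {T : Finset (Fin n)} {u v w : Fin n}
    (hu : u ∈ T) (hv : v ∈ T) (hw : w ∈ T) (h : Sb d u v w) :
    (rk d T u < rk d T w ∧ rk d T w < rk d T v) ∨ (rk d T v < rk d T w ∧ rk d T w < rk d T u) := by
  rcases h with ⟨h1, h2⟩ | ⟨h1, h2⟩
  · exact Or.inl ⟨(rk_lt_iff d T hu hw).2 h1, (rk_lt_iff d T hw hv).2 h2⟩
  · exact Or.inr ⟨(rk_lt_iff d T hv hw).2 h1, (rk_lt_iff d T hw hu).2 h2⟩

/-- points at a short distance in `T'` are at a short distance in `T` -/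
private theorem near2 {d : Equiv.Perm (Fin n)} {T T' : Finset (Fin n)} (hT : T' ⊆ T) {y : Fin n}
    (hy : y ∈ T) (hy' : y ∉ T') {u v : Fin n} (hu : u ∈ T') (hv : v ∈ T') {ρ W : ℤ}
    (hWρ : 2 * W + 1 ≤ ρ) (hW : 1 ≤ W)
    (hb : ∀ w ∈ T, |rk d T w - rk d T u| ≤ ρ → w ∈ T' ∨ w = y)
    (h : |rk d T' v - rk d T' u| ≤ W) : |rk d T v - rk d T u| ≤ ρ := by
  have h' := abs_le.1 h
  by_contra hc
  rw [not_le, lt_abs] at hc
  rcases hc with hc | hc
  · obtain ⟨z, hz, hz1⟩ := rk_btw d T (hT hu) (hT hv) (rk d T u + ρ) (by omega) (by omega)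
    obtain ⟨z2, hz2, hz3⟩ := rk_btw d T (hT hu) (hT hv) (rk d T u + (ρ - 1)) (by omega) (by omega)
    have hex : ∃ z ∈ T', rk d T u + (ρ - 1) ≤ rk d T z ∧ rk d T z ≤ rk d T u + ρ := by
      rcases hb z hz (by rw [hz1, add_sub_cancel_left, abs_of_nonneg (by omega)]) with h3 | h3
      · exact ⟨z, h3, by omega, by omega⟩
      · rcases hb z2 hz2 (by rw [hz3, add_sub_cancel_left, abs_of_nonneg (by omega)]; omega)
          with h4 | h4
        · exact ⟨z2, h4, by omega, by omega⟩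
        · rw [h3] at hz1
          rw [h4] at hz3
          omega
    obtain ⟨z, hz, h1, h2⟩ := hex
    have hk := key (d := d) hT hy hy' hu hz fun w hw h3 => by
      refine hb w hw ?_
      rcases sb_rk (hT hu) (hT hz) hw h3 with h4 | h4
      · rw [abs_of_nonneg (by omega)]
        omega
      · omega
    have h5 : rk d T' z < rk d T' v :=
      (rk_lt_iff d T' hz hv).2 ((rk_lt_iff d T (hT hz) (hT hv)).1 (by omega))
    split_ifs at hk <;> omega
  · obtain ⟨z, hz, hz1⟩ := rk_btw d T (hT hv) (hT hu) (rk d T u - ρ) (by omega) (by omega)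
    obtain ⟨z2, hz2, hz3⟩ := rk_btw d T (hT hv) (hT hu) (rk d T u - (ρ - 1)) (by omega) (by omega)
    have hex : ∃ z ∈ T', rk d T z ≤ rk d T u - (ρ - 1) ∧ rk d T u - ρ ≤ rk d T z := by
      rcases hb z hz (by rw [hz1, abs_le]; constructor <;> omega) with h3 | h3
      · exact ⟨z, h3, by omega, by omega⟩
      · rcases hb z2 hz2 (by rw [hz3, abs_le]; constructor <;> omega) with h4 | h4
        · exact ⟨z2, h4, by omega, by omega⟩
        · rw [h3] at hz1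
          rw [h4] at hz3
          omega
    obtain ⟨z, hz, h1, h2⟩ := hex
    have hk := key (d := d) hT hy hy' hu hz fun w hw h3 => by
      refine hb w hw ?_
      rcases sb_rk (hT hu) (hT hz) hw h3 with h4 | h4
      · omega
      · rw [abs_le]
        constructor <;> omega
    have h5 : rk d T' v < rk d T' z :=
      (rk_lt_iff d T' hv hz).2 ((rk_lt_iff d T (hT hv) (hT hz)).1 (by omega))
    split_ifs at hk <;> omega

theorem win_b {d1 d2 : Equiv.Perm (Fin n)} {ρ W : ℕ} (hWρ : 2 * W + 1 ≤ ρ)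
    {T T' : Finset (Fin n)} (hT : T' ⊆ T) {y : Fin n} (hy : y ∈ T) (hy' : y ∉ T')
    {al be : Fin n → ℤ} (hl : Lab d1 d2 W T (nb d1 d2 ρ T y 2) al be)
    (hN : (nb d1 d2 ρ T y 2).erase y ⊆ T') {u0 : Fin n} (hu0 : u0 ∈ T')
    (hnear : |rk d1 T u0 - rk d1 T y| ≤ (ρ : ℤ)) {al' be' : Fin n → ℤ}
    (hl' : Lab d1 d2 W T' (nb d1 d2 ρ T' u0 3) al' be')
    (v : ℤ → ℤ) (hv : ∀ k, v k = rk d2 T (pt d1 T y k) - rk d2 T y) :
    ∃ (b : ℤ) (be0 : ℤ → ℤ), 1 ≤ b ∧ b ≤ W ∧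
      (∀ k l, k ≠ 0 → l ≠ 0 → |k| ≤ (ρ : ℤ) → |l| ≤ (ρ : ℤ) → |v k - v l| ≤ (ρ : ℤ) →
        be0 k = be0 l) ∧
      (∀ k, k ≠ 0 → |k| ≤ (ρ : ℤ) → be0 k ≠ 0 ∧ |be0 k| ≤ W) ∧
      (∀ k, |k| ≤ (ρ : ℤ) → |k + b| ≤ (ρ : ℤ) → (0 < k ∨ k + b < 0) →
        (v (k + b) - if 0 < v (k + b) then 1 else 0) = (v k - if 0 < v k then 1 else 0) + be0 k ∧
          be0 (k + b) = be0 k) ∧
      (∀ k, -b ≤ k → k ≤ -1 →
        (v (k + b + 1) - if 0 < v (k + b + 1) then 1 else 0) =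
          (v k - if 0 < v k then 1 else 0) + be0 k) := by
  have hWρ' : W ≤ ρ := by omega
  have hW := fun k hk => win_pt hWρ' hy hl k hk
  have hyT : y ∈ T := hy
  -- points of the window are in `T'`
  have hmono : nb d1 d2 ρ T y 1 ⊆ nb d1 d2 ρ T y 2 := nb_mono d1 d2 ρ hy (by norm_num)
  have hin2 : ∀ w ∈ nb d1 d2 ρ T y 2, w ∈ T' ∨ w = y := by
    intro w hw
    by_cases h : w = y
    · exact Or.inr h
    · exact Or.inl (hN (Finset.mem_erase.2 ⟨h, hw⟩))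
  have hne : ∀ k, |k| ≤ (ρ : ℤ) → k ≠ 0 → pt d1 T y k ≠ y := by
    intro k hk h0 h
    have h1 := (hW k hk).2.1
    rw [h] at h1
    omega
  have hT1 : ∀ k, |k| ≤ (ρ : ℤ) → k ≠ 0 → pt d1 T y k ∈ T' := fun k hk h0 =>
    (hin2 _ (hmono (hW k hk).2.2.1)).resolve_right (hne k hk h0)
  -- ranks for `d1` in `T'`
  have hr1 : ∀ k l, |k| ≤ (ρ : ℤ) → k ≠ 0 → |l| ≤ (ρ : ℤ) → l ≠ 0 →
      rk d1 T' (pt d1 T y l) - rk d1 T' (pt d1 T y k) =
        (l - if 0 < l then 1 else 0) - (k - if 0 < k then 1 else 0) := by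
    intro k l hk hk0 hl1 hl0
    have h1 := key (d := d1) hT hy hy' (hT1 k hk hk0) (hT1 l hl1 hl0) fun w hw h => by
      have h2 := sb_rk (hW k hk).1 (hW l hl1).1 hw h
      rw [(hW k hk).2.1, (hW l hl1).2.1] at h2
      have hk' := abs_le.1 hk
      have hl' := abs_le.1 hl1
      refine hin2 w (nb_step d1 d2 ρ (nb_mono d1 d2 ρ hy (show 0 ≤ 1 by norm_num)
        (mem_singleton_self y)) hw (Or.inl ?_))
      rw [abs_le]
      constructor <;> omega
    rw [(hW k hk).2.1, (hW l hl1).2.1, add_sub_cancel_left, add_sub_cancel_left] at h1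
    exact h1
  -- the point u0
  have hu0y : u0 ≠ y := fun h => hy' (h ▸ hu0)
  set k0 : ℤ := rk d1 T u0 - rk d1 T y with hk0
  have hk00 : k0 ≠ 0 := fun h => hu0y (rk_inj d1 T (hT hu0) hy (by omega))
  have hu0p : u0 = pt d1 T y k0 :=
    rk_inj d1 T (hT hu0) (hW k0 hnear).1 (by rw [(hW k0 hnear).2.1, hk0]; ring)
  have hρ1 : |(1 : ℤ)| ≤ (ρ : ℤ) := by
    rw [abs_one]
    omega
  have hp1 : pt d1 T y 1 ∈ nb d1 d2 ρ T' u0 1 := by
    refine nb_step d1 d2 ρ (mem_singleton_self u0) (hT1 1 hρ1 one_ne_zero) (Or.inl ?_)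
    conv_lhs => rw [hu0p]
    rw [hr1 k0 1 hnear hk00 hρ1 one_ne_zero]
    have := abs_le.1 hnear
    rw [abs_le]
    constructor <;> split_ifs <;> omega
  have hd1 : ∀ k, |k| ≤ (ρ : ℤ) → k ≠ 0 →
      |rk d1 T' (pt d1 T y k) - rk d1 T' (pt d1 T y 1)| ≤ (ρ : ℤ) := by
    intro k hk h0
    rw [hr1 1 k hρ1 one_ne_zero hk h0]
    have := abs_le.1 hk
    rw [abs_le]
    constructor <;> split_ifs <;> omega
  have hp2 : ∀ k, |k| ≤ (ρ : ℤ) → k ≠ 0 → pt d1 T y k ∈ nb d1 d2 ρ T' u0 2 :=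
    fun k hk h0 => nb_step d1 d2 ρ hp1 (hT1 k hk h0) (Or.inl (hd1 k hk h0))
  have hp3 : ∀ k, |k| ≤ (ρ : ℤ) → k ≠ 0 → pt d1 T y k ∈ nb d1 d2 ρ T' u0 3 :=
    fun k hk h0 => nb_mono d1 d2 ρ hu0 (by norm_num) (hp2 k hk h0)
  have hal : ∀ k, |k| ≤ (ρ : ℤ) → k ≠ 0 → al' (pt d1 T y k) = al' (pt d1 T y 1) :=
    fun k hk h0 => (win_al (c := 2) hu0 hl' (hp2 1 hρ1 one_ne_zero) (hT1 k hk h0)
      (hd1 k hk h0)).symm
  have hs0 := hl'.nz1 _ (hp3 1 hρ1 one_ne_zero)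
  have hsW := hl'.b1 _ (hp3 1 hρ1 one_ne_zero)
  -- uniform form of the labels
  obtain ⟨b, be0, hb1, hbW, hbe, hup, hdn⟩ : ∃ (b : ℤ) (be0 : ℤ → ℤ), 1 ≤ b ∧ b ≤ W ∧
      ((∀ k, be0 k = be' (pt d1 T y k)) ∨ (∀ k, be0 k = - be' (pt d1 T y k))) ∧
      (∀ k, |k| ≤ (ρ : ℤ) → k ≠ 0 → ∃ w ∈ T', rk d1 T' w = rk d1 T' (pt d1 T y k) + b ∧
        rk d2 T' w = rk d2 T' (pt d1 T y k) + be0 k) ∧
      (∀ k, |k| ≤ (ρ : ℤ) → k ≠ 0 → ∃ w ∈ T', rk d1 T' w = rk d1 T' (pt d1 T y k) - b ∧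
        rk d2 T' w = rk d2 T' (pt d1 T y k) - be0 k) := by
    have h := abs_le.1 hsW
    rcases lt_or_gt_of_ne hs0 with hneg | hpos
    · refine ⟨-al' (pt d1 T y 1), fun k => - be' (pt d1 T y k), by omega, by omega,
        Or.inr fun k => rfl, ?_, ?_⟩
      · intro k hk h0
        obtain ⟨w, hw, h1, h2⟩ := hl'.dn _ (hp3 k hk h0)
        rw [hal k hk h0] at h1
        exact ⟨w, hw, by rw [h1]; ring, by rw [h2]; ring⟩
      · intro k hk h0
        obtain ⟨w, hw, h1, h2⟩ := hl'.up _ (hp3 k hk h0)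
        rw [hal k hk h0] at h1
        exact ⟨w, hw, by rw [h1]; ring, by rw [h2]; ring⟩
    · refine ⟨al' (pt d1 T y 1), fun k => be' (pt d1 T y k), by omega, by omega,
        Or.inl fun k => rfl, ?_, ?_⟩
      · intro k hk h0
        obtain ⟨w, hw, h1, h2⟩ := hl'.up _ (hp3 k hk h0)
        rw [hal k hk h0] at h1
        exact ⟨w, hw, h1, h2⟩
      · intro k hk h0
        obtain ⟨w, hw, h1, h2⟩ := hl'.dn _ (hp3 k hk h0)
        rw [hal k hk h0] at h1
        exact ⟨w, hw, h1, h2⟩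
  have hb0 : ∀ k, |k| ≤ (ρ : ℤ) → k ≠ 0 → be0 k ≠ 0 ∧ |be0 k| ≤ W := by
    intro k hk h0
    have h1 := hl'.nz2 _ (hp3 k hk h0)
    have h2 := hl'.b2 _ (hp3 k hk h0)
    rcases hbe with h | h
    · rw [h k]
      exact ⟨h1, h2⟩
    · rw [h k, abs_neg]
      exact ⟨neg_ne_zero.2 h1, h2⟩
  have hW1 : (1 : ℤ) ≤ W := by omega
  -- ranks for `d2`
  have hr2 : ∀ k l, |k| ≤ (ρ : ℤ) → k ≠ 0 → |l| ≤ (ρ : ℤ) → l ≠ 0 →
      |rk d2 T' (pt d1 T y l) - rk d2 T' (pt d1 T y k)| ≤ (W : ℤ) →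
      (v l - if 0 < v l then 1 else 0) =
        (v k - if 0 < v k then 1 else 0) +
          (rk d2 T' (pt d1 T y l) - rk d2 T' (pt d1 T y k)) := by
    intro k l hk hk0 hl1 hl0 h
    have hin : ∀ w ∈ T, |rk d2 T w - rk d2 T (pt d1 T y k)| ≤ (ρ : ℤ) → w ∈ T' ∨ w = y :=
      fun w hw h1 => hin2 w (nb_step d1 d2 ρ (hW k hk).2.2.1 hw (Or.inr h1))
    have h2 := near2 (d := d2) hT hy hy' (hT1 k hk hk0) (hT1 l hl1 hl0)
      (ρ := (ρ : ℤ)) (W := (W : ℤ)) (by omega) hW1 hin h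
    have h3 := abs_le.1 h2
    have h1 := key (d := d2) hT hy hy' (hT1 k hk hk0) (hT1 l hl1 hl0) fun w hw h4 => by
      have h5 := sb_rk (hW k hk).1 (hW l hl1).1 hw h4
      refine hin w hw ?_
      rw [abs_le]
      constructor <;> omega
    rw [← hv, ← hv] at h1
    omega
  refine ⟨b, be0, hb1, hbW, ?_, fun k h0 hk => hb0 k hk h0, ?_, ?_⟩
  · intro k l hk0 hl0 hk hl1 h
    have h1 : be' (pt d1 T y k) = be' (pt d1 T y l) := by
      refine win_be (c := 2) hu0 hl' (hp2 k hk hk0) (hT1 l hl1 hl0) ?_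
      refine (rk_abs_sub d2 hT (hT1 l hl1 hl0) (hT1 k hk hk0)).trans ?_
      rw [hv, hv, sub_sub_sub_cancel_right, abs_sub_comm] at h
      exact h
    rcases hbe with h2 | h2
    · rw [h2 k, h2 l, h1]
    · rw [h2 k, h2 l, h1]
  · intro k hk hkb h
    have hk0 : k ≠ 0 := by omega
    have hkb0 : k + b ≠ 0 := by omega
    have hr := hr1 k (k + b) hk hk0 hkb hkb0
    have hr' : rk d1 T' (pt d1 T y (k + b)) = rk d1 T' (pt d1 T y k) + b := by
      rcases h with h | h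
      · rw [if_pos h, if_pos (by omega)] at hr
        omega
      · rw [if_neg (by omega), if_neg (by omega)] at hr
        omega
    obtain ⟨w, hw, h1, h2⟩ := hup k hk hk0
    have h3 : w = pt d1 T y (k + b) := rk_inj d1 T' hw (hT1 _ hkb hkb0) (by rw [h1, hr'])
    rw [h3] at h2
    have h4 := hr2 k (k + b) hk hk0 hkb hkb0 (by
      rw [h2, add_sub_cancel_left]
      exact (hb0 k hk hk0).2)
    rw [h2, add_sub_cancel_left] at h4
    refine ⟨h4, ?_⟩
    obtain ⟨w', hw', h5, h6⟩ := hdn (k + b) hkb hkb0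
    have h7 : w' = pt d1 T y k := rk_inj d1 T' hw' (hT1 _ hk hk0) (by rw [h5, hr']; ring)
    rw [h7] at h6
    omega
  · intro k hk1 hk2
    have hk : |k| ≤ (ρ : ℤ) := by
      rw [abs_le]
      constructor <;> omega
    have hk0 : k ≠ 0 := by omega
    have hkb : |k + b + 1| ≤ (ρ : ℤ) := by
      rw [abs_le]
      constructor <;> omega
    have hkb0 : k + b + 1 ≠ 0 := by omega
    have hr := hr1 k (k + b + 1) hk hk0 hkb hkb0
    rw [if_neg (show ¬ 0 < k by omega), if_pos (show 0 < k + b + 1 by omega)] at hr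
    obtain ⟨w, hw, h1, h2⟩ := hup k hk hk0
    have h3 : w = pt d1 T y (k + b + 1) :=
      rk_inj d1 T' hw (hT1 _ hkb hkb0) (by rw [h1]; omega)
    rw [h3] at h2
    have h4 := hr2 k (k + b + 1) hk hk0 hkb hkb0 (by
      rw [h2, add_sub_cancel_left]
      exact (hb0 k hk hk0).2)
    rw [h2, add_sub_cancel_left] at h4
    exact h4

end Pool.Agent.H68.PS
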