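import Pool.Agent.H68.PS.WinA
import Pool.Agent.H68.PS.WinB
import Pool.Agent.H68.PS.RigArith

/-!
Module Rigid (Lemma 7): assembly.
-/

set_option autoImplicit false

open Finset Classical

namespace Pool.Agent.H68.PS

variable {n : ℕ}

theorem Lab_swap {d1 d2 : Equiv.Perm (Fin n)} {W : ℕ} {Z N : Finset (Fin n)} {al be : Fin n → ℤ}
    (h : Lab d1 d2 W Z N al be) : Lab d2 d1 W Z N be al where
  nz1 := h.nz2
  nz2 := h.nz1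
  b1 := h.b2
  b2 := h.b1
  c1 := h.c2
  c2 := h.c1
  up := fun u hu => by
    obtain ⟨v, hv, h1, h2⟩ := h.up u hu
    exact ⟨v, hv, h2, h1⟩
  dn := fun u hu => by
    obtain ⟨v, hv, h1, h2⟩ := h.dn u hu
    exact ⟨v, hv, h2, h1⟩

theorem Lab_mono {d1 d2 : Equiv.Perm (Fin n)} {W : ℕ} {Z N N' : Finset (Fin n)}
    {al be : Fin n → ℤ} (h : Lab d1 d2 W Z N al be) (hN : N' ⊆ N) : Lab d1 d2 W Z N' al be where
  nz1 := fun u hu => h.nz1 u (hN hu)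
  nz2 := fun u hu => h.nz2 u (hN hu)
  b1 := fun u hu => h.b1 u (hN hu)
  b2 := fun u hu => h.b2 u (hN hu)
  c1 := fun u hu v hv => h.c1 u (hN hu) v (hN hv)
  c2 := fun u hu v hv => h.c2 u (hN hu) v (hN hv)
  up := fun u hu => h.up u (hN hu)
  dn := fun u hu => h.dn u (hN hu)

theorem rigid1 {d1 d2 : Equiv.Perm (Fin n)} {ρ W : ℕ} (hW : 1 ≤ W) (hρ : 20 * W * W ≤ ρ)
    {T T' : Finset (Fin n)} (hT : T' ⊆ T) {y : Fin n} (hy : y ∈ T) (hy' : y ∉ T')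
    {al be : Fin n → ℤ} (hl : Lab d1 d2 W T (nb d1 d2 ρ T y 2) al be)
    (hN : (nb d1 d2 ρ T y 2).erase y ⊆ T') {u0 : Fin n} (hu0 : u0 ∈ T')
    (hnear : |rk d1 T u0 - rk d1 T y| ≤ (ρ : ℤ)) {al' be' : Fin n → ℤ}
    (hl' : Lab d1 d2 W T' (nb d1 d2 ρ T' u0 3) al' be') :
    ∃ s : ℤ, (s = 1 ∨ s = -1) ∧ ∀ k : ℤ, 4 * |k| ≤ (ρ : ℤ) →
      ∃ p ∈ T, rk d1 T p = rk d1 T y + k ∧ rk d2 T p = rk d2 T y + s * k := by
  have h2 : 2 * W + 1 ≤ ρ := by nlinarith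
  have h1 : W ≤ ρ := by omega
  obtain ⟨a, be0, ha1, haW, hv0, hinj, f1, f1', f2⟩ :=
    win_a h1 hy hl (fun k => rk d2 T (pt d1 T y k) - rk d2 T y) (fun _ => rfl)
  obtain ⟨b, be0', hb1, hbW, f3, f4, f5, f6⟩ :=
    win_b h2 hT hy hy' hl hN hu0 hnear hl' (fun k => rk d2 T (pt d1 T y k) - rk d2 T y)
      (fun _ => rfl)
  have hF : Facts (ρ : ℤ) (W : ℤ) a b (fun k => rk d2 T (pt d1 T y k) - rk d2 T y) be0 be0' :=
    ⟨ha1, haW, hb1, hbW, hv0, hinj, f1, f1', f2, f3, f4, f5, f6⟩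
  obtain ⟨s, hs, hk⟩ := rig_arith hF (by exact_mod_cast hρ)
  refine ⟨s, hs, fun k hk4 => ?_⟩
  have hkρ : |k| ≤ (ρ : ℤ) := by
    have := abs_nonneg k
    linarith
  obtain ⟨h5, h6, _, _⟩ := win_pt h1 hy hl k hkρ
  refine ⟨pt d1 T y k, h5, h6, ?_⟩
  have h7 : rk d2 T (pt d1 T y k) - rk d2 T y = s * k := hk k hk4
  linarith

theorem rigid {d1 d2 : Equiv.Perm (Fin n)} {ρ W : ℕ} (hW : 1 ≤ W) (hρ : 20 * W * W ≤ ρ)
    {T T' : Finset (Fin n)} (hT : T' ⊆ T) {y : Fin n} (hy : y ∈ T) (hy' : y ∉ T')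
    (hd : Deep d1 d2 ρ W T y)
    (hN : (nb d1 d2 ρ T y 2).erase y ⊆ T') {u0 : Fin n} (hu0 : u0 ∈ T')
    (hnear : |rk d1 T u0 - rk d1 T y| ≤ (ρ : ℤ) ∨ |rk d2 T u0 - rk d2 T y| ≤ (ρ : ℤ))
    {al' be' : Fin n → ℤ} (hl' : Lab d1 d2 W T' (nb d1 d2 ρ T' u0 3) al' be') :
    ∃ s : ℤ, (s = 1 ∨ s = -1) ∧ ∀ k : ℤ, 4 * |k| ≤ (ρ : ℤ) →
      ∃ p ∈ T, rk d1 T p = rk d1 T y + k ∧ rk d2 T p = rk d2 T y + s * k := by
  obtain ⟨_, al, be, hl⟩ := hd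
  have hl2 : Lab d1 d2 W T (nb d1 d2 ρ T y 2) al be :=
    Lab_mono hl (nb_mono d1 d2 ρ hy (by norm_num))
  rcases hnear with hn | hn
  · exact rigid1 hW hρ hT hy hy' hl2 hN hu0 hn hl'
  · have hl3 : Lab d2 d1 W T (nb d2 d1 ρ T y 2) be al := by
      rw [nb_swap]
      exact Lab_swap hl2
    have hl4 : Lab d2 d1 W T' (nb d2 d1 ρ T' u0 3) be' al' := by
      rw [nb_swap]
      exact Lab_swap hl'
    have hN' : (nb d2 d1 ρ T y 2).erase y ⊆ T' := by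
      rw [nb_swap]
      exact hN
    obtain ⟨s, hs, h⟩ := rigid1 hW hρ hT hy hy' hl3 hN' hu0 hn hl4
    refine ⟨s, hs, fun k hk => ?_⟩
    have hss : s * s = 1 := by
      rcases hs with rfl | rfl <;> norm_num
    have habs : |s * k| = |k| := by
      rcases hs with rfl | rfl
      · rw [one_mul]
      · rw [neg_one_mul, abs_neg]
    obtain ⟨p, hp, h1, h2⟩ := h (s * k) (by rw [habs]; exact hk)
    refine ⟨p, hp, ?_, h1⟩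
    rw [h2, ← mul_assoc, hss, one_mul]

end Pool.Agent.H68.PS
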