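import Pool.Agent.H68.PS.Def

/-!
Module RkL: ranks.  `rk d Z z` = number of `u ∈ Z` with `d u < d z`.
-/

set_option autoImplicit false

open Finset Classical

namespace Pool.Agent.H68.PS

variable {n : ℕ}

private theorem rk_mono (d : Equiv.Perm (Fin n)) (Z : Finset (Fin n)) {u v : Fin n}
    (h : d u ≤ d v) : rk d Z u ≤ rk d Z v := by
  unfold rk
  exact_mod_cast Finset.card_le_card (Finset.monotone_filter_right Z fun w _ hw => lt_of_lt_of_le hw h)

private theorem rk_strict (d : Equiv.Perm (Fin n)) (Z : Finset (Fin n)) {u v : Fin n} (hu : u ∈ Z)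
    (h : d u < d v) : rk d Z u < rk d Z v := by
  unfold rk
  have h1 : (Z.filter (fun w => d w < d u)) ⊂ (Z.filter (fun w => d w < d v)) := by
    refine (Finset.ssubset_iff_of_subset
      (Finset.monotone_filter_right Z fun w _ hw => lt_trans hw h)).2 ⟨u, ?_, ?_⟩
    · exact Finset.mem_filter.2 ⟨hu, h⟩
    · intro h2
      exact lt_irrefl _ (Finset.mem_filter.1 h2).2
  exact_mod_cast Finset.card_lt_card h1

theorem rk_lt_iff (d : Equiv.Perm (Fin n)) (Z : Finset (Fin n)) {u v : Fin n} (hu : u ∈ Z)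
    (hv : v ∈ Z) : rk d Z u < rk d Z v ↔ d u < d v := by
  constructor
  · intro h
    by_contra hc
    have := rk_mono d Z (not_lt.1 hc)
    omega
  · exact rk_strict d Z hu

theorem rk_le_iff (d : Equiv.Perm (Fin n)) (Z : Finset (Fin n)) {u v : Fin n} (hu : u ∈ Z)
    (hv : v ∈ Z) : rk d Z u ≤ rk d Z v ↔ d u ≤ d v := by
  rw [← not_lt, rk_lt_iff d Z hv hu, not_lt]

theorem rk_inj (d : Equiv.Perm (Fin n)) (Z : Finset (Fin n)) {u v : Fin n} (hu : u ∈ Z)
    (hv : v ∈ Z) (h : rk d Z u = rk d Z v) : u = v := by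
  have h1 := (rk_le_iff d Z hu hv).1 h.le
  have h2 := (rk_le_iff d Z hv hu).1 h.ge
  exact d.injective (le_antisymm h1 h2)

theorem rk_nonneg (d : Equiv.Perm (Fin n)) (Z : Finset (Fin n)) (u : Fin n) :
    0 ≤ rk d Z u := by
  unfold rk
  exact Int.natCast_nonneg _

theorem rk_lt_card (d : Equiv.Perm (Fin n)) (Z : Finset (Fin n)) {u : Fin n} (hu : u ∈ Z) :
    rk d Z u < (Z.card : ℤ) := by
  unfold rk
  have h1 : (Z.filter (fun w => d w < d u)) ⊂ Z := by
    refine (Finset.ssubset_iff_of_subset (Finset.filter_subset _ _)).2 ⟨u, hu, fun h2 => ?_⟩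
    exact lt_irrefl _ (Finset.mem_filter.1 h2).2
  exact_mod_cast Finset.card_lt_card h1

/-- every number between `0` and `Z.card - 1` is a rank -/
theorem rk_surj (d : Equiv.Perm (Fin n)) (Z : Finset (Fin n)) (k : ℤ) (h0 : 0 ≤ k)
    (h1 : k < (Z.card : ℤ)) : ∃ z ∈ Z, rk d Z z = k := by
  have hinj : Set.InjOn (rk d Z) (Z : Set (Fin n)) := fun a ha b hb h =>
    rk_inj d Z (Finset.mem_coe.1 ha) (Finset.mem_coe.1 hb) h
  have hc : (Z.image (rk d Z)).card = Z.card := Finset.card_image_of_injOn hinj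
  have hsub : Z.image (rk d Z) ⊆ Finset.Ico (0 : ℤ) (Z.card : ℤ) := by
    intro x hx
    obtain ⟨z, hz, rfl⟩ := Finset.mem_image.1 hx
    exact Finset.mem_Ico.2 ⟨rk_nonneg d Z z, rk_lt_card d Z hz⟩
  have heq : Z.image (rk d Z) = Finset.Ico (0 : ℤ) (Z.card : ℤ) := by
    refine Finset.eq_of_subset_of_card_le hsub ?_
    rw [hc, Int.card_Ico]
    simp
  have hk : k ∈ Z.image (rk d Z) := by
    rw [heq]
    exact Finset.mem_Ico.2 ⟨h0, h1⟩
  obtain ⟨z, hz, h⟩ := Finset.mem_image.1 hk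
  exact ⟨z, hz, h⟩

/-- every number between two ranks is a rank -/
theorem rk_btw (d : Equiv.Perm (Fin n)) (Z : Finset (Fin n)) {u v : Fin n} (_hu : u ∈ Z)
    (hv : v ∈ Z) (k : ℤ) (h0 : rk d Z u ≤ k) (h1 : k ≤ rk d Z v) : ∃ z ∈ Z, rk d Z z = k := by
  have h2 := rk_nonneg d Z u
  have h3 := rk_lt_card d Z hv
  exact rk_surj d Z k (by omega) (by omega)

private theorem path_aux (d : Equiv.Perm (Fin n)) (Z : Finset (Fin n)) (lab : Fin n → ℤ) {u : Fin n}
    (hu : u ∈ Z) (b : ℤ)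
    (h : ∀ w ∈ Z, ∀ w' ∈ Z, rk d Z u ≤ rk d Z w → rk d Z w' ≤ b → rk d Z w' = rk d Z w + 1 →
      lab w = lab w') :
    ∀ k : ℕ, ∀ w ∈ Z, rk d Z w = rk d Z u + k → rk d Z w ≤ b → lab u = lab w := by
  intro k
  induction k with
  | zero =>
    intro w hw h1 _
    rw [rk_inj d Z hu hw (by rw [h1]; simp)]
  | succ k ih =>
    intro w hw h1 h2
    push_cast at h1
    obtain ⟨w0, hw0, h3⟩ := rk_btw d Z hu hw (rk d Z u + k) (by omega) (by omega)
    rw [ih w0 hw0 h3 (by omega)]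
    exact h w0 hw0 w hw (by omega) h2 (by omega)

/-- a label which is constant along adjacent points is constant -/
theorem rk_path (d : Equiv.Perm (Fin n)) (Z : Finset (Fin n)) (lab : Fin n → ℤ) {u v : Fin n}
    (hu : u ∈ Z) (hv : v ∈ Z)
    (h : ∀ w ∈ Z, ∀ w' ∈ Z, min (rk d Z u) (rk d Z v) ≤ rk d Z w →
      rk d Z w' ≤ max (rk d Z u) (rk d Z v) → rk d Z w' = rk d Z w + 1 → lab w = lab w') :
    lab u = lab v := by
  rcases le_total (rk d Z u) (rk d Z v) with huv | huv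
  · rw [min_eq_left huv, max_eq_right huv] at h
    exact path_aux d Z lab hu (rk d Z v) h (rk d Z v - rk d Z u).toNat v hv (by omega) le_rfl
  · rw [min_eq_right huv, max_eq_left huv] at h
    exact (path_aux d Z lab hv (rk d Z u) h (rk d Z u - rk d Z v).toNat u hu (by omega) le_rfl).symm

/-- the difference of ranks -/
theorem rk_diff (d : Equiv.Perm (Fin n)) (Z : Finset (Fin n)) {u v : Fin n} (h : d u ≤ d v) :
    rk d Z v - rk d Z u = ((Z.filter (fun w => d u ≤ d w ∧ d w < d v)).card : ℤ) := by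
  unfold rk
  have h1 : Z.filter (fun w => d w < d v) =
      Z.filter (fun w => d w < d u) ∪ Z.filter (fun w => d u ≤ d w ∧ d w < d v) := by
    ext w
    simp only [Finset.mem_union, Finset.mem_filter]
    constructor
    · rintro ⟨hw, h2⟩
      rcases lt_or_ge (d w) (d u) with h3 | h3
      · exact Or.inl ⟨hw, h3⟩
      · exact Or.inr ⟨hw, h3, h2⟩
    · rintro (⟨hw, h2⟩ | ⟨hw, h2, h3⟩)
      · exact ⟨hw, lt_of_lt_of_le h2 h⟩
      · exact ⟨hw, h3⟩
  have h2 : Disjoint (Z.filter (fun w => d w < d u)) (Z.filter (fun w => d u ≤ d w ∧ d w < d v)) := by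
    rw [Finset.disjoint_left]
    intro w hw hw'
    exact absurd (Finset.mem_filter.1 hw).2 (not_lt.2 (Finset.mem_filter.1 hw').2.1)
  rw [h1, Finset.card_union_of_disjoint h2]
  push_cast
  ring

/-- the difference of ranks in a subset -/
theorem rk_diff_sub (d : Equiv.Perm (Fin n)) {Z Z' : Finset (Fin n)} (hZ : Z' ⊆ Z) {u v : Fin n}
    (hu : u ∈ Z') (h : d u ≤ d v) :
    rk d Z v - rk d Z u = rk d Z' v - rk d Z' u +
      (((Z \ Z').filter (fun w => d u < d w ∧ d w < d v)).card : ℤ) := by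
  rw [rk_diff d Z h, rk_diff d Z' h]
  have h1 : Z.filter (fun w => d u ≤ d w ∧ d w < d v) =
      Z'.filter (fun w => d u ≤ d w ∧ d w < d v) ∪ (Z \ Z').filter (fun w => d u < d w ∧ d w < d v) := by
    ext w
    simp only [Finset.mem_union, Finset.mem_filter, Finset.mem_sdiff]
    constructor
    · rintro ⟨hw, h2, h3⟩
      by_cases hw' : w ∈ Z'
      · exact Or.inl ⟨hw', h2, h3⟩
      · refine Or.inr ⟨⟨hw, hw'⟩, lt_of_le_of_ne h2 fun h4 => ?_, h3⟩
        exact hw' (d.injective h4 ▸ hu)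
    · rintro (⟨hw, h2, h3⟩ | ⟨⟨hw, _⟩, h2, h3⟩)
      · exact ⟨hZ hw, h2, h3⟩
      · exact ⟨hw, h2.le, h3⟩
  have h2 : Disjoint (Z'.filter (fun w => d u ≤ d w ∧ d w < d v))
      ((Z \ Z').filter (fun w => d u < d w ∧ d w < d v)) := by
    rw [Finset.disjoint_left]
    intro w hw hw'
    exact (Finset.mem_sdiff.1 (Finset.mem_filter.1 hw').1).2 (Finset.mem_filter.1 hw).1
  rw [h1, Finset.card_union_of_disjoint h2]
  push_cast
  ring

private theorem abs_aux (d : Equiv.Perm (Fin n)) {Z Z' : Finset (Fin n)} (hZ : Z' ⊆ Z) {u v : Fin n}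
    (hu : u ∈ Z') (hv : v ∈ Z') (h : d u ≤ d v) :
    |rk d Z' u - rk d Z' v| ≤ |rk d Z u - rk d Z v| := by
  have h1 := rk_diff_sub d hZ hu h
  have h2 := (rk_le_iff d Z' hu hv).2 h
  have h3 : (0 : ℤ) ≤ (((Z \ Z').filter (fun w => d u < d w ∧ d w < d v)).card : ℤ) :=
    Int.natCast_nonneg _
  rw [abs_of_nonpos (by omega), abs_of_nonpos (by omega)]
  omega

theorem rk_abs_sub (d : Equiv.Perm (Fin n)) {Z Z' : Finset (Fin n)} (hZ : Z' ⊆ Z) {u v : Fin n}
    (hu : u ∈ Z') (hv : v ∈ Z') :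
    |rk d Z' u - rk d Z' v| ≤ |rk d Z u - rk d Z v| := by
  rcases le_total (d u) (d v) with h | h
  · exact abs_aux d hZ hu hv h
  · rw [abs_sub_comm, abs_sub_comm (rk d Z u)]
    exact abs_aux d hZ hv hu h

/-- the number of points of rank distance at most `m` -/
theorem rk_ball (d : Equiv.Perm (Fin n)) (Z : Finset (Fin n)) (u : Fin n) (m : ℕ) :
    (Z.filter (fun z => |rk d Z z - rk d Z u| ≤ (m : ℤ))).card ≤ 2 * m + 1 := by
  have hinj : Set.InjOn (rk d Z) ((Z.filter (fun z => |rk d Z z - rk d Z u| ≤ (m : ℤ)) :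
      Finset (Fin n)) : Set (Fin n)) := fun a ha b hb h =>
    rk_inj d Z (Finset.mem_filter.1 (Finset.mem_coe.1 ha)).1 (Finset.mem_filter.1 (Finset.mem_coe.1 hb)).1 h
  rw [← Finset.card_image_of_injOn hinj]
  have hsub : (Z.filter (fun z => |rk d Z z - rk d Z u| ≤ (m : ℤ))).image (rk d Z) ⊆
      Finset.Icc (rk d Z u - m) (rk d Z u + m) := by
    intro x hx
    obtain ⟨z, hz, rfl⟩ := Finset.mem_image.1 hx
    have h1 := abs_le.1 (Finset.mem_filter.1 hz).2
    exact Finset.mem_Icc.2 ⟨by omega, by omega⟩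
  refine (Finset.card_le_card hsub).trans ?_
  rw [Int.card_Icc]
  omega

end Pool.Agent.H68.PS
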