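import Pool.Agent.H68.PS.MvA
import Pool.Agent.H68.PS.RkL

/-!
Module Run (Lemma 8): run exclusion.

`p_k` (`0 ≤ k ≤ r`, `p_0 = y`) are points of `Z`, consecutive for `d1` and for `d2` (ascending or
descending), `y ∈ X`, `p_k ∉ X` for `k ≥ 1`. If `#Y < r` then `e Z X Y = 0`.
Proof. We show `g Z X P = 0` for every `P ⊆ Y`; then `e` is a sum of zeros.  Let `k ≥ 1` be minimal
with `p_k ∉ P` (`k ≤ r` exists because `#P < r` and the `p_k` are distinct).  The event is
`A = {p_k}`, `f = fun _ => y`, `x0 = p_k`.  `Conn` is trivial (a nonempty subset of a singleton is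
everything).  `Impr`: `y ≠ p_k`, `d1 y < d1 p_k`.  A point of `Z` in the strip has `d1`-rank between
`rk y` and `rk y + k`, or `d2`-rank between `rk y` and `rk y + s k`, so it is some `p_j`, `0 ≤ j ≤ k`
(`rk_inj`), and `hol = {p_0, .., p_{k-1}} ⊆ X ∪ P`.
-/

set_option autoImplicit false

open Finset Classical

namespace Pool.Agent.H68.PS

variable {n : ℕ}

private theorem run_aux (d : Equiv.Perm (Fin n)) {Z X P : Finset (Fin n)} {y z : Fin n}
    (hyX : y ∈ X) (hz : z ∈ Z) (q : ℕ → Fin n) (k : ℕ) (hq0 : q 0 = y)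
    (hqZ : ∀ j, j ≤ k → q j ∈ Z) (hne : z ≠ q k) (hlt : ∀ j, 1 ≤ j → j < k → q j ∈ P)
    (j : ℕ) (hj : j ≤ k) (hr : rk d Z z = rk d Z (q j)) : z ∈ X ∪ P := by
  have h1 : z = q j := rk_inj d Z hz (hqZ j hj) hr
  have h2 : j ≠ k := by
    rintro rfl
    exact hne h1
  rcases Nat.eq_zero_or_pos j with h3 | h3
  · subst h3
    rw [hq0] at h1
    exact Finset.mem_union_left _ (h1 ▸ hyX)
  · exact Finset.mem_union_right _ (h1 ▸ hlt j h3 (by omega))

private theorem run_occ (d1 d2 : Equiv.Perm (Fin n)) (Z X P : Finset (Fin n)) {y : Fin n}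
    (hy : y ∈ X) (hyZ : y ∈ Z) (s : ℤ) (hs : s = 1 ∨ s = -1) (r : ℕ)
    (h : ∀ k : ℕ, 1 ≤ k → k ≤ r → ∃ p ∈ Z, p ∉ X ∧ rk d1 Z p = rk d1 Z y + (k : ℤ) ∧
      rk d2 Z p = rk d2 Z y + s * (k : ℤ)) (hP : P.card < r) : g d1 d2 Z X P = 0 := by
  have : Nonempty (Fin n) := ⟨y⟩
  choose! p hpZ hpX hp1 hp2 using h
  obtain ⟨q, hq0, hqp⟩ : ∃ q : ℕ → Fin n, q 0 = y ∧ ∀ k, 1 ≤ k → q k = p k :=
    ⟨fun k => if k = 0 then y else p k, by simp, fun k hk => by
      have : k ≠ 0 := by omega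
      simp [this]⟩
  have hqZ : ∀ k, k ≤ r → q k ∈ Z := by
    intro k hk
    rcases Nat.eq_zero_or_pos k with h0 | h0
    · subst h0; rw [hq0]; exact hyZ
    · rw [hqp k h0]; exact hpZ k h0 hk
  have hq1 : ∀ k, k ≤ r → rk d1 Z (q k) = rk d1 Z y + (k : ℤ) := by
    intro k hk
    rcases Nat.eq_zero_or_pos k with h0 | h0
    · subst h0; rw [hq0]; simp
    · rw [hqp k h0]; exact hp1 k h0 hk
  have hq2 : ∀ k, k ≤ r → rk d2 Z (q k) = rk d2 Z y + s * (k : ℤ) := by
    intro k hk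
    rcases Nat.eq_zero_or_pos k with h0 | h0
    · subst h0; rw [hq0]; simp
    · rw [hqp k h0]; exact hp2 k h0 hk
  -- a minimal index outside `P`
  have hex : ∃ k, 1 ≤ k ∧ k ≤ r ∧ q k ∉ P := by
    by_contra hc
    push Not at hc
    have hinj : Set.InjOn q ((Finset.Icc 1 r : Finset ℕ) : Set ℕ) := by
      intro a ha b hb hab
      have ha' := Finset.mem_Icc.1 (Finset.mem_coe.1 ha)
      have hb' := Finset.mem_Icc.1 (Finset.mem_coe.1 hb)
      have e1 := hq1 a ha'.2
      have e2 := hq1 b hb'.2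
      rw [hab] at e1
      omega
    have hsub : (Finset.Icc 1 r).image q ⊆ P := by
      intro w hw
      obtain ⟨k, hk, rfl⟩ := Finset.mem_image.1 hw
      have hk' := Finset.mem_Icc.1 hk
      exact hc k hk'.1 hk'.2
    have hc1 := Finset.card_le_card hsub
    rw [Finset.card_image_of_injOn hinj, Nat.card_Icc] at hc1
    omega
  have hfind := Nat.find_spec hex
  set k := Nat.find hex with hk
  obtain ⟨hk1, hkr, hkP⟩ := hfind
  have hmin : ∀ j, 1 ≤ j → j < k → q j ∈ P := by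
    intro j hj1 hjk
    by_contra hc
    exact Nat.find_min hex hjk ⟨hj1, by omega, hc⟩
  have hkZ : q k ∈ Z := hqZ k hkr
  have hkX : q k ∉ X := by rw [hqp k hk1]; exact hpX k hk1 hkr
  have hne : y ≠ q k := by
    intro hc
    have e1 := hq1 k hkr
    rw [← hc] at e1
    omega
  have hlt : d1 y < d1 (q k) := by
    rw [← rk_lt_iff d1 Z hyZ hkZ]
    have e1 := hq1 k hkr
    omega
  unfold g
  rw [if_pos]
  refine ⟨{q k}, fun _ => y, q k, ⟨⟨?_, ?_, ?_, ?_, ?_, ?_⟩, ?_, ⟨?_, ?_, ?_⟩, ?_, ?_⟩, ?_, hkP⟩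
  · exact Finset.singleton_nonempty _
  · exact Finset.singleton_subset_iff.2 hkZ
  · exact fun _ _ => hyZ
  · intro a ha
    rw [Finset.mem_singleton.1 ha]
    exact hne
  · intro a ha b hb hab
    rw [Finset.mem_singleton.1 ha, Finset.mem_singleton.1 hb] at hab
    exact absurd hab (lt_irrefl _)
  · intro a ha b hb hab
    rw [Finset.mem_singleton.1 ha, Finset.mem_singleton.1 hb] at hab
    exact absurd hab (lt_irrefl _)
  · intro S hS hSn hSA
    rcases Finset.subset_singleton_iff.1 hS with h1 | h1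
    · rw [h1] at hSn
      exact absurd hSn Finset.not_nonempty_empty
    · exact absurd h1 hSA
  · exact Finset.mem_singleton_self _
  · intro hc
    exact hne (Finset.mem_singleton.1 hc)
  · intro a ha
    rw [Finset.mem_singleton.1 ha]
    exact ⟨hlt.le, le_rfl⟩
  · rw [Finset.disjoint_singleton_left]
    exact hkX
  · exact ⟨q k, Finset.mem_singleton_self _, hy⟩
  · intro z hz
    unfold hol at hz
    obtain ⟨hzZ, hzA, a, ha, hst⟩ := Finset.mem_filter.1 hz
    have ha' := Finset.mem_singleton.1 ha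
    subst ha'
    have hzne : z ≠ q k := fun hc => hzA (Finset.mem_singleton.2 hc)
    have hqZ' : ∀ j, j ≤ k → q j ∈ Z := fun j hj => hqZ j (hj.trans hkr)
    rcases hst with hst | hst
    · -- strip in the first order
      have h12 : d1 y ≤ d1 z ∧ d1 z ≤ d1 (q k) := by
        rcases hst with hst | hst
        · exact absurd (hst.1.trans hst.2) (not_le.2 hlt)
        · exact hst
      have e1 := (rk_le_iff d1 Z hyZ hzZ).2 h12.1
      have e2 := (rk_le_iff d1 Z hzZ hkZ).2 h12.2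
      have e3 := hq1 k hkr
      obtain ⟨j, hj⟩ : ∃ j : ℕ, rk d1 Z z = rk d1 Z y + (j : ℤ) :=
        ⟨(rk d1 Z z - rk d1 Z y).toNat, by omega⟩
      have hjk : j ≤ k := by omega
      exact run_aux d1 hy hzZ q k hq0 hqZ' hzne hmin j hjk
        (by rw [hj, hq1 j (hjk.trans hkr)])
    · have e3 := hq2 k hkr
      have hbt : ∃ j : ℕ, j ≤ k ∧ rk d2 Z z = rk d2 Z y + s * (j : ℤ) := by
        rcases hst with hst | hst
        · have e1 := (rk_le_iff d2 Z hkZ hzZ).2 hst.1
          have e2 := (rk_le_iff d2 Z hzZ hyZ).2 hst.2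
          rcases hs with hs | hs
          · subst hs
            exact ⟨0, by omega, by omega⟩
          · subst hs
            exact ⟨(rk d2 Z y - rk d2 Z z).toNat, by omega, by omega⟩
        · have e1 := (rk_le_iff d2 Z hyZ hzZ).2 hst.1
          have e2 := (rk_le_iff d2 Z hzZ hkZ).2 hst.2
          rcases hs with hs | hs
          · subst hs
            exact ⟨(rk d2 Z z - rk d2 Z y).toNat, by omega, by omega⟩
          · subst hs
            exact ⟨0, by omega, by omega⟩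
      obtain ⟨j, hjk, hj⟩ := hbt
      exact run_aux d2 hy hzZ q k hq0 hqZ' hzne hmin j hjk
        (by rw [hj, hq2 j (hjk.trans hkr)])

theorem run_excl (d1 d2 : Equiv.Perm (Fin n)) (Z X Y : Finset (Fin n)) {y : Fin n} (hy : y ∈ X)
    (hyZ : y ∈ Z) (s : ℤ) (hs : s = 1 ∨ s = -1) (r : ℕ)
    (h : ∀ k : ℕ, 1 ≤ k → k ≤ r → ∃ p ∈ Z, p ∉ X ∧ rk d1 Z p = rk d1 Z y + (k : ℤ) ∧
      rk d2 Z p = rk d2 Z y + s * (k : ℤ)) (hY : Y.card < r) : e d1 d2 Z X Y = 0 := by
  unfold e
  refine Finset.sum_eq_zero fun P hP => ?_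
  have hPY : P ⊆ Y := Finset.mem_powerset.1 hP
  have hPr : P.card < r := lt_of_le_of_lt (Finset.card_le_card hPY) hY
  rw [run_occ d1 d2 Z X P hy hyZ s hs r h hPr, mul_zero]

end Pool.Agent.H68.PS
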