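import Pool.Agent.H68.PS.SeqL
import Pool.Agent.H68.PS.Rigid
import Pool.Agent.H68.PS.Run

/-!
Module Excl: a point which dies alone in its neighbourhood cannot leave a deep neighbourhood.

Proof. `T = alv X i`, `T' = alv X j`, `y ∉ T'` (`y ∈ X (i+1)`, `i + 1 < j`).
(1) There is `u0 ∈ T'`, within `ρ` of `y` in `T`, with `y' ∈ nb T' u0 1`: `nb_pred` gives
`u ∈ nb T y 1` with `y' ∈ nb T u 1`. If `u = y` put `u0 = y'`. Otherwise `u0 = u ∈ (nb T y 2).erase y ⊆ T'`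
and `y' ∈ T'` is within `ρ` of `u` in `T`, so in `T'` (`rk_abs_sub`).
(2) `u0 ∈ nb T' z 3` (`nb_symm`, `nb_add`), `nb T' u0 3 ⊆ nb T' z 6`, so the labels of `z` are labels
on `nb T' u0 3` (`Lab_mono`).  `rigid`: a run of `T` around `y`: for `1 ≤ k ≤ r` (`4 r ≤ ρ`) there is
`p_k ∈ T`, `rk d1 T p_k = rk d1 T y + k`, `rk d2 T p_k = rk d2 T y + s k`.
(3) `p_k ∈ nb T y 1`, `p_k ≠ y`, so `p_k ∈ T' ⊆ alv X (i+2)`, so `p_k ∉ X i`, `p_k ∉ X (i+1)`.
`Z = alv X (i+1) = T \ X i`.  The points of `T` strictly between `y` and `p_k` (for `d1` or `d2`) are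
within `ρ` of `y`, so not in `X i` (`hfar`): the rank differences in `Z` are those in `T`
(`rk_diff_sub`).
(4) `run_excl` for `Z`, `X (i+1)`, `X (i+2)` gives `e = 0`, contradiction to `h.adm (i+1)`.
-/

set_option autoImplicit false

open Finset Classical

namespace Pool.Agent.H68.PS

variable {n : ℕ}

private theorem excl_rk (d : Equiv.Perm (Fin n)) {T Z : Finset (Fin n)} (hZ : Z ⊆ T) {u v : Fin n}
    (hu : u ∈ Z) (h : d u ≤ d v) (hb : ∀ w ∈ T, w ∉ Z → d u < d w → d w < d v → False) :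
    rk d T v - rk d T u = rk d Z v - rk d Z u := by
  have h1 := rk_diff_sub d hZ hu h
  have h2 : (T \ Z).filter (fun w => d u < d w ∧ d w < d v) = ∅ := by
    refine Finset.filter_eq_empty_iff.2 ?_
    intro w hw hc
    rw [Finset.mem_sdiff] at hw
    exact hb w hw.1 hw.2 hc.1 hc.2
  rw [h2] at h1
  simpa using h1

private theorem excl_nb1 {d1 d2 : Equiv.Perm (Fin n)} {ρ : ℕ} {Z : Finset (Fin n)} {y v : Fin n}
    (h : v ∈ nb d1 d2 ρ Z y 1) :
    v ∈ Z ∧ (|rk d1 Z v - rk d1 Z y| ≤ (ρ : ℤ) ∨ |rk d2 Z v - rk d2 Z y| ≤ (ρ : ℤ)) := by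
  change v ∈ nb1 d1 d2 ρ Z {y} at h
  unfold nb1 at h
  rw [Finset.mem_filter] at h
  obtain ⟨h1, u, hu, h2⟩ := h
  rw [Finset.mem_singleton] at hu
  subst hu
  exact ⟨h1, h2⟩

private theorem excl_self (d1 d2 : Equiv.Perm (Fin n)) (ρ : ℕ) (Z : Finset (Fin n)) (y : Fin n) :
    y ∈ nb d1 d2 ρ Z y 0 := by
  change y ∈ ({y} : Finset (Fin n))
  exact Finset.mem_singleton_self y

theorem excl {d1 d2 : Equiv.Perm (Fin n)} {ρ W r : ℕ} (hW : 1 ≤ W) (hρ : 20 * W * W ≤ ρ)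
    (hr : 4 * r ≤ ρ) {x : Fin n} {k : ℕ} {X : ℕ → Finset (Fin n)} (h : Seq d1 d2 x k X)
    {i j : ℕ} (hk : i + 2 < k) (hij : i + 2 ≤ j) {y : Fin n} (hy : y ∈ X (i + 1))
    (hd : Deep d1 d2 ρ W (alv X i) y) (hfar : ∀ u ∈ X i, u ∉ nb d1 d2 ρ (alv X i) y 4)
    (hN : (nb d1 d2 ρ (alv X i) y 2).erase y ⊆ alv X j) {z y' : Fin n}
    (hz : Deep d1 d2 ρ W (alv X j) z) (hy' : y' ∈ nb d1 d2 ρ (alv X i) y 2) (hne : y' ≠ y)
    (hzy : y' ∈ nb d1 d2 ρ (alv X j) z 2) (hshort : (X (i + 2)).card < r) : False := by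
  have hTT : alv X j ⊆ alv X i := alv_anti X (by omega)
  have hyT : y ∈ alv X i := hd.1
  have hyT' : y ∉ alv X j := not_mem_alv X (by omega) hy
  have hy'T' : y' ∈ alv X j := hN (Finset.mem_erase.2 ⟨hne, hy'⟩)
  -- (1)
  have step1 : ∃ u0 ∈ alv X j, (|rk d1 (alv X i) u0 - rk d1 (alv X i) y| ≤ (ρ : ℤ) ∨
      |rk d2 (alv X i) u0 - rk d2 (alv X i) y| ≤ (ρ : ℤ)) ∧ y' ∈ nb d1 d2 ρ (alv X j) u0 1 := by
    obtain ⟨v, hv, hyv⟩ := nb_pred d1 d2 ρ hy'
    by_cases hvy : v = y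
    · subst hvy
      refine ⟨y', hy'T', (excl_nb1 hyv).2, ?_⟩
      exact nb_mono d1 d2 ρ hy'T' (by norm_num) (excl_self d1 d2 ρ (alv X j) y')
    · have hv2 : v ∈ alv X j :=
        hN (Finset.mem_erase.2 ⟨hvy, nb_mono d1 d2 ρ hyT (by norm_num) hv⟩)
      refine ⟨v, hv2, (excl_nb1 hv).2, ?_⟩
      refine nb_step d1 d2 ρ (excl_self d1 d2 ρ (alv X j) v) hy'T' ?_
      rcases (excl_nb1 hyv).2 with h1 | h1
      · exact Or.inl (le_trans (rk_abs_sub d1 hTT hy'T' hv2) h1)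
      · exact Or.inr (le_trans (rk_abs_sub d2 hTT hy'T' hv2) h1)
  obtain ⟨u0, hu0, hnear, hyu0⟩ := step1
  -- (2)
  have hu0z : u0 ∈ nb d1 d2 ρ (alv X j) z 3 :=
    nb_add d1 d2 ρ hz.1 hzy (nb_symm d1 d2 ρ hu0 hyu0)
  obtain ⟨hzT', al', be', hl6⟩ := hz
  have hl' : Lab d1 d2 W (alv X j) (nb d1 d2 ρ (alv X j) u0 3) al' be' := by
    refine Lab_mono hl6 ?_
    intro v hv
    exact nb_add d1 d2 ρ hzT' hu0z hv
  obtain ⟨s, hs, hrun⟩ := rigid hW hρ hTT hyT hyT' hd hN hu0 hnear hl'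
  -- (3)
  have hyZ : y ∈ alv X (i + 1) := seq_sub h (le_refl (i + 1)) hy
  have hZT : alv X (i + 1) ⊆ alv X i := alv_anti X (by omega)
  have hout : ∀ w ∈ alv X i, w ∉ alv X (i + 1) → w ∈ X i := by
    intro w hw hw2
    rw [alv_succ, Finset.mem_sdiff] at hw2
    by_contra hc
    exact hw2 ⟨hw, hc⟩
  have hbig1 : ∀ w ∈ alv X i, w ∉ alv X (i + 1) →
      |rk d1 (alv X i) w - rk d1 (alv X i) y| ≤ (ρ : ℤ) → False := by
    intro w hw hw2 hw3
    refine hfar w (hout w hw hw2) ?_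
    exact nb_mono d1 d2 ρ hyT (by norm_num)
      (nb_step d1 d2 ρ (excl_self d1 d2 ρ (alv X i) y) hw (Or.inl hw3))
  have hbig2 : ∀ w ∈ alv X i, w ∉ alv X (i + 1) →
      |rk d2 (alv X i) w - rk d2 (alv X i) y| ≤ (ρ : ℤ) → False := by
    intro w hw hw2 hw3
    refine hfar w (hout w hw hw2) ?_
    exact nb_mono d1 d2 ρ hyT (by norm_num)
      (nb_step d1 d2 ρ (excl_self d1 d2 ρ (alv X i) y) hw (Or.inr hw3))
  have hkey : ∀ k : ℕ, 1 ≤ k → k ≤ r → ∃ p ∈ alv X (i + 1), p ∉ X (i + 1) ∧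
      rk d1 (alv X (i + 1)) p = rk d1 (alv X (i + 1)) y + (k : ℤ) ∧
      rk d2 (alv X (i + 1)) p = rk d2 (alv X (i + 1)) y + s * (k : ℤ) := by
    intro k hk1 hkr
    have hkρ : 4 * |(k : ℤ)| ≤ (ρ : ℤ) := by
      rw [abs_of_nonneg (Int.natCast_nonneg k)]
      have : 4 * k ≤ ρ := le_trans (Nat.mul_le_mul_left 4 hkr) hr
      exact_mod_cast this
    obtain ⟨p, hpT, hp1, hp2⟩ := hrun (k : ℤ) hkρ
    have hk0 : (1 : ℤ) ≤ (k : ℤ) := by exact_mod_cast hk1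
    have hkρ' : (k : ℤ) ≤ (ρ : ℤ) := by
      rw [abs_of_nonneg (Int.natCast_nonneg k)] at hkρ
      linarith
    have hpy : p ≠ y := by
      intro hc
      rw [hc] at hp1
      linarith
    have hpn : p ∈ nb d1 d2 ρ (alv X i) y 2 := by
      refine nb_mono d1 d2 ρ hyT (by norm_num) (nb_step d1 d2 ρ (excl_self d1 d2 ρ (alv X i) y)
        hpT (Or.inl ?_))
      rw [hp1, add_sub_cancel_left, abs_of_nonneg (Int.natCast_nonneg k)]
      exact hkρ'
    have hpT' : p ∈ alv X j := hN (Finset.mem_erase.2 ⟨hpy, hpn⟩)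
    have hpZ : p ∈ alv X (i + 1) := alv_anti X (by omega) hpT'
    have hpX : p ∉ X (i + 1) := fun hc => not_mem_alv X (by omega) hc hpT'
    refine ⟨p, hpZ, hpX, ?_, ?_⟩
    · have hlt : d1 y < d1 p := by
        rw [← rk_lt_iff d1 (alv X i) hyT hpT, hp1]
        linarith
      have h1 := excl_rk d1 hZT hyZ hlt.le (fun w hw hw2 h3 h4 => by
        refine hbig1 w hw hw2 ?_
        have h5 := (rk_lt_iff d1 (alv X i) hyT hw).2 h3
        have h6 := (rk_lt_iff d1 (alv X i) hw hpT).2 h4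
        rw [abs_le]
        constructor <;> linarith)
      linarith
    · rcases hs with hs | hs
      · subst hs
        have hlt : d2 y < d2 p := by
          rw [← rk_lt_iff d2 (alv X i) hyT hpT, hp2]
          linarith
        have h1 := excl_rk d2 hZT hyZ hlt.le (fun w hw hw2 h3 h4 => by
          refine hbig2 w hw hw2 ?_
          have h5 := (rk_lt_iff d2 (alv X i) hyT hw).2 h3
          have h6 := (rk_lt_iff d2 (alv X i) hw hpT).2 h4
          rw [abs_le]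
          constructor <;> linarith)
        linarith
      · subst hs
        have hlt : d2 p < d2 y := by
          rw [← rk_lt_iff d2 (alv X i) hpT hyT, hp2]
          linarith
        have h1 := excl_rk d2 hZT hpZ hlt.le (fun w hw hw2 h3 h4 => by
          refine hbig2 w hw hw2 ?_
          have h5 := (rk_lt_iff d2 (alv X i) hpT hw).2 h3
          have h6 := (rk_lt_iff d2 (alv X i) hw hyT).2 h4
          rw [abs_le]
          constructor <;> linarith)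
        linarith
  -- (4)
  have he := run_excl d1 d2 (alv X (i + 1)) (X (i + 1)) (X (i + 2)) hy hyZ s hs r hkey hshort
  exact h.adm (i + 1) (by omega) he

end Pool.Agent.H68.PS
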