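import Pool.Agent.H68.PS.NbL

/-!
Module FkCard: the number of points determined by `K`.

`(vis d I l u).card ≤ 2 (l + 1)`: the points `y ∈ vis d I l u` with `d u < d y`: all of them except
the `d`-first one... if there were `l + 2` of them, the last one would have at least `l + 1` points
of `I` strictly between it and `u`.  Same for `d y < d u`.  `y = u` : there is no point strictly
between, so `u` may be in `vis` too; hence the bound `2 (l + 1) + 1`.
-/

set_option autoImplicit false

open Finset Classical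

namespace Pool.Agent.H68.PS

variable {n : ℕ}

private theorem part_card (d : Equiv.Perm (Fin n)) (I : Finset (Fin n)) (l : ℕ) (u : Fin n)
    (s : ℤ) (hs : s = 1 ∨ s = -1) :
    ((vis d I l u).filter (fun y => s * (d u : ℕ) < s * (d y : ℕ))).card ≤ l + 1 := by
  set T := (vis d I l u).filter (fun y => s * (d u : ℕ) < s * (d y : ℕ)) with hT
  rcases T.eq_empty_or_nonempty with h0 | hne
  · rw [h0]; simp
  obtain ⟨y, hy, hmax⟩ := Finset.exists_max_image T (fun y => s * ((d y : ℕ) : ℤ)) hne
  have hy' : y ∈ T := hy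
  rw [hT, Finset.mem_filter, vis, Finset.mem_filter] at hy'
  obtain ⟨⟨hyI, hyl⟩, hyu⟩ := hy'
  have hsub : T.erase y ⊆ I.filter (fun v => Sb d u y v) := by
    intro v hv
    rw [Finset.mem_erase] at hv
    obtain ⟨hvy, hvT⟩ := hv
    have hle := hmax v hvT
    rw [hT, Finset.mem_filter, vis, Finset.mem_filter] at hvT
    obtain ⟨⟨hvI, -⟩, hvu⟩ := hvT
    have hne' : (d v : ℕ) ≠ (d y : ℕ) := fun hh => hvy (d.injective (Fin.ext hh))
    rw [Finset.mem_filter]
    refine ⟨hvI, ?_⟩
    simp only [Sb, Fin.lt_def]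
    rcases hs with rfl | rfl
    · left
      constructor
      · omega
      · have : ((d v : ℕ) : ℤ) ≤ ((d y : ℕ) : ℤ) := by simpa using hle
        omega
    · right
      have : ((d y : ℕ) : ℤ) ≤ ((d v : ℕ) : ℤ) := by
        have := hle
        simp only [neg_mul, one_mul, neg_le_neg_iff] at this
        exact this
      constructor
      · omega
      · omega
  have h1 := Finset.card_le_card hsub
  rw [Finset.card_erase_of_mem hy] at h1
  omega

theorem vis_card (d : Equiv.Perm (Fin n)) (I : Finset (Fin n)) (l : ℕ) (u : Fin n) :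
    (vis d I l u).card ≤ 2 * (l + 1) + 1 := by
  have h1 := part_card d I l u 1 (Or.inl rfl)
  have h2 := part_card d I l u (-1) (Or.inr rfl)
  have hsub : vis d I l u ⊆
      ((vis d I l u).filter (fun y => (1 : ℤ) * (d u : ℕ) < 1 * (d y : ℕ)) ∪
        (vis d I l u).filter (fun y => (-1 : ℤ) * (d u : ℕ) < (-1) * (d y : ℕ))) ∪ {u} := by
    intro y hy
    simp only [Finset.mem_union, Finset.mem_filter, Finset.mem_singleton]
    rcases lt_trichotomy (d u : ℕ) (d y : ℕ) with hlt | heq | hgt
    · left; left; exact ⟨hy, by omega⟩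
    · right; exact (d.injective (Fin.ext heq)).symm
    · left; right; exact ⟨hy, by omega⟩
  have h3 := Finset.card_le_card hsub
  have h4 := Finset.card_union_le
    ((vis d I l u).filter (fun y => (1 : ℤ) * (d u : ℕ) < 1 * (d y : ℕ)) ∪
        (vis d I l u).filter (fun y => (-1 : ℤ) * (d u : ℕ) < (-1) * (d y : ℕ))) {u}
  have h5 := Finset.card_union_le
    ((vis d I l u).filter (fun y => (1 : ℤ) * (d u : ℕ) < 1 * (d y : ℕ)))
    ((vis d I l u).filter (fun y => (-1 : ℤ) * (d u : ℕ) < (-1) * (d y : ℕ)))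
  rw [Finset.card_singleton] at h4
  omega

theorem fk_card (d1 d2 : Equiv.Perm (Fin n)) (ρ W l : ℕ) (Z K : Finset (Fin n)) :
    (fk d1 d2 ρ W l Z K).card ≤ K.card * ((4 * ρ + 2) ^ 4 + 2 * (2 * (l + 1) + 1)) := by
  unfold fk
  apply Finset.card_biUnion_le_card_mul
  intro u _
  have h1 := Finset.card_union_le (nb d1 d2 ρ Z u 4 ∪ vis d1 (irr d1 d2 ρ W Z) l u)
    (vis d2 (irr d1 d2 ρ W Z) l u)
  have h2 := Finset.card_union_le (nb d1 d2 ρ Z u 4) (vis d1 (irr d1 d2 ρ W Z) l u)
  have h3 := nb_card d1 d2 ρ Z u 4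
  have h4 := vis_card d1 (irr d1 d2 ρ W Z) l u
  have h5 := vis_card d2 (irr d1 d2 ρ W Z) l u
  omega

/-- points near a known point are determined -/
theorem nb_sub_fk (d1 d2 : Equiv.Perm (Fin n)) (ρ W l : ℕ) (Z K : Finset (Fin n)) {u : Fin n}
    (hu : u ∈ K) : nb d1 d2 ρ Z u 4 ⊆ fk d1 d2 ρ W l Z K := by
  intro v hv
  unfold fk
  rw [Finset.mem_biUnion]
  exact ⟨u, hu, Finset.mem_union_left _ (Finset.mem_union_left _ hv)⟩

end Pool.Agent.H68.PS
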