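import Pool.Agent.H68.PS.SeqL
import Pool.Agent.H68.PS.Coding
import Pool.Agent.H68.PS.FkCard
import Pool.Agent.H68.PS.Enum

/-!
Module ExpL: the properties of the expensive points of a structured step.

Proof. `Z = alv X i`. `exs_spec` for `F = fk .. Z`, `Dp = Z \ irr Z`, `Nr u v := u ∈ Z ∧ v ∈ Z ∧
v ∈ nb Z u 4` (symmetric by `nb_symm`; `hF` by `nb_sub_fk`), the layers `X i`, `X (i+1)` (subsets of
`Z`, disjoint); the coding hypothesis is `coding` (`(X i).card + (X (i+1)).card ≤ w2 + w1 ≤ W`,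
`h.adm i`). `y ∈ Z \ irr Z` means that `y` is deep.
-/

set_option autoImplicit false

open Finset Classical

namespace Pool.Agent.H68.PS

variable {n : ℕ}

theorem expv_spec {d1 d2 : Equiv.Perm (Fin n)} {ρ W l w1 w2 : ℕ} (hρ : 2 * W + 1 ≤ ρ)
    (hl : 2 * W * (4 * ρ + 2) ^ 7 ≤ l) (hw : w1 + w2 ≤ W) {x : Fin n} {k : ℕ}
    {X : ℕ → Finset (Fin n)} (h : Seq d1 d2 x k X) {i : ℕ} (hi : i + 1 < k)
    (h2 : (X i).card ≤ w2) (h1 : (X (i + 1)).card ≤ w1) :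
    ∀ y ∈ expv d1 d2 ρ W l (alv X i) (X i) (X (i + 1)), y ∈ X (i + 1) ∧
      Deep d1 d2 ρ W (alv X i) y ∧ (∀ u ∈ X i, u ∉ nb d1 d2 ρ (alv X i) y 4) ∧
      ∀ y' ∈ expv d1 d2 ρ W l (alv X i) (X i) (X (i + 1)), y' ≠ y →
        y' ∉ nb d1 d2 ρ (alv X i) y 4 := by
  have hXi : X i ⊆ alv X i := seq_sub h le_rfl
  have hYi : X (i + 1) ⊆ alv X i := seq_sub h (Nat.le_succ i)
  have hXY : Disjoint (X i) (X (i + 1)) := h.disj i (i + 1) (by omega)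
  have hspec := exs_spec (fk d1 d2 ρ W l (alv X i)) (alv X i \ irr d1 d2 ρ W (alv X i))
    (fun u v => u ∈ alv X i ∧ v ∈ alv X i ∧ v ∈ nb d1 d2 ρ (alv X i) u 4)
    (fun u v huv => ⟨huv.2.1, huv.1, nb_symm d1 d2 ρ huv.1 huv.2.2⟩)
    (fun K u y hu huy => nb_sub_fk d1 d2 ρ W l (alv X i) K hu huy.2.2)
    (X i) (X (i + 1)) hXY
    (fun K hXK hK hK' => coding d1 d2 ρ W l hρ hl (alv X i) (X i) (X (i + 1)) hXi hYi hXY
      (by omega) (h.adm i hi) K hXK hK hK')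
  intro y hy
  obtain ⟨hyY, hyD, hyX, hyy⟩ := hspec y hy
  have hyZ : y ∈ alv X i := (Finset.mem_sdiff.mp hyD).1
  refine ⟨hyY, ?_, ?_, ?_⟩
  · by_contra hnd
    apply (Finset.mem_sdiff.mp hyD).2
    unfold irr
    rw [Finset.mem_filter]
    exact ⟨hyZ, hnd⟩
  · intro u hu hun
    exact hyX u hu ⟨hXi hu, hyZ, nb_symm d1 d2 ρ hyZ hun⟩
  · intro y' hy' hne hun
    exact hyy y' hy' hne ⟨nb_sub d1 d2 ρ hyZ 4 hun, hyZ, nb_symm d1 d2 ρ hyZ hun⟩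

end Pool.Agent.H68.PS
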