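import Pool.Agent.H68.PS.ThDef
import Pool.Agent.H68.PS.ExpL
import Pool.Agent.H68.PS.Excl

/-!
Module ThInj: the successor map is injective.

Proof. `wlog i ≤ i'`, suppose `y ≠ z`; use `expv_spec` for `y` (step `i`) and for `z` (step `i'`).
`i' = i`: `y' ∈ nb T y 2`, `y' ∈ nb T z 2`, `T = alv X i`, so `z ∈ nb T y 4`, contradiction.
`i' = i + 1`: `nb T y 2 ⊆ alv X (i+1)`, so `y' ∈ nb (alv X (i+1)) y 2` (`nb_restrict`), so
`y ∈ nb (alv X (i+1)) z 4`, and `y ∈ X (i+1) = X i'`, contradiction.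
`i + 2 ≤ i'`: `y' ∈ alv X i'` (`nb_sub`), so `y' ∉ X (i+1)`, so the second alternative holds for `y`,
with `j`; `y' ∈ X j` and `y' ∈ alv X i'` give `i' ≤ j`; `excl` with `j := i'` and `z`.
-/

set_option autoImplicit false

open Finset Classical

namespace Pool.Agent.H68.PS

variable {n : ℕ}

private theorem th_inj_aux {d1 d2 : Equiv.Perm (Fin n)} {ρ W l w1 w2 r : ℕ} (hW : 1 ≤ W)
    (hρ : 20 * W * W ≤ ρ) (hρ' : 2 * W + 1 ≤ ρ) (hr : 4 * r ≤ ρ)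
    (hl : 2 * W * (4 * ρ + 2) ^ 7 ≤ l) (hw : w1 + w2 ≤ W) {x : Fin n} {k : ℕ}
    {X : ℕ → Finset (Fin n)} (h : Seq d1 d2 x k X) {i i' : ℕ} (hii : i ≤ i') {y z y' : Fin n}
    (ht : Th d1 d2 ρ W l w1 w2 r k X i y y') (ht' : Th d1 d2 ρ W l w1 w2 r k X i' z y') :
    y = z := by
  by_contra hyz
  obtain ⟨hyX, hyD, hyF, hyE⟩ := expv_spec hρ' hl hw h ht.i1 ht.c2 ht.c1 y ht.ex
  obtain ⟨hzX, hzD, hzF, hzE⟩ := expv_spec hρ' hl hw h ht'.i1 ht'.c2 ht'.c1 z ht'.ex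
  have hyT : y ∈ alv X i := hyD.1
  have hzT : z ∈ alv X i' := hzD.1
  have hy'T' : y' ∈ alv X i' := nb_sub d1 d2 ρ hzT 2 ht'.nbr
  rcases Nat.lt_or_ge i i' with hlt | hge
  · rcases Nat.lt_or_ge (i + 1) i' with hlt2 | hge2
    · -- `i + 2 ≤ i'`
      rcases ht.alt with h1 | ⟨j, hj1, hj2, hj3, hj4⟩
      · exact not_mem_alv X hlt2 h1 hy'T'
      · have hij : i' ≤ j := by
          by_contra hlt3
          exact not_mem_alv X (not_le.1 hlt3) hj3 hy'T'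
        have hN : (nb d1 d2 ρ (alv X i) y 2).erase y ⊆ alv X i' :=
          hj4.trans (alv_anti X hij)
        exact excl hW hρ hr h (by omega) hlt2 hyX hyD hyF hN hzD ht.nbr ht.ne ht'.nbr ht.c3
    · -- `i' = i + 1`
      have he : i' = i + 1 := by omega
      subst he
      have hsub : nb d1 d2 ρ (alv X i) y 2 ⊆ alv X (i + 1) := by
        intro v hv
        rw [alv_succ, mem_sdiff]
        refine ⟨nb_sub d1 d2 ρ hyT 2 hv, fun hvX => ?_⟩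
        have h4 : v ∈ nb d1 d2 ρ (alv X i) y 4 := nb_mono d1 d2 ρ hyT (by omega) hv
        exact hyF v hvX h4
      have hy1 : y ∈ alv X (i + 1) := seq_sub h le_rfl hyX
      have h5 : y' ∈ nb d1 d2 ρ (alv X (i + 1)) y 2 :=
        nb_restrict d1 d2 ρ (alv_anti X (Nat.le_succ i)) hy1 hsub ht.nbr
      have h6 : y ∈ nb d1 d2 ρ (alv X (i + 1)) y' 2 := nb_symm d1 d2 ρ hy1 h5
      have h7 : y ∈ nb d1 d2 ρ (alv X (i + 1)) z (2 + 2) := nb_add d1 d2 ρ hzT ht'.nbr h6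
      exact hzF y hyX h7
  · -- `i' = i`
    have he : i' = i := by omega
    subst he
    have h5 : z ∈ nb d1 d2 ρ (alv X i') y' 2 := nb_symm d1 d2 ρ hzT ht'.nbr
    have h6 : z ∈ nb d1 d2 ρ (alv X i') y (2 + 2) := nb_add d1 d2 ρ hyT ht.nbr h5
    exact hyE z ht'.ex (fun h => hyz h.symm) h6

theorem th_inj {d1 d2 : Equiv.Perm (Fin n)} {ρ W l w1 w2 r : ℕ} (hW : 1 ≤ W)
    (hρ : 20 * W * W ≤ ρ) (hρ' : 2 * W + 1 ≤ ρ) (hr : 4 * r ≤ ρ)
    (hl : 2 * W * (4 * ρ + 2) ^ 7 ≤ l) (hw : w1 + w2 ≤ W) {x : Fin n} {k : ℕ}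
    {X : ℕ → Finset (Fin n)} (h : Seq d1 d2 x k X) {i i' : ℕ} {y z y' : Fin n}
    (ht : Th d1 d2 ρ W l w1 w2 r k X i y y') (ht' : Th d1 d2 ρ W l w1 w2 r k X i' z y') :
    y = z := by
  rcases Nat.le_total i i' with hii | hii
  · exact th_inj_aux hW hρ hρ' hr hl hw h hii ht ht'
  · exact (th_inj_aux hW hρ hρ' hr hl hw h hii ht' ht).symm

end Pool.Agent.H68.PS
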