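import Pool.Agent.H68.PS.ThDef
import Pool.Agent.H68.PS.ExpL
import Pool.Agent.H68.PS.Excl

/-!
Module ThNot: the successor of an expensive point is not expensive.

Proof. Suppose `y' ∈ expt`, with index `i'`: `y' ∈ X (i'+1)`, `y'` is deep in `alv X i'`, no point of
`X i'` is in `nb (alv X i') y' 4` (`expv_spec`).
If `y' ∈ X (i+1)`: `i' = i` and `y' ∉ nb (alv X i) y 4 ⊇ nb (alv X i) y 2`, contradiction.
Otherwise `y' ∈ X j`, `i' + 1 = j`, `i + 2 ≤ j`.  `nb (alv X i) y 2 ⊆ alv X (i+1)` (by `expv_spec` for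
`y`), so `y' ∈ nb (alv X (i+1)) y 2` (`nb_restrict`; `y ∈ alv X (i+1)`).  If `i' = i + 1`:
`y ∈ nb (alv X (i+1)) y' 2 ⊆ nb .. y' 4` and `y ∈ X (i+1) = X i'`, contradiction. If `i + 2 ≤ i'`: `excl`
with `j := i'`, `z := y'` (`alv X j ⊆ alv X i'`).
-/

set_option autoImplicit false

open Finset Classical

namespace Pool.Agent.H68.PS

variable {n : ℕ}

theorem th_not {d1 d2 : Equiv.Perm (Fin n)} {ρ W l w1 w2 r : ℕ} (hW : 1 ≤ W)
    (hρ : 20 * W * W ≤ ρ) (hρ' : 2 * W + 1 ≤ ρ) (hr : 4 * r ≤ ρ)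
    (hl : 2 * W * (4 * ρ + 2) ^ 7 ≤ l) (hw : w1 + w2 ≤ W) {x : Fin n} {k : ℕ}
    {X : ℕ → Finset (Fin n)} (h : Seq d1 d2 x k X) {i : ℕ} {y y' : Fin n}
    (ht : Th d1 d2 ρ W l w1 w2 r k X i y y') : y' ∉ expt d1 d2 ρ W l w1 w2 r k X := by
  intro hmem
  unfold expt at hmem
  rw [Finset.mem_biUnion] at hmem
  obtain ⟨i', -, hmem⟩ := hmem
  by_cases hc : i' + 1 < k ∧ (X i').card ≤ w2 ∧ (X (i' + 1)).card ≤ w1 ∧ (X (i' + 2)).card < r
  swap
  · rw [if_neg hc] at hmem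
    exact absurd hmem (Finset.notMem_empty _)
  rw [if_pos hc] at hmem
  obtain ⟨hc1, hc2, hc3, -⟩ := hc
  obtain ⟨sy1, sy2, sy3, sy4⟩ := expv_spec hρ' hl hw h ht.i1 ht.c2 ht.c1 y ht.ex
  obtain ⟨sz1, sz2, sz3, -⟩ := expv_spec hρ' hl hw h hc1 hc2 hc3 y' hmem
  have hyZ : y ∈ alv X i := sy2.1
  have hn4 : ∀ u ∈ nb d1 d2 ρ (alv X i) y 2, u ∈ nb d1 d2 ρ (alv X i) y 4 :=
    fun u hu => nb_mono d1 d2 ρ hyZ (by norm_num : 2 ≤ 4) hu
  have hii : ∀ j, y' ∈ X j → i' + 1 = j := fun j hj => seq_unique h sz1 hj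
  rcases ht.alt with hA | ⟨j, hj1, hj2, hj3, hj4⟩
  · have h1 : i' = i := by
      have := hii _ hA
      omega
    subst h1
    exact sy4 y' hmem ht.ne (hn4 y' ht.nbr)
  · have h1 := hii j hj3
    rcases Nat.lt_or_ge (i + 1) i' with h2 | h2
    · -- `i + 2 ≤ i'`
      refine excl hW hρ hr h (i := i) (j := i') (y := y) (z := y') (y' := y') (by omega) (by omega)
        sy1 sy2 sy3 (hj4.trans (alv_anti X (by omega))) sz2 ht.nbr ht.ne ?_ ht.c3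
      apply nb_mono d1 d2 ρ sz2.1 (by norm_num : 0 ≤ 2)
      show y' ∈ ({y'} : Finset (Fin n))
      exact Finset.mem_singleton_self _
    · have h3 : i' = i + 1 := by omega
      subst h3
      have hsub : nb d1 d2 ρ (alv X i) y 2 ⊆ alv X (i + 1) := by
        intro u hu
        rw [alv_succ, Finset.mem_sdiff]
        exact ⟨nb_sub d1 d2 ρ hyZ 2 hu, fun hux => sy3 u hux (hn4 u hu)⟩
      have hyZ' : y ∈ alv X (i + 1) := by
        apply hsub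
        apply nb_mono d1 d2 ρ hyZ (by norm_num : 0 ≤ 2)
        show y ∈ ({y} : Finset (Fin n))
        exact Finset.mem_singleton_self _
      have hy2 : y' ∈ nb d1 d2 ρ (alv X (i + 1)) y 2 :=
        nb_restrict d1 d2 ρ (alv_anti X (Nat.le_succ i)) hyZ' hsub ht.nbr
      have hy3 : y ∈ nb d1 d2 ρ (alv X (i + 1)) y' 2 := nb_symm d1 d2 ρ hyZ' hy2
      exact sz3 y sy1 (nb_mono d1 d2 ρ sz2.1 (by norm_num : 2 ≤ 4) hy3)

end Pool.Agent.H68.PS
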