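import Pool.Agent.H68.PS.ThEx
import Pool.Agent.H68.PS.ThNot
import Pool.Agent.H68.PS.ThInj

/-!
Module ExptCard: at most half of the points are expensive.

Proof. Choose `θ y` for `y ∈ expt` by `th_ex`; it is injective (`th_inj`), `θ y ∉ expt` (`th_not`), and
`θ y ∈ univ.erase x`, `expt ⊆ univ.erase x` because all layers are subsets of `univ.erase x`
(`h.tot`, `expv ⊆ X (i+1)`); `(univ.erase x).card = n - 1`.
-/

set_option autoImplicit false

open Finset Classical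

namespace Pool.Agent.H68.PS

variable {n : ℕ}

theorem expt_card {d1 d2 : Equiv.Perm (Fin n)} {ρ W l w1 w2 r : ℕ} (hW : 1 ≤ W)
    (hρ : 20 * W * W ≤ ρ) (hρ' : 2 * W + 1 ≤ ρ) (hr : 4 * r ≤ ρ)
    (hl : 2 * W * (4 * ρ + 2) ^ 7 ≤ l) (hw : w1 + w2 ≤ W) {x : Fin n} {k : ℕ}
    {X : ℕ → Finset (Fin n)} (h : Seq d1 d2 x k X) :
    2 * (expt d1 d2 ρ W l w1 w2 r k X).card ≤ n - 1 := by
  have H : ∀ y, y ∈ expt d1 d2 ρ W l w1 w2 r k X →
      ∃ i y', Th d1 d2 ρ W l w1 w2 r k X i y y' :=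
    fun y hy => th_ex hρ' hl hw h y hy
  choose! ti θ hθ using H
  have hsub : expt d1 d2 ρ W l w1 w2 r k X ⊆ univ.erase x := by
    intro y hy
    have ht := hθ y hy
    rw [← h.tot]
    refine Finset.mem_biUnion.mpr ⟨ti y + 1, Finset.mem_range.mpr ht.i1, ?_⟩
    exact exs_sub _ _ _ _ _ ht.ex
  have himg : (expt d1 d2 ρ W l w1 w2 r k X).image θ ⊆
      (univ.erase x) \ expt d1 d2 ρ W l w1 w2 r k X := by
    intro z hz
    obtain ⟨y, hy, rfl⟩ := Finset.mem_image.mp hz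
    have ht := hθ y hy
    refine Finset.mem_sdiff.mpr ⟨?_, th_not hW hρ hρ' hr hl hw h ht⟩
    rw [← h.tot]
    rcases ht.alt with h1 | ⟨j, _, hj, h1, _⟩
    · exact Finset.mem_biUnion.mpr ⟨ti y + 1, Finset.mem_range.mpr ht.i1, h1⟩
    · exact Finset.mem_biUnion.mpr ⟨j, Finset.mem_range.mpr hj, h1⟩
  have hinj : Set.InjOn θ (expt d1 d2 ρ W l w1 w2 r k X : Set (Fin n)) := by
    intro y hy z hz hyz
    have ht := hθ y (Finset.mem_coe.mp hy)
    have ht' := hθ z (Finset.mem_coe.mp hz)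
    rw [← hyz] at ht'
    exact th_inj hW hρ hρ' hr hl hw h ht ht'
  have hc1 : (expt d1 d2 ρ W l w1 w2 r k X).card ≤
      ((univ.erase x) \ expt d1 d2 ρ W l w1 w2 r k X).card := by
    rw [← Finset.card_image_of_injOn hinj]
    exact Finset.card_le_card himg
  have hc2 : ((univ.erase x) \ expt d1 d2 ρ W l w1 w2 r k X).card +
      (expt d1 d2 ρ W l w1 w2 r k X).card = (univ.erase x : Finset (Fin n)).card :=
    Finset.card_sdiff_add_card_eq_card hsub
  have hc3 : (univ.erase x : Finset (Fin n)).card = n - 1 := by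
    rw [Finset.card_erase_of_mem (Finset.mem_univ x), Finset.card_univ, Fintype.card_fin]
  omega

end Pool.Agent.H68.PS
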