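import Pool.Agent.H68.PS.BadDef
import Pool.Agent.H68.PS.Enum
import Pool.Agent.H68.PS.SeqL

/-!
Module FacLow: lower bound for the weights.

`fac_low`: three cases. `w1 < h`: `(q/2)^h ≥ (q/4)^h`.  Unstructured: `(1/(2n))^h ≥ (1/(4n))^h =
(q/4)^h (1/(q n))^h`.  Structured: `wt_eq`: `(1/2)^h (q/2)^(h-ε) (1/(2n))^ε = (q/4)^(h-ε) (1/(4n))^ε =
(q/4)^h (1/(q n))^ε`, `ε = #expv ≤ h` (`exs_sub`).
`prod_low`: product over the layers, `∑ #(X i) = n - 1` (`seq_card`), `∑ bad ≤ B` and `1/(q n) ≤ 1`.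
-/

set_option autoImplicit false

open Finset Classical

namespace Pool.Agent.H68.PS

variable {n : ℕ}

private theorem fl_a (q : ℝ) (hq : 0 < q) (h : ℕ) : (q / 4) ^ h ≤ (q / 2) ^ h :=
  pow_le_pow_left₀ (by positivity) (by linarith) h

private theorem fl_b (q : ℝ) (hq : 0 < q) (hn : 1 ≤ n) (h : ℕ) :
    (q / 4) ^ h * (1 / (q * n)) ^ h ≤ (1 / (2 * (n : ℝ))) ^ h := by
  have hn0 : (0 : ℝ) < n := by exact_mod_cast hn
  rw [← mul_pow]
  apply pow_le_pow_left₀ (by positivity)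
  have e : q / 4 * (1 / (q * n)) = 1 / (4 * (n : ℝ)) := by
    field_simp
  rw [e]
  apply one_div_le_one_div_of_le (by positivity)
  linarith

private theorem fl_c (q : ℝ) (hq : 0 < q) (hn : 1 ≤ n) (h t : ℕ) (ht : t ≤ h) :
    (q / 4) ^ h * (1 / (q * n)) ^ t =
      (1 / 2) ^ h * ((q / 2) ^ (h - t) * (1 / (2 * (n : ℝ))) ^ t) := by
  have hn0 : (0 : ℝ) < n := by exact_mod_cast hn
  obtain ⟨s, rfl⟩ := Nat.exists_eq_add_of_le ht
  have e1 : t + s - t = s := by omega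
  rw [e1, pow_add, pow_add]
  have e2 : (q / 4) ^ t * (1 / (q * n)) ^ t = (1 / 2) ^ t * (1 / (2 * (n : ℝ))) ^ t := by
    rw [← mul_pow, ← mul_pow]
    congr 1
    field_simp
    ring
  have e3 : (q / 4) ^ s = (1 / 2) ^ s * (q / 2) ^ s := by
    rw [← mul_pow]
    congr 1
    ring
  calc (q / 4) ^ t * (q / 4) ^ s * (1 / (q * n)) ^ t
      = ((q / 4) ^ t * (1 / (q * n)) ^ t) * (q / 4) ^ s := by ring
    _ = ((1 / 2) ^ t * (1 / (2 * (n : ℝ))) ^ t) * ((1 / 2) ^ s * (q / 2) ^ s) := by rw [e2, e3]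
    _ = _ := by ring

theorem fac_low (d1 d2 : Equiv.Perm (Fin n)) (ρ W l w1 w2 : ℕ) (q : ℝ) (hq : 0 < q) (hn : 1 ≤ n)
    (X : ℕ → Finset (Fin n)) (i : ℕ) :
    (q / 4) ^ (X i).card * (1 / (q * n)) ^ (bad d1 d2 ρ W l w1 w2 X i) ≤
      fac (om0 w1 q) (om d1 d2 ρ W l w1 w2 q) X i := by
  unfold bad fac
  by_cases h1 : w1 < (X i).card
  · rw [if_pos h1, pow_zero, mul_one]
    by_cases h0 : i = 0
    · subst h0
      rw [if_pos rfl, om0, if_pos h1]
      exact fl_a q hq _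
    · rw [if_neg h0, om, if_pos h1]
      exact fl_a q hq _
  · rw [if_neg h1]
    by_cases h0 : i = 0
    · subst h0
      rw [if_pos (Or.inl rfl), if_pos rfl, om0, if_neg h1]
      exact fl_b q hq hn _
    · rw [if_neg h0, om, if_neg h1]
      by_cases h2 : w2 < (X (i - 1)).card
      · rw [if_pos (Or.inr h2), if_pos h2]
        exact fl_b q hq hn _
      · have h3 : ¬ (i = 0 ∨ w2 < (X (i - 1)).card) := by
          rintro (h | h)
          · exact h0 h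
          · exact h2 h
        rw [if_neg h3, if_neg h2, wt_eq _ _ _ _ _ _ _ rfl]
        refine le_of_eq ?_
        exact fl_c q hq hn _ _ (Finset.card_le_card (exs_sub _ _ _ _ _))

theorem prod_low (d1 d2 : Equiv.Perm (Fin n)) (ρ W l w1 w2 : ℕ) (q : ℝ) (hq : 0 < q)
    (hn : 1 ≤ n) (hqn : 1 ≤ q * n) {x : Fin n} {k : ℕ} {X : ℕ → Finset (Fin n)}
    (h : Seq d1 d2 x k X) (B : ℕ) (hB : ∑ i ∈ range k, bad d1 d2 ρ W l w1 w2 X i ≤ B) :
    (q / 4) ^ (n - 1) * (1 / (q * n)) ^ B ≤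
      ∏ i ∈ range k, fac (om0 w1 q) (om d1 d2 ρ W l w1 w2 q) X i := by
  have hn0 : (0 : ℝ) < n := by exact_mod_cast hn
  have hp : (0 : ℝ) < 1 / (q * n) := by positivity
  have hp1 : 1 / (q * (n : ℝ)) ≤ 1 := by
    rw [div_le_one (by positivity)]
    exact hqn
  have e1 : (q / 4) ^ (n - 1) = ∏ i ∈ range k, (q / 4) ^ (X i).card := by
    rw [Finset.prod_pow_eq_pow_sum, seq_card h]
  have e2 : (1 / (q * (n : ℝ))) ^ B ≤
      ∏ i ∈ range k, (1 / (q * (n : ℝ))) ^ (bad d1 d2 ρ W l w1 w2 X i) := by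
    rw [Finset.prod_pow_eq_pow_sum]
    exact pow_le_pow_of_le_one hp.le hp1 hB
  calc (q / 4) ^ (n - 1) * (1 / (q * n)) ^ B
      ≤ (∏ i ∈ range k, (q / 4) ^ (X i).card) *
        ∏ i ∈ range k, (1 / (q * (n : ℝ))) ^ (bad d1 d2 ρ W l w1 w2 X i) := by
        rw [e1]
        exact mul_le_mul_of_nonneg_left e2 (Finset.prod_nonneg fun i _ => by positivity)
    _ = ∏ i ∈ range k, ((q / 4) ^ (X i).card *
        (1 / (q * (n : ℝ))) ^ (bad d1 d2 ρ W l w1 w2 X i)) := Finset.prod_mul_distrib.symm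
    _ ≤ _ := by
        apply Finset.prod_le_prod
        · intro i _
          positivity
        · intro i _
          exact fac_low d1 d2 ρ W l w1 w2 q hq hn X i

end Pool.Agent.H68.PS
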