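import Pool.Agent.H68.PS.Op
import Pool.Agent.H68.PS.BadDef

/-!
Module ListSeq: from lists of layers to sequences.

`X i = L.getD i ∅`.  `list_seq`: `mem_op` gives nonempty, pairwise disjoint, union `univ.erase x`;
`adm` from `adml`: by induction on the list, for a general alive set.
`list_prod`: induction on the list for
`wg o Z X L = ∏_{i < L.length} o (Z \ ⋃_{j < i} X'_j) X'_i X'_{i+1}`, `X' = X :: L`.
-/

set_option autoImplicit false

open Finset Classical

namespace Pool.Agent.H68.PS

variable {n : ℕ}

/-- removing the first layer first -/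
private theorem ls_sdiff (Z X : Finset (Fin n)) (L : List (Finset (Fin n))) (i : ℕ) :
    (Z \ X) \ (range i).biUnion (fun j => L.getD j ∅) =
      Z \ (range (i + 1)).biUnion (fun j => (X :: L).getD j ∅) := by
  ext z
  simp only [mem_sdiff, mem_biUnion, mem_range, not_exists, not_and, and_assoc]
  refine and_congr_right fun _ => ?_
  constructor
  · rintro ⟨h1, h2⟩ j hj
    cases j with
    | zero => exact h1
    | succ j => exact h2 j (by omega)
  · intro h
    exact ⟨h 0 (by omega), fun j hj => h (j + 1) (by omega)⟩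

private theorem ls_wg (o : Finset (Fin n) → Finset (Fin n) → Finset (Fin n) → ℝ)
    (L : List (Finset (Fin n))) : ∀ Z X : Finset (Fin n), wg o Z X L =
      ∏ i ∈ range L.length, o (Z \ (range i).biUnion (fun j => (X :: L).getD j ∅))
        ((X :: L).getD i ∅) ((X :: L).getD (i + 1) ∅) := by
  induction L with
  | nil =>
    intro Z X
    rfl
  | cons Y L ih =>
    intro Z X
    rw [wg, ih, List.length_cons, prod_range_succ']
    rw [mul_comm]
    congr 1
    · refine prod_congr rfl fun i _ => ?_
      rw [ls_sdiff]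
      rfl
    · rw [range_zero, biUnion_empty, sdiff_empty]
      rfl

private theorem ls_admc (E : Finset (Fin n) → Finset (Fin n) → Finset (Fin n) → ℤ)
    (L : List (Finset (Fin n))) : ∀ Z X : Finset (Fin n), admc E Z X L → ∀ i, i < L.length →
      E (Z \ (range i).biUnion (fun j => (X :: L).getD j ∅))
        ((X :: L).getD i ∅) ((X :: L).getD (i + 1) ∅) ≠ 0 := by
  induction L with
  | nil =>
    intro Z X _ i hi
    exact absurd hi (Nat.not_lt_zero i)
  | cons Y L ih =>
    intro Z X h i hi
    cases i with
    | zero =>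
      rw [range_zero, biUnion_empty, sdiff_empty]
      exact h.1
    | succ i =>
      have h1 := ih (Z \ X) Y h.2 i (by rw [List.length_cons] at hi; omega)
      rw [ls_sdiff] at h1
      exact h1

private theorem ls_foldr (L : List (Finset (Fin n))) (z : Fin n) :
    z ∈ L.foldr (fun X S => X ∪ S) ∅ ↔ ∃ X ∈ L, z ∈ X := by
  induction L with
  | nil => simp
  | cons Y L ih =>
    rw [List.foldr_cons, mem_union, ih]
    simp

theorem list_seq (d1 d2 : Equiv.Perm (Fin n)) (x : Fin n) (L : List (Finset (Fin n)))
    (hL : L ∈ op (univ.erase x).card (univ.erase x))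
    (ha : adml (fun Z X Y => ∑ P ∈ Y.powerset, (-1 : ℤ) ^ P.card * g d1 d2 Z X P) univ L) :
    Seq d1 d2 x L.length (fun i => L.getD i ∅) := by
  obtain ⟨hne, hdis, huni⟩ := (mem_op _ _ le_rfl L).1 hL
  have hlt : ∀ i (hi : i < L.length), L.getD i ∅ = L[i] := fun i hi => List.getD_eq_getElem L ∅ hi
  have hge : ∀ i, L.length ≤ i → L.getD i ∅ = ∅ := fun i hi => List.getD_eq_default L ∅ hi
  have hdis2 : ∀ i j, i < j → Disjoint (L.getD i ∅) (L.getD j ∅) := by
    intro i j hij
    by_cases hj : j < L.length
    · rw [hlt i (hij.trans hj), hlt j hj]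
      exact List.pairwise_iff_getElem.1 hdis i j (hij.trans hj) hj hij
    · rw [hge j (not_lt.1 hj)]
      exact disjoint_empty_right _
  refine ⟨?_, ?_, hge, ?_, ?_⟩
  · intro i j hij
    rcases lt_or_gt_of_ne hij with h | h
    · exact hdis2 i j h
    · exact (hdis2 j i h).symm
  · intro i hi
    show (L.getD i ∅).Nonempty
    rw [hlt i hi]
    exact hne _ (List.getElem_mem hi)
  · ext z
    rw [← huni, ls_foldr, mem_biUnion]
    constructor
    · rintro ⟨i, hi, hz⟩
      have hi' := mem_range.1 hi
      refine ⟨L[i], List.getElem_mem hi', ?_⟩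
      rw [← hlt i hi']
      exact hz
    · rintro ⟨X, hX, hz⟩
      obtain ⟨i, hi, rfl⟩ := List.mem_iff_getElem.1 hX
      refine ⟨i, mem_range.2 hi, ?_⟩
      show z ∈ L.getD i ∅
      rw [hlt i hi]
      exact hz
  · intro i hi
    cases L with
    | nil => exact absurd hi (Nat.not_lt_zero _)
    | cons Y L => exact ls_admc _ L univ Y ha i (by rw [List.length_cons] at hi; omega)

theorem list_prod (o0 : Finset (Fin n) → ℝ) (o : Finset (Fin n) → Finset (Fin n) →
    Finset (Fin n) → ℝ) (L : List (Finset (Fin n))) :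
    wl o0 o univ L = ∏ i ∈ range L.length, fac o0 o (fun i => L.getD i ∅) i := by
  cases L with
  | nil => rfl
  | cons Y L =>
    rw [wl, ls_wg, List.length_cons, prod_range_succ', mul_comm]
    rfl

end Pool.Agent.H68.PS
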