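import Pool.Agent.H68.PS.Row

/-!
Module RowSum (pure): the Moebius function and the rows.

Proof. `M' Z = ∑_{x ∈ Z} (-1)^(#Z - 1) U Z (Z.erase x)` satisfies the same relations as `M`:
for `#Z ≥ 2`, `∑_{W ⊊ Z} V Z W M' (Z \ W) = ∑_x ∑_{W ⊆ Z.erase x} (-1)^(#Z - #W - 1) V Z W
U (Z \ W) (Z.erase x \ W) = 0`, with `S = Z \ W` (`(Z \ W).erase x = Z.erase x \ W`).
`C Z Z` holds, so both are determined by strong induction on `#Z`.
-/

set_option autoImplicit false

open Finset Classical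

namespace Pool.Agent.H68.PS

/-- the candidate -/
private def rsM {α : Type} [DecidableEq α] (U : Finset α → Finset α → ℤ) (Z : Finset α) : ℤ :=
  (-1) ^ (Z.card - 1) * ∑ x ∈ Z, U Z (Z.erase x)

private theorem rs_sign {m n : ℕ} (h : n < m) : ((-1 : ℤ)) ^ (m - n - 1) = (-1) ^ (m - 1) * (-1) ^ n := by
  obtain ⟨k, rfl⟩ : ∃ k, m = n + 1 + k := ⟨m - (n + 1), by omega⟩
  have e1 : n + 1 + k - n - 1 = k := by omega
  have e2 : n + 1 + k - 1 = n + k := by omega
  rw [e1, e2, pow_add, mul_comm ((-1 : ℤ) ^ n), mul_assoc, ← pow_add, ← two_mul, pow_mul]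
  norm_num

private theorem rs_term {α : Type} [DecidableEq α] (U : Finset α → Finset α → ℤ) {Z W : Finset α}
    (hW : W ∈ Z.powerset.erase Z) : rsM U (Z \ W) =
    ∑ x ∈ Z \ W, (-1) ^ (Z.card - 1) * ((-1) ^ W.card * U (Z \ W) ((Z.erase x) \ W)) := by
  rw [Finset.mem_erase, Finset.mem_powerset] at hW
  obtain ⟨hne, hsub⟩ := hW
  have hlt : W.card < Z.card := Finset.card_lt_card (hsub.ssubset_of_ne hne)
  have hc : (Z \ W).card = Z.card - W.card := Finset.card_sdiff_of_subset hsub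
  unfold rsM
  rw [hc, rs_sign hlt, Finset.mul_sum]
  refine Finset.sum_congr rfl fun x _ => ?_
  rw [mul_assoc]
  congr 3
  ext y
  simp only [Finset.mem_erase, Finset.mem_sdiff]
  tauto

/-- the relations hold for the candidate -/
private theorem rs_rel {α : Type} [DecidableEq α] (C : Finset α → Finset α → Prop) (hC : ∀ Z, C Z Z)
    (V U : Finset α → Finset α → ℤ) (hV : ∀ Z B, V Z B = if C Z (Z \ B) then 1 else 0)
    (hU : IsRow V U) (Z : Finset α) (hZ : Z.Nonempty) :
    ∑ S ∈ (Z.powerset.erase ∅).filter (fun S => C Z S), rsM U S = if Z.card = 1 then 1 else 0 := by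
  have h1 : ∑ S ∈ (Z.powerset.erase ∅).filter (fun S => C Z S), rsM U S =
      ∑ W ∈ Z.powerset.erase Z, V Z W * rsM U (Z \ W) := by
    rw [Finset.sum_filter]
    refine Finset.sum_nbij' (fun S => Z \ S) (fun W => Z \ W) ?_ ?_ ?_ ?_ ?_
    · intro S hS
      rw [Finset.mem_erase, Finset.mem_powerset] at hS
      rw [Finset.mem_erase, Finset.mem_powerset]
      refine ⟨fun h => hS.1 ?_, Finset.sdiff_subset⟩
      rw [Finset.sdiff_eq_self_iff_disjoint] at h
      exact Finset.disjoint_self_iff_empty _ |>.1 (h.mono_left hS.2)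
    · intro W hW
      rw [Finset.mem_erase, Finset.mem_powerset] at hW
      rw [Finset.mem_erase, Finset.mem_powerset]
      refine ⟨fun h => hW.1 (Finset.Subset.antisymm hW.2 (Finset.sdiff_eq_empty_iff_subset.1 h)), Finset.sdiff_subset⟩
    · intro S hS
      rw [Finset.mem_erase, Finset.mem_powerset] at hS
      exact Finset.sdiff_sdiff_eq_self hS.2
    · intro W hW
      rw [Finset.mem_erase, Finset.mem_powerset] at hW
      exact Finset.sdiff_sdiff_eq_self hW.2
    · intro S hS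
      rw [Finset.mem_erase, Finset.mem_powerset] at hS
      rw [hV, Finset.sdiff_sdiff_eq_self hS.2]
      split_ifs
      · rw [one_mul]
      · rw [zero_mul]
  have h2 : ∑ W ∈ Z.powerset.erase Z, V Z W * rsM U (Z \ W) =
      ∑ W ∈ Z.powerset.erase Z, ∑ x ∈ Z \ W,
        (-1) ^ (Z.card - 1) * ((-1) ^ W.card * (V Z W * U (Z \ W) ((Z.erase x) \ W))) := by
    refine Finset.sum_congr rfl fun W hW => ?_
    rw [rs_term U hW, Finset.mul_sum]
    refine Finset.sum_congr rfl fun x _ => ?_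
    ring
  have h3 : ∑ W ∈ Z.powerset.erase Z, ∑ x ∈ Z \ W,
        (-1) ^ (Z.card - 1) * ((-1) ^ W.card * (V Z W * U (Z \ W) ((Z.erase x) \ W))) =
      ∑ x ∈ Z, ∑ W ∈ (Z.erase x).powerset,
        (-1) ^ (Z.card - 1) * ((-1) ^ W.card * (V Z W * U (Z \ W) ((Z.erase x) \ W))) := by
    refine Finset.sum_comm' fun W x => ?_
    rw [Finset.mem_erase, Finset.mem_powerset, Finset.mem_powerset, Finset.mem_sdiff, Finset.subset_erase]
    constructor
    · rintro ⟨⟨_, h⟩, hx, hxW⟩
      exact ⟨⟨h, hxW⟩, hx⟩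
    · rintro ⟨⟨h, hxW⟩, hx⟩
      exact ⟨⟨fun e => hxW (e ▸ hx), h⟩, hx, hxW⟩
  rw [h1, h2, h3]
  split_ifs with hc
  · obtain ⟨a, rfl⟩ := Finset.card_eq_one.1 hc
    rw [Finset.sum_singleton, Finset.erase_singleton, Finset.powerset_empty, Finset.sum_singleton,
      Finset.card_singleton, Finset.card_empty, Finset.sdiff_empty, Finset.sdiff_empty, hU.one, hV,
      Finset.sdiff_empty, if_pos (hC _)]
    norm_num
  · refine Finset.sum_eq_zero fun x hx => ?_
    rw [← Finset.mul_sum, hU.rel Z (Z.erase x) ?_, mul_zero]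
    rw [← Finset.card_pos, Finset.card_erase_of_mem hx]
    have := hZ.card_pos
    omega

theorem row_sum {α : Type} [DecidableEq α] (C : Finset α → Finset α → Prop) (hC : ∀ Z, C Z Z)
    (V U : Finset α → Finset α → ℤ) (hV : ∀ Z B, V Z B = if C Z (Z \ B) then 1 else 0)
    (hU : IsRow V U) (M : Finset α → ℤ)
    (hM : ∀ Z : Finset α, Z.Nonempty →
      ∑ S ∈ (Z.powerset.erase ∅).filter (fun S => C Z S), M S = if Z.card = 1 then 1 else 0)
    (Z : Finset α) (hZ : Z.Nonempty) :
    M Z = (-1) ^ (Z.card - 1) * ∑ x ∈ Z, U Z (Z.erase x) := by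
  show M Z = rsM U Z
  induction Z using Finset.strongInduction with
  | H Z ih =>
    have hmem : Z ∈ (Z.powerset.erase ∅).filter (fun S => C Z S) := by
      rw [Finset.mem_filter, Finset.mem_erase, Finset.mem_powerset]
      exact ⟨⟨hZ.ne_empty, Finset.Subset.refl Z⟩, hC Z⟩
    have h1 := hM Z hZ
    have h2 := rs_rel C hC V U hV hU Z hZ
    rw [← Finset.add_sum_erase _ _ hmem] at h1 h2
    have h3 : ∑ S ∈ ((Z.powerset.erase ∅).filter (fun S => C Z S)).erase Z, M S =
        ∑ S ∈ ((Z.powerset.erase ∅).filter (fun S => C Z S)).erase Z, rsM U S := by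
      refine Finset.sum_congr rfl fun S hS => ?_
      rw [Finset.mem_erase, Finset.mem_filter, Finset.mem_erase, Finset.mem_powerset] at hS
      exact ih S (hS.2.1.2.ssubset_of_ne hS.1) (Finset.nonempty_iff_ne_empty.2 hS.2.1.1)
    rw [h3] at h1
    linarith

end Pool.Agent.H68.PS
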