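import Pool.Agent.H68.PS.CanSum
import Pool.Agent.H68.PS.RowSum

/-!
Module MobRow: assembly: the Moebius function is a signed sum of `n` row entries.
-/

set_option autoImplicit false

open Finset Classical

namespace Pool.Agent.H68.PS

theorem mob_row (mu : (k : ℕ) → Equiv.Perm (Fin k) → ℤ) (h1 : mu 1 1 = 1)
    (h2 : ∀ n : ℕ, 2 ≤ n → ∀ π : Equiv.Perm (Fin n),
      ∑ k ∈ Finset.Icc 1 n,
        ∑ σ ∈ (Finset.univ : Finset (Equiv.Perm (Fin k))).filter
          (fun σ => ∃ e : Fin k ↪o Fin n, ∀ i j : Fin k, σ i < σ j ↔ π (e i) < π (e j)),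
          mu k σ = 0)
    (n : ℕ) (hn : 1 ≤ n) (π : Equiv.Perm (Fin n))
    (U : Finset (Fin n) → Finset (Fin n) → ℤ) (hU : IsRow (V 1 π) U) :
    |mu n π| ≤ ∑ x : Fin n, |U univ (univ.erase x)| := by
  obtain ⟨M, hM, hsum⟩ := can_sum mu h1 h2 n hn π
  have hne : (univ : Finset (Fin n)).Nonempty := by
    rw [← Finset.card_pos, Finset.card_univ, Fintype.card_fin]
    omega
  have h3 := row_sum (fun Z S => Can 1 π Z S) (fun Z => can_self 1 π Z) (V 1 π) U
    (fun Z B => rfl) hU M hsum univ hne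
  rw [hM] at h3
  rw [h3, abs_mul, abs_pow, abs_neg, abs_one, one_pow, one_mul]
  exact Finset.abs_sum_le_sum_abs _ _

end Pool.Agent.H68.PS
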