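import Pool.Agent.H68.PS.Def

/-!
Module EnumKraft (pure): the sum of the weights of all layers with `h` points is at most `1`.

Proof. Induction on `h`.  For `h + 1`: every `R` (disjoint from `K`, `h + 1` points) gives
`y = nxt F Dp K R ∈ R` and `R' = R.erase y` (disjoint from `insert y K`, `h` points), and
`R ↦ (y, R')` is injective, so the sum is at most
`∑_y (if y ∈ F K then q else r) * ∑_{R'} wt h (insert y K) R' ≤ ∑_y (if y ∈ F K then q else r)
≤ #(F K) * q + n * r ≤ 1`.
-/

set_option autoImplicit false

open Finset Classical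

namespace Pool.Agent.H68.PS

variable {n : ℕ}

private theorem ek_nxt (F : Finset (Fin n) → Finset (Fin n)) (Dp K R : Finset (Fin n))
    (hR : R.Nonempty) : ∃ y ∈ R, nxt F Dp K R = some y := by
  unfold nxt
  split_ifs with h1 h2
  · exact ⟨_, (Finset.mem_inter.mp ((R ∩ F K).min'_mem h1)).1, rfl⟩
  · exact ⟨_, (Finset.mem_inter.mp ((R ∩ Dp).min'_mem h2)).1, rfl⟩
  · exact ⟨_, R.min'_mem hR, rfl⟩

private theorem ek_nonneg (F : Finset (Fin n) → Finset (Fin n)) (Dp : Finset (Fin n)) (q r : ℝ)
    (hq : 0 ≤ q) (hr : 0 ≤ r) (h : ℕ) :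
    ∀ K R : Finset (Fin n), 0 ≤ wt F Dp q r h K R := by
  induction h with
  | zero => intro K R; simp [wt]
  | succ h ih =>
    intro K R
    simp only [wt]
    split
    · exact zero_le_one
    · refine mul_nonneg ?_ (ih _ _)
      split_ifs <;> assumption

private theorem ek_one (F : Finset (Fin n) → Finset (Fin n)) (Dp : Finset (Fin n)) (q r : ℝ)
    (hq : 0 ≤ q) (hr : 0 ≤ r) (h : ℕ) (K : Finset (Fin n)) (y : Fin n) :
    ∑ R ∈ (univ \ K).powersetCard (h + 1),
      (if y ∈ R then (if y ∈ F K then q else r) * wt F Dp q r h (insert y K) (R.erase y) else 0)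
    ≤ (if y ∈ F K then q else r) *
      ∑ R ∈ (univ \ insert y K).powersetCard h, wt F Dp q r h (insert y K) R := by
  rw [← Finset.sum_filter, Finset.mul_sum]
  have hinj : Set.InjOn (fun R : Finset (Fin n) => R.erase y)
      (((univ \ K).powersetCard (h + 1)).filter (fun R => y ∈ R) : Finset (Finset (Fin n))) := by
    intro R1 h1 R2 h2 h12
    have h1' : y ∈ R1 := (Finset.mem_filter.mp (Finset.mem_coe.mp h1)).2
    have h2' : y ∈ R2 := (Finset.mem_filter.mp (Finset.mem_coe.mp h2)).2
    have h12' : R1.erase y = R2.erase y := h12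
    rw [← Finset.insert_erase h1', ← Finset.insert_erase h2', h12']
  have e1 : ∑ R ∈ ((univ \ K).powersetCard (h + 1)).filter (fun R => y ∈ R),
      (if y ∈ F K then q else r) * wt F Dp q r h (insert y K) (R.erase y)
      = ∑ R ∈ (((univ \ K).powersetCard (h + 1)).filter (fun R => y ∈ R)).image
          (fun R => R.erase y), (if y ∈ F K then q else r) * wt F Dp q r h (insert y K) R := by
    rw [Finset.sum_image hinj]
  rw [e1]
  apply Finset.sum_le_sum_of_subset_of_nonneg
  · intro S hS
    obtain ⟨R, hR, rfl⟩ := Finset.mem_image.mp hS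
    obtain ⟨hR1, hR2⟩ := Finset.mem_filter.mp hR
    obtain ⟨hR3, hR4⟩ := Finset.mem_powersetCard.mp hR1
    refine Finset.mem_powersetCard.mpr ⟨?_, ?_⟩
    · intro z hz
      have hz1 := Finset.mem_erase.mp hz
      have hz2 := Finset.mem_sdiff.mp (hR3 hz1.2)
      refine Finset.mem_sdiff.mpr ⟨Finset.mem_univ _, ?_⟩
      intro hz3
      rcases Finset.mem_insert.mp hz3 with hz4 | hz4
      · exact hz1.1 hz4
      · exact hz2.2 hz4
    · rw [Finset.card_erase_of_mem hR2, hR4]
      rfl
  · intro S _ _
    refine mul_nonneg ?_ (ek_nonneg F Dp q r hq hr h _ _)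
    split_ifs <;> assumption

theorem wt_sum (F : Finset (Fin n) → Finset (Fin n)) (Dp : Finset (Fin n)) (q r : ℝ)
    (hq : 0 ≤ q) (hr : 0 ≤ r) (hrn : r * n ≤ 1 / 2) (h : ℕ) (K : Finset (Fin n))
    (hF : ∀ K' : Finset (Fin n), K'.card < K.card + h → q * ((F K').card : ℝ) ≤ 1 / 2) :
    ∑ R ∈ (univ \ K).powersetCard h, wt F Dp q r h K R ≤ 1 := by
  induction h generalizing K with
  | zero => simp [wt]
  | succ h ih =>
    have h1 : ∑ R ∈ (univ \ K).powersetCard (h + 1), wt F Dp q r (h + 1) K R
        ≤ ∑ R ∈ (univ \ K).powersetCard (h + 1), ∑ y : Fin n,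
          (if y ∈ R then
            (if y ∈ F K then q else r) * wt F Dp q r h (insert y K) (R.erase y) else 0) := by
      refine Finset.sum_le_sum (fun R hR => ?_)
      have hR2 : R.card = h + 1 := (Finset.mem_powersetCard.mp hR).2
      have hR3 : R.Nonempty := by
        rw [← Finset.card_pos]; omega
      obtain ⟨y, hy, hy2⟩ := ek_nxt F Dp K R hR3
      have e2 : wt F Dp q r (h + 1) K R
          = (if y ∈ R then
            (if y ∈ F K then q else r) * wt F Dp q r h (insert y K) (R.erase y) else 0) := by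
        rw [if_pos hy]
        simp only [wt]
        rw [hy2]
      rw [e2]
      exact Finset.single_le_sum (f := fun z : Fin n => if z ∈ R then
            (if z ∈ F K then q else r) * wt F Dp q r h (insert z K) (R.erase z) else (0 : ℝ))
        (fun z _ => by
          split_ifs
          · exact mul_nonneg hq (ek_nonneg F Dp q r hq hr h _ _)
          · exact mul_nonneg hr (ek_nonneg F Dp q r hq hr h _ _)
          · exact le_refl _) (Finset.mem_univ y)
    rw [Finset.sum_comm] at h1
    have h2 : ∀ y : Fin n, ∑ R ∈ (univ \ K).powersetCard (h + 1),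
      (if y ∈ R then (if y ∈ F K then q else r) * wt F Dp q r h (insert y K) (R.erase y) else 0)
      ≤ (if y ∈ F K then q else r) := by
      intro y
      refine (ek_one F Dp q r hq hr h K y).trans ?_
      have h3 : ∑ R ∈ (univ \ insert y K).powersetCard h, wt F Dp q r h (insert y K) R ≤ 1 := by
        refine ih (insert y K) (fun K' hK' => hF K' ?_)
        have := Finset.card_insert_le y K
        omega
      have h4 : (0 : ℝ) ≤ (if y ∈ F K then q else r) := by split_ifs <;> assumption
      calc (if y ∈ F K then q else r) *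
            ∑ R ∈ (univ \ insert y K).powersetCard h, wt F Dp q r h (insert y K) R
          ≤ (if y ∈ F K then q else r) * 1 := mul_le_mul_of_nonneg_left h3 h4
        _ = (if y ∈ F K then q else r) := mul_one _
    have h5 : ∑ y : Fin n, (if y ∈ F K then q else r) ≤ q * ((F K).card : ℝ) + r * n := by
      have h6 : ∑ y : Fin n, (if y ∈ F K then q else r)
          ≤ ∑ y : Fin n, ((if y ∈ F K then q else 0) + r) := by
        refine Finset.sum_le_sum (fun y _ => ?_)
        split_ifs
        · linarith
        · linarith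
      refine h6.trans (le_of_eq ?_)
      rw [Finset.sum_add_distrib, ← Finset.sum_filter, Finset.sum_const, Finset.sum_const]
      simp only [Finset.filter_mem_eq_inter, Finset.univ_inter, nsmul_eq_mul, Finset.card_univ,
        Fintype.card_fin]
      ring
    have h7 : q * ((F K).card : ℝ) ≤ 1 / 2 := hF K (by omega)
    calc ∑ R ∈ (univ \ K).powersetCard (h + 1), wt F Dp q r (h + 1) K R
        ≤ ∑ y : Fin n, ∑ R ∈ (univ \ K).powersetCard (h + 1),
          (if y ∈ R then
            (if y ∈ F K then q else r) * wt F Dp q r h (insert y K) (R.erase y) else 0) := h1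
      _ ≤ ∑ y : Fin n, (if y ∈ F K then q else r) := Finset.sum_le_sum (fun y _ => h2 y)
      _ ≤ q * ((F K).card : ℝ) + r * n := h5
      _ ≤ 1 := by linarith

theorem wt_nonneg (F : Finset (Fin n) → Finset (Fin n)) (Dp : Finset (Fin n)) (q r : ℝ)
    (hq : 0 ≤ q) (hr : 0 ≤ r) (h : ℕ) (K R : Finset (Fin n)) : 0 ≤ wt F Dp q r h K R :=
  ek_nonneg F Dp q r hq hr h K R

end Pool.Agent.H68.PS
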