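import Pool.Agent.H68.PS.BadDef
import Pool.Agent.H68.PS.EnumKraft
import Pool.Agent.H68.PS.FkCard

/-!
Module OmSum: the weights of the possible next layers have sum at most `1`.

Proof. Group the nonempty `Y ⊆ D` by `h = #Y ≥ 1`: it suffices that the sum over `Y ∈ D.powersetCard h`
is at most `(1/2)^h` (`∑_{h ≥ 1} (1/2)^h ≤ 1`).  `w1 < h`: `C(#D, h) (q/2)^h ≤ (1/2)^h` by `hq`.
`h ≤ w1`, `w2 < #X`, or the first layer: `C(#D, h) (1/(2n))^h ≤ (1/2)^h` (`C(N,h) ≤ N^h ≤ n^h`).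
`h ≤ w1`, `#X ≤ w2`: `D.powersetCard h ⊆ (univ \ X).powersetCard h` and `wt_sum` with `K = X`: for
`#K' < #X + h ≤ w2 + w1` we have `q/2 * #(fk K') ≤ 1/2` by `fk_card` and `hΛ`.
-/

set_option autoImplicit false

open Finset Classical

namespace Pool.Agent.H68.PS

variable {n : ℕ}

private theorem om_geo (N : ℕ) : ∑ h ∈ Finset.range N, ((1 : ℝ) / 2) ^ (h + 1) ≤ 1 := by
  have e : ∑ h ∈ Finset.range N, ((1 : ℝ) / 2) ^ (h + 1) = 1 - (1 / 2) ^ N := by
    induction N with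
    | zero => simp
    | succ N ih =>
      rw [Finset.sum_range_succ, ih]
      ring
  rw [e]
  have : (0 : ℝ) ≤ (1 / 2) ^ N := by positivity
  linarith

private theorem om_grp (f : Finset (Fin n) → ℝ) (D : Finset (Fin n))
    (hf : ∀ h : ℕ, 0 < h → ∑ Y ∈ D.powersetCard h, f Y ≤ (1 / 2) ^ h) :
    ∑ Y ∈ D.powerset.erase ∅, f Y ≤ 1 := by
  have h1 : ∑ Y ∈ D.powerset, f Y
      = ∑ h ∈ Finset.range (D.card + 1), ∑ Y ∈ D.powersetCard h, f Y := Finset.sum_powerset D f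
  rw [Finset.sum_range_succ', Finset.powersetCard_zero, Finset.sum_singleton] at h1
  have h2 := Finset.add_sum_erase D.powerset f (Finset.empty_mem_powerset D)
  have h3 : ∑ Y ∈ D.powerset.erase ∅, f Y
      = ∑ h ∈ Finset.range D.card, ∑ Y ∈ D.powersetCard (h + 1), f Y := by linarith
  rw [h3]
  refine le_trans (Finset.sum_le_sum (fun h _ => hf (h + 1) (Nat.succ_pos h))) (om_geo _)

private theorem om_r (n : ℕ) : (n : ℝ) * (1 / (2 * (n : ℝ))) ≤ 1 / 2 := by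
  rcases Nat.eq_zero_or_pos n with h | h
  · subst h
    simp
  · have : (n : ℝ) ≠ 0 := by positivity
    apply le_of_eq
    field_simp

private theorem om_r0 (n : ℕ) : 0 ≤ 1 / (2 * (n : ℝ)) := by positivity

private theorem om_low (D : Finset (Fin n)) (h : ℕ) :
    ((D.card.choose h : ℕ) : ℝ) * (1 / (2 * (n : ℝ))) ^ h ≤ (1 / 2) ^ h := by
  have h0 := om_r0 n
  have hc : D.card ≤ n := (Finset.card_le_univ D).trans (by simp)
  have h1 : ((D.card.choose h : ℕ) : ℝ) ≤ (n : ℝ) ^ h := by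
    have a1 : D.card.choose h ≤ D.card ^ h := Nat.choose_le_pow _ _
    have a2 : D.card ^ h ≤ n ^ h := Nat.pow_le_pow_left hc h
    exact_mod_cast a1.trans a2
  calc ((D.card.choose h : ℕ) : ℝ) * (1 / (2 * (n : ℝ))) ^ h
      ≤ (n : ℝ) ^ h * (1 / (2 * (n : ℝ))) ^ h :=
        mul_le_mul_of_nonneg_right h1 (pow_nonneg h0 h)
    _ = ((n : ℝ) * (1 / (2 * (n : ℝ)))) ^ h := by rw [mul_pow]
    _ ≤ (1 / 2) ^ h := pow_le_pow_left₀ (mul_nonneg (Nat.cast_nonneg n) h0) (om_r n) h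

private theorem om_high (w1 : ℕ) (q : ℝ)
    (hq : ∀ N h : ℕ, N ≤ n → w1 < h → (N.choose h : ℝ) * q ^ h ≤ 1) (D : Finset (Fin n)) (h : ℕ)
    (hw : w1 < h) : ((D.card.choose h : ℕ) : ℝ) * (q / 2) ^ h ≤ (1 / 2) ^ h := by
  have hc : D.card ≤ n := (Finset.card_le_univ D).trans (by simp)
  have h1 := hq D.card h hc hw
  have h2 : ((D.card.choose h : ℕ) : ℝ) * (q / 2) ^ h
      = ((D.card.choose h : ℕ) : ℝ) * q ^ h * (1 / 2) ^ h := by
    rw [div_eq_mul_one_div q 2, mul_pow, mul_assoc]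
  rw [h2]
  have h3 : (0 : ℝ) ≤ (1 / 2) ^ h := by positivity
  calc ((D.card.choose h : ℕ) : ℝ) * q ^ h * (1 / 2) ^ h ≤ 1 * (1 / 2) ^ h :=
        mul_le_mul_of_nonneg_right h1 h3
    _ = (1 / 2) ^ h := one_mul _

theorem om_nonneg (d1 d2 : Equiv.Perm (Fin n)) (ρ W l w1 w2 : ℕ) (q : ℝ) (hq0 : 0 ≤ q)
    (Z X Y : Finset (Fin n)) : 0 ≤ om d1 d2 ρ W l w1 w2 q Z X Y := by
  have h0 := om_r0 n
  have h1 : 0 ≤ q / 2 := by positivity
  unfold om
  split_ifs
  · exact pow_nonneg h1 _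
  · exact pow_nonneg h0 _
  · exact mul_nonneg (by positivity) (wt_nonneg _ _ _ _ h1 h0 _ _ _)

theorem om0_nonneg (w1 : ℕ) (q : ℝ) (hq0 : 0 ≤ q) (Y : Finset (Fin n)) :
    0 ≤ om0 w1 q Y := by
  have h0 := om_r0 n
  have h1 : 0 ≤ q / 2 := by positivity
  unfold om0
  split_ifs
  · exact pow_nonneg h1 _
  · exact pow_nonneg h0 _

theorem om0_sum (w1 : ℕ) (q : ℝ) (hq0 : 0 ≤ q)
    (hq : ∀ N h : ℕ, N ≤ n → w1 < h → (N.choose h : ℝ) * q ^ h ≤ 1) (D : Finset (Fin n)) :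
    ∑ Y ∈ D.powerset.erase ∅, om0 w1 q Y ≤ 1 := by
  refine om_grp _ D (fun h _ => ?_)
  by_cases hw : w1 < h
  · have e : ∑ Y ∈ D.powersetCard h, om0 w1 q Y = ∑ _Y ∈ D.powersetCard h, (q / 2) ^ h := by
      refine Finset.sum_congr rfl (fun Y hY => ?_)
      have hc : Y.card = h := (Finset.mem_powersetCard.mp hY).2
      unfold om0
      rw [hc, if_pos hw]
    rw [e, Finset.sum_const, Finset.card_powersetCard, nsmul_eq_mul]
    exact om_high w1 q hq D h hw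
  · have e : ∑ Y ∈ D.powersetCard h, om0 w1 q Y
        = ∑ _Y ∈ D.powersetCard h, (1 / (2 * (n : ℝ))) ^ h := by
      refine Finset.sum_congr rfl (fun Y hY => ?_)
      have hc : Y.card = h := (Finset.mem_powersetCard.mp hY).2
      unfold om0
      rw [hc, if_neg hw]
    rw [e, Finset.sum_const, Finset.card_powersetCard, nsmul_eq_mul]
    exact om_low D h

theorem om_sum (d1 d2 : Equiv.Perm (Fin n)) (ρ W l w1 w2 : ℕ) (q : ℝ) (hq0 : 0 ≤ q)
    (hq : ∀ N h : ℕ, N ≤ n → w1 < h → (N.choose h : ℝ) * q ^ h ≤ 1)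
    (hΛ : q * ((w1 + w2 : ℕ) * ((4 * ρ + 2) ^ 4 + 2 * (2 * (l + 1) + 1) : ℕ) : ℝ) ≤ 1)
    (Z X D : Finset (Fin n)) (hXD : Disjoint X D) :
    ∑ Y ∈ D.powerset.erase ∅, om d1 d2 ρ W l w1 w2 q Z X Y ≤ 1 := by
  have h0 := om_r0 n
  have hq2 : 0 ≤ q / 2 := by positivity
  refine om_grp _ D (fun h _ => ?_)
  by_cases hw : w1 < h
  · have e : ∑ Y ∈ D.powersetCard h, om d1 d2 ρ W l w1 w2 q Z X Y
        = ∑ _Y ∈ D.powersetCard h, (q / 2) ^ h := by
      refine Finset.sum_congr rfl (fun Y hY => ?_)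
      have hc : Y.card = h := (Finset.mem_powersetCard.mp hY).2
      unfold om
      rw [hc, if_pos hw]
    rw [e, Finset.sum_const, Finset.card_powersetCard, nsmul_eq_mul]
    exact om_high w1 q hq D h hw
  · by_cases hX : w2 < X.card
    · have e : ∑ Y ∈ D.powersetCard h, om d1 d2 ρ W l w1 w2 q Z X Y
          = ∑ _Y ∈ D.powersetCard h, (1 / (2 * (n : ℝ))) ^ h := by
        refine Finset.sum_congr rfl (fun Y hY => ?_)
        have hc : Y.card = h := (Finset.mem_powersetCard.mp hY).2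
        unfold om
        rw [hc, if_neg hw, if_pos hX]
      rw [e, Finset.sum_const, Finset.card_powersetCard, nsmul_eq_mul]
      exact om_low D h
    · have e : ∑ Y ∈ D.powersetCard h, om d1 d2 ρ W l w1 w2 q Z X Y
          = ∑ Y ∈ D.powersetCard h, (1 / 2) ^ h *
            wt (fk d1 d2 ρ W l Z) (Z \ irr d1 d2 ρ W Z) (q / 2) (1 / (2 * (n : ℝ))) h X Y := by
        refine Finset.sum_congr rfl (fun Y hY => ?_)
        have hc : Y.card = h := (Finset.mem_powersetCard.mp hY).2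
        unfold om
        rw [hc, if_neg hw, if_neg hX]
      rw [e, ← Finset.mul_sum]
      have hsub : D.powersetCard h ⊆ (univ \ X).powersetCard h := by
        refine Finset.powersetCard_mono ?_
        intro z hz
        exact Finset.mem_sdiff.mpr
          ⟨Finset.mem_univ z, fun hzX => (Finset.disjoint_left.mp hXD hzX) hz⟩
      have h1 : ∑ Y ∈ D.powersetCard h,
            wt (fk d1 d2 ρ W l Z) (Z \ irr d1 d2 ρ W Z) (q / 2) (1 / (2 * (n : ℝ))) h X Y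
          ≤ ∑ Y ∈ (univ \ X).powersetCard h,
            wt (fk d1 d2 ρ W l Z) (Z \ irr d1 d2 ρ W Z) (q / 2) (1 / (2 * (n : ℝ))) h X Y :=
        Finset.sum_le_sum_of_subset_of_nonneg hsub
          (fun Y _ _ => wt_nonneg _ _ _ _ hq2 h0 _ _ _)
      have hrn : 1 / (2 * (n : ℝ)) * n ≤ 1 / 2 := by
        rw [mul_comm]
        exact om_r n
      have h2 := wt_sum (fk d1 d2 ρ W l Z) (Z \ irr d1 d2 ρ W Z) (q / 2) (1 / (2 * (n : ℝ)))
        hq2 h0 hrn h X (fun K' hK' => by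
          have a1 := fk_card d1 d2 ρ W l Z K'
          have a2 : K'.card ≤ w1 + w2 := by omega
          have a3 : (fk d1 d2 ρ W l Z K').card
              ≤ (w1 + w2) * ((4 * ρ + 2) ^ 4 + 2 * (2 * (l + 1) + 1)) :=
            a1.trans (Nat.mul_le_mul_right _ a2)
          have a4 : ((fk d1 d2 ρ W l Z K').card : ℝ)
              ≤ ((w1 + w2 : ℕ) * ((4 * ρ + 2) ^ 4 + 2 * (2 * (l + 1) + 1) : ℕ) : ℝ) := by
            exact_mod_cast a3
          have a5 := mul_le_mul_of_nonneg_left a4 hq2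
          linarith)
      have h3 : (0 : ℝ) ≤ (1 / 2) ^ h := by positivity
      calc (1 / 2 : ℝ) ^ h * ∑ Y ∈ D.powersetCard h,
            wt (fk d1 d2 ρ W l Z) (Z \ irr d1 d2 ρ W Z) (q / 2) (1 / (2 * (n : ℝ))) h X Y
          ≤ (1 / 2) ^ h * 1 := mul_le_mul_of_nonneg_left (h1.trans h2) h3
        _ = (1 / 2) ^ h := mul_one _

end Pool.Agent.H68.PS
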