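import Pool.Agent.H68.PS.Gauge
import Pool.Agent.H68.PS.MobRow
import Pool.Agent.H68.PS.OmSum
import Pool.Agent.H68.PS.BadSum
import Pool.Agent.H68.PS.BinomQ
import Pool.Agent.H68.PS.ListSeq
import Pool.Agent.H68.PS.FacLow
import Pool.Agent.H68.PS.ExptCard

/-!
Module Comb: assembly: the bound with parameters.

Proof. `d1 = 1`, `d2 = π`, `V = V 1 π`, `U` from `row_exists` (`V Z ∅ = 1` by `can_self`), `G = g 1 π`
(`gauge`), weights `om0 w1 q`, `om .. q`, `q = m / (3n)`, `w1 = m`.  For every `x` apply `op_bound` to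
`Z = univ`, `D = univ.erase x`, `δ = (q/4)^(n-1) (1/(q n))^B`, `B = (n-1)/2 + s`; the hypothesis `hδ`
is `list_seq`, `list_prod`, `bad_sum`, `expt_card`, `prod_low`.  So
`|U univ (univ.erase x)| ≤ 2^(n-1) (4/q)^(n-1) (q n)^B`; sum over the `n` points `x` (`mob_row`).
-/

set_option autoImplicit false

open Finset Classical

namespace Pool.Agent.H68.PS

private theorem cb_V0 {n : ℕ} (π : Equiv.Perm (Fin n)) (Z : Finset (Fin n)) : V 1 π Z ∅ = 1 := by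
  unfold V
  rw [sdiff_empty, if_pos (can_self 1 π Z)]

private theorem cb_V1 {n : ℕ} (π : Equiv.Perm (Fin n)) (Z X : Finset (Fin n)) :
    |V 1 π Z X| ≤ 1 := by
  unfold V
  split_ifs
  · rw [abs_one]
  · rw [abs_zero]
    exact zero_le_one

private theorem cb_g1 {n : ℕ} (π : Equiv.Perm (Fin n)) (Z X P : Finset (Fin n)) :
    |g 1 π Z X P| ≤ 1 := by
  unfold g
  split_ifs
  · rw [abs_zero]
    exact zero_le_one
  · rw [abs_one]

private theorem cb_num {n m B : ℕ} (hn : 1 ≤ n) (hm : 1 ≤ m) {u : ℝ}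
    (h : ((m : ℝ) / (3 * n) / 4) ^ (n - 1) * (1 / ((m : ℝ) / (3 * n) * n)) ^ B * u ≤ 2 ^ (n - 1)) :
    u ≤ (24 * n / m) ^ (n - 1) * ((m : ℝ) / 3) ^ B := by
  have hn0 : (0 : ℝ) < (n : ℝ) := by exact_mod_cast hn
  have hm0 : (0 : ℝ) < (m : ℝ) := by exact_mod_cast hm
  have hd : 0 < ((m : ℝ) / (3 * n) / 4) ^ (n - 1) * (1 / ((m : ℝ) / (3 * n) * n)) ^ B := by
    positivity
  refine le_of_mul_le_mul_left (h.trans (le_of_eq ?_)) hd
  have e1 : ((m : ℝ) / (3 * n) / 4) ^ (n - 1) * (24 * n / m) ^ (n - 1) = 2 ^ (n - 1) := by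
    rw [← mul_pow]
    congr 1
    field_simp
    norm_num
  have e2 : (1 / ((m : ℝ) / (3 * n) * n)) ^ B * ((m : ℝ) / 3) ^ B = 1 := by
    rw [← mul_pow]
    have : 1 / ((m : ℝ) / (3 * n) * n) * ((m : ℝ) / 3) = 1 := by
      field_simp
    rw [this, one_pow]
  rw [mul_mul_mul_comm, e1, e2, mul_one]

private theorem cb_one {n : ℕ} (hn : 1 ≤ n) (π : Equiv.Perm (Fin n)) (ρ W l m w2 r : ℕ)
    (hm : 3 ≤ m) (hW : 1 ≤ W)
    (hρ : 20 * W * W ≤ ρ) (hρ' : 2 * W + 1 ≤ ρ) (hr : 4 * r ≤ ρ) (hr1 : 1 ≤ r)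
    (hl : 2 * W * (4 * ρ + 2) ^ 7 ≤ l) (hw : m + w2 ≤ W)
    (hΛ : m * ((m + w2) * ((4 * ρ + 2) ^ 4 + 2 * (2 * (l + 1) + 1))) ≤ 3 * n)
    (U : Finset (Fin n) → Finset (Fin n) → ℤ) (hU : IsRow (V 1 π) U) (x : Fin n) :
    |(U univ (univ.erase x) : ℝ)| ≤ (24 * n / m) ^ (n - 1) *
      ((m : ℝ) / 3) ^ ((n - 1) / 2 + (m + m * (n / (w2 + 1)) + m * (n / r))) := by
  have hn0 : (0 : ℝ) < (n : ℝ) := by exact_mod_cast hn
  have hm0 : (0 : ℝ) < (m : ℝ) := by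
    have : 0 < m := by omega
    exact_mod_cast this
  have hm3 : (3 : ℝ) ≤ (m : ℝ) := by exact_mod_cast hm
  have hq : (0 : ℝ) < (m : ℝ) / (3 * n) := by positivity
  have hqn : 1 ≤ (m : ℝ) / (3 * n) * n := by
    have e : (m : ℝ) / (3 * n) * n = m / 3 := by field_simp
    rw [e]
    linarith
  have hb : ∀ N h : ℕ, N ≤ n → m < h → (N.choose h : ℝ) * ((m : ℝ) / (3 * n)) ^ h ≤ 1 :=
    fun N h hN hh => binom_q n m N h (by omega) hn hN hh.le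
  have hL : (m : ℝ) / (3 * n) *
      ((m + w2 : ℕ) * ((4 * ρ + 2) ^ 4 + 2 * (2 * (l + 1) + 1) : ℕ) : ℝ) ≤ 1 := by
    have h1 : ((m * ((m + w2) * ((4 * ρ + 2) ^ 4 + 2 * (2 * (l + 1) + 1))) : ℕ) : ℝ) ≤
        ((3 * n : ℕ) : ℝ) := Nat.cast_le.2 hΛ
    rw [Nat.cast_mul, Nat.cast_mul (m + w2)] at h1
    have h3 : ((3 * n : ℕ) : ℝ) = 3 * n := by push_cast; ring
    rw [h3] at h1
    rw [div_mul_eq_mul_div, div_le_one (by positivity)]
    exact h1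
  have hcard : (univ.erase x).card = n - 1 := by
    rw [card_erase_of_mem (mem_univ x), card_univ, Fintype.card_fin]
  have key := op_bound (V := V 1 π) (U := U) (cb_V0 π) (cb_V1 π) hU (g 1 π) (cb_g1 π)
    univ (univ.erase x) (subset_univ _)
    (fun Z' X P _ hX hP => gauge 1 π Z' X P hX hP)
    (om0 m ((m : ℝ) / (3 * n))) (om 1 π ρ W l m w2 ((m : ℝ) / (3 * n)))
    (fun X => om0_nonneg m _ hq.le X)
    (fun Z X Y => om_nonneg 1 π ρ W l m w2 _ hq.le Z X Y)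
    (fun D => om0_sum m _ hq.le hb D)
    (fun Z X D hXD => om_sum 1 π ρ W l m w2 _ hq.le hb hL Z X D hXD)
    (((m : ℝ) / (3 * n) / 4) ^ (n - 1) * (1 / ((m : ℝ) / (3 * n) * n)) ^
      ((n - 1) / 2 + (m + m * (n / (w2 + 1)) + m * (n / r))))
    (fun L hL' ha => by
      have hs := list_seq 1 π x L hL' ha
      rw [list_prod]
      refine prod_low 1 π ρ W l m w2 _ hq hn hqn hs _ ?_
      have h1 := bad_sum ρ W l m w2 r hr1 hs
      have h2 := expt_card (w1 := m) (w2 := w2) (r := r) hW hρ hρ' hr hl hw hs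
      refine h1.trans ?_
      generalize m * (n / (w2 + 1)) = a
      generalize m * (n / r) = b
      omega)
  rw [hcard] at key
  exact cb_num hn (by omega) key

theorem comb (mu : (k : ℕ) → Equiv.Perm (Fin k) → ℤ) (h1 : mu 1 1 = 1)
    (h2 : ∀ n : ℕ, 2 ≤ n → ∀ π : Equiv.Perm (Fin n),
      ∑ k ∈ Finset.Icc 1 n,
        ∑ σ ∈ (Finset.univ : Finset (Equiv.Perm (Fin k))).filter
          (fun σ => ∃ e : Fin k ↪o Fin n, ∀ i j : Fin k, σ i < σ j ↔ π (e i) < π (e j)),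
          mu k σ = 0)
    (n : ℕ) (hn : 1 ≤ n) (π : Equiv.Perm (Fin n)) (ρ W l m w2 r : ℕ) (hm : 3 ≤ m) (hW : 1 ≤ W)
    (hρ : 20 * W * W ≤ ρ) (hρ' : 2 * W + 1 ≤ ρ) (hr : 4 * r ≤ ρ) (hr1 : 1 ≤ r)
    (hl : 2 * W * (4 * ρ + 2) ^ 7 ≤ l) (hw : m + w2 ≤ W)
    (hΛ : m * ((m + w2) * ((4 * ρ + 2) ^ 4 + 2 * (2 * (l + 1) + 1))) ≤ 3 * n) :
    ((|mu n π| : ℤ) : ℝ) ≤ (n : ℝ) * (24 * n / m) ^ (n - 1) *
      ((m : ℝ) / 3) ^ ((n - 1) / 2 + (m + m * (n / (w2 + 1)) + m * (n / r))) := by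
  obtain ⟨U, hU⟩ := row_exists (V 1 π) (cb_V0 π)
  have h3 := mob_row mu h1 h2 n hn π U hU
  have h4 : ((|mu n π| : ℤ) : ℝ) ≤ ((∑ x : Fin n, |U univ (univ.erase x)| : ℤ) : ℝ) :=
    Int.cast_le.2 h3
  refine h4.trans ?_
  rw [Int.cast_sum]
  refine (sum_le_sum (g := fun _ => (24 * (n : ℝ) / m) ^ (n - 1) *
      ((m : ℝ) / 3) ^ ((n - 1) / 2 + (m + m * (n / (w2 + 1)) + m * (n / r)))) fun x _ => ?_).trans ?_
  · rw [Int.cast_abs]
    exact cb_one hn π ρ W l m w2 r hm hW hρ hρ' hr hr1 hl hw hΛ U hU x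
  · rw [sum_const, card_univ, Fintype.card_fin, nsmul_eq_mul, mul_assoc]

end Pool.Agent.H68.PS
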