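import Mathlib

/-!
Module Comp (pure): a nonempty finite set with a relation `r` has a component: a nonempty subset
`C ⊆ A` with no relation (in either direction) between `C` and `A \ C`, and connected in the cut
sense.

Proof. Take `C` = a nonempty subset of `A` of minimal cardinality among the nonempty subsets `C`
with no relation between `C` and `A \ C` (`A` itself is one).  If `S ⊆ C` is nonempty, `S ≠ C` and
there is no relation between `S` and `C \ S`, then there is none between `S` and `A \ S`:
contradiction with minimality.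
-/

set_option autoImplicit false

open Finset Classical

namespace Pool.Agent.H68.PS

theorem comp_exists {α : Type} (r : α → α → Prop) (A : Finset α) (hA : A.Nonempty) :
    ∃ C, C ⊆ A ∧ C.Nonempty ∧ (∀ a ∈ C, ∀ b ∈ A, b ∉ C → ¬ r a b ∧ ¬ r b a) ∧
      ∀ S, S ⊆ C → S.Nonempty → S ≠ C → ∃ a ∈ S, ∃ b ∈ C, b ∉ S ∧ (r a b ∨ r b a) := by
  set F : Finset (Finset α) := A.powerset.filter fun C =>
    C.Nonempty ∧ ∀ a ∈ C, ∀ b ∈ A, b ∉ C → ¬ r a b ∧ ¬ r b a with hF
  have hne : F.Nonempty := by
    refine ⟨A, ?_⟩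
    rw [hF, Finset.mem_filter, Finset.mem_powerset]
    exact ⟨Finset.Subset.refl A, hA, fun a _ b hb hb' => absurd hb hb'⟩
  obtain ⟨C, hC, hmin⟩ := Finset.exists_min_image F Finset.card hne
  rw [hF, Finset.mem_filter, Finset.mem_powerset] at hC
  obtain ⟨hCA, hCne, hCr⟩ := hC
  refine ⟨C, hCA, hCne, hCr, ?_⟩
  intro S hSC hSne hSC'
  by_contra hcon
  push Not at hcon
  have hSF : S ∈ F := by
    rw [hF, Finset.mem_filter, Finset.mem_powerset]
    refine ⟨hSC.trans hCA, hSne, ?_⟩
    intro a ha b hb hbS
    by_cases hbC : b ∈ C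
    · exact hcon a ha b hbC hbS
    · exact hCr a (hSC ha) b hb hbC
  have h1 := hmin S hSF
  exact hSC' (Finset.eq_of_subset_of_card_le hSC h1)

end Pool.Agent.H68.PS
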