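import Mathlib

/-!
MP_314710_co, power saving: definitions.
Points are elements of `Fin n`; two orders of the points are given by two permutations `d1`, `d2`
(the point `u` is before `v` if `d1 u < d1 v`, below `v` if `d2 u < d2 v`).  In the application
`d1 = 1` (positions) and `d2 = π` (values).
The paper proof is in /team-store/h68_expo.md.
-/

set_option autoImplicit false

open Finset Classical

namespace Pool.Agent.H68.PS

variable {n : ℕ}

/-! ### ranks and neighbourhoods -/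

/-- rank of `z` in `Z` for the order given by `d` -/
noncomputable def rk (d : Equiv.Perm (Fin n)) (Z : Finset (Fin n)) (z : Fin n) : ℤ :=
  ((Z.filter (fun u => d u < d z)).card : ℤ)

/-- points of `Z` whose rank in one of the two orders differs by at most `ρ` from the rank of a
point of `S` -/
noncomputable def nb1 (d1 d2 : Equiv.Perm (Fin n)) (ρ : ℕ) (Z S : Finset (Fin n)) :
    Finset (Fin n) :=
  Z.filter (fun z => ∃ u ∈ S, |rk d1 Z z - rk d1 Z u| ≤ (ρ : ℤ) ∨ |rk d2 Z z - rk d2 Z u| ≤ (ρ : ℤ))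

/-- the neighbourhoods `N_c(z)` -/
noncomputable def nb (d1 d2 : Equiv.Perm (Fin n)) (ρ : ℕ) (Z : Finset (Fin n)) (z : Fin n) :
    ℕ → Finset (Fin n)
  | 0 => {z}
  | c + 1 => nb1 d1 d2 ρ Z (nb d1 d2 ρ Z z c)

/-- labels on the set `N` of points of `Z` -/
structure Lab (d1 d2 : Equiv.Perm (Fin n)) (W : ℕ) (Z N : Finset (Fin n)) (al be : Fin n → ℤ) :
    Prop where
  nz1 : ∀ u ∈ N, al u ≠ 0
  nz2 : ∀ u ∈ N, be u ≠ 0
  b1 : ∀ u ∈ N, |al u| ≤ (W : ℤ)
  b2 : ∀ u ∈ N, |be u| ≤ (W : ℤ)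
  c1 : ∀ u ∈ N, ∀ v ∈ N, rk d1 Z v = rk d1 Z u + 1 → al u = al v
  c2 : ∀ u ∈ N, ∀ v ∈ N, rk d2 Z v = rk d2 Z u + 1 → be u = be v
  up : ∀ u ∈ N, ∃ v ∈ Z, rk d1 Z v = rk d1 Z u + al u ∧ rk d2 Z v = rk d2 Z u + be u
  dn : ∀ u ∈ N, ∃ v ∈ Z, rk d1 Z v = rk d1 Z u - al u ∧ rk d2 Z v = rk d2 Z u - be u

/-- deep points of `Z` -/
def Deep (d1 d2 : Equiv.Perm (Fin n)) (ρ W : ℕ) (Z : Finset (Fin n)) (z : Fin n) : Prop :=
  z ∈ Z ∧ ∃ al be, Lab d1 d2 W Z (nb d1 d2 ρ Z z 6) al be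

/-- the points of `Z` which are not deep -/
noncomputable def irr (d1 d2 : Equiv.Perm (Fin n)) (ρ W : ℕ) (Z : Finset (Fin n)) :
    Finset (Fin n) :=
  Z.filter (fun z => ¬ Deep d1 d2 ρ W Z z)

/-! ### canonical copies -/

/-- `φ` restricted to `S` is the isomorphism of `S` onto `T` -/
structure Iso (d1 d2 : Equiv.Perm (Fin n)) (S T : Finset (Fin n)) (φ : Fin n → Fin n) : Prop where
  maps : ∀ a ∈ S, φ a ∈ T
  surj : ∀ b ∈ T, ∃ a ∈ S, φ a = b
  fst : ∀ a ∈ S, ∀ b ∈ S, d1 a < d1 b → d1 (φ a) < d1 (φ b)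
  snd : ∀ a ∈ S, ∀ b ∈ S, d2 a < d2 b → d2 (φ a) < d2 (φ b)

/-- the first point (for `d1`) of the symmetric difference of `S` and `T` is in `S` -/
def Bet (d1 : Equiv.Perm (Fin n)) (S T : Finset (Fin n)) : Prop :=
  ∃ p ∈ S, p ∉ T ∧ ∀ q, d1 q < d1 p → (q ∈ S ↔ q ∈ T)

/-- `S` is the best one of the subsets of `Z` isomorphic to `S` -/
def Can (d1 d2 : Equiv.Perm (Fin n)) (Z S : Finset (Fin n)) : Prop :=
  S ⊆ Z ∧ ∀ T, T ⊆ Z → ∀ φ, Iso d1 d2 S T φ → ¬ Bet d1 T S

/-- the indicator that `Z \ B` is canonical in `Z` -/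
noncomputable def V (d1 d2 : Equiv.Perm (Fin n)) (Z B : Finset (Fin n)) : ℤ :=
  if Can d1 d2 Z (Z \ B) then 1 else 0

/-! ### moves -/

/-- `z` is between `a` and `b` (inclusive) in the order `d` -/
def Bt (d : Equiv.Perm (Fin n)) (a b z : Fin n) : Prop :=
  (d a ≤ d z ∧ d z ≤ d b) ∨ (d b ≤ d z ∧ d z ≤ d a)

/-- `z` is strictly between `a` and `b` in the order `d` -/
def Sb (d : Equiv.Perm (Fin n)) (a b z : Fin n) : Prop :=
  (d a < d z ∧ d z < d b) ∨ (d b < d z ∧ d z < d a)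

/-- `z` is in the closed strip of `a` for the map `f` -/
def Str (d1 d2 : Equiv.Perm (Fin n)) (f : Fin n → Fin n) (a z : Fin n) : Prop :=
  Bt d1 a (f a) z ∨ Bt d2 a (f a) z

/-- `(A, f)` is a move in `Z` -/
structure Mv (d1 d2 : Equiv.Perm (Fin n)) (Z A : Finset (Fin n)) (f : Fin n → Fin n) : Prop where
  ne : A.Nonempty
  sub : A ⊆ Z
  maps : ∀ a ∈ A, f a ∈ Z
  fix : ∀ a ∈ A, f a ≠ a
  fst : ∀ a ∈ A, ∀ b ∈ A, d1 a < d1 b → d1 (f a) < d1 (f b)
  snd : ∀ a ∈ A, ∀ b ∈ A, d2 a < d2 b → d2 (f a) < d2 (f b)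

/-- the holes of a move -/
noncomputable def hol (d1 d2 : Equiv.Perm (Fin n)) (Z A : Finset (Fin n)) (f : Fin n → Fin n) :
    Finset (Fin n) :=
  Z.filter (fun z => z ∉ A ∧ ∃ a ∈ A, Str d1 d2 f a z)

/-- the extension of `f` by the identity -/
noncomputable def ext (A : Finset (Fin n)) (f : Fin n → Fin n) (z : Fin n) : Fin n :=
  if z ∈ A then f z else z

/-- the new holes of a move: points of `Z` which are not in the image of `Z \ Q` -/
noncomputable def hol' (d1 d2 : Equiv.Perm (Fin n)) (Z A : Finset (Fin n)) (f : Fin n → Fin n) :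
    Finset (Fin n) :=
  Z \ (Z \ hol d1 d2 Z A f).image (ext A f)

/-- connected moves -/
def Conn (d1 d2 : Equiv.Perm (Fin n)) (A : Finset (Fin n)) (f : Fin n → Fin n) : Prop :=
  ∀ S, S ⊆ A → S.Nonempty → S ≠ A → ∃ a ∈ S, ∃ b ∈ A, b ∉ S ∧
    (Str d1 d2 f a b ∨ Str d1 d2 f b a)

/-- improving moves: `f x0` is the first point of `A ∪ f(A)` and not in `A` -/
def Impr (d1 : Equiv.Perm (Fin n)) (A : Finset (Fin n)) (f : Fin n → Fin n) (x0 : Fin n) : Prop :=
  x0 ∈ A ∧ f x0 ∉ A ∧ ∀ a ∈ A, d1 (f x0) ≤ d1 a ∧ d1 (f x0) ≤ d1 (f a)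

/-- the events for `(Z, X)`: connected improving moves of `Z` which use `X` -/
structure Evt (d1 d2 : Equiv.Perm (Fin n)) (Z X A : Finset (Fin n)) (f : Fin n → Fin n)
    (x0 : Fin n) : Prop where
  mv : Mv d1 d2 Z A f
  conn : Conn d1 d2 A f
  impr : Impr d1 A f x0
  disj : Disjoint A X
  uses : ∃ a ∈ A, f a ∈ X

/-- some event occurs at `P` -/
def Occ (d1 d2 : Equiv.Perm (Fin n)) (Z X P : Finset (Fin n)) : Prop :=
  ∃ A f x0, Evt d1 d2 Z X A f x0 ∧ hol d1 d2 Z A f ⊆ X ∪ P ∧ x0 ∉ P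

/-- the gauge -/
noncomputable def g (d1 d2 : Equiv.Perm (Fin n)) (Z X P : Finset (Fin n)) : ℤ :=
  if Occ d1 d2 Z X P then 0 else 1

/-- the signed sum of the gauge -/
noncomputable def e (d1 d2 : Equiv.Perm (Fin n)) (Z X Y : Finset (Fin n)) : ℤ :=
  ∑ P ∈ Y.powerset, (-1 : ℤ) ^ P.card * g d1 d2 Z X P

/-! ### known points -/

/-- the points `y ∈ I` such that at most `l` points of `I` are strictly between `u` and `y` in the
order `d` -/
noncomputable def vis (d : Equiv.Perm (Fin n)) (I : Finset (Fin n)) (l : ℕ) (u : Fin n) :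
    Finset (Fin n) :=
  I.filter (fun y => (I.filter (fun v => Sb d u y v)).card ≤ l)

/-- the points determined by the known set `K` -/
noncomputable def fk (d1 d2 : Equiv.Perm (Fin n)) (ρ W l : ℕ) (Z K : Finset (Fin n)) :
    Finset (Fin n) :=
  K.biUnion (fun u => nb d1 d2 ρ Z u 4 ∪ vis d1 (irr d1 d2 ρ W Z) l u ∪
    vis d2 (irr d1 d2 ρ W Z) l u)

/-! ### enumeration of a layer -/

/-- the next point of `R`, when the points of `K` are known: first a point of `F K`, if there is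
one, then a point of `Dp`, if there is one -/
noncomputable def nxt (F : Finset (Fin n) → Finset (Fin n)) (Dp : Finset (Fin n))
    (K R : Finset (Fin n)) : Option (Fin n) :=
  if h : (R ∩ F K).Nonempty then some ((R ∩ F K).min' h)
  else if h : (R ∩ Dp).Nonempty then some ((R ∩ Dp).min' h)
  else if h : R.Nonempty then some (R.min' h) else none

/-- the expensive points of `R` -/
noncomputable def exs (F : Finset (Fin n) → Finset (Fin n)) (Dp : Finset (Fin n)) :
    ℕ → Finset (Fin n) → Finset (Fin n) → Finset (Fin n)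
  | 0, _, _ => ∅
  | h + 1, K, R =>
    match nxt F Dp K R with
    | none => ∅
    | some y => (if y ∈ F K then ∅ else {y}) ∪ exs F Dp h (insert y K) (R.erase y)

/-- the weight of `R` -/
noncomputable def wt (F : Finset (Fin n) → Finset (Fin n)) (Dp : Finset (Fin n)) (q r : ℝ) :
    ℕ → Finset (Fin n) → Finset (Fin n) → ℝ
  | 0, _, _ => 1
  | h + 1, K, R =>
    match nxt F Dp K R with
    | none => 1
    | some y => (if y ∈ F K then q else r) * wt F Dp q r h (insert y K) (R.erase y)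

/-- the expensive points of the layer `Y` (previous layer `X`, alive set `Z`) -/
noncomputable def expv (d1 d2 : Equiv.Perm (Fin n)) (ρ W l : ℕ) (Z X Y : Finset (Fin n)) :
    Finset (Fin n) :=
  exs (fk d1 d2 ρ W l Z) (Z \ irr d1 d2 ρ W Z) Y.card X Y

/-! ### sequences of layers -/

/-- the set alive before the layer `i` is removed -/
def alv (X : ℕ → Finset (Fin n)) (i : ℕ) : Finset (Fin n) := univ \ (range i).biUnion X

/-- admissible sequences of `k` layers which delete everything except `x` -/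
structure Seq (d1 d2 : Equiv.Perm (Fin n)) (x : Fin n) (k : ℕ) (X : ℕ → Finset (Fin n)) :
    Prop where
  disj : ∀ i j, i ≠ j → Disjoint (X i) (X j)
  ne : ∀ i, i < k → (X i).Nonempty
  emp : ∀ i, k ≤ i → X i = ∅
  tot : (range k).biUnion X = univ.erase x
  adm : ∀ i, i + 1 < k → e d1 d2 (alv X i) (X i) (X (i + 1)) ≠ 0

/-- the expensive points of the structured steps whose next layer is short (less than `r` points) -/
noncomputable def expt (d1 d2 : Equiv.Perm (Fin n)) (ρ W l w1 w2 r k : ℕ)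
    (X : ℕ → Finset (Fin n)) : Finset (Fin n) :=
  (range k).biUnion (fun i =>
    if i + 1 < k ∧ (X i).card ≤ w2 ∧ (X (i + 1)).card ≤ w1 ∧ (X (i + 2)).card < r then
      expv d1 d2 ρ W l (alv X i) (X i) (X (i + 1)) else ∅)

end Pool.Agent.H68.PS
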