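import Mathlib

/-!
Module NumFin (pure): the final estimate.

`s = m + m * (n / (m^2 + 1)) + m * (n / (25 m^4)) ≤ m + 2 n / m`,
`(m/3)^((n-1)/2 + s) ≤ m^((n-1)/2 + s)` and `(24 n / m)^(n-1) ≤ 24^n n^(n-1) m^(-(n-1))`. So the left side is at
most `n^n 24^n m^(- (n-1)/2 + s)`, and it suffices that `24^n m^(s + 1/2) ≤ m^(n/2) n^(-n/100)`; as
`n < (m+1)^40 ≤ (2m)^40`, `n^(n/100) ≤ (2m)^(2n/5)`, so it suffices that
`24^n 2^n m^(s+1) ≤ m^(n/10)`, true if `s + 1 ≤ n/20` and `48^20 ≤ m`.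
-/

set_option autoImplicit false

namespace Pool.Agent.H68.PS

theorem num_fin : ∃ m0 : ℕ, ∀ m n : ℕ, m0 ≤ m → m ^ 40 ≤ n → n < (m + 1) ^ 40 →
    (n : ℝ) * (24 * n / m) ^ (n - 1) *
      ((m : ℝ) / 3) ^ ((n - 1) / 2 + (m + m * (n / (m ^ 2 + 1)) + m * (n / (25 * m ^ 4)))) ≤
      (n : ℝ) ^ ((99 / 100 : ℝ) * n) := by
  refine ⟨48 ^ 20, fun m n hm h1 h2 => ?_⟩
  have hm1 : (48 : ℝ) ^ 20 ≤ (m : ℝ) := by exact_mod_cast hm
  have hmbig : (200 : ℝ) ≤ (m : ℝ) := le_trans (by norm_num) hm1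
  have hmpos : (0 : ℝ) < (m : ℝ) := by linarith
  have hmnat : 1 ≤ m := by
    have : (1 : ℝ) ≤ (m : ℝ) := by linarith
    exact_mod_cast this
  have hn1 : ((m : ℝ)) ^ 40 ≤ (n : ℝ) := by exact_mod_cast h1
  have hm1' : (1 : ℝ) ≤ (m : ℝ) := by linarith
  have hm2 : (m : ℝ) ^ 2 ≤ (n : ℝ) := le_trans (pow_le_pow_right₀ hm1' (by norm_num)) hn1
  have hnbig : (1 : ℝ) ≤ (n : ℝ) := le_trans (one_le_pow₀ hm1') hm2
  have hnpos : (0 : ℝ) < (n : ℝ) := by linarith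
  have hnnat : 1 ≤ n := by exact_mod_cast hnbig
  have hn2 : (n : ℝ) ≤ (2 * (m : ℝ)) ^ 40 := by
    have h3 : (n : ℝ) ≤ ((m : ℝ) + 1) ^ 40 := by
      have : n ≤ (m + 1) ^ 40 := h2.le
      exact_mod_cast this
    exact le_trans h3 (pow_le_pow_left₀ (by linarith) (by linarith) 40)
  -- logarithms
  have hl48 : 20 * Real.log 48 ≤ Real.log m := by
    have := Real.log_le_log (by positivity) hm1
    rw [Real.log_pow] at this
    simpa using this
  have hl24 : Real.log 48 = Real.log 24 + Real.log 2 := by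
    rw [← Real.log_mul (by norm_num) (by norm_num)]
    norm_num
  have hl2 : 0 ≤ Real.log 2 := Real.log_nonneg (by norm_num)
  have hl24p : 0 ≤ Real.log 24 := Real.log_nonneg (by norm_num)
  have hlm : 0 ≤ Real.log m := Real.log_nonneg hm1'
  have hln : Real.log n ≤ 40 * (Real.log 2 + Real.log m) := by
    have := Real.log_le_log hnpos hn2
    rw [Real.log_pow, Real.log_mul (by norm_num) (by positivity)] at this
    simpa using this
  clear h1 h2 hn1 hn2 hm hm1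
  -- the exponent
  obtain ⟨s, hs⟩ : ∃ s : ℕ, s = m + m * (n / (m ^ 2 + 1)) + m * (n / (25 * m ^ 4)) := ⟨_, rfl⟩
  rw [← hs]
  have hsR : (s : ℝ) + 1 / 2 ≤ (n : ℝ) / 20 := by
    have e1 : ((n / (m ^ 2 + 1) : ℕ) : ℝ) ≤ (n : ℝ) / (m : ℝ) ^ 2 := by
      refine le_trans (Nat.cast_div_le) ?_
      push_cast
      apply div_le_div_of_nonneg_left hnpos.le (by positivity)
      linarith
    have e2 : ((n / (25 * m ^ 4) : ℕ) : ℝ) ≤ (n : ℝ) / (m : ℝ) ^ 2 := by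
      refine le_trans (Nat.cast_div_le) ?_
      push_cast
      apply div_le_div_of_nonneg_left hnpos.le (by positivity)
      have : (m : ℝ) ^ 2 ≤ (m : ℝ) ^ 4 := pow_le_pow_right₀ hm1' (by norm_num)
      have : 0 ≤ (m : ℝ) ^ 4 := by positivity
      linarith
    have e3 : (m : ℝ) * ((n : ℝ) / (m : ℝ) ^ 2) = (n : ℝ) / m := by
      field_simp
    have e4 : (n : ℝ) / m ≤ (n : ℝ) / 200 :=
      div_le_div_of_nonneg_left hnpos.le (by norm_num) hmbig
    have e5 : (m : ℝ) ≤ (n : ℝ) / 200 := by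
      have : (200 : ℝ) * m ≤ (m : ℝ) ^ 2 := by nlinarith
      linarith
    have e6 : (m : ℝ) * ((n / (m ^ 2 + 1) : ℕ) : ℝ) ≤ (n : ℝ) / 200 :=
      le_trans (mul_le_mul_of_nonneg_left e1 hmpos.le) (by rw [e3]; exact e4)
    have e7 : (m : ℝ) * ((n / (25 * m ^ 4) : ℕ) : ℝ) ≤ (n : ℝ) / 200 :=
      le_trans (mul_le_mul_of_nonneg_left e2 hmpos.le) (by rw [e3]; exact e4)
    have e8 : (s : ℝ) = (m : ℝ) + (m : ℝ) * ((n / (m ^ 2 + 1) : ℕ) : ℝ) +
        (m : ℝ) * ((n / (25 * m ^ 4) : ℕ) : ℝ) := by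
      rw [hs]; push_cast; rfl
    rw [e8]
    linarith
  have hk : (((n - 1) / 2 : ℕ) : ℝ) ≤ ((n : ℝ) - 1) / 2 := by
    refine le_trans (Nat.cast_div_le) ?_
    rw [Nat.cast_sub hnnat]
    push_cast
    exact le_refl _
  -- compare logarithms
  have hA : (n : ℝ) * (24 * n / m) ^ (n - 1) * ((m : ℝ) / 3) ^ ((n - 1) / 2 + s) ≤
      (n : ℝ) * (24 * n / m) ^ (n - 1) * (m : ℝ) ^ ((n - 1) / 2 + s) := by
    apply mul_le_mul_of_nonneg_left _ (by positivity)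
    exact pow_le_pow_left₀ (by positivity) (by linarith) _
  refine le_trans hA ?_
  have hP : (0 : ℝ) < (n : ℝ) * (24 * n / m) ^ (n - 1) * (m : ℝ) ^ ((n - 1) / 2 + s) := by
    positivity
  rw [← Real.log_le_log_iff hP (Real.rpow_pos_of_pos hnpos _), Real.log_rpow hnpos,
    Real.log_mul (by positivity) (by positivity), Real.log_mul (by positivity) (by positivity),
    Real.log_pow, Real.log_pow, Real.log_div (by positivity) (by positivity),
    Real.log_mul (by norm_num) (by positivity), Nat.cast_sub hnnat]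
  push_cast
  have f1 : (n : ℝ) * Real.log n ≤ n * (40 * (Real.log 2 + Real.log m)) :=
    mul_le_mul_of_nonneg_left hln hnpos.le
  have f2 : ((s : ℝ) + 1 / 2) * Real.log m ≤ (n : ℝ) / 20 * Real.log m :=
    mul_le_mul_of_nonneg_right hsR hlm
  have f3 : (n : ℝ) * (20 * Real.log 48) ≤ n * Real.log m :=
    mul_le_mul_of_nonneg_left hl48 hnpos.le
  have f4 : (((n - 1) / 2 : ℕ) : ℝ) * Real.log m ≤ ((n : ℝ) - 1) / 2 * Real.log m :=
    mul_le_mul_of_nonneg_right hk hlm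
  have f5 : 0 ≤ (n : ℝ) * Real.log 2 := mul_nonneg hnpos.le hl2
  have f6 : 0 ≤ (n : ℝ) * Real.log 24 := mul_nonneg hnpos.le hl24p
  rw [hl24] at f3
  clear hA hP hsR hs hk hl48 hln hm2 hmbig hnbig hm1'
  linarith [f1, f2, f3, f4, f5, f6, hl24p]

end Pool.Agent.H68.PS
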