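import Mathlib

/-!
Module NumPar (pure): the choice of the parameters.

`m^4 ≥ 1` gives `4 * (100 * m^4) + 2 ≤ 402 * m^4`, so the left side is at most
`m * (2 m^2) * (402^4 m^16 + 4 * (4 m^2 * 402^7 m^28) + 6) ≤ C m^33 ≤ 3 m^40 ≤ 3 n` with
`C = 2 * (402^4 + 16 * 402^7 + 6)`, if `C ≤ m^7`, e.g. for `m ≥ C`.
-/

set_option autoImplicit false

namespace Pool.Agent.H68.PS

theorem num_par : ∃ m0 : ℕ, ∀ m n : ℕ, m0 ≤ m → m ^ 40 ≤ n →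
    m * ((m + m ^ 2) * ((4 * (100 * m ^ 4) + 2) ^ 4 +
      2 * (2 * (2 * (2 * m ^ 2) * (4 * (100 * m ^ 4) + 2) ^ 7 + 1) + 1))) ≤ 3 * n := by
  refine ⟨2 * (402 ^ 4 + 16 * 402 ^ 7 + 6), fun m n hm hn => ?_⟩
  have hm1 : 1 ≤ m := le_trans (by norm_num) hm
  have h4 : 1 ≤ m ^ 4 := Nat.one_le_pow _ _ hm1
  have hX : 4 * (100 * m ^ 4) + 2 ≤ 402 * m ^ 4 := by omega
  have h2 : m + m ^ 2 ≤ 2 * m ^ 2 := by nlinarith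
  have hX4 : (4 * (100 * m ^ 4) + 2) ^ 4 ≤ (402 * m ^ 4) ^ 4 := Nat.pow_le_pow_left hX 4
  have hX7 : (4 * (100 * m ^ 4) + 2) ^ 7 ≤ (402 * m ^ 4) ^ 7 := Nat.pow_le_pow_left hX 7
  have hX4' : (402 * m ^ 4) ^ 4 ≤ 402 ^ 4 * m ^ 30 := by
    rw [mul_pow, ← pow_mul]
    exact Nat.mul_le_mul_left _ (Nat.pow_le_pow_right hm1 (by norm_num))
  have hX7' : 2 * (2 * (2 * (2 * m ^ 2) * (402 * m ^ 4) ^ 7 + 1) + 1) ≤
      16 * 402 ^ 7 * m ^ 30 + 6 * m ^ 30 := by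
    have e : 2 * (2 * (2 * (2 * m ^ 2) * (402 * m ^ 4) ^ 7 + 1) + 1) =
        16 * 402 ^ 7 * m ^ 30 + 6 := by
      rw [mul_pow]
      ring
    have h30 : 1 ≤ m ^ 30 := Nat.one_le_pow _ _ hm1
    rw [e]
    omega
  have hin : (4 * (100 * m ^ 4) + 2) ^ 4 +
      2 * (2 * (2 * (2 * m ^ 2) * (4 * (100 * m ^ 4) + 2) ^ 7 + 1) + 1) ≤
      (402 ^ 4 + 16 * 402 ^ 7 + 6) * m ^ 30 := by
    have h5 : 2 * (2 * (2 * (2 * m ^ 2) * (4 * (100 * m ^ 4) + 2) ^ 7 + 1) + 1) ≤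
        2 * (2 * (2 * (2 * m ^ 2) * (402 * m ^ 4) ^ 7 + 1) + 1) := by
      have := Nat.mul_le_mul_left (2 * (2 * m ^ 2)) hX7
      omega
    have h6 := hX4.trans hX4'
    have h7 := h5.trans hX7'
    have h8 := Nat.add_le_add h6 h7
    refine h8.trans (le_of_eq ?_)
    ring
  have h7 : 2 * (402 ^ 4 + 16 * 402 ^ 7 + 6) ≤ m ^ 7 :=
    hm.trans (Nat.le_self_pow (by norm_num) m)
  calc m * ((m + m ^ 2) * ((4 * (100 * m ^ 4) + 2) ^ 4 +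
      2 * (2 * (2 * (2 * m ^ 2) * (4 * (100 * m ^ 4) + 2) ^ 7 + 1) + 1)))
      ≤ m * ((2 * m ^ 2) * ((402 ^ 4 + 16 * 402 ^ 7 + 6) * m ^ 30)) :=
        Nat.mul_le_mul_left _ (Nat.mul_le_mul h2 hin)
    _ = 2 * (402 ^ 4 + 16 * 402 ^ 7 + 6) * m ^ 33 := by ring
    _ ≤ m ^ 7 * m ^ 33 := Nat.mul_le_mul_right _ h7
    _ = m ^ 40 := by ring
    _ ≤ n := hn
    _ ≤ 3 * n := by omega

end Pool.Agent.H68.PS
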