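import Pool.Agent.H68.PS.Comb
import Pool.Agent.H68.PS.NumPar
import Pool.Agent.H68.PS.NumFin

/-!
Module Final: the power saving.
-/

set_option autoImplicit false

open Classical

namespace Pool.Agent.H68.PS

theorem root40 (n : ℕ) : ∃ m : ℕ, m ^ 40 ≤ n ∧ n < (m + 1) ^ 40 := by
  have hP : ∃ m : ℕ, n < (m + 1) ^ 40 :=
    ⟨n, lt_of_lt_of_le (Nat.lt_succ_self n) (Nat.le_self_pow (by norm_num) _)⟩
  classical
  refine ⟨Nat.find hP, ?_, Nat.find_spec hP⟩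
  rcases Nat.eq_zero_or_pos (Nat.find hP) with h | h
  · rw [h]
    simp
  · have h1 := Nat.find_min hP (m := Nat.find hP - 1) (by omega)
    rw [not_lt] at h1
    have h2 : Nat.find hP - 1 + 1 = Nat.find hP := by omega
    rw [h2] at h1
    exact h1

theorem power_saving (mu : (k : ℕ) → Equiv.Perm (Fin k) → ℤ) (h1 : mu 1 1 = 1)
    (h2 : ∀ n : ℕ, 2 ≤ n → ∀ π : Equiv.Perm (Fin n),
      ∑ k ∈ Finset.Icc 1 n,
        ∑ σ ∈ (Finset.univ : Finset (Equiv.Perm (Fin k))).filter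
          (fun σ => ∃ e : Fin k ↪o Fin n, ∀ i j : Fin k, σ i < σ j ↔ π (e i) < π (e j)),
          mu k σ = 0) :
    ∃ N : ℕ, ∀ n : ℕ, N ≤ n → ∀ π : Equiv.Perm (Fin n),
      ((|mu n π| : ℤ) : ℝ) ≤ (n : ℝ) ^ ((99 / 100 : ℝ) * n) := by
  obtain ⟨m1, hm1⟩ := num_par
  obtain ⟨m2, hm2⟩ := num_fin
  refine ⟨(max (max m1 m2) 3 + 1) ^ 40, fun n hn π => ?_⟩
  obtain ⟨m, hma, hmb⟩ := root40 n
  have hm : max (max m1 m2) 3 ≤ m := by
    by_contra hcon
    push Not at hcon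
    have h3 : (m + 1) ^ 40 ≤ (max (max m1 m2) 3 + 1) ^ 40 := Nat.pow_le_pow_left (by omega) 40
    omega
  have h3 : 3 ≤ m := le_trans (le_max_right _ _) hm
  have h4 : m1 ≤ m := le_trans ((le_max_left _ _).trans (le_max_left _ _)) hm
  have h5 : m2 ≤ m := le_trans ((le_max_right _ _).trans (le_max_left _ _)) hm
  have hn1 : 1 ≤ n := le_trans (Nat.one_le_pow _ _ (by omega)) hma
  have hm4 : 1 ≤ m ^ 4 := Nat.one_le_pow _ _ (by omega)
  have hm2' : 1 ≤ m ^ 2 := Nat.one_le_pow _ _ (by omega)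
  have h22 : m ^ 4 = m ^ 2 * m ^ 2 := by ring
  have hmm : m ≤ m ^ 2 := Nat.le_self_pow (by norm_num) m
  have key := comb mu h1 h2 n hn1 π (100 * m ^ 4) (2 * m ^ 2)
    (2 * (2 * m ^ 2) * (4 * (100 * m ^ 4) + 2) ^ 7) m (m ^ 2) (25 * m ^ 4) h3 (by omega)
    (by nlinarith) (by nlinarith) (by omega) (by omega) (le_refl _) (by omega)
    (hm1 m n h4 hma)
  exact key.trans (hm2 m n h5 hma hmb)

end Pool.Agent.H68.PS
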