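import Pool.Agent.H68.PS.Best
import Pool.Agent.H68.PS.Comp

/-!
Module GaugeB: if `S = Z \ (X ∪ P)` is canonical in `Z \ X` but not in `Z`, then an event occurs
at `P`.

Proof. Let `T`, `F` be the canonical copy of `S` in `Z` (`best_exists`), `T ≠ S`,
`A = S.filter (F s ≠ s)`, nonempty (otherwise `T = S`).  Apply `comp_exists` to `A` and the relation
`r a b := Str d1 d2 F a b`, get the component `C`. CLAIM 1: for `a ∈ C`, `s ∈ S \ C` the point `s`
is not in the strip of `a` (for `s ∈ A` because `C` is a component; for `s ∉ A` because `F s = s`,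
`F a ≠ s` and `F` preserves the orders), and if `s ∈ A \ C`, then `a` is not in the strip of `s`.
So `F₁ = (F on C, identity elsewhere)` and `F₂ = (identity on C, F elsewhere)` are isomorphisms of
`S` onto their images, which are subsets of `Z`.
CLAIM 2: Let `p` be the `d1`-first point of `C ∪ F(C)`. Then `p ∉ C`. Otherwise `p ∉ T`: if `p = F s`
then `s ∈ C`: `d1 p ≤ d1 s`, `s ≠ p` (as `F p ≠ p`), so `d1 p < d1 s`, `d1 p ≤ d1 (F p) < d1 (F s) = d1 p`;
`s ∈ A \ C`: `p = F s` is in the strip of `s`, contradiction to CLAIM 1; `s ∈ S \ A`: `s = F s = p ∈ C ⊆ A`.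
And `p ∈ F₂(S)`, and `T = F(S)` and `F₂(S)` differ only in points of `C ∪ F(C)`: so
`Bet d1 (F₂ S) T`, but `F₂(S)` is isomorphic to `T`, contradiction with `Can Z T`.
So `p = F x0`, `x0 ∈ C`, `Impr d1 C F x0`.
CLAIM 3: some `F a`, `a ∈ C`, is in `X`: otherwise `F₁(S) ⊆ Z \ X` and `Bet d1 (F₁ S) S` (first
difference `p`), contradiction with `Can (Z \ X) S`.
Finally `hol Z C F ⊆ X ∪ P` by CLAIM 1, `x0 ∈ S` so `x0 ∉ P`; `C ⊆ S` is disjoint from `X`.
-/

set_option autoImplicit false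

open Finset Classical

namespace Pool.Agent.H68.PS

variable {n : ℕ}

/-- the identity on `C`, `F` elsewhere: one order -/
private theorem gb_ord (d : Equiv.Perm (Fin n)) (S C : Finset (Fin n)) (F : Fin n → Fin n)
    (hF : ∀ a ∈ S, ∀ b ∈ S, d a < d b → d (F a) < d (F b))
    (h1 : ∀ a ∈ C, ∀ s ∈ S, s ∉ C → F s = s ∨ ¬ Bt d s (F s) a)
    {a b : Fin n} (ha : a ∈ S) (hb : b ∈ S) (hab : d a < d b) :
    d (if a ∈ C then a else F a) < d (if b ∈ C then b else F b) := by
  by_cases haC : a ∈ C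
  · by_cases hbC : b ∈ C
    · rw [if_pos haC, if_pos hbC]
      exact hab
    · rw [if_pos haC, if_neg hbC]
      rcases h1 a haC b hb hbC with h | h
      · rw [h]
        exact hab
      · by_contra hcon
        exact h (Or.inr ⟨not_lt.1 hcon, hab.le⟩)
  · by_cases hbC : b ∈ C
    · rw [if_neg haC, if_pos hbC]
      rcases h1 b hbC a ha haC with h | h
      · rw [h]
        exact hab
      · by_contra hcon
        exact h (Or.inl ⟨hab.le, not_lt.1 hcon⟩)
    · rw [if_neg haC, if_neg hbC]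
      exact hF a ha b hb hab

/-- a fixed point is not in the strip of a moved point: one order -/
private theorem gb_fix (d : Equiv.Perm (Fin n)) (S : Finset (Fin n)) (F : Fin n → Fin n)
    (hF : ∀ a ∈ S, ∀ b ∈ S, d a < d b → d (F a) < d (F b)) {a s : Fin n} (ha : a ∈ S) (hs : s ∈ S)
    (hFa : F a ≠ s) (has : a ≠ s) (hFs : F s = s) : ¬ Bt d a (F a) s := by
  have h1 : d a ≠ d s := fun h => has (d.injective h)
  have h2 : d (F a) ≠ d s := fun h => hFa (d.injective h)
  rintro (⟨h3, h4⟩ | ⟨h3, h4⟩)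
  · have h5 := hF a ha s hs (lt_of_le_of_ne h3 h1)
    rw [hFs] at h5
    exact absurd h5 (not_lt.2 h4)
  · have h5 := hF s hs a ha (lt_of_le_of_ne h4 h1.symm)
    rw [hFs] at h5
    exact absurd h5 (not_lt.2 h3)

theorem gauge_b (d1 d2 : Equiv.Perm (Fin n)) (Z X P : Finset (Fin n)) (hX : X ⊆ Z) (hP : P ⊆ Z)
    (h1 : Can d1 d2 (Z \ X) (Z \ (X ∪ P))) (h2 : ¬ Can d1 d2 Z (Z \ (X ∪ P))) :
    Occ d1 d2 Z X P := by
  obtain ⟨S, hSdef⟩ : ∃ S, S = Z \ (X ∪ P) := ⟨_, rfl⟩
  rw [← hSdef] at h1 h2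
  have hSZ : S ⊆ Z := by rw [hSdef]; exact sdiff_subset
  have hSmem : ∀ z, z ∈ S ↔ z ∈ Z ∧ z ∉ X ∧ z ∉ P := by
    intro z
    rw [hSdef, mem_sdiff, mem_union, not_or]
  obtain ⟨T, F, hF, hT⟩ := best_exists d1 d2 Z S hSZ
  have hTS : T ≠ S := fun h => h2 (h ▸ hT)
  obtain ⟨A, hAdef⟩ : ∃ A, A = S.filter (fun s => F s ≠ s) := ⟨_, rfl⟩
  have hAmem : ∀ z, z ∈ A ↔ z ∈ S ∧ F z ≠ z := by
    intro z
    rw [hAdef, mem_filter]
  have hAne : A.Nonempty := by
    by_contra hcon
    rw [not_nonempty_iff_eq_empty] at hcon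
    have hid : ∀ s ∈ S, F s = s := by
      intro s hs
      by_contra h
      have : s ∈ A := (hAmem s).2 ⟨hs, h⟩
      rw [hcon] at this
      exact notMem_empty s this
    apply hTS
    ext z
    constructor
    · intro hz
      obtain ⟨a, ha, haz⟩ := hF.surj z hz
      rw [hid a ha] at haz
      rwa [← haz]
    · intro hz
      have := hF.maps z hz
      rwa [hid z hz] at this
  obtain ⟨C, hCA, hCne, hCr, hCc⟩ := comp_exists (fun a b => Str d1 d2 F a b) A hAne
  have hAS : ∀ a ∈ A, a ∈ S := fun a ha => ((hAmem a).1 ha).1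
  have hCS : ∀ a ∈ C, a ∈ S := fun a ha => hAS a (hCA ha)
  have hFne : ∀ a ∈ C, F a ≠ a := fun a ha => ((hAmem a).1 (hCA ha)).2
  have hFix : ∀ s ∈ S, s ∉ A → F s = s := by
    intro s hs hsA
    by_contra h
    exact hsA ((hAmem s).2 ⟨hs, h⟩)
  -- CLAIM 1
  have c1 : ∀ a ∈ C, ∀ s ∈ S, s ∉ C → ¬ Str d1 d2 F a s := by
    intro a ha s hs hsC
    by_cases hsA : s ∈ A
    · exact (hCr a ha s hsA hsC).1
    · have hFs := hFix s hs hsA
      have has : a ≠ s := fun h => hsA (h ▸ hCA ha)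
      have hFa : F a ≠ s := fun h => has (Iso_inj hF (hCS a ha) hs (h.trans hFs.symm))
      rintro (h | h)
      · exact gb_fix d1 S F hF.fst (hCS a ha) hs hFa has hFs h
      · exact gb_fix d2 S F hF.snd (hCS a ha) hs hFa has hFs h
  have c2 : ∀ a ∈ C, ∀ s ∈ S, s ∉ C → F s = s ∨ ¬ Str d1 d2 F s a := by
    intro a ha s hs hsC
    by_cases hsA : s ∈ A
    · exact Or.inr (hCr a ha s hsA hsC).2
    · exact Or.inl (hFix s hs hsA)
  -- the move
  have hmv : Mv d1 d2 Z C F := ⟨hCne, fun a ha => hSZ (hCS a ha), fun a ha => hT.1 (hF.maps a (hCS a ha)),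
    hFne, fun a ha b hb => hF.fst a (hCS a ha) b (hCS b hb), fun a ha b hb => hF.snd a (hCS a ha) b (hCS b hb)⟩
  have hhol : ∀ s ∈ S, s ∉ hol d1 d2 Z C F := by
    intro s hs hsh
    obtain ⟨-, hsC, a, ha, hstr⟩ := mem_filter.1 hsh
    exact c1 a ha s hs hsC hstr
  -- the first point
  obtain ⟨p, hp, hpmin⟩ := exists_min_image (C ∪ C.image F) d1 (hCne.mono subset_union_left)
  have hminC : ∀ a ∈ C, d1 p ≤ d1 a := fun a ha => hpmin a (mem_union_left _ ha)
  have hminF : ∀ a ∈ C, d1 p ≤ d1 (F a) := fun a ha => hpmin (F a) (mem_union_right _ (mem_image_of_mem F ha))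
  have hqn : ∀ q, d1 q < d1 p → q ∉ C ∧ ∀ a ∈ C, F a ≠ q := by
    intro q hq
    refine ⟨fun h => absurd (hminC q h) (not_le.2 hq), fun a ha h => ?_⟩
    have := hminF a ha
    rw [h] at this
    exact absurd this (not_le.2 hq)
  -- CLAIM 2
  have hpC : p ∉ C := by
    intro hpC
    have hpT : p ∉ T := by
      intro hpT
      obtain ⟨s, hs, hsp⟩ := hF.surj p hpT
      by_cases hsC : s ∈ C
      · have hne : s ≠ p := by
          rintro rfl
          exact hFne s hpC hsp
        have hlt : d1 p < d1 s := lt_of_le_of_ne (hminC s hsC) (fun h => hne (d1.injective h).symm)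
        have h3 := hF.fst p (hCS p hpC) s hs hlt
        rw [hsp] at h3
        exact absurd (hminF p hpC) (not_le.2 h3)
      · rcases c2 p hpC s hs hsC with h | h
        · rw [h] at hsp
          exact hsC (hsp ▸ hpC)
        · apply h
          left
          rw [hsp]
          rcases le_total (d1 s) (d1 p) with h4 | h4
          · exact Or.inl ⟨h4, le_rfl⟩
          · exact Or.inr ⟨le_rfl, h4⟩
    obtain ⟨F2, hF2⟩ : ∃ F2 : Fin n → Fin n, F2 = fun z => if z ∈ C then z else F z := ⟨_, rfl⟩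
    have hF2C : ∀ z ∈ C, F2 z = z := fun z hz => by rw [hF2]; exact if_pos hz
    have hF2n : ∀ z, z ∉ C → F2 z = F z := fun z hz => by rw [hF2]; exact if_neg hz
    have hI2 : Iso d1 d2 S (S.image F2) F2 := by
      refine ⟨fun a ha => mem_image_of_mem F2 ha, fun b hb => ?_, fun a ha b hb hab => ?_, fun a ha b hb hab => ?_⟩
      · obtain ⟨a, ha, hab⟩ := mem_image.1 hb
        exact ⟨a, ha, hab⟩
      · rw [hF2]
        refine gb_ord d1 S C F hF.fst (fun a ha s hs hsC => ?_) ha hb hab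
        rcases c2 a ha s hs hsC with h | h
        · exact Or.inl h
        · exact Or.inr fun h' => h (Or.inl h')
      · rw [hF2]
        refine gb_ord d2 S C F hF.snd (fun a ha s hs hsC => ?_) ha hb hab
        rcases c2 a ha s hs hsC with h | h
        · exact Or.inl h
        · exact Or.inr fun h' => h (Or.inr h')
    obtain ⟨ψ, hψ⟩ := Iso_symm hF
    have hsub : S.image F2 ⊆ Z := by
      intro z hz
      obtain ⟨s, hs, hsz⟩ := mem_image.1 hz
      by_cases hsC : s ∈ C
      · rw [hF2C s hsC] at hsz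
        rw [← hsz]
        exact hSZ hs
      · rw [hF2n s hsC] at hsz
        rw [← hsz]
        exact hT.1 (hF.maps s hs)
    refine hT.2 (S.image F2) hsub _ (Iso_trans hψ hI2) ⟨p, ?_, hpT, ?_⟩
    · exact mem_image.2 ⟨p, hCS p hpC, hF2C p hpC⟩
    · intro q hq
      obtain ⟨hqC, hqF⟩ := hqn q hq
      constructor
      · intro hqi
        obtain ⟨s, hs, hsq⟩ := mem_image.1 hqi
        by_cases hsC : s ∈ C
        · rw [hF2C s hsC] at hsq
          exact absurd (hsq ▸ hsC) hqC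
        · rw [hF2n s hsC] at hsq
          rw [← hsq]
          exact hF.maps s hs
      · intro hqT
        obtain ⟨s, hs, hsq⟩ := hF.surj q hqT
        have hsC : s ∉ C := fun h => hqF s h hsq
        exact mem_image.2 ⟨s, hs, (hF2n s hsC).trans hsq⟩
  obtain ⟨x0, hx0, hx0p⟩ : ∃ x0 ∈ C, F x0 = p := by
    rcases mem_union.1 hp with h | h
    · exact absurd h hpC
    · exact mem_image.1 h
  have himpr : Impr d1 C F x0 := ⟨hx0, hx0p ▸ hpC, fun a ha => by
    rw [hx0p]
    exact ⟨hminC a ha, hminF a ha⟩⟩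
  -- CLAIM 3
  have huses : ∃ a ∈ C, F a ∈ X := by
    by_contra hcon
    push Not at hcon
    have hI1 := ext_iso hmv S hSZ hhol
    have hsub : S.image (ext C F) ⊆ Z \ X := by
      intro z hz
      obtain ⟨s, hs, hsz⟩ := mem_image.1 hz
      by_cases hsC : s ∈ C
      · have : ext C F s = F s := if_pos hsC
        rw [this] at hsz
        rw [← hsz]
        exact mem_sdiff.2 ⟨hT.1 (hF.maps s hs), hcon s hsC⟩
      · have : ext C F s = s := if_neg hsC
        rw [this] at hsz
        rw [← hsz]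
        exact mem_sdiff.2 ⟨hSZ hs, ((hSmem s).1 hs).2.1⟩
    refine h1.2 _ hsub _ hI1 ⟨p, ?_, ?_, ?_⟩
    · exact mem_image.2 ⟨x0, hCS x0 hx0, (if_pos hx0 : ext C F x0 = F x0).trans hx0p⟩
    · intro hpS
      apply c1 x0 hx0 p hpS hpC
      left
      rw [hx0p]
      rcases le_total (d1 x0) (d1 p) with h4 | h4
      · exact Or.inl ⟨h4, le_rfl⟩
      · exact Or.inr ⟨le_rfl, h4⟩
    · intro q hq
      obtain ⟨hqC, hqF⟩ := hqn q hq
      constructor
      · intro hqi
        obtain ⟨s, hs, hsq⟩ := mem_image.1 hqi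
        by_cases hsC : s ∈ C
        · have : ext C F s = F s := if_pos hsC
          rw [this] at hsq
          exact absurd hsq (hqF s hsC)
        · have : ext C F s = s := if_neg hsC
          rw [this] at hsq
          rwa [← hsq]
      · intro hqS
        exact mem_image.2 ⟨q, hqS, if_neg hqC⟩
  refine ⟨C, F, x0, ⟨hmv, ?_, himpr, ?_, huses⟩, ?_, ?_⟩
  · intro S' hS' hne hneq
    exact hCc S' hS' hne hneq
  · rw [disjoint_left]
    intro a ha haX
    exact ((hSmem a).1 (hCS a ha)).2.1 haX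
  · intro z hz
    by_contra hcon
    rw [mem_union, not_or] at hcon
    have hzS : z ∈ S := (hSmem z).2 ⟨(mem_filter.1 hz).1, hcon.1, hcon.2⟩
    exact hhol z hzS hz
  · exact ((hSmem x0).1 (hCS x0 hx0)).2.2

end Pool.Agent.H68.PS
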