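import Pool.Agent.H68.PS.GaugeA
import Pool.Agent.H68.PS.GaugeB

/-!
Module Gauge: the gauge identity.
-/

set_option autoImplicit false

open Finset Classical

namespace Pool.Agent.H68.PS

variable {n : ℕ}

theorem gauge (d1 d2 : Equiv.Perm (Fin n)) (Z X P : Finset (Fin n)) (hX : X ⊆ Z) (hP : P ⊆ Z \ X) :
    V d1 d2 Z (X ∪ P) = g d1 d2 Z X P * V d1 d2 (Z \ X) P := by
  have hPZ : P ⊆ Z := hP.trans sdiff_subset
  have hs : (Z \ X) \ P = Z \ (X ∪ P) := sdiff_sdiff_left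
  unfold V g
  rw [hs]
  by_cases h : Occ d1 d2 Z X P
  · rw [if_neg (gauge_a d1 d2 Z X P h), if_pos h, zero_mul]
  · rw [if_neg h, one_mul]
    by_cases h1 : Can d1 d2 (Z \ X) (Z \ (X ∪ P))
    · rw [if_pos h1, if_pos]
      by_contra h2
      exact h (gauge_b d1 d2 Z X P hX hPZ h1 h2)
    · rw [if_neg h1, if_neg]
      intro h2
      exact h1 (can_mono d1 d2 sdiff_subset (by rw [← hs]; exact sdiff_subset) h2)

end Pool.Agent.H68.PS
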