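import Pool.Agent.H68.PS.MvA

/-!
Module GaugeA: if some event occurs at `P`, then `Z \ (X ∪ P)` is not canonical in `Z`.

Proof. Let `(A, f, x0)` be the event and `S = Z \ (X ∪ P)`; `hol ⊆ X ∪ P`, so by `ext_iso` the map
`F = ext A f` is an isomorphism of `S` onto `S.image F ⊆ Z`.  `x0 ∈ S` (`x0 ∈ A`, `A` is disjoint
from `X`, `x0 ∉ P`), `f x0 ∉ A` is a hole (`Mv_image`), so `f x0 ∉ S`, `f x0 = F x0 ∈ S.image F`.
Let `q` with `d1 q < d1 (f x0)`. Then `q ∉ A` and `q ≠ f a` for all `a ∈ A` (`Impr`), so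
`q ∈ S.image F ↔ q ∈ S` (`F` is the identity outside `A`). Hence `Bet d1 (S.image F) S`.
-/

set_option autoImplicit false

open Finset Classical

namespace Pool.Agent.H68.PS

variable {n : ℕ}

theorem gauge_a (d1 d2 : Equiv.Perm (Fin n)) (Z X P : Finset (Fin n))
    (h : Occ d1 d2 Z X P) : ¬ Can d1 d2 Z (Z \ (X ∪ P)) := by
  obtain ⟨A, f, x0, hE, hhol, hx0⟩ := h
  intro hc
  have hSZ : Z \ (X ∪ P) ⊆ Z := sdiff_subset
  have hSd : ∀ s ∈ Z \ (X ∪ P), s ∉ hol d1 d2 Z A f := fun s hs hs' => (mem_sdiff.1 hs).2 (hhol hs')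
  have hI := ext_iso hE.mv (Z \ (X ∪ P)) hSZ hSd
  have himg : (Z \ (X ∪ P)).image (ext A f) ⊆ Z := by
    intro z hz
    obtain ⟨s, hs, rfl⟩ := mem_image.1 hz
    unfold ext
    split_ifs with h
    · exact hE.mv.maps s h
    · exact hSZ hs
  refine hc.2 _ himg _ hI ?_
  obtain ⟨hx0A, hfx0A, hmin⟩ := hE.impr
  have hx0S : x0 ∈ Z \ (X ∪ P) := mem_sdiff.2 ⟨hE.mv.sub hx0A, fun hx => by
    rcases mem_union.1 hx with h | h
    · exact disjoint_left.1 hE.disj hx0A h
    · exact hx0 h⟩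
  refine ⟨f x0, ?_, ?_, ?_⟩
  · exact mem_image.2 ⟨x0, hx0S, if_pos hx0A⟩
  · rcases Mv_image hE.mv hx0A with h | h
    · exact absurd h hfx0A
    · exact fun hs => hSd _ hs h
  · intro q hq
    have hqA : q ∉ A := fun h => absurd ((hmin q h).1) (not_le.2 hq)
    constructor
    · intro hqi
      obtain ⟨s, hs, hsq⟩ := mem_image.1 hqi
      by_cases hsA : s ∈ A
      · have h1 : ext A f s = f s := if_pos hsA
        rw [h1] at hsq
        have h2 := (hmin s hsA).2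
        rw [hsq] at h2
        exact absurd h2 (not_le.2 hq)
      · have h1 : ext A f s = s := if_neg hsA
        rw [h1] at hsq
        rwa [← hsq]
    · intro hqS
      exact mem_image.2 ⟨q, hqS, if_neg hqA⟩

end Pool.Agent.H68.PS
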