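import Pool.Agent.H68.PS.Row

/-!
Module Lay (pure): the layering formula.

`bb V U Z X D = ∑_{P ⊆ D \ X} (-1)^#P V Z (X ∪ P) U (Z \ (X ∪ P)) (D \ (X ∪ P))`.
`lay1`: `∑_{∅ ≠ X ⊆ D} bb Z X D = ∑_{∅ ≠ W ⊆ D} V Z W U (Z \ W) (D \ W) ∑_{∅ ≠ X ⊆ W} (-1)^#(W \ X)`
and the inner sum is `- (-1)^#W`; use the row relation (`V Z ∅ = 1`).
`lay2`: `G P = ∑_{Y ⊆ P} (-1)^#Y E Y` with `E Y = ∑_{P ⊆ Y} (-1)^#P G P` (Moebius inversion), so
`bb Z X D = ∑_{P ⊆ D'} (-1)^#P G P V Z' P U (Z' \ P) (D' \ P)`, `Z' = Z \ X`, `D' = D \ X`,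
`= ∑_{Y ⊆ D'} (-1)^#Y E Y ∑_{Y ⊆ P ⊆ D'} (-1)^#P V Z' P U (Z' \ P) (D' \ P)
= ∑_{Y ⊆ D'} E Y bb Z' Y D'`, and the term `Y = ∅` is `0` by the row relation (`D' ≠ ∅`).
-/

set_option autoImplicit false

open Finset Classical

namespace Pool.Agent.H68.PS

/-- the partial sums of a row -/
noncomputable def bb {α : Type} [DecidableEq α] (V U : Finset α → Finset α → ℤ) (Z X D : Finset α) : ℤ :=
  ∑ P ∈ (D \ X).powerset, (-1 : ℤ) ^ P.card * (V Z (X ∪ P) * U (Z \ (X ∪ P)) (D \ (X ∪ P)))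

private lemma ly_reindex {α : Type} [DecidableEq α] (X D : Finset α) (hX : X ⊆ D)
    (f : Finset α → ℤ) :
    ∑ P ∈ (D \ X).powerset, (-1 : ℤ) ^ P.card * f (X ∪ P) =
      ∑ W ∈ D.powerset.filter (fun W => X ⊆ W), (-1 : ℤ) ^ X.card * (-1 : ℤ) ^ W.card * f W := by
  refine Finset.sum_nbij' (fun P => X ∪ P) (fun W => W \ X) ?_ ?_ ?_ ?_ ?_
  · intro P hP
    rw [mem_powerset] at hP
    rw [mem_filter, mem_powerset]
    exact ⟨union_subset hX (hP.trans sdiff_subset), subset_union_left⟩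
  · intro W hW
    rw [mem_filter, mem_powerset] at hW
    rw [mem_powerset]
    exact sdiff_subset_sdiff hW.1 (Subset.refl _)
  · intro P hP
    rw [mem_powerset] at hP
    ext a
    simp only [mem_sdiff, mem_union]
    constructor
    · rintro ⟨h1 | h1, h2⟩
      · exact absurd h1 h2
      · exact h1
    · intro h
      exact ⟨Or.inr h, (mem_sdiff.1 (hP h)).2⟩
  · intro W hW
    rw [mem_filter, mem_powerset] at hW
    exact union_sdiff_of_subset hW.2
  · intro P hP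
    rw [mem_powerset] at hP
    have hd : Disjoint X P := by
      rw [Finset.disjoint_right]
      intro a ha
      exact (mem_sdiff.1 (hP ha)).2
    rw [card_union_of_disjoint hd, pow_add]
    have h1 : (-1 : ℤ) ^ X.card * (-1 : ℤ) ^ X.card = 1 := by
      rw [← mul_pow]; simp
    rw [← mul_assoc, h1, one_mul]

private lemma ly_swap {α : Type} [DecidableEq α] (D : Finset α) (f : Finset α → Finset α → ℤ) :
    ∑ X ∈ D.powerset, ∑ W ∈ D.powerset.filter (fun W => X ⊆ W), f X W =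
      ∑ W ∈ D.powerset, ∑ X ∈ W.powerset, f X W := by
  refine Finset.sum_comm' ?_
  intro X W
  simp only [mem_powerset, mem_filter]
  constructor
  · rintro ⟨_, h2, h3⟩
    exact ⟨h3, h2⟩
  · rintro ⟨h1, h2⟩
    exact ⟨h1.trans h2, h2, h1⟩

private lemma ly_inv {α : Type} [DecidableEq α] (W : Finset α) (G : Finset α → ℤ) :
    ∑ Y ∈ W.powerset, (-1 : ℤ) ^ Y.card * ∑ P ∈ Y.powerset, (-1 : ℤ) ^ P.card * G P = G W := by
  have h1 : ∑ Y ∈ W.powerset, (-1 : ℤ) ^ Y.card * ∑ P ∈ Y.powerset, (-1 : ℤ) ^ P.card * G P =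
      ∑ Y ∈ W.powerset, ∑ P ∈ Y.powerset, (-1 : ℤ) ^ P.card * (-1 : ℤ) ^ Y.card * G P := by
    refine Finset.sum_congr rfl fun Y _ => ?_
    rw [Finset.mul_sum]
    refine Finset.sum_congr rfl fun P _ => ?_
    ring
  rw [h1, ← ly_swap W (fun P Y => (-1 : ℤ) ^ P.card * (-1 : ℤ) ^ Y.card * G P)]
  have h2 : ∀ P ∈ W.powerset,
      ∑ Y ∈ W.powerset.filter (fun Y => P ⊆ Y), (-1 : ℤ) ^ P.card * (-1 : ℤ) ^ Y.card * G P =
        if P = W then G W else 0 := by
    intro P hP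
    rw [mem_powerset] at hP
    rw [← ly_reindex P W hP (fun _ => G P), ← Finset.sum_mul]
    by_cases h : P = W
    · subst h
      simp
    · rw [if_neg h, Finset.sum_powerset_neg_one_pow_card_of_nonempty, zero_mul]
      rw [sdiff_nonempty]
      exact fun h' => h (Subset.antisymm hP h')
  rw [Finset.sum_congr rfl h2, Finset.sum_ite_eq' W.powerset W (fun _ => G W)]
  simp

theorem lay1 {α : Type} [DecidableEq α] {V U : Finset α → Finset α → ℤ} (hV : ∀ Z, V Z ∅ = 1)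
    (hU : IsRow V U) (Z D : Finset α) (hD : D.Nonempty) :
    U Z D = ∑ X ∈ D.powerset.erase ∅, bb V U Z X D := by
  have hb : ∀ X ∈ D.powerset, bb V U Z X D =
      ∑ W ∈ D.powerset.filter (fun W => X ⊆ W),
        (-1 : ℤ) ^ X.card * (-1 : ℤ) ^ W.card * (V Z W * U (Z \ W) (D \ W)) := by
    intro X hX
    rw [mem_powerset] at hX
    exact ly_reindex X D hX (fun W => V Z W * U (Z \ W) (D \ W))
  have h1 : ∑ X ∈ D.powerset, bb V U Z X D = U Z D := by
    rw [Finset.sum_congr rfl hb,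
      ly_swap D (fun X W => (-1 : ℤ) ^ X.card * (-1 : ℤ) ^ W.card * (V Z W * U (Z \ W) (D \ W)))]
    have h2 : ∀ W ∈ D.powerset,
        ∑ X ∈ W.powerset, (-1 : ℤ) ^ X.card * (-1 : ℤ) ^ W.card * (V Z W * U (Z \ W) (D \ W)) =
          if W = ∅ then U Z D else 0 := by
      intro W _
      have h3 : ∀ X ∈ W.powerset,
          (-1 : ℤ) ^ X.card * (-1 : ℤ) ^ W.card * (V Z W * U (Z \ W) (D \ W)) =
            (-1 : ℤ) ^ X.card * ((-1 : ℤ) ^ W.card * (V Z W * U (Z \ W) (D \ W))) := by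
        intro X _
        ring
      rw [Finset.sum_congr rfl h3, ← Finset.sum_mul, Finset.sum_powerset_neg_one_pow_card]
      by_cases h : W = ∅
      · subst h
        simp [hV]
      · simp [h]
    rw [Finset.sum_congr rfl h2, Finset.sum_ite_eq' D.powerset ∅ (fun _ => U Z D)]
    simp
  have h0 : bb V U Z ∅ D = 0 := by
    have h4 := hU.rel Z D hD
    unfold bb
    rw [sdiff_empty]
    simpa only [empty_union] using h4
  rw [← h1]
  have h5 : ∅ ∈ D.powerset := by simp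
  rw [← Finset.add_sum_erase _ _ h5, h0, zero_add]

theorem lay2 {α : Type} [DecidableEq α] {V U : Finset α → Finset α → ℤ} (hU : IsRow V U) (Z X D : Finset α)
    (hX : X ⊆ D) (hX' : X ≠ D) (G : Finset α → ℤ)
    (hG : ∀ P, P ⊆ D \ X → V Z (X ∪ P) = G P * V (Z \ X) P) :
    bb V U Z X D = ∑ Y ∈ (D \ X).powerset.erase ∅,
      (∑ P ∈ Y.powerset, (-1 : ℤ) ^ P.card * G P) * bb V U (Z \ X) Y (D \ X) := by
  have hDn : (D \ X).Nonempty := by
    rw [sdiff_nonempty]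
    exact fun h => hX' (Subset.antisymm hX h)
  have hL : bb V U Z X D = ∑ P ∈ (D \ X).powerset,
      (-1 : ℤ) ^ P.card * (G P * (V (Z \ X) P * U ((Z \ X) \ P) ((D \ X) \ P))) := by
    unfold bb
    refine Finset.sum_congr rfl fun P hP => ?_
    rw [mem_powerset] at hP
    have e1 : ∀ A : Finset α, A \ (X ∪ P) = (A \ X) \ P := by
      intro A
      ext a
      simp only [mem_sdiff, mem_union]
      tauto
    rw [hG P hP, e1 Z, e1 D]
    ring
  set Z' := Z \ X with hZ'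
  set D' := D \ X with hD'
  have hb : ∀ Y ∈ D'.powerset, (∑ P ∈ Y.powerset, (-1 : ℤ) ^ P.card * G P) * bb V U Z' Y D' =
      ∑ W ∈ D'.powerset.filter (fun W => Y ⊆ W),
        ((-1 : ℤ) ^ Y.card * ∑ P ∈ Y.powerset, (-1 : ℤ) ^ P.card * G P) *
          ((-1 : ℤ) ^ W.card * (V Z' W * U (Z' \ W) (D' \ W))) := by
    intro Y hY
    rw [mem_powerset] at hY
    have h1 : bb V U Z' Y D' = _ := ly_reindex Y D' hY (fun W => V Z' W * U (Z' \ W) (D' \ W))
    rw [h1, Finset.mul_sum]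
    refine Finset.sum_congr rfl fun W _ => ?_
    ring
  have h0 : bb V U Z' ∅ D' = 0 := by
    have h4 := hU.rel Z' D' hDn
    unfold bb
    rw [sdiff_empty]
    simpa only [empty_union] using h4
  have h5 : ∅ ∈ D'.powerset := by simp
  have h6 : ∑ Y ∈ D'.powerset.erase ∅,
      (∑ P ∈ Y.powerset, (-1 : ℤ) ^ P.card * G P) * bb V U Z' Y D' =
      ∑ Y ∈ D'.powerset,
      (∑ P ∈ Y.powerset, (-1 : ℤ) ^ P.card * G P) * bb V U Z' Y D' := by
    rw [← Finset.add_sum_erase _ _ h5, h0, mul_zero, zero_add]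
  rw [hL, h6, Finset.sum_congr rfl hb,
    ly_swap D' (fun Y W => ((-1 : ℤ) ^ Y.card * ∑ P ∈ Y.powerset, (-1 : ℤ) ^ P.card * G P) *
          ((-1 : ℤ) ^ W.card * (V Z' W * U (Z' \ W) (D' \ W))))]
  refine Finset.sum_congr rfl fun W _ => ?_
  rw [← Finset.sum_mul, ly_inv]
  ring

theorem lay3 {α : Type} [DecidableEq α] {V U : Finset α → Finset α → ℤ} (hU : IsRow V U) (Z D : Finset α) :
    bb V U Z D D = V Z D := by
  unfold bb
  simp [hU.one]

end Pool.Agent.H68.PS
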