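import Pool.Agent.H68.PS.Def

/-!
Module MvA: elementary facts on moves (no ranks).

`hol` = points of `Z \ A` in some closed strip, `ext A f` = `f` on `A`, identity elsewhere.
If `S ⊆ Z` contains no point of `hol`, then `ext A f` is an isomorphism of `S` onto its image:
for `a ∈ A ∩ S`, `s ∈ S \ A` the point `s` is not in the closed strip of `a`, i.e. for both orders
`d` it is on the same side of `a` and of `f a` (and different from both).
-/

set_option autoImplicit false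

open Finset Classical

namespace Pool.Agent.H68.PS

variable {n : ℕ}

theorem Bt_swap (d : Equiv.Perm (Fin n)) (a b z : Fin n) : Bt d a b z ↔ Bt d b a z := by
  unfold Bt
  exact or_comm

theorem Mv_swap {d1 d2 : Equiv.Perm (Fin n)} {Z A : Finset (Fin n)} {f : Fin n → Fin n}
    (h : Mv d1 d2 Z A f) : Mv d2 d1 Z A f := by
  exact ⟨h.ne, h.sub, h.maps, h.fix, h.snd, h.fst⟩

theorem hol_swap (d1 d2 : Equiv.Perm (Fin n)) (Z A : Finset (Fin n)) (f : Fin n → Fin n) :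
    hol d2 d1 Z A f = hol d1 d2 Z A f := by
  unfold hol Str
  ext z
  simp only [mem_filter]
  refine and_congr_right fun _ => and_congr_right fun _ => exists_congr fun a => ?_
  exact and_congr_right fun _ => or_comm

theorem hol'_swap (d1 d2 : Equiv.Perm (Fin n)) (Z A : Finset (Fin n)) (f : Fin n → Fin n) :
    hol' d2 d1 Z A f = hol' d1 d2 Z A f := by
  unfold hol'
  rw [hol_swap]

theorem Mv_inj {d1 d2 : Equiv.Perm (Fin n)} {Z A : Finset (Fin n)} {f : Fin n → Fin n}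
    (h : Mv d1 d2 Z A f) {a b : Fin n} (ha : a ∈ A) (hb : b ∈ A) (hab : f a = f b) : a = b := by
  by_contra hne
  have h1 : d1 a ≠ d1 b := fun h2 => hne (d1.injective h2)
  rcases lt_or_gt_of_ne h1 with h2 | h2
  · exact absurd (h.fst a ha b hb h2) (by rw [hab]; exact lt_irrefl _)
  · exact absurd (h.fst b hb a ha h2) (by rw [hab]; exact lt_irrefl _)

/-- `f a` is a point of `A` or a hole -/
theorem Mv_image {d1 d2 : Equiv.Perm (Fin n)} {Z A : Finset (Fin n)} {f : Fin n → Fin n}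
    (h : Mv d1 d2 Z A f) {a : Fin n} (ha : a ∈ A) : f a ∈ A ∨ f a ∈ hol d1 d2 Z A f := by
  by_cases hA : f a ∈ A
  · exact Or.inl hA
  · right
    refine mem_filter.2 ⟨h.maps a ha, hA, a, ha, Or.inl ?_⟩
    rcases le_total (d1 a) (d1 (f a)) with h1 | h1
    · exact Or.inl ⟨h1, le_refl _⟩
    · exact Or.inr ⟨le_refl _, h1⟩

private theorem mva_fst {d1 d2 : Equiv.Perm (Fin n)} {Z A : Finset (Fin n)} {f : Fin n → Fin n}
    (h : Mv d1 d2 Z A f) (S : Finset (Fin n)) (hS : S ⊆ Z)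
    (hd : ∀ s ∈ S, s ∉ hol d1 d2 Z A f) :
    ∀ a ∈ S, ∀ b ∈ S, d1 a < d1 b → d1 (ext A f a) < d1 (ext A f b) := by
  intro a ha b hb hab
  have hn : ∀ s ∈ S, s ∉ A → ∀ a ∈ A, ¬ Bt d1 a (f a) s := by
    intro s hs hsA a haA hst
    exact hd s hs (mem_filter.2 ⟨hS hs, hsA, a, haA, Or.inl hst⟩)
  unfold ext
  by_cases h1 : a ∈ A
  · by_cases h2 : b ∈ A
    · rw [if_pos h1, if_pos h2]
      exact h.fst a h1 b h2 hab
    · rw [if_pos h1, if_neg h2]
      by_contra h3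
      exact hn b hb h2 a h1 (Or.inl ⟨hab.le, not_lt.1 h3⟩)
  · by_cases h2 : b ∈ A
    · rw [if_neg h1, if_pos h2]
      by_contra h3
      exact hn a ha h1 b h2 (Or.inr ⟨not_lt.1 h3, hab.le⟩)
    · rw [if_neg h1, if_neg h2]
      exact hab

/-- the extension of a move by the identity is an isomorphism on every set without holes -/
theorem ext_iso {d1 d2 : Equiv.Perm (Fin n)} {Z A : Finset (Fin n)} {f : Fin n → Fin n}
    (h : Mv d1 d2 Z A f) (S : Finset (Fin n)) (hS : S ⊆ Z)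
    (hd : ∀ s ∈ S, s ∉ hol d1 d2 Z A f) : Iso d1 d2 S (S.image (ext A f)) (ext A f) := by
  refine ⟨fun a ha => mem_image_of_mem _ ha, fun b hb => ?_, mva_fst h S hS hd, ?_⟩
  · obtain ⟨a, ha, hab⟩ := mem_image.1 hb
    exact ⟨a, ha, hab⟩
  · exact mva_fst (Mv_swap h) S hS fun s hs => by rw [hol_swap]; exact hd s hs

theorem Iso_iff1 {d1 d2 : Equiv.Perm (Fin n)} {S T : Finset (Fin n)} {φ : Fin n → Fin n}
    (h : Iso d1 d2 S T φ) {a b : Fin n} (ha : a ∈ S) (hb : b ∈ S) :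
    d1 (φ a) < d1 (φ b) ↔ d1 a < d1 b := by
  refine ⟨fun h1 => ?_, h.fst a ha b hb⟩
  by_contra h2
  rcases (not_lt.1 h2).lt_or_eq with h3 | h3
  · exact absurd (h.fst b hb a ha h3) (not_lt.2 h1.le)
  · rw [d1.injective h3] at h1
    exact lt_irrefl _ h1

theorem Iso_iff2 {d1 d2 : Equiv.Perm (Fin n)} {S T : Finset (Fin n)} {φ : Fin n → Fin n}
    (h : Iso d1 d2 S T φ) {a b : Fin n} (ha : a ∈ S) (hb : b ∈ S) :
    d2 (φ a) < d2 (φ b) ↔ d2 a < d2 b := by
  exact Iso_iff1 (⟨h.maps, h.surj, h.snd, h.fst⟩ : Iso d2 d1 S T φ) ha hb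

theorem Iso_inj {d1 d2 : Equiv.Perm (Fin n)} {S T : Finset (Fin n)} {φ : Fin n → Fin n}
    (h : Iso d1 d2 S T φ) {a b : Fin n} (ha : a ∈ S) (hb : b ∈ S) (hab : φ a = φ b) : a = b := by
  by_contra hne
  have h1 : d1 a ≠ d1 b := fun h2 => hne (d1.injective h2)
  rcases lt_or_gt_of_ne h1 with h2 | h2
  · exact absurd (h.fst a ha b hb h2) (by rw [hab]; exact lt_irrefl _)
  · exact absurd (h.fst b hb a ha h2) (by rw [hab]; exact lt_irrefl _)

theorem Iso_card {d1 d2 : Equiv.Perm (Fin n)} {S T : Finset (Fin n)} {φ : Fin n → Fin n}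
    (h : Iso d1 d2 S T φ) : T.card = S.card := by
  have h1 : T = S.image φ := by
    ext b
    rw [mem_image]
    constructor
    · intro hb
      obtain ⟨a, ha, hab⟩ := h.surj b hb
      exact ⟨a, ha, hab⟩
    · rintro ⟨a, ha, rfl⟩
      exact h.maps a ha
  rw [h1]
  exact card_image_of_injOn fun a ha b hb hab => Iso_inj h ha hb hab

/-- composition of isomorphisms -/
theorem Iso_trans {d1 d2 : Equiv.Perm (Fin n)} {S T R : Finset (Fin n)} {φ ψ : Fin n → Fin n}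
    (h : Iso d1 d2 S T φ) (h' : Iso d1 d2 T R ψ) : Iso d1 d2 S R (ψ ∘ φ) := by
  refine ⟨fun a ha => h'.maps _ (h.maps a ha), fun c hc => ?_, fun a ha b hb hab => ?_,
    fun a ha b hb hab => ?_⟩
  · obtain ⟨b, hb, hbc⟩ := h'.surj c hc
    obtain ⟨a, ha, hab⟩ := h.surj b hb
    exact ⟨a, ha, by rw [Function.comp_apply, hab, hbc]⟩
  · exact h'.fst _ (h.maps a ha) _ (h.maps b hb) (h.fst a ha b hb hab)
  · exact h'.snd _ (h.maps a ha) _ (h.maps b hb) (h.snd a ha b hb hab)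

/-- inverse isomorphism -/
theorem Iso_symm {d1 d2 : Equiv.Perm (Fin n)} {S T : Finset (Fin n)} {φ : Fin n → Fin n}
    (h : Iso d1 d2 S T φ) : ∃ ψ, Iso d1 d2 T S ψ := by
  have h1 : ∀ b, ∃ a, b ∈ T → a ∈ S ∧ φ a = b := by
    intro b
    by_cases hb : b ∈ T
    · obtain ⟨a, ha, hab⟩ := h.surj b hb
      exact ⟨a, fun _ => ⟨ha, hab⟩⟩
    · exact ⟨b, fun h2 => absurd h2 hb⟩
  choose ψ hψ using h1
  refine ⟨ψ, fun b hb => (hψ b hb).1, fun a ha => ⟨φ a, h.maps a ha, ?_⟩, fun b hb c hc hbc => ?_,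
    fun b hb c hc hbc => ?_⟩
  · have h2 := hψ (φ a) (h.maps a ha)
    exact Iso_inj h h2.1 ha h2.2
  · rw [← Iso_iff1 h (hψ b hb).1 (hψ c hc).1, (hψ b hb).2, (hψ c hc).2]
    exact hbc
  · rw [← Iso_iff2 h (hψ b hb).1 (hψ c hc).1, (hψ b hb).2, (hψ c hc).2]
    exact hbc

private theorem mva_rank {d1 d2 : Equiv.Perm (Fin n)} {S T : Finset (Fin n)}
    {φ : Fin n → Fin n} (h : Iso d1 d2 S T φ) {a : Fin n} (ha : a ∈ S) :
    (T.filter fun t => d1 t < d1 (φ a)).card = (S.filter fun t => d1 t < d1 a).card := by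
  have h1 : (T.filter fun t => d1 t < d1 (φ a)) = (S.filter fun t => d1 t < d1 a).image φ := by
    ext b
    rw [mem_image, mem_filter]
    constructor
    · rintro ⟨hb, hlt⟩
      obtain ⟨c, hc, rfl⟩ := h.surj b hb
      exact ⟨c, mem_filter.2 ⟨hc, (Iso_iff1 h hc ha).1 hlt⟩, rfl⟩
    · rintro ⟨c, hc, rfl⟩
      obtain ⟨hc1, hc2⟩ := mem_filter.1 hc
      exact ⟨h.maps c hc1, h.fst c hc1 a ha hc2⟩
  rw [h1]
  exact card_image_of_injOn fun x hx y hy hxy =>
    Iso_inj h (mem_filter.1 hx).1 (mem_filter.1 hy).1 hxy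

private theorem mva_not_lt {d1 d2 : Equiv.Perm (Fin n)} {S T : Finset (Fin n)}
    {φ ψ : Fin n → Fin n} (h : Iso d1 d2 S T φ) (h' : Iso d1 d2 S T ψ) {a : Fin n} (ha : a ∈ S) :
    ¬ d1 (φ a) < d1 (ψ a) := by
  intro hlt
  have h1 : (T.filter fun t => d1 t < d1 (φ a)) ⊂ (T.filter fun t => d1 t < d1 (ψ a)) := by
    refine (ssubset_iff_of_subset fun t ht => ?_).2 ⟨φ a, mem_filter.2 ⟨h.maps a ha, hlt⟩, ?_⟩
    · obtain ⟨ht1, ht2⟩ := mem_filter.1 ht
      exact mem_filter.2 ⟨ht1, ht2.trans hlt⟩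
    · intro h2
      exact lt_irrefl _ (mem_filter.1 h2).2
  have h2 := card_lt_card h1
  rw [mva_rank h ha, mva_rank h' ha] at h2
  exact lt_irrefl _ h2

/-- two isomorphisms with the same source and the same target agree -/
theorem Iso_unique {d1 d2 : Equiv.Perm (Fin n)} {S T : Finset (Fin n)} {φ ψ : Fin n → Fin n}
    (h : Iso d1 d2 S T φ) (h' : Iso d1 d2 S T ψ) : ∀ a ∈ S, φ a = ψ a := by
  intro a ha
  apply d1.injective
  exact le_antisymm (not_lt.1 (mva_not_lt h' h ha)) (not_lt.1 (mva_not_lt h h' ha))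

theorem hol'_card {d1 d2 : Equiv.Perm (Fin n)} {Z A : Finset (Fin n)} {f : Fin n → Fin n}
    (h : Mv d1 d2 Z A f) : (hol' d1 d2 Z A f).card = (hol d1 d2 Z A f).card := by
  have hsub : hol d1 d2 Z A f ⊆ Z := filter_subset _ _
  have himg : (Z \ hol d1 d2 Z A f).image (ext A f) ⊆ Z := by
    intro u hu
    obtain ⟨w, hw, rfl⟩ := mem_image.1 hu
    have hwZ := (mem_sdiff.1 hw).1
    unfold ext
    split
    · rename_i hA
      exact h.maps w hA
    · exact hwZ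
  have hiso := ext_iso h (Z \ hol d1 d2 Z A f) sdiff_subset fun s hs => (mem_sdiff.1 hs).2
  have hc := Iso_card hiso
  have h1 := card_sdiff_add_card_eq_card himg
  have h2 := card_sdiff_add_card_eq_card hsub
  unfold hol'
  omega

/-- a point of `Z` which is not a new hole is the image of a point of `Z \ hol` -/
theorem hol'_surj {d1 d2 : Equiv.Perm (Fin n)} {Z A : Finset (Fin n)} {f : Fin n → Fin n}
    {u : Fin n} (hu : u ∈ Z) (hu' : u ∉ hol' d1 d2 Z A f) :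
    ∃ w ∈ Z, w ∉ hol d1 d2 Z A f ∧ ext A f w = u := by
  have h1 : u ∈ (Z \ hol d1 d2 Z A f).image (ext A f) := by
    by_contra h2
    exact hu' (mem_sdiff.2 ⟨hu, h2⟩)
  obtain ⟨w, hw, hwu⟩ := mem_image.1 h1
  exact ⟨w, (mem_sdiff.1 hw).1, (mem_sdiff.1 hw).2, hwu⟩

end Pool.Agent.H68.PS
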