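import Pool.Agent.H68.PS.RkL

/-!
Module NbL: neighbourhoods.
-/

set_option autoImplicit false

open Finset Classical

namespace Pool.Agent.H68.PS

variable {n : ℕ}

private theorem nb_succ_iff (d1 d2 : Equiv.Perm (Fin n)) (ρ : ℕ) (Z : Finset (Fin n)) (z v : Fin n) (c : ℕ) :
    v ∈ nb d1 d2 ρ Z z (c + 1) ↔ v ∈ Z ∧ ∃ u ∈ nb d1 d2 ρ Z z c,
      |rk d1 Z v - rk d1 Z u| ≤ (ρ : ℤ) ∨ |rk d2 Z v - rk d2 Z u| ≤ (ρ : ℤ) := by
  show v ∈ nb1 d1 d2 ρ Z (nb d1 d2 ρ Z z c) ↔ _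
  unfold nb1
  rw [Finset.mem_filter]

private theorem nb_zero_iff (d1 d2 : Equiv.Perm (Fin n)) (ρ : ℕ) (Z : Finset (Fin n)) (z v : Fin n) :
    v ∈ nb d1 d2 ρ Z z 0 ↔ v = z := by
  show v ∈ ({z} : Finset (Fin n)) ↔ _
  rw [Finset.mem_singleton]

theorem nb_swap (d1 d2 : Equiv.Perm (Fin n)) (ρ : ℕ) (Z : Finset (Fin n)) (z : Fin n) (c : ℕ) :
    nb d2 d1 ρ Z z c = nb d1 d2 ρ Z z c := by
  induction c with
  | zero => rfl
  | succ c ih =>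
    ext v
    rw [nb_succ_iff, nb_succ_iff, ih]
    constructor
    · rintro ⟨h1, u, hu, h⟩
      exact ⟨h1, u, hu, h.symm⟩
    · rintro ⟨h1, u, hu, h⟩
      exact ⟨h1, u, hu, h.symm⟩

theorem nb_sub (d1 d2 : Equiv.Perm (Fin n)) (ρ : ℕ) {Z : Finset (Fin n)} {z : Fin n}
    (hz : z ∈ Z) (c : ℕ) : nb d1 d2 ρ Z z c ⊆ Z := by
  intro v hv
  cases c with
  | zero =>
    rw [nb_zero_iff] at hv
    rw [hv]
    exact hz
  | succ c => exact ((nb_succ_iff d1 d2 ρ Z z v c).1 hv).1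

/-- one step in one of the two orders -/
theorem nb_step (d1 d2 : Equiv.Perm (Fin n)) (ρ : ℕ) {Z : Finset (Fin n)} {z u v : Fin n} {c : ℕ}
    (hu : u ∈ nb d1 d2 ρ Z z c) (hv : v ∈ Z)
    (h : |rk d1 Z v - rk d1 Z u| ≤ (ρ : ℤ) ∨ |rk d2 Z v - rk d2 Z u| ≤ (ρ : ℤ)) :
    v ∈ nb d1 d2 ρ Z z (c + 1) :=
  (nb_succ_iff d1 d2 ρ Z z v c).2 ⟨hv, u, hu, h⟩

private theorem nb_self (d1 d2 : Equiv.Perm (Fin n)) (ρ : ℕ) (Z : Finset (Fin n)) (z : Fin n) :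
    z ∈ nb d1 d2 ρ Z z 0 := (nb_zero_iff d1 d2 ρ Z z z).2 rfl

theorem nb_mono (d1 d2 : Equiv.Perm (Fin n)) (ρ : ℕ) {Z : Finset (Fin n)} {z : Fin n}
    (hz : z ∈ Z) {c c' : ℕ} (h : c ≤ c') : nb d1 d2 ρ Z z c ⊆ nb d1 d2 ρ Z z c' := by
  induction h with
  | refl => exact Finset.Subset.refl _
  | @step m _ ih =>
    refine ih.trans fun v hv => nb_step d1 d2 ρ hv (nb_sub d1 d2 ρ hz m hv) (Or.inl ?_)
    rw [sub_self, abs_zero]
    exact Int.natCast_nonneg _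

theorem nb_add (d1 d2 : Equiv.Perm (Fin n)) (ρ : ℕ) {Z : Finset (Fin n)} {z u v : Fin n} {a b : ℕ}
    (hz : z ∈ Z) (hu : u ∈ nb d1 d2 ρ Z z a) (hv : v ∈ nb d1 d2 ρ Z u b) :
    v ∈ nb d1 d2 ρ Z z (a + b) := by
  have _ := hz
  induction b generalizing v with
  | zero =>
    rw [nb_zero_iff] at hv
    rw [hv]
    exact hu
  | succ b ih =>
    obtain ⟨h1, w, hw, h2⟩ := (nb_succ_iff d1 d2 ρ Z u v b).1 hv
    exact nb_step d1 d2 ρ (ih hw) h1 h2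

theorem nb_symm (d1 d2 : Equiv.Perm (Fin n)) (ρ : ℕ) {Z : Finset (Fin n)} {z u : Fin n} {c : ℕ}
    (hz : z ∈ Z) (hu : u ∈ nb d1 d2 ρ Z z c) : z ∈ nb d1 d2 ρ Z u c := by
  induction c generalizing u with
  | zero =>
    rw [nb_zero_iff] at hu ⊢
    exact hu.symm
  | succ c ih =>
    obtain ⟨h1, v, hv, h2⟩ := (nb_succ_iff d1 d2 ρ Z z u c).1 hu
    have h3 := ih hv
    have h4 : v ∈ nb d1 d2 ρ Z u (0 + 1) := by
      refine nb_step d1 d2 ρ (nb_self d1 d2 ρ Z u) (nb_sub d1 d2 ρ hz c hv) ?_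
      rcases h2 with h2 | h2
      · left; rw [abs_sub_comm]; exact h2
      · right; rw [abs_sub_comm]; exact h2
    have h5 := nb_add d1 d2 ρ h1 h4 h3
    have h6 : 0 + 1 + c = c + 1 := by omega
    rw [h6] at h5
    exact h5

theorem nb_card (d1 d2 : Equiv.Perm (Fin n)) (ρ : ℕ) (Z : Finset (Fin n)) (z : Fin n) (c : ℕ) :
    (nb d1 d2 ρ Z z c).card ≤ (4 * ρ + 2) ^ c := by
  induction c with
  | zero =>
    show (({z} : Finset (Fin n))).card ≤ _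
    rw [Finset.card_singleton, pow_zero]
  | succ c ih =>
    have h1 : nb d1 d2 ρ Z z (c + 1) ⊆ (nb d1 d2 ρ Z z c).biUnion (fun u =>
        Z.filter (fun v => |rk d1 Z v - rk d1 Z u| ≤ (ρ : ℤ)) ∪
          Z.filter (fun v => |rk d2 Z v - rk d2 Z u| ≤ (ρ : ℤ))) := by
      intro v hv
      obtain ⟨h2, u, hu, h3⟩ := (nb_succ_iff d1 d2 ρ Z z v c).1 hv
      rw [Finset.mem_biUnion]
      refine ⟨u, hu, ?_⟩
      rw [Finset.mem_union, Finset.mem_filter, Finset.mem_filter]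
      rcases h3 with h3 | h3
      · exact Or.inl ⟨h2, h3⟩
      · exact Or.inr ⟨h2, h3⟩
    refine (Finset.card_le_card h1).trans ?_
    refine (Finset.card_biUnion_le_card_mul _ _ (4 * ρ + 2) fun u _ => ?_).trans ?_
    · refine (Finset.card_union_le _ _).trans ?_
      have h2 := rk_ball d1 Z u ρ
      have h3 := rk_ball d2 Z u ρ
      omega
    · rw [pow_succ]
      exact Nat.mul_le_mul_right _ ih

/-- if a neighbourhood is contained in a subset it is a neighbourhood there -/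
theorem nb_restrict (d1 d2 : Equiv.Perm (Fin n)) (ρ : ℕ) {Z Z' : Finset (Fin n)} (hZ : Z' ⊆ Z)
    {z : Fin n} (hz : z ∈ Z') {c : ℕ} (h : nb d1 d2 ρ Z z c ⊆ Z') :
    nb d1 d2 ρ Z z c ⊆ nb d1 d2 ρ Z' z c := by
  induction c with
  | zero => exact Finset.Subset.refl _
  | succ c ih =>
    have h1 : nb d1 d2 ρ Z z c ⊆ Z' := (nb_mono d1 d2 ρ (hZ hz) (Nat.le_succ c)).trans h
    have h2 := ih h1
    intro v hv
    obtain ⟨_, u, hu, h3⟩ := (nb_succ_iff d1 d2 ρ Z z v c).1 hv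
    refine nb_step d1 d2 ρ (h2 hu) (h hv) ?_
    rcases h3 with h3 | h3
    · exact Or.inl ((rk_abs_sub d1 hZ (h hv) (h1 hu)).trans h3)
    · exact Or.inr ((rk_abs_sub d2 hZ (h hv) (h1 hu)).trans h3)

/-- every point of `N_{c+1}(z)`, `z ∈ Z`, is within `ρ` of a point of `N_c(z)` -/
theorem nb_pred (d1 d2 : Equiv.Perm (Fin n)) (ρ : ℕ) {Z : Finset (Fin n)} {z u : Fin n} {c : ℕ}
    (hu : u ∈ nb d1 d2 ρ Z z (c + 1)) : ∃ v ∈ nb d1 d2 ρ Z z c, u ∈ nb d1 d2 ρ Z v 1 := by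
  obtain ⟨h1, v, hv, h2⟩ := (nb_succ_iff d1 d2 ρ Z z u c).1 hu
  exact ⟨v, hv, nb_step d1 d2 ρ (nb_self d1 d2 ρ Z v) h1 h2⟩

end Pool.Agent.H68.PS
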