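import Pool.Agent.H68.PS.MvLab
import Pool.Agent.H68.PS.NbL

/-!
Module MvDeep (Lemma 5): a point `a ∈ A` of a move with at most `W` holes is deep, if `N_7(a)`
contains no hole and no new hole.

Proof. `al s = rk d1 Z (F s) - rk d1 Z s`, `be s = rk d2 Z (F s) - rk d2 Z s`, `F = ext A f`.
(1) If `u, u' ∈ N_6(a)` are adjacent for `d1`, `al u = al u'` (`lab_adj`; every point `w` with
`|rk w - rk u| ≤ W + 1 ≤ ρ` is in `N_7(a)`, so is not a new hole). Same for `d2`.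
(2) `N_6(a) ⊆ A`: by induction on `c ≤ 6` : `N_c(a) ⊆ A`; if `v ∈ N_{c+1}(a)` is within `ρ` of
`u ∈ N_c(a)` for `d1`, then all points of `Z` with `d1`-rank between are in `N_{c+1}(a)`, `al` is
constant along this path (`rk_path`), `al u ≠ 0`, so `al v ≠ 0` and `v ∈ A` (`lab_zero`).
(3) `up`: `v = F u = f u`.
(4) `dn`: `u ∉ hol'` so `u = F w`, `w ∈ Z \ hol` (`hol'_surj`).  `|rk d1 Z u - rk d1 Z w| ≤ W` and
`|rk d2 Z u - rk d2 Z w| ≤ W` (`lab_abs`).  `al` is constant on the path from `w` to `u` (`rk_path`,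
`lab_adj`: the points `s` on the path satisfy `|rk s - rk u| ≤ W`, so a point within `W + 1` of `s`
is within `2 W + 1 ≤ ρ` of `u ∈ N_6(a)`, so is in `N_7(a)`), same for `be`.  So
`rk d1 Z w = rk d1 Z u - al w = rk d1 Z u - al u` and same for `d2`.
-/

set_option autoImplicit false

open Finset Classical

namespace Pool.Agent.H68.PS

variable {n : ℕ}

/-- the label is constant on a path -/
private theorem md_const {d1 d2 : Equiv.Perm (Fin n)} {Z A : Finset (Fin n)} {f : Fin n → Fin n}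
    (h : Mv d1 d2 Z A f) (W : ℕ) (hW : (hol d1 d2 Z A f).card ≤ W) {u v : Fin n} (hu : u ∈ Z)
    (hv : v ∈ Z)
    (h1 : ∀ s ∈ Z, min (rk d1 Z u) (rk d1 Z v) ≤ rk d1 Z s →
      rk d1 Z s ≤ max (rk d1 Z u) (rk d1 Z v) → s ∉ hol d1 d2 Z A f ∧
      ∀ w ∈ hol' d1 d2 Z A f, ¬ |rk d1 Z w - rk d1 Z s| ≤ (W : ℤ) + 1) :
    rk d1 Z (ext A f u) - rk d1 Z u = rk d1 Z (ext A f v) - rk d1 Z v := by
  refine rk_path d1 Z (fun s => rk d1 Z (ext A f s) - rk d1 Z s) hu hv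
    fun w hw w' hw' e1 e2 e3 => ?_
  have h2 := h1 w hw e1 (by omega)
  have h3 := h1 w' hw' (by omega) e2
  exact (lab_adj h W hW hw hw' h2.1 h3.1 e3 h2.2).symm

/-- (1) and (2), first order: the label of a point within `ρ` of a point of `N_c(a)`, `c ≤ 5` -/
private theorem md_near {d1 d2 : Equiv.Perm (Fin n)} {Z A : Finset (Fin n)} {f : Fin n → Fin n}
    (h : Mv d1 d2 Z A f) (ρ W : ℕ) (hW : (hol d1 d2 Z A f).card ≤ W) (hρ : 2 * W + 1 ≤ ρ)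
    {a : Fin n} (ha : a ∈ Z) (h1 : ∀ w ∈ nb d1 d2 ρ Z a 7, w ∉ hol d1 d2 Z A f)
    (h2 : ∀ w ∈ nb d1 d2 ρ Z a 7, w ∉ hol' d1 d2 Z A f) {u v : Fin n} {c : ℕ} (hc : c ≤ 5)
    (hu : u ∈ nb d1 d2 ρ Z a c) (hv : v ∈ Z) (huv : |rk d1 Z v - rk d1 Z u| ≤ (ρ : ℤ)) :
    rk d1 Z (ext A f u) - rk d1 Z u = rk d1 Z (ext A f v) - rk d1 Z v := by
  refine md_const h W hW (nb_sub d1 d2 ρ ha c hu) hv fun s hs e1 e2 => ?_
  have h3 := abs_le.1 huv
  have h4 : s ∈ nb d1 d2 ρ Z a (c + 1) :=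
    nb_step d1 d2 ρ hu hs (Or.inl (abs_le.2 ⟨by omega, by omega⟩))
  refine ⟨h1 s (nb_mono d1 d2 ρ ha (by omega) h4), fun w hw h5 => ?_⟩
  have h6 := abs_le.1 h5
  have hwZ : w ∈ Z := by
    unfold hol' at hw
    exact (mem_sdiff.1 hw).1
  have h7 : w ∈ nb d1 d2 ρ Z a (c + 1 + 1) :=
    nb_step d1 d2 ρ h4 hwZ (Or.inl (abs_le.2 ⟨by omega, by omega⟩))
  exact h2 w (nb_mono d1 d2 ρ ha (by omega) h7) hw

/-- (4), first order: the label of a point within `W` of a point of `N_6(a)` -/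
private theorem md_back {d1 d2 : Equiv.Perm (Fin n)} {Z A : Finset (Fin n)} {f : Fin n → Fin n}
    (h : Mv d1 d2 Z A f) (ρ W : ℕ) (hW : (hol d1 d2 Z A f).card ≤ W) (hρ : 2 * W + 1 ≤ ρ)
    {a : Fin n} (ha : a ∈ Z) (h1 : ∀ w ∈ nb d1 d2 ρ Z a 7, w ∉ hol d1 d2 Z A f)
    (h2 : ∀ w ∈ nb d1 d2 ρ Z a 7, w ∉ hol' d1 d2 Z A f) {u v : Fin n}
    (hu : u ∈ nb d1 d2 ρ Z a 6) (hv : v ∈ Z) (huv : |rk d1 Z v - rk d1 Z u| ≤ (W : ℤ)) :
    rk d1 Z (ext A f u) - rk d1 Z u = rk d1 Z (ext A f v) - rk d1 Z v := by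
  refine md_const h W hW (nb_sub d1 d2 ρ ha 6 hu) hv fun s hs e1 e2 => ?_
  have h3 := abs_le.1 huv
  have h4 : s ∈ nb d1 d2 ρ Z a (6 + 1) :=
    nb_step d1 d2 ρ hu hs (Or.inl (abs_le.2 ⟨by omega, by omega⟩))
  refine ⟨h1 s h4, fun w hw h5 => ?_⟩
  have h6 := abs_le.1 h5
  have hwZ : w ∈ Z := by
    unfold hol' at hw
    exact (mem_sdiff.1 hw).1
  have h7 : w ∈ nb d1 d2 ρ Z a (6 + 1) :=
    nb_step d1 d2 ρ hu hwZ (Or.inl (abs_le.2 ⟨by omega, by omega⟩))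
  exact h2 w h7 hw

/-- one step of (2) -/
private theorem md_stepA {d1 d2 : Equiv.Perm (Fin n)} {Z A : Finset (Fin n)} {f : Fin n → Fin n}
    (h : Mv d1 d2 Z A f) (ρ W : ℕ) (hW : (hol d1 d2 Z A f).card ≤ W) (hρ : 2 * W + 1 ≤ ρ)
    {a : Fin n} (ha : a ∈ Z) (h1 : ∀ w ∈ nb d1 d2 ρ Z a 7, w ∉ hol d1 d2 Z A f)
    (h2 : ∀ w ∈ nb d1 d2 ρ Z a 7, w ∉ hol' d1 d2 Z A f) {u v : Fin n} {c : ℕ} (hc : c ≤ 5)
    (hu : u ∈ nb d1 d2 ρ Z a c) (hv : v ∈ nb d1 d2 ρ Z a (c + 1))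
    (huv : |rk d1 Z v - rk d1 Z u| ≤ (ρ : ℤ)) (huA : u ∈ A) : v ∈ A := by
  have hvZ := nb_sub d1 d2 ρ ha (c + 1) hv
  have huZ := nb_sub d1 d2 ρ ha c hu
  have h3 := md_near h ρ W hW hρ ha h1 h2 hc hu hvZ huv
  have h4 := lab_zero h huZ (h1 u (nb_mono d1 d2 ρ ha (by omega) hu))
  have h5 := lab_zero h hvZ (h1 v (nb_mono d1 d2 ρ ha (by omega) hv))
  by_contra h6
  exact h4.1 (h3.trans (h5.2 h6)) huA

theorem mv_deep {d1 d2 : Equiv.Perm (Fin n)} {Z A : Finset (Fin n)} {f : Fin n → Fin n}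
    (h : Mv d1 d2 Z A f) (ρ W : ℕ) (hW : (hol d1 d2 Z A f).card ≤ W) (hρ : 2 * W + 1 ≤ ρ)
    {a : Fin n} (ha : a ∈ A) (h1 : ∀ w ∈ nb d1 d2 ρ Z a 7, w ∉ hol d1 d2 Z A f)
    (h2 : ∀ w ∈ nb d1 d2 ρ Z a 7, w ∉ hol' d1 d2 Z A f) : Deep d1 d2 ρ W Z a := by
  have haZ := h.sub ha
  have h' := Mv_swap h
  have hW' : (hol d2 d1 Z A f).card ≤ W := by rw [hol_swap]; exact hW
  have h1' : ∀ w ∈ nb d2 d1 ρ Z a 7, w ∉ hol d2 d1 Z A f := by
    intro w hw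
    rw [nb_swap] at hw
    rw [hol_swap]
    exact h1 w hw
  have h2' : ∀ w ∈ nb d2 d1 ρ Z a 7, w ∉ hol' d2 d1 Z A f := by
    intro w hw
    rw [nb_swap] at hw
    rw [hol'_swap]
    exact h2 w hw
  have hA : ∀ c : ℕ, c ≤ 6 → ∀ u ∈ nb d1 d2 ρ Z a c, u ∈ A := by
    intro c
    induction c with
    | zero =>
      intro _ u hu
      have h3 : u ∈ ({a} : Finset (Fin n)) := hu
      rw [Finset.mem_singleton] at h3
      rw [h3]
      exact ha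
    | succ c ih =>
      intro hc v hv
      have h3 : v ∈ nb1 d1 d2 ρ Z (nb d1 d2 ρ Z a c) := hv
      unfold nb1 at h3
      obtain ⟨_, u, hu, h4⟩ := mem_filter.1 h3
      rcases h4 with h4 | h4
      · exact md_stepA h ρ W hW hρ haZ h1 h2 (by omega) hu hv h4 (ih (by omega) u hu)
      · refine md_stepA h' ρ W hW' hρ haZ h1' h2' (c := c) (by omega) ?_ ?_ h4
          (ih (by omega) u hu)
        · rw [nb_swap]; exact hu
        · rw [nb_swap]; exact hv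
  have hA6 := hA 6 le_rfl
  have hno : ∀ u ∈ nb d1 d2 ρ Z a 6, u ∉ hol d1 d2 Z A f := fun u hu =>
    h1 u (nb_mono d1 d2 ρ haZ (by omega) hu)
  have hno' : ∀ u ∈ nb d1 d2 ρ Z a 6, u ∉ hol' d1 d2 Z A f := fun u hu =>
    h2 u (nb_mono d1 d2 ρ haZ (by omega) hu)
  have hZ6 : ∀ u ∈ nb d1 d2 ρ Z a 6, u ∈ Z := fun u hu => nb_sub d1 d2 ρ haZ 6 hu
  refine ⟨haZ, fun s => rk d1 Z (ext A f s) - rk d1 Z s, fun s => rk d2 Z (ext A f s) - rk d2 Z s,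
    ?_, ?_, ?_, ?_, ?_, ?_, ?_, ?_⟩
  · intro u hu h3
    exact (lab_zero h (hZ6 u hu) (hno u hu)).1 h3 (hA6 u hu)
  · intro u hu h3
    refine (lab_zero h' (hZ6 u hu) ?_).1 h3 (hA6 u hu)
    rw [hol_swap]
    exact hno u hu
  · intro u hu
    have h3 := lab_abs h (hZ6 u hu) (hno u hu)
    refine h3.trans ?_
    exact_mod_cast hW
  · intro u hu
    have h3 := lab_abs h' (hZ6 u hu) (by rw [hol_swap]; exact hno u hu)
    refine h3.trans ?_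
    exact_mod_cast hW'
  · intro u hu v hv h3
    refine (lab_adj h W hW (hZ6 u hu) (hZ6 v hv) (hno u hu) (hno v hv) h3 fun w hw h4 => ?_).symm
    have hwZ : w ∈ Z := by
      have hw2 := hw
      unfold hol' at hw2
      exact (mem_sdiff.1 hw2).1
    exact h2 w (nb_step d1 d2 ρ hu hwZ (Or.inl (h4.trans (by omega)))) hw
  · intro u hu v hv h3
    refine (lab_adj h' W hW' (hZ6 u hu) (hZ6 v hv) (by rw [hol_swap]; exact hno u hu)
      (by rw [hol_swap]; exact hno v hv) h3 fun w hw h4 => ?_).symm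
    rw [hol'_swap] at hw
    have hwZ : w ∈ Z := by
      have hw2 := hw
      unfold hol' at hw2
      exact (mem_sdiff.1 hw2).1
    exact h2 w (nb_step d1 d2 ρ hu hwZ (Or.inr (h4.trans (by omega)))) hw
  · intro u hu
    refine ⟨ext A f u, ?_, ?_, ?_⟩
    · unfold ext
      rw [if_pos (hA6 u hu)]
      exact h.maps u (hA6 u hu)
    · ring
    · ring
  · intro u hu
    obtain ⟨w, hw, hw', hwu⟩ := hol'_surj (hZ6 u hu) (hno' u hu)
    have h3 := lab_abs h hw hw'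
    have h4 := lab_abs h' hw (by rw [hol_swap]; exact hw')
    rw [hwu] at h3 h4
    have hWz : ((hol d1 d2 Z A f).card : ℤ) ≤ (W : ℤ) := by exact_mod_cast hW
    have hWz' : ((hol d2 d1 Z A f).card : ℤ) ≤ (W : ℤ) := by exact_mod_cast hW'
    have h5 := md_back h ρ W hW hρ haZ h1 h2 hu hw (by rw [abs_sub_comm]; exact h3.trans hWz)
    have h6 := md_back h' ρ W hW' hρ haZ h1' h2' (u := u) (v := w) (by rw [nb_swap]; exact hu) hw
      (by rw [abs_sub_comm]; exact h4.trans hWz')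
    rw [hwu] at h5 h6
    refine ⟨w, hw, ?_, ?_⟩
    · show rk d1 Z w = rk d1 Z u - (rk d1 Z (ext A f u) - rk d1 Z u)
      rw [h5]
      ring
    · show rk d2 Z w = rk d2 Z u - (rk d2 Z (ext A f u) - rk d2 Z u)
      rw [h6]
      ring

end Pool.Agent.H68.PS
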