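import Pool.Agent.H68.PS.MvDeep

/-!
Module MvIrr: a move with at most `W` holes has at most `2 W (4ρ+2)^7` irregular points.

Proof. By `mv_deep` an irregular `a ∈ A` has a point `w ∈ N_7(a)` which is a hole or a new hole, so
`a ∈ N_7(w)` (`nb_symm`; `w ∈ Z`): `A ∩ irr ⊆ (hol ∪ hol').biUnion (fun w => N_7(w))`;
`hol'_card`, `nb_card`, `card_biUnion_le`.
-/

set_option autoImplicit false

open Finset Classical

namespace Pool.Agent.H68.PS

variable {n : ℕ}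

theorem mv_irr {d1 d2 : Equiv.Perm (Fin n)} {Z A : Finset (Fin n)} {f : Fin n → Fin n}
    (h : Mv d1 d2 Z A f) (ρ W : ℕ) (hW : (hol d1 d2 Z A f).card ≤ W) (hρ : 2 * W + 1 ≤ ρ) :
    (A ∩ irr d1 d2 ρ W Z).card ≤ 2 * W * (4 * ρ + 2) ^ 7 := by
  have hsub : A ∩ irr d1 d2 ρ W Z ⊆
      (hol d1 d2 Z A f ∪ hol' d1 d2 Z A f).biUnion (fun w => nb d1 d2 ρ Z w 7) := by
    intro a ha
    rw [mem_inter] at ha
    obtain ⟨haA, hai⟩ := ha
    have haZ : a ∈ Z := h.sub haA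
    have hnd : ¬ Deep d1 d2 ρ W Z a := by
      unfold irr at hai
      exact (mem_filter.1 hai).2
    rw [mem_biUnion]
    by_contra hc
    push Not at hc
    apply hnd
    refine mv_deep h ρ W hW hρ haA ?_ ?_
    · intro w hw hwh
      exact hc w (mem_union_left _ hwh) (nb_symm d1 d2 ρ haZ hw)
    · intro w hw hwh
      exact hc w (mem_union_right _ hwh) (nb_symm d1 d2 ρ haZ hw)
  have hcard' := hol'_card h
  calc (A ∩ irr d1 d2 ρ W Z).card
      ≤ ((hol d1 d2 Z A f ∪ hol' d1 d2 Z A f).biUnion (fun w => nb d1 d2 ρ Z w 7)).card :=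
        card_le_card hsub
    _ ≤ ∑ w ∈ hol d1 d2 Z A f ∪ hol' d1 d2 Z A f, (nb d1 d2 ρ Z w 7).card := card_biUnion_le
    _ ≤ ∑ _w ∈ hol d1 d2 Z A f ∪ hol' d1 d2 Z A f, (4 * ρ + 2) ^ 7 :=
        sum_le_sum fun w _ => nb_card d1 d2 ρ Z w 7
    _ = (hol d1 d2 Z A f ∪ hol' d1 d2 Z A f).card * (4 * ρ + 2) ^ 7 := by
        rw [sum_const, smul_eq_mul]
    _ ≤ (2 * W) * (4 * ρ + 2) ^ 7 := by
        refine Nat.mul_le_mul_right _ ?_
        refine (card_union_le _ _).trans ?_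
        omega

end Pool.Agent.H68.PS
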