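import Pool.Agent.H68.PS.RkL
import Pool.Agent.H68.PS.MvA

/-!
Module MvLab: ranks of the images under a move.

`F = ext A f` is an isomorphism of `Z \ hol` onto `Z \ hol'` (`ext_iso`), so for `s ∈ Z \ hol` the
number of points of `Z \ hol` before `s` is the number of points of `Z \ hol'` before `F s`:
`rk d Z s - #{w ∈ hol : d w < d s} = rk d Z (F s) - #{w ∈ hol' : d w < d (F s)}`, for `d = d1`, `d2`.
All statements are given for `d1`; for `d2` use the swap lemmas of MvA.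
-/

set_option autoImplicit false

open Finset Classical

namespace Pool.Agent.H68.PS

variable {n : ℕ}

private theorem ml_split (d : Equiv.Perm (Fin n)) {Z S : Finset (Fin n)} (h : S ⊆ Z) (z : Fin n) :
    rk d Z z = rk d S z + rk d (Z \ S) z := by
  unfold rk
  rw [Finset.card_filter, Finset.card_filter, Finset.card_filter, ← Finset.sum_sdiff h]
  push_cast
  ring

private theorem ml_img {d1 d2 : Equiv.Perm (Fin n)} {S T : Finset (Fin n)} {φ : Fin n → Fin n}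
    (h : Iso d1 d2 S T φ) {s : Fin n} (hs : s ∈ S) : rk d1 T (φ s) = rk d1 S s := by
  unfold rk
  have h1 : T.filter (fun u => d1 u < d1 (φ s)) = (S.filter (fun u => d1 u < d1 s)).image φ := by
    ext u
    simp only [mem_filter, mem_image]
    constructor
    · rintro ⟨hu, hlt⟩
      obtain ⟨a, ha, rfl⟩ := h.surj u hu
      exact ⟨a, ⟨ha, (Iso_iff1 h ha hs).1 hlt⟩, rfl⟩
    · rintro ⟨a, ⟨ha, hlt⟩, rfl⟩
      exact ⟨h.maps a ha, (Iso_iff1 h ha hs).2 hlt⟩
  rw [h1, card_image_of_injOn]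
  intro a ha b hb hab
  exact Iso_inj h (mem_filter.1 (Finset.mem_coe.1 ha)).1 (mem_filter.1 (Finset.mem_coe.1 hb)).1 hab

private theorem ml_holsub (d1 d2 : Equiv.Perm (Fin n)) (Z A : Finset (Fin n)) (f : Fin n → Fin n) :
    hol d1 d2 Z A f ⊆ Z := filter_subset _ _

private theorem ml_imgsub {d1 d2 : Equiv.Perm (Fin n)} {Z A : Finset (Fin n)} {f : Fin n → Fin n}
    (h : Mv d1 d2 Z A f) : (Z \ hol d1 d2 Z A f).image (ext A f) ⊆ Z := by
  intro z hz
  obtain ⟨s, hs, rfl⟩ := mem_image.1 hz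
  unfold ext
  split_ifs with h1
  · exact h.maps s h1
  · exact (mem_sdiff.1 hs).1

private theorem ml_iso {d1 d2 : Equiv.Perm (Fin n)} {Z A : Finset (Fin n)} {f : Fin n → Fin n}
    (h : Mv d1 d2 Z A f) :
    Iso d1 d2 (Z \ hol d1 d2 Z A f) ((Z \ hol d1 d2 Z A f).image (ext A f)) (ext A f) :=
  ext_iso h _ sdiff_subset fun _ hs => (mem_sdiff.1 hs).2

private theorem ml_F {d1 d2 : Equiv.Perm (Fin n)} {Z A : Finset (Fin n)} {f : Fin n → Fin n}
    (h : Mv d1 d2 Z A f) {s : Fin n} (hs : s ∈ Z) (hs' : s ∉ hol d1 d2 Z A f) :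
    ext A f s ∈ Z ∧ ext A f s ∉ hol' d1 d2 Z A f := by
  have h1 : ext A f s ∈ (Z \ hol d1 d2 Z A f).image (ext A f) :=
    mem_image.2 ⟨s, mem_sdiff.2 ⟨hs, hs'⟩, rfl⟩
  refine ⟨ml_imgsub h h1, fun h2 => ?_⟩
  unfold hol' at h2
  exact (mem_sdiff.1 h2).2 h1

/-- the rank formula -/
theorem lab_formula {d1 d2 : Equiv.Perm (Fin n)} {Z A : Finset (Fin n)} {f : Fin n → Fin n}
    (h : Mv d1 d2 Z A f) {s : Fin n} (hs : s ∈ Z) (hs' : s ∉ hol d1 d2 Z A f) :
    rk d1 Z (ext A f s) - rk d1 Z s =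
      (((hol' d1 d2 Z A f).filter (fun w => d1 w < d1 (ext A f s))).card : ℤ) -
      (((hol d1 d2 Z A f).filter (fun w => d1 w < d1 s)).card : ℤ) := by
  have hZ : hol d1 d2 Z A f ⊆ Z := ml_holsub d1 d2 Z A f
  have h1 := ml_split d1 (sdiff_subset : Z \ hol d1 d2 Z A f ⊆ Z) s
  have h2 := ml_split d1 (ml_imgsub h) (ext A f s)
  have h3 := ml_img (ml_iso h) (mem_sdiff.2 ⟨hs, hs'⟩)
  rw [Finset.sdiff_sdiff_eq_self hZ] at h1
  rw [h1, h2, h3]
  unfold rk hol'
  ring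

theorem lab_abs {d1 d2 : Equiv.Perm (Fin n)} {Z A : Finset (Fin n)} {f : Fin n → Fin n}
    (h : Mv d1 d2 Z A f) {s : Fin n} (hs : s ∈ Z) (hs' : s ∉ hol d1 d2 Z A f) :
    |rk d1 Z (ext A f s) - rk d1 Z s| ≤ ((hol d1 d2 Z A f).card : ℤ) := by
  rw [lab_formula h hs hs']
  have h1 : ((hol' d1 d2 Z A f).filter (fun w => d1 w < d1 (ext A f s))).card ≤
      (hol d1 d2 Z A f).card := by
    rw [← hol'_card h]
    exact card_filter_le _ _
  have h2 : ((hol d1 d2 Z A f).filter (fun w => d1 w < d1 s)).card ≤ (hol d1 d2 Z A f).card :=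
    card_filter_le _ _
  rw [abs_le]
  constructor <;> omega

/-- the label is zero exactly outside `A` -/
theorem lab_zero {d1 d2 : Equiv.Perm (Fin n)} {Z A : Finset (Fin n)} {f : Fin n → Fin n}
    (h : Mv d1 d2 Z A f) {s : Fin n} (hs : s ∈ Z) (hs' : s ∉ hol d1 d2 Z A f) :
    rk d1 Z (ext A f s) - rk d1 Z s = 0 ↔ s ∉ A := by
  have hF := ml_F h hs hs'
  constructor
  · intro h1 hA
    have h2 : ext A f s = s := rk_inj d1 Z hF.1 hs (by linarith)
    have h3 : ext A f s = f s := if_pos hA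
    exact h.fix s hA (by rw [← h3, h2])
  · intro hA
    have h3 : ext A f s = s := if_neg hA
    rw [h3, sub_self]

/-- the label is constant along adjacent points, if there is no new hole within rank distance
`W + 1` of the first one (`W` = bound of the number of holes) -/
theorem lab_adj {d1 d2 : Equiv.Perm (Fin n)} {Z A : Finset (Fin n)} {f : Fin n → Fin n}
    (h : Mv d1 d2 Z A f) (W : ℕ) (hW : (hol d1 d2 Z A f).card ≤ W) {s s' : Fin n} (hs : s ∈ Z)
    (hs' : s' ∈ Z) (hsQ : s ∉ hol d1 d2 Z A f) (hsQ' : s' ∉ hol d1 d2 Z A f)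
    (hadj : rk d1 Z s' = rk d1 Z s + 1)
    (hno : ∀ w ∈ hol' d1 d2 Z A f, ¬ |rk d1 Z w - rk d1 Z s| ≤ (W : ℤ) + 1) :
    rk d1 Z (ext A f s') - rk d1 Z s' = rk d1 Z (ext A f s) - rk d1 Z s := by
  have hF := ml_F h hs hsQ
  have hF' := ml_F h hs' hsQ'
  have hlt : d1 s < d1 s' := (rk_lt_iff d1 Z hs hs').1 (by omega)
  have hFlt : d1 (ext A f s) < d1 (ext A f s') :=
    (Iso_iff1 (ml_iso h) (mem_sdiff.2 ⟨hs, hsQ⟩) (mem_sdiff.2 ⟨hs', hsQ'⟩)).2 hlt
  rw [lab_formula h hs' hsQ', lab_formula h hs hsQ]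
  have e1 : (hol d1 d2 Z A f).filter (fun w => d1 w < d1 s') =
      (hol d1 d2 Z A f).filter (fun w => d1 w < d1 s) := by
    refine filter_congr fun w hw => ⟨fun h1 => ?_, fun h1 => h1.trans hlt⟩
    have hwZ := ml_holsub d1 d2 Z A f hw
    by_contra h2
    have h3 : rk d1 Z w < rk d1 Z s' := (rk_lt_iff d1 Z hwZ hs').2 h1
    have h4 : ¬ rk d1 Z w < rk d1 Z s := fun h5 => h2 ((rk_lt_iff d1 Z hwZ hs).1 h5)
    have h5 : w = s := rk_inj d1 Z hwZ hs (by omega)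
    rw [h5] at hw
    exact hsQ hw
  have e2 : (hol' d1 d2 Z A f).filter (fun w => d1 w < d1 (ext A f s')) =
      (hol' d1 d2 Z A f).filter (fun w => d1 w < d1 (ext A f s)) := by
    refine filter_congr fun w hw => ⟨fun h1 => ?_, fun h1 => h1.trans hFlt⟩
    have hwZ : w ∈ Z := by
      unfold hol' at hw
      exact (mem_sdiff.1 hw).1
    by_contra h2
    have h3 : rk d1 Z w < rk d1 Z (ext A f s') := (rk_lt_iff d1 Z hwZ hF'.1).2 h1
    have h4 : ¬ rk d1 Z w < rk d1 Z (ext A f s) := fun h5 => h2 ((rk_lt_iff d1 Z hwZ hF.1).1 h5)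
    have h6 := abs_le.1 (lab_abs h hs hsQ)
    have h7 := abs_le.1 (lab_abs h hs' hsQ')
    refine hno w hw (abs_le.2 ⟨?_, ?_⟩)
    · omega
    · omega
  rw [e1, e2]

end Pool.Agent.H68.PS
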