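import Pool.Agent.H68.PS.Lay

/-!
Module Op (pure): ordered partitions and the weighted bound.

`op k D` = the lists of nonempty pairwise disjoint sets with union `D` (if `#D ≤ k`).
`wl om0 om Z L` = product of the weights of the layers of the list `L`; `wg om Z X L` = the same
for the layers `L` after the layer `X` (alive set `Z` before `X` is removed).
`op_sum`: `∑_{L ∈ op k D} wl L ≤ 1`: induction on `k` for
`∑_{L ∈ op k D} wg Z X L ≤ 1` (`D` disjoint from `X`).
`op_bound`: with `adm Z X L` (all the numbers `e` are nonzero), `|bb V U Z X D| ≤ 2^#(D \ X) *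
#{L ∈ op k (D \ X) : adm Z X L}` by induction on `k` from `lay2`, `lay3`, `|e| ≤ 2^#Y`, `|V| ≤ 1`;
so `|U Z D| ≤ 2^#D * #{L ∈ op k D : admissible}`, and `δ ≤ wl L` for the admissible `L` gives
`δ * |U Z D| ≤ 2^#D`.
-/

set_option autoImplicit false

open Finset Classical

namespace Pool.Agent.H68.PS

variable {α : Type} [DecidableEq α]

/-- ordered partitions of `D` with at most `k` blocks -/
noncomputable def op : ℕ → Finset α → Finset (List (Finset α))
  | 0, D => if D = ∅ then {[]} else ∅
  | k + 1, D => if D = ∅ then {[]} else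
      (D.powerset.erase ∅).biUnion (fun X => (op k (D \ X)).image (fun L => X :: L))

/-- admissible continuations -/
def admc (E : Finset α → Finset α → Finset α → ℤ) : Finset α → Finset α → List (Finset α) → Prop
  | _, _, [] => True
  | Z, X, Y :: L => E Z X Y ≠ 0 ∧ admc E (Z \ X) Y L

/-- admissible lists -/
def adml (E : Finset α → Finset α → Finset α → ℤ) (Z : Finset α) : List (Finset α) → Prop
  | [] => True
  | X :: L => admc E Z X L

/-- weight of a continuation -/
noncomputable def wg (om : Finset α → Finset α → Finset α → ℝ) :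
    Finset α → Finset α → List (Finset α) → ℝ
  | _, _, [] => 1
  | Z, X, Y :: L => om Z X Y * wg om (Z \ X) Y L

/-- weight of a list -/
noncomputable def wl (om0 : Finset α → ℝ) (om : Finset α → Finset α → Finset α → ℝ)
    (Z : Finset α) : List (Finset α) → ℝ
  | [] => 1
  | X :: L => om0 X * wg om Z X L

private lemma o_sdiff_lt (D Y : Finset α) (hY : Y ∈ D.powerset.erase ∅) :
    (D \ Y).card < D.card := by
  rw [mem_erase, mem_powerset] at hY
  apply Finset.card_lt_card
  refine ⟨sdiff_subset, fun h => ?_⟩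
  obtain ⟨a, ha⟩ := Finset.nonempty_iff_ne_empty.2 hY.1
  exact (mem_sdiff.1 (h (hY.2 ha))).2 ha

private lemma o_empty (k : ℕ) : op k (∅ : Finset α) = {[]} := by
  cases k with
  | zero => simp [op]
  | succ k => simp [op]

private lemma o_succ (k : ℕ) (D : Finset α) (hD : D ≠ ∅) :
    op (k + 1) D = (D.powerset.erase ∅).biUnion
      (fun X => (op k (D \ X)).image (fun L => X :: L)) := by
  simp only [op, if_neg hD]

private lemma o_sub (L : List (Finset α)) :
    ∀ Y ∈ L, Y ⊆ L.foldr (fun X S => X ∪ S) ∅ := by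
  induction L with
  | nil => intro Y hY; simp at hY
  | cons X L ih =>
    intro Y hY
    rw [List.foldr_cons]
    rcases List.mem_cons.1 hY with h | h
    · subst h
      exact subset_union_left
    · exact (ih Y h).trans subset_union_right

private lemma o_disj (X : Finset α) (L : List (Finset α)) (h : ∀ Y ∈ L, Disjoint X Y) :
    Disjoint X (L.foldr (fun X S => X ∪ S) ∅) := by
  induction L with
  | nil => simp
  | cons Y L ih =>
    rw [List.foldr_cons, disjoint_union_right]
    exact ⟨h Y (by simp), ih (fun Z hZ => h Z (by simp [hZ]))⟩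

theorem mem_op (k : ℕ) (D : Finset α) (hD : D.card ≤ k) (L : List (Finset α)) :
    L ∈ op k D ↔ (∀ X ∈ L, X.Nonempty) ∧ L.Pairwise Disjoint ∧
      L.foldr (fun X S => X ∪ S) ∅ = D := by
  have hempty : ∀ (k : ℕ) (L : List (Finset α)), L ∈ op k (∅ : Finset α) ↔
      (∀ X ∈ L, X.Nonempty) ∧ L.Pairwise Disjoint ∧
      L.foldr (fun X S => X ∪ S) ∅ = ∅ := by
    intro k L
    rw [o_empty, mem_singleton]
    constructor
    · rintro rfl
      simp
    · rintro ⟨h1, _, h3⟩
      cases L with
      | nil => rfl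
      | cons X L =>
        exfalso
        rw [List.foldr_cons, union_eq_empty] at h3
        obtain ⟨a, ha⟩ := h1 X (by simp)
        rw [h3.1] at ha
        simp at ha
  induction k generalizing D L with
  | zero =>
    have h0 : D = ∅ := by rw [← Finset.card_eq_zero]; omega
    subst h0
    exact hempty 0 L
  | succ k ih =>
    by_cases h0 : D = ∅
    · subst h0
      exact hempty (k + 1) L
    · rw [o_succ k D h0, mem_biUnion]
      constructor
      · rintro ⟨X, hX, hL⟩
        rw [mem_image] at hL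
        obtain ⟨L', hL', rfl⟩ := hL
        have hc := o_sdiff_lt D X hX
        have hi := ih (D \ X) (by omega) L'
        obtain ⟨h1, h2, h3⟩ := hi.1 hL'
        rw [mem_erase, mem_powerset] at hX
        refine ⟨?_, ?_, ?_⟩
        · intro Y hY
          rcases List.mem_cons.1 hY with h | h
          · subst h
            exact Finset.nonempty_iff_ne_empty.2 hX.1
          · exact h1 Y h
        · rw [List.pairwise_cons]
          refine ⟨fun Y hY => ?_, h2⟩
          have h4 := o_sub L' Y hY
          rw [h3] at h4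
          rw [Finset.disjoint_right]
          intro a ha
          exact (mem_sdiff.1 (h4 ha)).2
        · rw [List.foldr_cons, h3]
          exact union_sdiff_of_subset hX.2
      · rintro ⟨h1, h2, h3⟩
        cases L with
        | nil =>
          exfalso
          exact h0 h3.symm
        | cons X L =>
          rw [List.foldr_cons] at h3
          rw [List.pairwise_cons] at h2
          have hXD : X ⊆ D := by
            rw [← h3]
            exact subset_union_left
          have hXm : X ∈ D.powerset.erase ∅ := by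
            rw [mem_erase, mem_powerset]
            exact ⟨Finset.nonempty_iff_ne_empty.1 (h1 X (by simp)), hXD⟩
          refine ⟨X, hXm, ?_⟩
          rw [mem_image]
          refine ⟨L, ?_, rfl⟩
          have hc := o_sdiff_lt D X hXm
          have hi := ih (D \ X) (by omega) L
          refine hi.2 ⟨fun Y hY => h1 Y (by simp [hY]), h2.2, ?_⟩
          have hd := o_disj X L h2.1
          rw [← h3, union_sdiff_left]
          exact (sdiff_eq_self_of_disjoint hd.symm).symm

private lemma o_sum {M : Type} [AddCommMonoid M] (k : ℕ) (D : Finset α) (hD : D ≠ ∅)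
    (f : List (Finset α) → M) :
    ∑ L ∈ op (k + 1) D, f L = ∑ Y ∈ D.powerset.erase ∅, ∑ L ∈ op k (D \ Y), f (Y :: L) := by
  rw [o_succ k D hD, Finset.sum_biUnion]
  · refine Finset.sum_congr rfl fun Y _ => ?_
    rw [Finset.sum_image]
    intro a _ b _ hab
    exact (List.cons_injective) hab
  · intro Y _ Y' _ hYY
    rw [Function.onFun, Finset.disjoint_left]
    intro L hL hL'
    rw [mem_image] at hL hL'
    obtain ⟨a, _, rfl⟩ := hL
    obtain ⟨b, _, hb⟩ := hL'
    rw [List.cons.injEq] at hb
    exact hYY hb.1.symm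

private lemma o_wg_nonneg (om : Finset α → Finset α → Finset α → ℝ)
    (h1 : ∀ Z X Y, 0 ≤ om Z X Y) (L : List (Finset α)) :
    ∀ Z X : Finset α, 0 ≤ wg om Z X L := by
  induction L with
  | nil => intro Z X; simp [wg]
  | cons Y L ih =>
    intro Z X
    rw [wg]
    exact mul_nonneg (h1 Z X Y) (ih _ _)

private lemma o_wg_sum (om : Finset α → Finset α → Finset α → ℝ)
    (h1 : ∀ Z X Y, 0 ≤ om Z X Y)
    (hs : ∀ Z X D : Finset α, Disjoint X D → ∑ Y ∈ D.powerset.erase ∅, om Z X Y ≤ 1)
    (k : ℕ) : ∀ Z X D : Finset α, Disjoint X D → ∑ L ∈ op k D, wg om Z X L ≤ 1 := by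
  induction k with
  | zero =>
    intro Z X D _
    by_cases hD : D = ∅
    · subst hD
      rw [o_empty]
      simp [wg]
    · simp [op, hD]
  | succ k ih =>
    intro Z X D hXD
    by_cases hD : D = ∅
    · subst hD
      rw [o_empty]
      simp [wg]
    · rw [o_sum k D hD]
      refine le_trans ?_ (hs Z X D hXD)
      refine Finset.sum_le_sum fun Y _ => ?_
      have h2 : ∑ L ∈ op k (D \ Y), wg om Z X (Y :: L) =
          om Z X Y * ∑ L ∈ op k (D \ Y), wg om (Z \ X) Y L := by
        rw [Finset.mul_sum]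
        rfl
      rw [h2]
      have h3 := ih (Z \ X) Y (D \ Y) disjoint_sdiff
      have h4 := h1 Z X Y
      nlinarith

theorem op_sum (om0 : Finset α → ℝ) (om : Finset α → Finset α → Finset α → ℝ)
    (h0 : ∀ X, 0 ≤ om0 X) (h1 : ∀ Z X Y, 0 ≤ om Z X Y)
    (hs0 : ∀ D : Finset α, ∑ X ∈ D.powerset.erase ∅, om0 X ≤ 1)
    (hs : ∀ Z X D : Finset α, Disjoint X D → ∑ Y ∈ D.powerset.erase ∅, om Z X Y ≤ 1)
    (Z D : Finset α) (k : ℕ) : ∑ L ∈ op k D, wl om0 om Z L ≤ 1 := by
  cases k with
  | zero =>
    by_cases hD : D = ∅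
    · subst hD
      rw [o_empty]
      simp [wl]
    · simp [op, hD]
  | succ k =>
    by_cases hD : D = ∅
    · subst hD
      rw [o_empty]
      simp [wl]
    · rw [o_sum k D hD]
      refine le_trans ?_ (hs0 D)
      refine Finset.sum_le_sum fun Y _ => ?_
      have h2 : ∑ L ∈ op k (D \ Y), wl om0 om Z (Y :: L) =
          om0 Y * ∑ L ∈ op k (D \ Y), wg om Z Y L := by
        rw [Finset.mul_sum]
        rfl
      rw [h2]
      have h3 := o_wg_sum om h1 hs k Z Y (D \ Y) disjoint_sdiff
      have h4 := h0 Y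
      nlinarith

omit [DecidableEq α] in
private lemma o_Eabs (G : Finset α → Finset α → Finset α → ℤ)
    (hG1 : ∀ Z X P, |G Z X P| ≤ 1) (Z X Y : Finset α) :
    |∑ P ∈ Y.powerset, (-1 : ℤ) ^ P.card * G Z X P| ≤ 2 ^ Y.card := by
  refine (Finset.abs_sum_le_sum_abs _ _).trans ?_
  have h1 : ∀ P ∈ Y.powerset, |(-1 : ℤ) ^ P.card * G Z X P| ≤ 1 := by
    intro P _
    rw [abs_mul, abs_pow, abs_neg, abs_one, one_pow, one_mul]
    exact hG1 Z X P
  refine (Finset.sum_le_sum h1).trans ?_
  simp

private lemma o_card (k : ℕ) (D : Finset α) (hD : D ≠ ∅) (p : List (Finset α) → Prop) :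
    (((op (k + 1) D).filter p).card : ℤ) =
      ∑ Y ∈ D.powerset.erase ∅, (((op k (D \ Y)).filter (fun L => p (Y :: L))).card : ℤ) := by
  rw [Finset.card_filter, Nat.cast_sum, o_sum k D hD]
  refine Finset.sum_congr rfl fun Y _ => ?_
  rw [Finset.card_filter, Nat.cast_sum]

private lemma o_bb {V U : Finset α → Finset α → ℤ} 
    (hV1 : ∀ Z X, |V Z X| ≤ 1) (hU : IsRow V U) (G : Finset α → Finset α → Finset α → ℤ)
    (hG1 : ∀ Z X P, |G Z X P| ≤ 1) (Z : Finset α)
    (hG : ∀ Z' X P, Z' ⊆ Z → X ⊆ Z' → P ⊆ Z' \ X → V Z' (X ∪ P) = G Z' X P * V (Z' \ X) P)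
    (k : ℕ) : ∀ Z' X D : Finset α, Z' ⊆ Z → D ⊆ Z' → X ⊆ D → (D \ X).card ≤ k →
      |bb V U Z' X D| ≤ 2 ^ (D \ X).card * (((op k (D \ X)).filter
        (admc (fun Z X Y => ∑ P ∈ Y.powerset, (-1 : ℤ) ^ P.card * G Z X P) Z' X)).card : ℤ) := by
  have hbase : ∀ (k : ℕ) (Z' X D : Finset α), X ⊆ D → D \ X = ∅ →
      |bb V U Z' X D| ≤ 2 ^ (D \ X).card * (((op k (D \ X)).filter
        (admc (fun Z X Y => ∑ P ∈ Y.powerset, (-1 : ℤ) ^ P.card * G Z X P) Z' X)).card : ℤ) := by
    intro k Z' X D hXD he
    have hXD' : X = D := Subset.antisymm hXD (sdiff_eq_empty_iff_subset.1 he)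
    rw [he, o_empty]
    have h1 : (({[]} : Finset (List (Finset α))).filter
        (admc (fun Z X Y => ∑ P ∈ Y.powerset, (-1 : ℤ) ^ P.card * G Z X P) Z' X)) = {[]} := by
      rw [Finset.filter_singleton, if_pos]
      simp [admc]
    rw [h1, hXD', lay3 hU]
    simpa using hV1 Z' D
  induction k with
  | zero =>
    intro Z' X D _ _ hXD hk
    exact hbase 0 Z' X D hXD (by rw [← Finset.card_eq_zero]; omega)
  | succ k ih =>
    intro Z' X D hZ hDZ hXD hk
    by_cases he : D \ X = ∅
    · exact hbase (k + 1) Z' X D hXD he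
    · have hne : X ≠ D := by
        rintro rfl
        simp at he
      rw [lay2 hU Z' X D hXD hne (fun P => G Z' X P)
        (fun P hP => hG Z' X P hZ (hXD.trans hDZ)
          (hP.trans (sdiff_subset_sdiff hDZ (Subset.refl _))))]
      rw [o_card k (D \ X) he, Finset.mul_sum]
      refine (Finset.abs_sum_le_sum_abs _ _).trans ?_
      refine Finset.sum_le_sum fun Y hY => ?_
      have hc := o_sdiff_lt (D \ X) Y hY
      have hYs : Y ⊆ D \ X := by
        rw [mem_erase, mem_powerset] at hY
        exact hY.2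
      have hi := ih (Z' \ X) Y (D \ X) (sdiff_subset.trans hZ)
        (sdiff_subset_sdiff hDZ (Subset.refl _)) hYs (by omega)
      rw [abs_mul]
      by_cases hE : (∑ P ∈ Y.powerset, (-1 : ℤ) ^ P.card * G Z' X P) = 0
      · rw [hE, abs_zero, zero_mul]
        positivity
      · have hE1 := o_Eabs G hG1 Z' X Y
        have hpow : (2 : ℤ) ^ (D \ X).card = 2 ^ Y.card * 2 ^ ((D \ X) \ Y).card := by
          rw [← pow_add]
          congr 1
          rw [card_sdiff_of_subset hYs]
          have := Finset.card_le_card hYs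
          omega
        have hfil : ((op k ((D \ X) \ Y)).filter (fun L =>
            admc (fun Z X Y => ∑ P ∈ Y.powerset, (-1 : ℤ) ^ P.card * G Z X P) Z' X (Y :: L))) =
            (op k ((D \ X) \ Y)).filter
              (admc (fun Z X Y => ∑ P ∈ Y.powerset, (-1 : ℤ) ^ P.card * G Z X P) (Z' \ X) Y) := by
          refine Finset.filter_congr fun L _ => ?_
          simp only [admc]
          exact ⟨fun h => h.2, fun h => ⟨hE, h⟩⟩
        rw [hfil, hpow, mul_assoc]
        exact mul_le_mul hE1 hi (abs_nonneg _) (by positivity)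

theorem op_bound {V U : Finset α → Finset α → ℤ} (hV : ∀ Z, V Z ∅ = 1)
    (hV1 : ∀ Z X, |V Z X| ≤ 1) (hU : IsRow V U) (G : Finset α → Finset α → Finset α → ℤ)
    (hG1 : ∀ Z X P, |G Z X P| ≤ 1) (Z D : Finset α) (hDZ : D ⊆ Z)
    (hG : ∀ Z' X P, Z' ⊆ Z → X ⊆ Z' → P ⊆ Z' \ X → V Z' (X ∪ P) = G Z' X P * V (Z' \ X) P)
    (om0 : Finset α → ℝ) (om : Finset α → Finset α → Finset α → ℝ)
    (h0 : ∀ X, 0 ≤ om0 X) (h1 : ∀ Z X Y, 0 ≤ om Z X Y)
    (hs0 : ∀ D : Finset α, ∑ X ∈ D.powerset.erase ∅, om0 X ≤ 1)
    (hs : ∀ Z X D : Finset α, Disjoint X D → ∑ Y ∈ D.powerset.erase ∅, om Z X Y ≤ 1)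
    (δ : ℝ) (hδ : ∀ L ∈ op D.card D,
      adml (fun Z X Y => ∑ P ∈ Y.powerset, (-1 : ℤ) ^ P.card * G Z X P) Z L →
        δ ≤ wl om0 om Z L) :
    δ * |(U Z D : ℝ)| ≤ 2 ^ D.card := by
  set E : Finset α → Finset α → Finset α → ℤ :=
    fun Z X Y => ∑ P ∈ Y.powerset, (-1 : ℤ) ^ P.card * G Z X P with hE
  have hcount : |U Z D| ≤ 2 ^ D.card * (((op D.card D).filter (adml E Z)).card : ℤ) := by
    by_cases hD : D = ∅
    · subst hD
      rw [hU.one, Finset.card_empty, o_empty]
      have h2 : (({[]} : Finset (List (Finset α))).filter (adml E Z)) = {[]} := by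
        rw [Finset.filter_singleton, if_pos]
        simp [adml]
      rw [h2]
      simp
    · obtain ⟨k, hk⟩ : ∃ k, D.card = k + 1 := ⟨D.card - 1, by
        have := Finset.card_pos.2 (Finset.nonempty_iff_ne_empty.2 hD)
        omega⟩
      rw [lay1 hV hU Z D (Finset.nonempty_iff_ne_empty.2 hD)]
      rw [hk, o_card k D hD, Finset.mul_sum]
      refine (Finset.abs_sum_le_sum_abs _ _).trans ?_
      refine Finset.sum_le_sum fun X hX => ?_
      have hc := o_sdiff_lt D X hX
      have hXs : X ⊆ D := by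
        rw [mem_erase, mem_powerset] at hX
        exact hX.2
      have hi := o_bb hV1 hU G hG1 Z hG k Z X D (Subset.refl _) hDZ hXs (by omega)
      refine hi.trans ?_
      have hfil : ((op k (D \ X)).filter (fun L => adml E Z (X :: L))) =
          (op k (D \ X)).filter (admc E Z X) := by
        refine Finset.filter_congr fun L _ => ?_
        simp only [adml]
      rw [hfil]
      refine mul_le_mul_of_nonneg_right ?_ (by positivity)
      exact pow_le_pow_right₀ (by norm_num) (by omega)
  by_cases hδ0 : δ < 0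
  · have h3 : δ * |(U Z D : ℝ)| ≤ 0 := mul_nonpos_of_nonpos_of_nonneg hδ0.le (abs_nonneg _)
    exact h3.trans (by positivity)
  · rw [not_lt] at hδ0
    have hw : ∀ L ∈ op D.card D, 0 ≤ wl om0 om Z L := by
      intro L _
      cases L with
      | nil => simp [wl]
      | cons X L =>
        rw [wl]
        exact mul_nonneg (h0 X) (o_wg_nonneg om h1 L Z X)
    have h4 : δ * (((op D.card D).filter (adml E Z)).card : ℝ) ≤ 1 := by
      have h5 : ∑ L ∈ (op D.card D).filter (adml E Z), δ ≤
          ∑ L ∈ (op D.card D).filter (adml E Z), wl om0 om Z L := by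
        refine Finset.sum_le_sum fun L hL => ?_
        rw [mem_filter] at hL
        exact hδ L hL.1 hL.2
      have h6 : ∑ L ∈ (op D.card D).filter (adml E Z), wl om0 om Z L ≤
          ∑ L ∈ op D.card D, wl om0 om Z L :=
        Finset.sum_le_sum_of_subset_of_nonneg (Finset.filter_subset _ _)
          (fun L hL _ => hw L hL)
      have h7 := op_sum om0 om h0 h1 hs0 hs Z D D.card
      rw [Finset.sum_const, nsmul_eq_mul] at h5
      linarith [h5, h6, h7, mul_comm δ (((op D.card D).filter (adml E Z)).card : ℝ)]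
    have h8 : (|(U Z D : ℝ)|) ≤ 2 ^ D.card * (((op D.card D).filter (adml E Z)).card : ℝ) := by
      have := hcount
      have h9 : ((|U Z D| : ℤ) : ℝ) ≤
          ((2 ^ D.card * (((op D.card D).filter (adml E Z)).card : ℤ) : ℤ) : ℝ) := by
        exact_mod_cast this
      rw [Int.cast_abs] at h9
      push_cast at h9
      exact h9
    calc δ * |(U Z D : ℝ)| ≤ δ * (2 ^ D.card * (((op D.card D).filter (adml E Z)).card : ℝ)) :=
          mul_le_mul_of_nonneg_left h8 hδ0
      _ = 2 ^ D.card * (δ * (((op D.card D).filter (adml E Z)).card : ℝ)) := by ring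
      _ ≤ 2 ^ D.card * 1 := mul_le_mul_of_nonneg_left h4 (by positivity)
      _ = 2 ^ D.card := mul_one _

end Pool.Agent.H68.PS
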