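import Mathlib

/-!
Module Row (pure): existence of the rows `U`.

`U` is defined by recursion on `#D`: `U Z ∅ = 1` and for `D ≠ ∅`
`U Z D = - ∑_{∅ ≠ W ⊆ D} (-1)^#W V Z W U (Z \ W) (D \ W)` (`V Z ∅ = 1`).
-/

set_option autoImplicit false

open Finset Classical

namespace Pool.Agent.H68.PS

/-- the row relations -/
structure IsRow {α : Type} [DecidableEq α] (V U : Finset α → Finset α → ℤ) : Prop where
  one : ∀ Z, U Z ∅ = 1
  rel : ∀ Z D : Finset α, D.Nonempty →
    ∑ W ∈ D.powerset, (-1 : ℤ) ^ W.card * (V Z W * U (Z \ W) (D \ W)) = 0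

private noncomputable def rwU {α : Type} [DecidableEq α] (V : Finset α → Finset α → ℤ) :
    ℕ → Finset α → Finset α → ℤ
  | 0, _, _ => 1
  | n + 1, Z, D => if D = ∅ then 1 else
      - ∑ W ∈ D.powerset.erase ∅, (-1 : ℤ) ^ W.card * (V Z W * rwU V n (Z \ W) (D \ W))

private lemma rwU_congr {α : Type} [DecidableEq α] (V : Finset α → Finset α → ℤ) (n : ℕ) :
    ∀ (m : ℕ) (Z D : Finset α), D.card ≤ n → D.card ≤ m → rwU V n Z D = rwU V m Z D := by
  induction n with
  | zero =>
    intro m Z D hn _
    have hD : D = ∅ := by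
      rw [← Finset.card_eq_zero]; omega
    subst hD
    cases m with
    | zero => rfl
    | succ m => simp [rwU]
  | succ n ih =>
    intro m Z D hn hm
    by_cases hD : D = ∅
    · subst hD
      cases m with
      | zero => simp [rwU]
      | succ m => simp [rwU]
    · cases m with
      | zero =>
        exfalso
        apply hD
        rw [← Finset.card_eq_zero]; omega
      | succ m =>
        simp only [rwU, if_neg hD]
        congr 1
        refine Finset.sum_congr rfl fun W hW => ?_
        rw [mem_erase, mem_powerset] at hW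
        have hc : (D \ W).card < D.card := by
          apply Finset.card_lt_card
          refine ⟨sdiff_subset, fun h => ?_⟩
          obtain ⟨a, ha⟩ := Finset.nonempty_iff_ne_empty.2 hW.1
          exact (mem_sdiff.1 (h (hW.2 ha))).2 ha
        rw [ih m (Z \ W) (D \ W) (by omega) (by omega)]

theorem row_exists {α : Type} [DecidableEq α] (V : Finset α → Finset α → ℤ) (hV : ∀ Z, V Z ∅ = 1) :
    ∃ U : Finset α → Finset α → ℤ, IsRow V U := by
  refine ⟨fun Z D => rwU V D.card Z D, ⟨?_, ?_⟩⟩
  · intro Z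
    simp [rwU]
  · intro Z D hD
    have h5 : ∅ ∈ D.powerset := by simp
    rw [← Finset.add_sum_erase _ _ h5]
    have hne : D ≠ ∅ := Finset.nonempty_iff_ne_empty.1 hD
    obtain ⟨n, hn⟩ : ∃ n, D.card = n + 1 := ⟨D.card - 1, by
      have := Finset.card_pos.2 hD
      omega⟩
    have h1 : rwU V D.card Z D =
        - ∑ W ∈ D.powerset.erase ∅, (-1 : ℤ) ^ W.card * (V Z W * rwU V n (Z \ W) (D \ W)) := by
      rw [hn]
      simp only [rwU, if_neg hne]
    have h2 : ∑ W ∈ D.powerset.erase ∅, (-1 : ℤ) ^ W.card *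
        (V Z W * rwU V (D \ W).card (Z \ W) (D \ W)) =
        ∑ W ∈ D.powerset.erase ∅, (-1 : ℤ) ^ W.card * (V Z W * rwU V n (Z \ W) (D \ W)) := by
      refine Finset.sum_congr rfl fun W hW => ?_
      rw [mem_erase, mem_powerset] at hW
      have hc : (D \ W).card < D.card := by
        apply Finset.card_lt_card
        refine ⟨sdiff_subset, fun h => ?_⟩
        obtain ⟨a, ha⟩ := Finset.nonempty_iff_ne_empty.2 hW.1
        exact (mem_sdiff.1 (h (hW.2 ha))).2 ha
      rw [rwU_congr V (D \ W).card n (Z \ W) (D \ W) le_rfl (by omega)]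
    simp only [Finset.card_empty, pow_zero, one_mul, sdiff_empty]
    rw [hV Z, one_mul, h2, h1]
    ring

end Pool.Agent.H68.PS
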