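import Pool.Agent.H68.PS.Def

/-!
The relation `θ(y) = y'` of section 9, with the index `i` of the step in which `y` is expensive.
-/

set_option autoImplicit false

open Finset Classical

namespace Pool.Agent.H68.PS

variable {n : ℕ}

/-- `y` is expensive in the step `i → i+1` and `y'` is its successor -/
structure Th (d1 d2 : Equiv.Perm (Fin n)) (ρ W l w1 w2 r k : ℕ) (X : ℕ → Finset (Fin n)) (i : ℕ)
    (y y' : Fin n) : Prop where
  i1 : i + 1 < k
  c2 : (X i).card ≤ w2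
  c1 : (X (i + 1)).card ≤ w1
  c3 : (X (i + 2)).card < r
  ex : y ∈ expv d1 d2 ρ W l (alv X i) (X i) (X (i + 1))
  nbr : y' ∈ nb d1 d2 ρ (alv X i) y 2
  ne : y' ≠ y
  alt : y' ∈ X (i + 1) ∨ ∃ j, i + 2 ≤ j ∧ j < k ∧ y' ∈ X j ∧
    (nb d1 d2 ρ (alv X i) y 2).erase y ⊆ alv X j

end Pool.Agent.H68.PS
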