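import Pool.Agent.H68.PS.ThDef
import Pool.Agent.H68.PS.ExpL

/-!
Module ThEx: every expensive point has a successor.

Proof. `y ∈ expt` gives the index `i` (`mem_biUnion`, the `if` must be true). `expv_spec`.
`S = (nb (alv X i) y 2).erase y ⊆ alv X i`, no point of `S` is in `X i` (`nb 2 ⊆ nb 4`), so
`S ⊆ alv X (i+1)`. The labels of the deep point `y` at `y ∈ nb .. y 6` give two points `v`, `v'` with
`d1`-ranks `rk y + al y`, `rk y - al y`, `al y ≠ 0`, `|al y| ≤ W ≤ ρ`: both are in `S` and different,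
so one of them is not `x`. If `S` meets `X (i+1)`, take `y'` there. Otherwise `S ⊆ alv X (i+2)` and
`seq_first` gives `j` and `y'`.
-/

set_option autoImplicit false

open Finset Classical

namespace Pool.Agent.H68.PS

variable {n : ℕ}

theorem th_ex {d1 d2 : Equiv.Perm (Fin n)} {ρ W l w1 w2 r : ℕ} (hρ : 2 * W + 1 ≤ ρ)
    (hl : 2 * W * (4 * ρ + 2) ^ 7 ≤ l) (hw : w1 + w2 ≤ W) {x : Fin n} {k : ℕ}
    {X : ℕ → Finset (Fin n)} (h : Seq d1 d2 x k X) (y : Fin n)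
    (hy : y ∈ expt d1 d2 ρ W l w1 w2 r k X) :
    ∃ i y', Th d1 d2 ρ W l w1 w2 r k X i y y' := by
  unfold expt at hy
  obtain ⟨i, -, hy⟩ := mem_biUnion.1 hy
  split_ifs at hy with hc
  swap
  · exact absurd hy (notMem_empty y)
  obtain ⟨hi1, hc2, hc1, hc3⟩ := hc
  obtain ⟨-, hdeep, hnoX, -⟩ := expv_spec hρ hl hw h hi1 hc2 hc1 y hy
  have hyZ : y ∈ alv X i := hdeep.1
  have hy0 : y ∈ nb d1 d2 ρ (alv X i) y 0 := mem_singleton_self y
  -- the two neighbours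
  obtain ⟨s0, hs0, hs0x⟩ : ∃ s ∈ (nb d1 d2 ρ (alv X i) y 2).erase y, s ≠ x := by
    obtain ⟨al, be, hlab⟩ := hdeep.2
    have hy6 : y ∈ nb d1 d2 ρ (alv X i) y 6 := nb_mono d1 d2 ρ hyZ (Nat.zero_le 6) hy0
    obtain ⟨v, hv, hv1, -⟩ := hlab.up y hy6
    obtain ⟨v', hv', hv1', -⟩ := hlab.dn y hy6
    have hnz := hlab.nz1 y hy6
    have hb := hlab.b1 y hy6
    have hW : (W : ℤ) ≤ (ρ : ℤ) := by
      have : W ≤ ρ := by omega
      exact_mod_cast this
    have hvS : v ∈ (nb d1 d2 ρ (alv X i) y 2).erase y := by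
      refine mem_erase.2 ⟨?_, nb_mono d1 d2 ρ hyZ (by norm_num) (nb_step d1 d2 ρ hy0 hv (Or.inl ?_))⟩
      · intro he
        rw [he] at hv1
        omega
      · rw [hv1, show rk d1 (alv X i) y + al y - rk d1 (alv X i) y = al y by ring]
        exact hb.trans hW
    have hvS' : v' ∈ (nb d1 d2 ρ (alv X i) y 2).erase y := by
      refine mem_erase.2 ⟨?_, nb_mono d1 d2 ρ hyZ (by norm_num) (nb_step d1 d2 ρ hy0 hv' (Or.inl ?_))⟩
      · intro he
        rw [he] at hv1'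
        omega
      · rw [hv1', show rk d1 (alv X i) y - al y - rk d1 (alv X i) y = -al y by ring, abs_neg]
        exact hb.trans hW
    by_cases hvx : v = x
    · refine ⟨v', hvS', fun h1 => ?_⟩
      have h2 : v = v' := hvx.trans h1.symm
      rw [h2, hv1'] at hv1
      omega
    · exact ⟨v, hvS, hvx⟩
  have hS1 : (nb d1 d2 ρ (alv X i) y 2).erase y ⊆ alv X (i + 1) := by
    intro s hs
    have hs2 : s ∈ nb d1 d2 ρ (alv X i) y 2 := (mem_erase.1 hs).2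
    rw [alv_succ, mem_sdiff]
    exact ⟨nb_sub d1 d2 ρ hyZ 2 hs2, fun hX => hnoX s hX (nb_mono d1 d2 ρ hyZ (by norm_num) hs2)⟩
  by_cases hm : ∃ s ∈ (nb d1 d2 ρ (alv X i) y 2).erase y, s ∈ X (i + 1)
  · obtain ⟨s, hs, hsX⟩ := hm
    exact ⟨i, s, hi1, hc2, hc1, hc3, hy, (mem_erase.1 hs).2, (mem_erase.1 hs).1, Or.inl hsX⟩
  · have hS2 : (nb d1 d2 ρ (alv X i) y 2).erase y ⊆ alv X (i + 2) := by
      intro s hs
      rw [show i + 2 = i + 1 + 1 from rfl, alv_succ, mem_sdiff]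
      exact ⟨hS1 hs, fun hX => hm ⟨s, hs, hX⟩⟩
    obtain ⟨j, hj, hjk, ⟨s, hs, hsX⟩, hsub⟩ := seq_first h _ hS2 hs0 hs0x
    exact ⟨i, s, hi1, hc2, hc1, hc3, hy, (mem_erase.1 hs).2, (mem_erase.1 hs).1,
      Or.inr ⟨j, hj, hjk, hsX, hsub⟩⟩

end Pool.Agent.H68.PS
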