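import Pool.Agent.H68.PS.WinPt

/-!
Module WinA: the facts `inj, f1, f1', f2` of `Facts` for the window of `y` in `T`.

`v k = rk d2 T (pt k) - rk d2 T y`.  Take `σ = 1` if `al y > 0`, `σ = -1` if `al y < 0`,
`a = σ * al y`, `be0 k = σ * be (pt k)`.  `f1`: `pt k ∈ N_1(y)`, `al (pt k) = al y`; the point
`up` (if `σ = 1`) or `dn` (if `σ = -1`) of `pt k` has `d1`-rank `rk y + (k + a)`, so it is
`pt (k + a)` (`rk_inj`), and `d2`-rank `rk d2 (pt k) + σ be (pt k)`.  The other point of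
`pt (k + a)` (`dn`, or `up`) is `pt k`, so `be (pt (k+a)) = be (pt k)`.  `f2`: `win_be`.
-/

set_option autoImplicit false

open Finset Classical

namespace Pool.Agent.H68.PS

variable {n : ℕ}

theorem win_a {d1 d2 : Equiv.Perm (Fin n)} {ρ W : ℕ} (hWρ : W ≤ ρ) {T : Finset (Fin n)}
    {y : Fin n} (hy : y ∈ T) {al be : Fin n → ℤ} (hl : Lab d1 d2 W T (nb d1 d2 ρ T y 2) al be)
    (v : ℤ → ℤ) (hv : ∀ k, v k = rk d2 T (pt d1 T y k) - rk d2 T y) :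
    ∃ (a : ℤ) (be0 : ℤ → ℤ), 1 ≤ a ∧ a ≤ W ∧ v 0 = 0 ∧
      (∀ k l, |k| ≤ (ρ : ℤ) → |l| ≤ (ρ : ℤ) → v k = v l → k = l) ∧
      (∀ k, |k| ≤ (ρ : ℤ) → |k + a| ≤ (ρ : ℤ) → v (k + a) = v k + be0 k ∧ be0 (k + a) = be0 k) ∧
      (∀ k, |k| ≤ (ρ : ℤ) → be0 k ≠ 0 ∧ |be0 k| ≤ W) ∧
      (∀ k l, |k| ≤ (ρ : ℤ) → |l| ≤ (ρ : ℤ) → |v k - v l| ≤ (ρ : ℤ) → be0 k = be0 l) := by
  have hW := fun k hk => win_pt hWρ hy hl k hk
  have hmono : nb d1 d2 ρ T y 1 ⊆ nb d1 d2 ρ T y 2 := nb_mono d1 d2 ρ hy (by norm_num)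
  have hy2 : y ∈ nb d1 d2 ρ T y 2 :=
    nb_mono d1 d2 ρ hy (show 0 ≤ 2 by norm_num) (mem_singleton_self y)
  have hal0 := hl.nz1 y hy2
  have halW := hl.b1 y hy2
  have hinj : ∀ k w, |k| ≤ (ρ : ℤ) → w ∈ T → rk d1 T w = rk d1 T y + k → w = pt d1 T y k :=
    fun k w hk hw h => rk_inj d1 T hw (hW k hk).1 (by rw [h, (hW k hk).2.1])
  have hup : ∀ k, |k| ≤ (ρ : ℤ) → |k + al y| ≤ (ρ : ℤ) →
      rk d2 T (pt d1 T y (k + al y)) = rk d2 T (pt d1 T y k) + be (pt d1 T y k) := by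
    intro k hk hk'
    obtain ⟨w, hw, h1, h2⟩ := hl.up _ (hmono (hW k hk).2.2.1)
    rw [(hW k hk).2.2.2, (hW k hk).2.1] at h1
    rw [← hinj (k + al y) w hk' hw (by rw [h1]; ring)]
    exact h2
  have hdn : ∀ k, |k| ≤ (ρ : ℤ) → |k - al y| ≤ (ρ : ℤ) →
      rk d2 T (pt d1 T y (k - al y)) = rk d2 T (pt d1 T y k) - be (pt d1 T y k) := by
    intro k hk hk'
    obtain ⟨w, hw, h1, h2⟩ := hl.dn _ (hmono (hW k hk).2.2.1)
    rw [(hW k hk).2.2.2, (hW k hk).2.1] at h1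
    rw [← hinj (k - al y) w hk' hw (by rw [h1]; ring)]
    exact h2
  have hv0 : v 0 = 0 := by rw [hv, pt_zero d1 T hy, sub_self]
  have hvi : ∀ k l, |k| ≤ (ρ : ℤ) → |l| ≤ (ρ : ℤ) → v k = v l → k = l := by
    intro k l hk hl' h
    rw [hv, hv] at h
    have h1 := rk_inj d2 T (hW k hk).1 (hW l hl').1 (by linarith)
    have h2 := (hW k hk).2.1
    rw [h1, (hW l hl').2.1] at h2
    linarith
  have hbe : ∀ k l, |k| ≤ (ρ : ℤ) → |l| ≤ (ρ : ℤ) → |v k - v l| ≤ (ρ : ℤ) →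
      be (pt d1 T y k) = be (pt d1 T y l) := by
    intro k l hk hl' h
    rw [hv, hv] at h
    refine (win_be (c := 1) hy hl (hW l hl').2.2.1 (hW k hk).1 ?_).symm
    rwa [sub_sub_sub_cancel_right] at h
  rcases lt_or_gt_of_ne hal0 with hneg | hpos
  · refine ⟨-al y, fun k => -be (pt d1 T y k), by omega, by rw [abs_le] at halW; omega, hv0, hvi, ?_, ?_, ?_⟩
    · intro k hk hk'
      have e : k + -al y = k - al y := by ring
      rw [e] at hk' ⊢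
      have h1 := hdn k hk hk'
      have h2 := hup (k - al y) hk' (by rw [sub_add_cancel]; exact hk)
      rw [sub_add_cancel] at h2
      refine ⟨?_, ?_⟩
      · rw [hv, hv, h1]
        ring
      · linarith
    · intro k hk
      have h1 := hl.nz2 _ (hmono (hW k hk).2.2.1)
      have h2 := hl.b2 _ (hmono (hW k hk).2.2.1)
      exact ⟨neg_ne_zero.2 h1, by rw [abs_neg]; exact h2⟩
    · intro k l hk hl' h
      exact congrArg Neg.neg (hbe k l hk hl' h)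
  · refine ⟨al y, fun k => be (pt d1 T y k), by omega, by rw [abs_le] at halW; omega, hv0, hvi, ?_, ?_, hbe⟩
    · intro k hk hk'
      have h1 := hup k hk hk'
      have h2 := hdn (k + al y) hk' (by rw [add_sub_cancel_right]; exact hk)
      rw [add_sub_cancel_right] at h2
      refine ⟨?_, ?_⟩
      · rw [hv, hv, h1]
        ring
      · linarith
    · intro k hk
      exact ⟨hl.nz2 _ (hmono (hW k hk).2.2.1), hl.b2 _ (hmono (hW k hk).2.2.1)⟩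

end Pool.Agent.H68.PS
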