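import Pool.Agent.H68.PS.NbL

/-!
Module WinPt: the window of positions around a point with labels.

Proof of `win_pt`. Let `a = al y`.  First `y ∈ N_1(y)`; by induction on `j` with `|j a| ≤ ρ` there is
a point `q_j` of `T` of rank `rk y + j a`, it is in `N_1(y)`, and `al q_j = a` (path in `N_1(y)` of
adjacent points: `rk_path`, `rk_btw`, `c1`); the next point `q_{j+1}` exists by `up` (`dn`) also if
`|(j+1) a| > ρ`. So the ranks `rk y + ρ` and `rk y - ρ` are between ranks of points of `T`: use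
`rk_btw`.  Then `al = a` on the window by `rk_path`.
-/

set_option autoImplicit false

open Finset Classical

namespace Pool.Agent.H68.PS

variable {n : ℕ}

/-- the point of `T` with rank `rk y + k` (or `y`) -/
noncomputable def pt (d : Equiv.Perm (Fin n)) (T : Finset (Fin n)) (y : Fin n) (k : ℤ) : Fin n :=
  if h : ∃ z ∈ T, rk d T z = rk d T y + k then h.choose else y

theorem pt_zero (d : Equiv.Perm (Fin n)) (T : Finset (Fin n)) {y : Fin n} (hy : y ∈ T) :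
    pt d T y 0 = y := by
  have h : ∃ z ∈ T, rk d T z = rk d T y + 0 := ⟨y, hy, by ring⟩
  unfold pt
  rw [dif_pos h]
  have h1 := h.choose_spec
  exact rk_inj d T h1.1 hy (by rw [h1.2]; ring)

private theorem mem_T {d1 d2 : Equiv.Perm (Fin n)} {ρ : ℕ} {T : Finset (Fin n)}
    {y : Fin n} (hy : y ∈ T) {c : ℕ} {u : Fin n} (hu : u ∈ nb d1 d2 ρ T y c) : u ∈ T :=
  nb_sub d1 d2 ρ hy c hu

private theorem mem_zero (d1 d2 : Equiv.Perm (Fin n)) (ρ : ℕ) {T : Finset (Fin n)}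
    {y : Fin n} (hy : y ∈ T) (c : ℕ) : y ∈ nb d1 d2 ρ T y c :=
  nb_mono d1 d2 ρ hy (Nat.zero_le c) (by simp [nb])

private theorem between {u v w w' : ℤ} {r : ℤ} (huv : |v - u| ≤ r) (h1 : min u v ≤ w)
    (h2 : w' ≤ max u v) (h3 : w' = w + 1) : |w - u| ≤ r ∧ |w' - u| ≤ r := by
  have h4 := abs_le.1 huv
  constructor <;> rw [abs_le] <;>
    rcases le_total u v with h | h <;>
    (first
      | rw [min_eq_left h] at h1
      | rw [min_eq_right h] at h1) <;>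
    (first
      | rw [max_eq_right h] at h2
      | rw [max_eq_left h] at h2) <;>
    constructor <;> omega

/-- labels near in value agree -/
private theorem win_be' {d1 d2 : Equiv.Perm (Fin n)} {ρ W : ℕ} {T : Finset (Fin n)} {y : Fin n}
    (hy : y ∈ T) {c : ℕ} {al be : Fin n → ℤ} (hl : Lab d1 d2 W T (nb d1 d2 ρ T y (c + 1)) al be)
    {u v : Fin n} (hu : u ∈ nb d1 d2 ρ T y c) (hv : v ∈ T)
    (huv : |rk d2 T v - rk d2 T u| ≤ (ρ : ℤ)) : be u = be v := by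
  refine rk_path d2 T be (mem_T hy hu) hv fun w hw w' hw' h1 h2 h3 => ?_
  have h4 := between huv h1 h2 h3
  exact hl.c2 w (nb_step d1 d2 ρ hu hw (Or.inr h4.1)) w' (nb_step d1 d2 ρ hu hw' (Or.inr h4.2)) h3

/-- labels near in position agree -/
private theorem win_al' {d1 d2 : Equiv.Perm (Fin n)} {ρ W : ℕ} {T : Finset (Fin n)} {y : Fin n}
    (hy : y ∈ T) {c : ℕ} {al be : Fin n → ℤ} (hl : Lab d1 d2 W T (nb d1 d2 ρ T y (c + 1)) al be)
    {u v : Fin n} (hu : u ∈ nb d1 d2 ρ T y c) (hv : v ∈ T)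
    (huv : |rk d1 T v - rk d1 T u| ≤ (ρ : ℤ)) : al u = al v := by
  refine rk_path d1 T al (mem_T hy hu) hv fun w hw w' hw' h1 h2 h3 => ?_
  have h4 := between huv h1 h2 h3
  exact hl.c1 w (nb_step d1 d2 ρ hu hw (Or.inl h4.1)) w' (nb_step d1 d2 ρ hu hw' (Or.inl h4.2)) h3

private theorem pts {d1 d2 : Equiv.Perm (Fin n)} {ρ W : ℕ} {T : Finset (Fin n)}
    {y : Fin n} (hy : y ∈ T) {al be : Fin n → ℤ} (hl : Lab d1 d2 W T (nb d1 d2 ρ T y 2) al be)
    (j : ℕ) : (j : ℤ) * |al y| ≤ (ρ : ℤ) + |al y| →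
      (∃ q ∈ T, rk d1 T q = rk d1 T y + j * al y) ∧
      (∃ q ∈ T, rk d1 T q = rk d1 T y - j * al y) := by
  induction j with
  | zero =>
    intro _
    exact ⟨⟨y, hy, by simp⟩, ⟨y, hy, by simp⟩⟩
  | succ j ih =>
    intro hj
    push_cast at hj
    have hj1 : (j : ℤ) * |al y| ≤ (ρ : ℤ) := by nlinarith
    have hj2 : |(j : ℤ) * al y| ≤ (ρ : ℤ) := by
      rw [abs_mul, abs_of_nonneg (Int.natCast_nonneg j)]
      exact hj1
    have hy1 : y ∈ nb d1 d2 ρ T y 1 := mem_zero d1 d2 ρ hy 1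
    obtain ⟨⟨q, hq, hq1⟩, ⟨q', hq', hq1'⟩⟩ := ih (by have := abs_nonneg (al y); linarith)
    have e1 : |rk d1 T q - rk d1 T y| ≤ (ρ : ℤ) := by
      rw [hq1, add_sub_cancel_left]
      exact hj2
    have e2 : |rk d1 T q' - rk d1 T y| ≤ (ρ : ℤ) := by
      rw [hq1', show rk d1 T y - (j : ℤ) * al y - rk d1 T y = -((j : ℤ) * al y) by ring, abs_neg]
      exact hj2
    have a1 : al y = al q := win_al' hy hl hy1 hq e1
    have a2 : al y = al q' := win_al' hy hl hy1 hq' e2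
    have m1 : q ∈ nb d1 d2 ρ T y 2 := nb_step d1 d2 ρ hy1 hq (Or.inl e1)
    have m2 : q' ∈ nb d1 d2 ρ T y 2 := nb_step d1 d2 ρ hy1 hq' (Or.inl e2)
    obtain ⟨v, hv, hv1, -⟩ := hl.up q m1
    obtain ⟨v', hv', hv1', -⟩ := hl.dn q' m2
    refine ⟨⟨v, hv, ?_⟩, ⟨v', hv', ?_⟩⟩
    · rw [hv1, hq1, ← a1]
      push_cast
      ring
    · rw [hv1', hq1', ← a2]
      push_cast
      ring

private theorem pt_ex {d1 d2 : Equiv.Perm (Fin n)} {ρ W : ℕ} {T : Finset (Fin n)}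
    {y : Fin n} (hy : y ∈ T) {al be : Fin n → ℤ} (hl : Lab d1 d2 W T (nb d1 d2 ρ T y 2) al be)
    (k : ℤ) (hk : |k| ≤ (ρ : ℤ)) : ∃ z ∈ T, rk d1 T z = rk d1 T y + k := by
  have hy2 : y ∈ nb d1 d2 ρ T y 2 := mem_zero d1 d2 ρ hy 2
  have ha : al y ≠ 0 := hl.nz1 y hy2
  have hpos : 0 < |al y| := abs_pos.2 ha
  have hpos' : 0 < (al y).natAbs := Int.natAbs_pos.2 ha
  have hab : ((al y).natAbs : ℤ) = |al y| := Int.natCast_natAbs (al y)
  have h1 : ((ρ / (al y).natAbs + 1 : ℕ) : ℤ) * |al y| ≤ (ρ : ℤ) + |al y| := by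
    rw [← hab]
    have := Nat.div_mul_le_self ρ (al y).natAbs
    have h2 : (ρ / (al y).natAbs + 1) * (al y).natAbs ≤ ρ + (al y).natAbs := by
      rw [Nat.add_mul, Nat.one_mul]
      omega
    exact_mod_cast h2
  have h2 : (ρ : ℤ) ≤ ((ρ / (al y).natAbs + 1 : ℕ) : ℤ) * |al y| := by
    rw [← hab]
    have := Nat.lt_div_mul_add (a := ρ) hpos'
    have h3 : ρ ≤ (ρ / (al y).natAbs + 1) * (al y).natAbs := by
      rw [Nat.add_mul, Nat.one_mul]
      omega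
    exact_mod_cast h3
  obtain ⟨⟨q, hq, hq1⟩, ⟨q', hq', hq1'⟩⟩ := pts hy hl _ h1
  set j : ℤ := ((ρ / (al y).natAbs + 1 : ℕ) : ℤ) with hj
  have hk' := abs_le.1 hk
  rcases abs_choice (al y) with h | h
  · rw [h] at h2
    exact rk_btw d1 T hq' hq (rk d1 T y + k) (by omega) (by omega)
  · rw [h] at h2
    have h3 : j * -al y = -(j * al y) := by ring
    rw [h3] at h2
    exact rk_btw d1 T hq hq' (rk d1 T y + k) (by omega) (by omega)

theorem win_pt {d1 d2 : Equiv.Perm (Fin n)} {ρ W : ℕ} (hWρ : W ≤ ρ) {T : Finset (Fin n)}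
    {y : Fin n} (hy : y ∈ T) {al be : Fin n → ℤ} (hl : Lab d1 d2 W T (nb d1 d2 ρ T y 2) al be)
    (k : ℤ) (hk : |k| ≤ (ρ : ℤ)) :
    pt d1 T y k ∈ T ∧ rk d1 T (pt d1 T y k) = rk d1 T y + k ∧ pt d1 T y k ∈ nb d1 d2 ρ T y 1 ∧
      al (pt d1 T y k) = al y := by
  have h : ∃ z ∈ T, rk d1 T z = rk d1 T y + k := pt_ex hy hl k hk
  have hs : pt d1 T y k ∈ T ∧ rk d1 T (pt d1 T y k) = rk d1 T y + k := by
    unfold pt
    rw [dif_pos h]
    exact h.choose_spec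
  have e1 : |rk d1 T (pt d1 T y k) - rk d1 T y| ≤ (ρ : ℤ) := by
    rw [hs.2, add_sub_cancel_left]
    exact hk
  refine ⟨hs.1, hs.2, nb_step d1 d2 ρ (mem_zero d1 d2 ρ hy 0) hs.1 (Or.inl e1), ?_⟩
  exact (win_al' hy hl (mem_zero d1 d2 ρ hy 1) hs.1 e1).symm

/-- labels near in value agree -/
theorem win_be {d1 d2 : Equiv.Perm (Fin n)} {ρ W : ℕ} {T : Finset (Fin n)} {y : Fin n}
    (hy : y ∈ T) {c : ℕ} {al be : Fin n → ℤ} (hl : Lab d1 d2 W T (nb d1 d2 ρ T y (c + 1)) al be)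
    {u v : Fin n} (hu : u ∈ nb d1 d2 ρ T y c) (hv : v ∈ T)
    (huv : |rk d2 T v - rk d2 T u| ≤ (ρ : ℤ)) : be u = be v :=
  win_be' hy hl hu hv huv

/-- labels near in position agree -/
theorem win_al {d1 d2 : Equiv.Perm (Fin n)} {ρ W : ℕ} {T : Finset (Fin n)} {y : Fin n}
    (hy : y ∈ T) {c : ℕ} {al be : Fin n → ℤ} (hl : Lab d1 d2 W T (nb d1 d2 ρ T y (c + 1)) al be)
    {u v : Fin n} (hu : u ∈ nb d1 d2 ρ T y c) (hv : v ∈ T)
    (huv : |rk d1 T v - rk d1 T u| ≤ (ρ : ℤ)) : al u = al v :=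
  win_al' hy hl hu hv huv

end Pool.Agent.H68.PS
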